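import Mathlib

/-!
# Orbits and indices; eigenvalues of powers
-/

set_option autoImplicit false
set_option linter.unusedSectionVars false

namespace Pool.Agent.Q227.CD

open MulAction

/-- if all stabilizers of an action on a finite set are contained in a subgroup, the index of the
subgroup divides the number of elements -/
theorem index_dvd_card {P X : Type*} [Group P] [MulAction P X] [Finite X] (P' : Subgroup P)
    (h : ∀ x : X, stabilizer P x ≤ P') : P'.index ∣ Nat.card X := by
  classical
  haveI := Fintype.ofFinite X
  rw [Nat.card_congr (selfEquivSigmaOrbits P X), Nat.card_sigma]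
  refine Finset.dvd_sum fun ω _ => ?_
  have h1 : Nat.card (orbit P ω.out) = (stabilizer P ω.out).index := by
    rw [index_stabilizer, Set.ncard]
    rfl
  rw [h1]
  exact Subgroup.index_dvd_of_le (h _)

open Polynomial

variable {k : Type*} [Field k] [IsAlgClosed k]

theorem det_aeval {n : ℕ} (A : Matrix (Fin n) (Fin n) k) (q : k[X]) :
    (aeval A q).det = (A.charpoly.roots.map fun x => q.eval x).prod := by
  have hA : A.charpoly = (A.charpoly.roots.map fun x => X - C x).prod :=
    (IsAlgClosed.splits A.charpoly).eq_prod_roots_of_monic A.charpoly_monic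
  have hcard : Multiset.card A.charpoly.roots = n := by
    rw [splits_iff_card_roots.mp (IsAlgClosed.splits A.charpoly),
      Matrix.charpoly_natDegree_eq_dim, Fintype.card_fin]
  have hsplit := IsAlgClosed.splits q
  have hlin : ∀ a : k, (aeval A (X - C a)).det =
      (A.charpoly.roots.map fun x => (X - C a).eval x).prod := by
    intro a
    have h1 : aeval A (X - C a) = -(Matrix.scalar (Fin n) a - A) := by
      rw [map_sub, aeval_X, aeval_C]
      simp [Algebra.algebraMap_eq_smul_one, Matrix.smul_one_eq_diagonal]
    rw [h1, Matrix.det_neg, Fintype.card_fin, ← Matrix.eval_charpoly]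
    conv_lhs => rw [hA]
    rw [eval_multiset_prod, Multiset.map_map]
    have h2 : ((-1 : k)) ^ n = (A.charpoly.roots.map fun _ => (-1 : k)).prod := by
      rw [Multiset.map_const', Multiset.prod_replicate, hcard]
    rw [h2, ← Multiset.prod_map_mul]
    congr 1
    refine Multiset.map_congr rfl fun x _ => ?_
    simp
  have hconst : ∀ c : k, (aeval A (C c)).det =
      (A.charpoly.roots.map fun x => (C c).eval x).prod := by
    intro c
    rw [aeval_C, Algebra.algebraMap_eq_smul_one, Matrix.det_smul, Matrix.det_one]
    simp [hcard]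
  have hmul : ∀ p r : k[X], (aeval A p).det = (A.charpoly.roots.map fun x => p.eval x).prod →
      (aeval A r).det = (A.charpoly.roots.map fun x => r.eval x).prod →
      (aeval A (p * r)).det = (A.charpoly.roots.map fun x => (p * r).eval x).prod := by
    intro p r hp hr
    rw [map_mul, Matrix.det_mul, hp, hr, ← Multiset.prod_map_mul]
    congr 1
    refine Multiset.map_congr rfl fun x _ => ?_
    rw [eval_mul]
  rw [hsplit.eq_prod_roots]
  refine hmul _ _ (hconst _) ?_
  induction q.roots using Multiset.induction_on with
  | empty => simp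
  | cons a s ih =>
    rw [Multiset.map_cons, Multiset.prod_cons]
    exact hmul _ _ (hlin a) ih

theorem charpoly_pow {n : ℕ} (A : Matrix (Fin n) (Fin n) k) (m : ℕ) :
    (A ^ m).charpoly = (A.charpoly.roots.map fun x => X - C (x ^ m)).prod := by
  refine Polynomial.funext fun z => ?_
  rw [Matrix.eval_charpoly, eval_multiset_prod, Multiset.map_map]
  have h1 : Matrix.scalar (Fin n) z - A ^ m = aeval A (C z - X ^ m) := by
    rw [map_sub, aeval_C, map_pow, aeval_X]
    simp [Algebra.algebraMap_eq_smul_one, Matrix.smul_one_eq_diagonal]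
  rw [h1, det_aeval A]
  congr 1
  refine Multiset.map_congr rfl fun x _ => ?_
  simp

/-- the eigenvalues of a power -/
theorem roots_pow {n : ℕ} (T : (Fin n → k) →ₗ[k] (Fin n → k)) (m : ℕ) :
    (T ^ m).charpoly.roots = T.charpoly.roots.map fun x => x ^ m := by
  have h1 : ∀ S : (Fin n → k) →ₗ[k] (Fin n → k), S.charpoly = (LinearMap.toMatrix' S).charpoly :=
    fun S => (LinearMap.charpoly_toMatrix S (Pi.basisFun k (Fin n))).symm
  rw [h1, h1, show LinearMap.toMatrix' (T ^ m) = LinearMap.toMatrix' T ^ m from
    map_pow LinearMap.toMatrixAlgEquiv' T m, charpoly_pow]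
  have h2 : ((LinearMap.toMatrix' T).charpoly.roots.map fun x => X - C (x ^ m)) =
      (((LinearMap.toMatrix' T).charpoly.roots.map fun x => x ^ m).map fun a => X - C a) := by
    rw [Multiset.map_map]
    rfl
  rw [h2, roots_multiset_prod_X_sub_C]

end Pool.Agent.Q227.CD
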