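import Pool.Agent.Q227.CD.NT2

/-!
# Comparison of multisets with the same powers
-/

set_option autoImplicit false
set_option linter.unusedSectionVars false

namespace Pool.Agent.Q227.CD

open Representation Module Pool.Agent.Q15.GR

variable {k : Type} [Field k]

/-- an element of finite order whose order has no prime divisor other than the characteristic is
trivial -/
theorem eq_one_of_order (p : ℕ) [ExpChar k p] (z : k) {m : ℕ} (hm : 0 < m) (hz : z ^ m = 1)
    (h : ∀ r : ℕ, r.Prime → r ≠ p → ¬ r ∣ orderOf z) : z = 1 := by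
  have h0 : orderOf z ≠ 0 := by
    intro h0
    have h1 : orderOf z ∣ m := orderOf_dvd_of_pow_eq_one hz
    rw [h0, zero_dvd_iff] at h1
    omega
  have hcase : p = 1 ∨ p.Prime := by
    rcases ‹ExpChar k p› with _ | hp
    · left; rfl
    · right; exact hp
  rcases hcase with hp1 | hpp
  · rw [← orderOf_eq_one_iff]
    by_contra hne
    obtain ⟨q, hq, hqd⟩ := Nat.exists_prime_and_dvd hne
    exact h q hq (by rw [hp1]; exact hq.one_lt.ne') hqd
  · have h3 : orderOf z = p ^ (orderOf z).primeFactorsList.length :=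
      Nat.eq_prime_pow_of_unique_prime_dvd h0 (fun {q} hq hqd => by
        by_contra hne
        exact h q hq hne hqd)
    have h4 : z ^ p ^ (orderOf z).primeFactorsList.length = 1 := by
      rw [← h3]
      exact pow_orderOf_eq_one _
    apply iterateFrobenius_inj k p (orderOf z).primeFactorsList.length
    rw [iterateFrobenius_def, iterateFrobenius_def, h4, one_pow]

/-- elements whose order is a power of a prime number `q` and divides a number prime to `q` -/
theorem eq_one_of_coprime {q d e : ℕ} (hq : q.Prime) (hd : ¬ q ∣ d) (z : k)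
    (h1 : z ^ q ^ e = 1) (h2 : z ^ d = 1) : z = 1 := by
  have h3 : orderOf z ∣ q ^ e := orderOf_dvd_of_pow_eq_one h1
  have h4 : orderOf z ∣ d := orderOf_dvd_of_pow_eq_one h2
  have h5 : Nat.Coprime (q ^ e) d := Nat.Coprime.pow_left _ ((Nat.Prime.coprime_iff_not_dvd hq).2 hd)
  rw [← orderOf_eq_one_iff]
  exact Nat.eq_one_of_dvd_coprimes h5 h3 h4

/-- two elements of prime power orders for different prime numbers -/
theorem no_mixed {q q' r a c e : ℕ} (hq : q.Prime) (hq' : q'.Prime) (hr : r.Prime) (hne : q ≠ q')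
    {u w : k} (hw0 : w ≠ 0) (hu : u ^ q ^ a = 1) (hw : w ^ q' ^ c = 1) (hu1 : u ≠ 1) (hw1 : w ≠ 1)
    (h : (u / w) ^ r ^ e = 1) : False := by
  have h1 : u ^ r ^ e = w ^ r ^ e := by
    rw [div_pow] at h
    exact (div_eq_one_iff_eq (pow_ne_zero _ hw0)).1 h
  -- one of the primes differs from `r`
  by_cases hqr : q = r
  · subst hqr
    -- `w ^ (q ^ e)` has order prime to `q`
    have h2 : (w ^ q ^ e) ^ q ^ a = 1 := by
      rw [← h1, ← pow_mul, mul_comm, pow_mul, hu, one_pow]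
    apply hw1
    refine eq_one_of_coprime (q := q) (d := q' ^ c) (e := e + a) hq ?_ w ?_ hw
    · intro h3
      exact hne ((Nat.prime_dvd_prime_iff_eq hq hq').1 (hq.dvd_of_dvd_pow h3))
    · rw [pow_add, pow_mul]
      exact h2
  · -- `u ^ (r ^ e) = w ^ (r ^ e)` is killed by `q ^ a` and `q' ^ c`
    have h2 : (u ^ r ^ e) ^ q ^ a = 1 := by rw [← pow_mul, mul_comm, pow_mul, hu, one_pow]
    have h3 : (u ^ r ^ e) ^ q' ^ c = 1 := by rw [h1, ← pow_mul, mul_comm, pow_mul, hw, one_pow]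
    have h4 : u ^ r ^ e = 1 := eq_one_of_coprime (q := q) (d := q' ^ c) hq (fun h5 =>
      hne ((Nat.prime_dvd_prime_iff_eq hq hq').1 (hq.dvd_of_dvd_pow h5))) _ h2 h3
    apply hu1
    exact eq_one_of_coprime (q := q) (d := r ^ e) hq (fun h5 =>
      hqr ((Nat.prime_dvd_prime_iff_eq hq hr).1 (hq.dvd_of_dvd_pow h5))) u hu h4

/-- comparison of two multisets with the same powers -/
theorem multiset_eq' (p : ℕ) [ExpChar k p] (A B : Multiset k) (m : ℕ) (hm : 0 < m)
    (hB0 : (0 : k) ∉ B)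
    (hrat : ∀ x ∈ B, ∀ y ∈ B, x ^ m = y ^ m → ∃ q e : ℕ, q.Prime ∧ x ^ q ^ e = y ^ q ^ e)
    (h : ∀ q : ℕ, q.Prime → q ≠ p → ∃ d, 0 < d ∧ d ∣ m ∧ ¬ q ∣ d ∧
      (A.map fun x => x ^ d) = B.map fun x => x ^ d) : A = B := by
  classical
  have hne0 : ∀ b ∈ B, b ≠ 0 := fun b hb h0 => hB0 (h0 ▸ hb)
  have hex : ∃ q : ℕ, q.Prime ∧ q ≠ p := by
    by_cases h2 : p = 2
    · exact ⟨3, Nat.prime_three, by omega⟩
    · exact ⟨2, Nat.prime_two, fun h => h2 h.symm⟩
  have hpart : ∀ d, (A.map fun x => x ^ d) = (B.map fun x => x ^ d) → ∀ a ∈ A,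
      ∃ b ∈ B, b ^ d = a ^ d := by
    intro d hd a ha
    have h1 : a ^ d ∈ A.map fun x => x ^ d := Multiset.mem_map_of_mem _ ha
    rw [hd, Multiset.mem_map] at h1
    exact h1
  have hlift : ∀ {x y : k} {d : ℕ}, d ∣ m → x ^ d = y ^ d → x ^ m = y ^ m := by
    rintro x y d ⟨c, hc⟩ hxy
    rw [hc, pow_mul, pow_mul, hxy]
  -- the prime number of a class
  have hclass : ∀ b ∈ B, ∃ q : ℕ, q.Prime ∧ ∀ y ∈ B, y ^ m = b ^ m → ∃ e : ℕ,
      (y / b) ^ q ^ e = 1 := by
    intro b hb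
    have hdiv : ∀ y ∈ B, y ^ m = b ^ m → ∃ q e : ℕ, q.Prime ∧ (y / b) ^ q ^ e = 1 := by
      intro y hy hyb
      obtain ⟨q, e, hq, hqe⟩ := hrat y hy b hb hyb
      exact ⟨q, e, hq, by rw [div_pow, hqe, div_self (pow_ne_zero _ (hne0 b hb))]⟩
    by_cases htriv : ∀ y ∈ B, y ^ m = b ^ m → y = b
    · refine ⟨2, Nat.prime_two, fun y hy hyb => ⟨0, ?_⟩⟩
      rw [htriv y hy hyb, div_self (hne0 b hb), one_pow]
    · push Not at htriv
      obtain ⟨x, hx, hxb, hxne⟩ := htriv
      obtain ⟨q, a, hq, hqa⟩ := hdiv x hx hxb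
      refine ⟨q, hq, fun y hy hyb => ?_⟩
      obtain ⟨q', c, hq', hqc⟩ := hdiv y hy hyb
      by_cases hqq : q = q'
      · subst hqq
        exact ⟨c, hqc⟩
      · by_cases hyb1 : y = b
        · refine ⟨0, ?_⟩
          rw [hyb1, div_self (hne0 b hb), one_pow]
        · exfalso
          obtain ⟨r, e, hr, hre⟩ := hrat x hx y hy (hxb.trans hyb.symm)
          have hb0 := hne0 b hb
          have hy0 := hne0 y hy
          refine no_mixed hq hq' hr hqq (u := x / b) (w := y / b) (div_ne_zero hy0 hb0) hqa hqc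
            ?_ ?_ (e := e) ?_
          · intro h1
            exact hxne ((div_eq_one_iff_eq hb0).1 h1)
          · intro h1
            exact hyb1 ((div_eq_one_iff_eq hb0).1 h1)
          · rw [div_div_div_cancel_right₀ hb0, div_pow, hre, div_self (pow_ne_zero _ hy0)]
  -- a number `d` for a prime number `q`, which may be the characteristic
  have hd' : ∀ q : ℕ, q.Prime → ∃ d, 0 < d ∧ d ∣ m ∧ (q ≠ p → ¬ q ∣ d) ∧
      (A.map fun x => x ^ d) = B.map fun x => x ^ d := by
    intro q hq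
    by_cases hqp : q = p
    · obtain ⟨q₀, hq₀, hq₀p⟩ := hex
      obtain ⟨d, h1, h2, -, h4⟩ := h q₀ hq₀ hq₀p
      exact ⟨d, h1, h2, fun h5 => absurd hqp h5, h4⟩
    · obtain ⟨d, h1, h2, h3, h4⟩ := h q hq hqp
      exact ⟨d, h1, h2, fun _ => h3, h4⟩
  -- powers of the characteristic are harmless
  have hpinj : ∀ e : ℕ, ∀ z : k, z ^ p ^ e = 1 → z = 1 := by
    intro e z hz
    apply iterateFrobenius_inj k p e
    rw [iterateFrobenius_def, iterateFrobenius_def, hz, one_pow]
  have hsub : ∀ a ∈ A, a ∈ B := by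
    intro a ha
    obtain ⟨q₀, hq₀, hq₀p⟩ := hex
    obtain ⟨d₀, hd₀, hd₀m, -, hAB₀⟩ := h q₀ hq₀ hq₀p
    obtain ⟨b, hb, hab⟩ := hpart d₀ hAB₀ a ha
    have hbm : b ^ m = a ^ m := hlift hd₀m hab
    obtain ⟨q, hq, hqc⟩ := hclass b hb
    obtain ⟨d, hd, hdm, hqd, hAB⟩ := hd' q hq
    obtain ⟨b₁, hb₁, hab₁⟩ := hpart d hAB a ha
    have hb₁m : b₁ ^ m = a ^ m := hlift hdm hab₁
    have hb₁0 := hne0 b₁ hb₁
    have hb0 := hne0 b hb
    obtain ⟨e₁, he₁⟩ := hqc b₁ hb₁ (hb₁m.trans hbm.symm)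
    have hz : (a / b₁) ^ d = 1 := by rw [div_pow, hab₁, div_self (by
      rw [← hab₁]
      exact pow_ne_zero _ hb₁0)]
    have h1 : a / b₁ = 1 := by
      refine eq_one_of_order p (a / b₁) hd hz (fun r hr hrp hrd => ?_)
      obtain ⟨dr, hdr, hdrm, hrdr, hABr⟩ := h r hr hrp
      obtain ⟨br, hbr, habr⟩ := hpart dr hABr a ha
      have hbrm : br ^ m = a ^ m := hlift hdrm habr
      have hbr0 := hne0 br hbr
      obtain ⟨e₂, he₂⟩ := hqc br hbr (hbrm.trans hbm.symm)
      -- `a / b₁ = (a / br) * (br / b) / (b₁ / b)`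
      have h2 : a / b₁ = (a / br) * ((br / b) / (b₁ / b)) := by
        rw [div_div_div_cancel_right₀ hb0]
        field_simp
      have h3 : ((br / b) / (b₁ / b)) ^ q ^ (e₁ + e₂) = 1 := by
        rw [div_pow, pow_add, mul_comm, pow_mul, he₂, one_pow, mul_comm, pow_mul, he₁, one_pow,
          div_one]
      have h4 : (a / br) ^ dr = 1 := by rw [div_pow, habr, div_self (by
        rw [← habr]
        exact pow_ne_zero _ hbr0)]
      have h5 : (a / b₁) ^ (q ^ (e₁ + e₂) * dr) = 1 := by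
        rw [h2, mul_pow, pow_mul (br / b / (b₁ / b)), h3, one_pow, mul_one, mul_comm, pow_mul, h4,
          one_pow]
      have h6 : r ∣ q ^ (e₁ + e₂) * dr := hrd.trans (orderOf_dvd_of_pow_eq_one h5)
      rcases hr.dvd_mul.1 h6 with h7 | h7
      · have h8 : r = q := (Nat.prime_dvd_prime_iff_eq hr hq).1 (hr.dvd_of_dvd_pow h7)
        subst h8
        exact hqd hrp (hrd.trans (orderOf_dvd_of_pow_eq_one hz))
      · exact hrdr h7
    have h2 : a = b₁ := (div_eq_one_iff_eq hb₁0).1 h1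
    rw [h2]
    exact hb₁
  -- multiplicities
  ext b
  by_cases hb : b ∈ B
  · have hb0 := hne0 b hb
    obtain ⟨q, hq, hqc⟩ := hclass b hb
    obtain ⟨d, hd, hdm, hqd, hAB⟩ := hd' q hq
    have key : ∀ C : Multiset k, (∀ c ∈ C, c ∈ B) →
        (C.map fun x => x ^ d).count (b ^ d) = C.count b := by
      intro C hC
      rw [Multiset.count_map, ← Multiset.countP_eq_card_filter]
      show _ = Multiset.countP (b = ·) C
      refine Multiset.countP_congr rfl (fun c hc => ?_)
      refine propext ⟨fun h1 => ?_, fun h1 => by rw [← h1]⟩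
      have h2 : c ^ m = b ^ m := hlift hdm h1.symm
      obtain ⟨e, he⟩ := hqc c (hC c hc) h2
      have h3 : (c / b) ^ d = 1 := by rw [div_pow, ← h1, div_self (pow_ne_zero _ hb0)]
      have h4 : c / b = 1 := by
        by_cases hqp : q = p
        · subst hqp
          exact hpinj e _ he
        · exact eq_one_of_coprime hq (hqd hqp) _ he h3
      exact ((div_eq_one_iff_eq hb0).1 h4).symm
    rw [← key A hsub, ← key B (fun _ h => h), hAB]
  · rw [Multiset.count_eq_zero.2 hb, Multiset.count_eq_zero.2 (fun h1 => hb (hsub b h1))]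

end Pool.Agent.Q227.CD
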