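import Pool.Agent.Q227.CD.Irr
import Pool.Agent.Q15.GRIso4

/-!
# The theorem of Brauer and Nesbitt over an algebraically closed field of any characteristic

Semisimple representations of a group with the same eigenvalues (with multiplicity) at all elements
are isomorphic.
-/

set_option autoImplicit false
set_option linter.unusedSectionVars false

namespace Pool.Agent.Q227.CD

open Representation Module Pool.Agent.Q15.GR
open scoped MonoidAlgebra

variable {k : Type} [Field k] [IsAlgClosed k] {G : Type} [Group G]

/-- separation of one irreducible character from finitely many others -/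
theorem sep_fin' (f : X k G) (s : Finset (X k G)) (hf : f ∉ s) :
    ∃ r : k[G], (rp f).asAlgebraHom r = 1 ∧ ∀ f' ∈ s, (rp f').asAlgebraHom r = 0 := by
  classical
  induction s using Finset.induction_on with
  | empty => exact ⟨1, map_one _, fun f' h => absurd h (Finset.notMem_empty _)⟩
  | insert a s ha ih =>
    obtain ⟨r, hr, hr'⟩ := ih (fun h => hf (Finset.mem_insert_of_mem h))
    have h1 : IsEmpty (Representation.Equiv (rp f) (rp a)) := by
      constructor
      intro φ
      apply hf
      have h2 := char_iso φ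
      rw [rp_char, rp_char] at h2
      rw [Subtype.ext h2]
      exact Finset.mem_insert_self a s
    obtain ⟨q, hq, hq'⟩ := sep_rep _ _ (rp_irr f) (rp_irr a) h1
    refine ⟨r * q, by rw [map_mul, hr, hq, one_mul], fun f' hf' => ?_⟩
    rcases Finset.mem_insert.1 hf' with rfl | h3
    · rw [map_mul, hq', mul_zero]
    · rw [map_mul, hr' f' h3, zero_mul]

/-- an element of the group algebra with trace one -/
theorem exists_trace_one (f : X k G) :
    ∃ r : k[G], LinearMap.trace k _ ((rp f).asAlgebraHom r) = 1 := by
  haveI := nontriv _ (rp_irr f)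
  obtain ⟨v, hv⟩ := exists_ne (0 : Fin (dm f) → k)
  have hex : ∃ φ : (Fin (dm f) → k) →ₗ[k] k, φ v = 1 := by
    obtain ⟨ψ, hψ⟩ := Module.Projective.exists_dual_ne_zero k hv
    refine ⟨(ψ v)⁻¹ • ψ, ?_⟩
    rw [LinearMap.smul_apply, smul_eq_mul, inv_mul_cancel₀ hψ]
  obtain ⟨φ, hφ⟩ := hex
  obtain ⟨s, hs⟩ := burnside _ (rp_irr f) (φ.smulRight v)
  exact ⟨s, by rw [hs, LinearMap.trace_smulRight, hφ]⟩

/-- the irreducible characters are linearly independent -/
theorem linIndep' : LinearIndependent k (fun f : X k G => (f : G → k)) := by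
  classical
  rw [linearIndependent_iff']
  intro s g hs f hf
  obtain ⟨r, hr, hr'⟩ := sep_fin' f (s.erase f) (Finset.notMem_erase f s)
  obtain ⟨t, ht⟩ := exists_trace_one f
  have h1 := congrArg (ev (r * t)) hs
  rw [map_zero, map_sum, ← Finset.add_sum_erase s _ hf] at h1
  have h2 : ∀ f' ∈ s.erase f, ev (r * t) (g f' • (f' : G → k)) = 0 := by
    intro f' hf'
    rw [map_smul, ← rp_char f', ev_char, map_mul, hr' f' hf', zero_mul, map_zero, smul_zero]
  rw [Finset.sum_eq_zero h2, add_zero, map_smul, ← rp_char f, ev_char, map_mul, hr, one_mul, ht,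
    smul_eq_mul, mul_one] at h1
  exact h1

/-- the eigenvalues of `g` on the sum of the representations in `M` -/
noncomputable def eM (M : Multiset (X k G)) (g : G) : Multiset k :=
  (M.map fun f => eig (rp f g)).sum

theorem eM_cons (f : X k G) (M : Multiset (X k G)) (g : G) :
    eM (f ::ₘ M) g = eig (rp f g) + eM M g := by
  unfold eM
  rw [Multiset.map_cons, Multiset.sum_cons]

theorem eM_nsmul (p : ℕ) (M : Multiset (X k G)) (g : G) : eM (p • M) g = p • eM M g := by
  unfold eM
  rw [Multiset.map_nsmul, Multiset.sum_nsmul]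

theorem sum_eM (M : Multiset (X k G)) (g : G) :
    (eM M g).sum = (M.map fun f : X k G => (f : G → k) g).sum := by
  induction M using Multiset.induction_on with
  | empty => simp [eM]
  | cons f M ih =>
    rw [eM_cons, Multiset.sum_add, ih, Multiset.map_cons, Multiset.sum_cons, sum_eig]
    congr 1
    exact congrFun (rp_char f) g

/-- the multiplicities are determined by the eigenvalues -/
theorem mult_unique (N : ℕ) : ∀ M M' : Multiset (X k G), Multiset.card M + Multiset.card M' ≤ N →
    (∀ g, eM M g = eM M' g) → M = M' := by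
  classical
  induction N with
  | zero =>
    intro M M' hc _
    have h1 : M = 0 := Multiset.card_eq_zero.1 (by omega)
    have h2 : M' = 0 := Multiset.card_eq_zero.1 (by omega)
    rw [h1, h2]
  | succ N ih =>
    intro M M' hc h
    by_cases hcom : ∃ f, f ∈ M ∧ f ∈ M'
    · obtain ⟨f, h1, h2⟩ := hcom
      obtain ⟨M₁, rfl⟩ := Multiset.exists_cons_of_mem h1
      obtain ⟨M₂, rfl⟩ := Multiset.exists_cons_of_mem h2
      rw [ih M₁ M₂ (by rw [Multiset.card_cons, Multiset.card_cons] at hc; omega) (fun g => by
        have h3 := h g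
        rw [eM_cons, eM_cons] at h3
        exact add_left_cancel h3)]
    · let s := M.toFinset ∪ M'.toFinset
      have hsum : ∀ L : Multiset (X k G), L.toFinset ⊆ s → ∀ g,
          (L.map fun f : X k G => (f : G → k) g).sum = ∑ f ∈ s, ((L.count f : k) • (f : G → k)) g := by
        intro L hL g
        rw [Finset.sum_multiset_map_count]
        rw [Finset.sum_subset hL]
        · refine Finset.sum_congr rfl fun f _ => ?_
          rw [Pi.smul_apply, smul_eq_mul, nsmul_eq_mul]
        · intro f _ hf
          rw [Multiset.count_eq_zero.2 (fun h1 => hf (Multiset.mem_toFinset.2 h1)), zero_smul]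
      have h0 : ∑ f ∈ s, ((M.count f : k) - (M'.count f : k)) • (f : G → k) = 0 := by
        funext g
        have h1 := congrArg Multiset.sum (h g)
        rw [sum_eM, sum_eM, hsum M Finset.subset_union_left, hsum M' Finset.subset_union_right] at h1
        rw [Finset.sum_apply, Pi.zero_apply]
        rw [← sub_eq_zero, ← Finset.sum_sub_distrib] at h1
        rw [← h1]
        refine Finset.sum_congr rfl fun f _ => ?_
        rw [sub_smul]
        rfl
      have h1 := linearIndependent_iff'.1 (linIndep' (k := k) (G := G)) s _ h0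
      have hM : ∀ f ∈ M, (M.count f : k) = 0 := by
        intro f hf
        have h2 := h1 f (Finset.mem_union_left _ (Multiset.mem_toFinset.2 hf))
        have h3 : M'.count f = 0 := Multiset.count_eq_zero.2 fun h4 => hcom ⟨f, hf, h4⟩
        rwa [h3, Nat.cast_zero, sub_zero] at h2
      have hM' : ∀ f ∈ M', (M'.count f : k) = 0 := by
        intro f hf
        have h2 := h1 f (Finset.mem_union_right _ (Multiset.mem_toFinset.2 hf))
        have h3 : M.count f = 0 := Multiset.count_eq_zero.2 fun h4 => hcom ⟨f, h4, hf⟩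
        rw [h3, Nat.cast_zero, zero_sub, neg_eq_zero] at h2
        exact h2
      obtain ⟨p, hp⟩ := CharP.exists k
      obtain ⟨μ, hμ⟩ := M.exists_smul_of_dvd_count (k := p) fun f hf =>
        (CharP.cast_eq_zero_iff k p _).1 (hM f hf)
      obtain ⟨μ', hμ'⟩ := M'.exists_smul_of_dvd_count (k := p) fun f hf =>
        (CharP.cast_eq_zero_iff k p _).1 (hM' f hf)
      rcases Nat.eq_zero_or_pos p with h2 | h2
      · rw [h2, zero_smul] at hμ hμ'
        rw [hμ, hμ']
      · have hp1 : p ≠ 1 := CharP.char_ne_one k p
        have h3 : ∀ g, eM μ g = eM μ' g := by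
          intro g
          have h4 := h g
          rw [hμ, hμ', eM_nsmul, eM_nsmul] at h4
          exact nsmul_right_injective h2.ne' h4
        rcases Nat.eq_zero_or_pos (Multiset.card M + Multiset.card M') with h5 | h5
        · have h6 : M = 0 := Multiset.card_eq_zero.1 (by omega)
          have h7 : M' = 0 := Multiset.card_eq_zero.1 (by omega)
          rw [h6, h7]
        · have h6 : Multiset.card M = p * Multiset.card μ := by
            rw [hμ, Multiset.card_nsmul]
          have h7 : Multiset.card M' = p * Multiset.card μ' := by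
            rw [hμ', Multiset.card_nsmul]
          have h8 : Multiset.card μ + Multiset.card μ' ≤ N := by
            have h9 : 2 ≤ p := by omega
            have h10 : 2 * (Multiset.card μ + Multiset.card μ') ≤
              p * (Multiset.card μ + Multiset.card μ') := Nat.mul_le_mul_right _ h9
            rw [mul_add p, ← h6, ← h7] at h10
            omega
          rw [hμ, hμ', ih μ μ' h8 h3]

/-- `ρ` is a direct sum of the irreducible representations in `M` -/
inductive Has : ∀ {n : ℕ}, Representation k G (Fin n → k) → Multiset (X k G) → Prop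
  | zero (ρ : Representation k G (Fin 0 → k)) : Has ρ 0
  | cons {n n' : ℕ} (ρ : Representation k G (Fin n → k)) (ρ' : Representation k G (Fin n' → k))
      (f : X k G) (M : Multiset (X k G))
      (e : Nonempty (Representation.Equiv ρ ((rp f).prod ρ'))) (h : Has ρ' M) : Has ρ (f ::ₘ M)

theorem eig_has {n : ℕ} {ρ : Representation k G (Fin n → k)} {M : Multiset (X k G)} (h : Has ρ M)
    (g : G) : eig (ρ g) = eM M g := by
  induction h with
  | zero ρ =>
    rw [show eM (0 : Multiset (X k G)) g = 0 by simp [eM], ← Multiset.card_eq_zero, card_eig]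
    simp
  | cons ρ ρ' f M e h ih =>
    obtain ⟨e⟩ := e
    rw [← eig_equiv e g]
    change eig ((rp f g).prodMap (ρ' g)) = _
    rw [eig_prod, eM_cons, ih]

/-- exchange of the first two summands -/
noncomputable def swap3 {V₁ V₂ V₃ : Type} [AddCommGroup V₁] [Module k V₁] [AddCommGroup V₂] [Module k V₂]
    [AddCommGroup V₃] [Module k V₃] (ρ₁ : Representation k G V₁) (ρ₂ : Representation k G V₂)
    (ρ₃ : Representation k G V₃) :
    Representation.Equiv (ρ₁.prod (ρ₂.prod ρ₃)) (ρ₂.prod (ρ₁.prod ρ₃)) :=
  Representation.Equiv.mk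
    { toFun := fun x => (x.2.1, (x.1, x.2.2))
      invFun := fun x => (x.2.1, (x.1, x.2.2))
      left_inv := fun _ => rfl
      right_inv := fun _ => rfl
      map_add' := fun _ _ => rfl
      map_smul' := fun _ _ => rfl } (fun _ => rfl)

theorem has_erase {n : ℕ} {ρ : Representation k G (Fin n → k)} {M : Multiset (X k G)}
    (h : Has ρ M) : ∀ f ∈ M, ∃ (M' : Multiset (X k G)) (n' : ℕ)
      (ρ' : Representation k G (Fin n' → k)), M = f ::ₘ M' ∧
      Nonempty (Representation.Equiv ρ ((rp f).prod ρ')) ∧ Has ρ' M' := by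
  induction h with
  | zero ρ =>
    intro f hf
    exact absurd hf (Multiset.notMem_zero _)
  | cons ρ ρ' a M e h ih =>
    intro f hf
    by_cases hfa : f = a
    · subst hfa
      exact ⟨M, _, ρ', rfl, e, h⟩
    · obtain ⟨M', n₂, ρ₂, hM, ⟨e₂⟩, h₂⟩ := ih f ((Multiset.mem_cons.1 hf).resolve_left hfa)
      obtain ⟨e⟩ := e
      let b := (Module.finBasis k ((Fin (dm a) → k) × (Fin n₂ → k))).equivFun
      refine ⟨a ::ₘ M', _, tp ((rp a).prod ρ₂) b, ?_, ?_, ?_⟩
      · rw [hM, Multiset.cons_swap]
      · refine ⟨(e.trans (prodEquiv (Representation.Equiv.refl _) e₂)).trans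
          ((swap3 _ _ _).trans (prodEquiv (Representation.Equiv.refl _) (tpEquiv _ b)))⟩
      · exact Has.cons _ ρ₂ a M' ⟨(tpEquiv _ b).symm⟩ h₂

theorem has_unique {n : ℕ} {ρ : Representation k G (Fin n → k)} {M : Multiset (X k G)}
    (h : Has ρ M) : ∀ {m : ℕ} {σ : Representation k G (Fin m → k)}, Has σ M →
      Nonempty (Representation.Equiv ρ σ) := by
  induction h with
  | zero ρ =>
    intro m σ hσ
    have h1 : m = 0 := by
      have h2 := eig_has hσ 1
      have h3 := congrArg Multiset.card h2
      rw [card_eig] at h3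
      simpa [eM] using h3
    subst h1
    exact ⟨Representation.Equiv.mk (LinearEquiv.refl _ _) (fun g =>
      LinearMap.ext fun x => Subsingleton.elim _ _)⟩
  | cons ρ ρ' f M e h ih =>
    intro m σ hσ
    obtain ⟨M', n', σ', hM, ⟨e₂⟩, h₂⟩ := has_erase hσ f (Multiset.mem_cons_self f M)
    have h3 : M' = M := ((Multiset.cons_inj_right f).1 hM).symm
    subst h3
    obtain ⟨e⟩ := e
    obtain ⟨e'⟩ := ih h₂
    exact ⟨e.trans ((prodEquiv (Representation.Equiv.refl _) e').trans e₂.symm)⟩

theorem exists_has (N : ℕ) : ∀ (V : Type) [AddCommGroup V] [Module k V] [FiniteDimensional k V]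
    (σ : Representation k G V), σ.IsSemisimpleRepresentation → finrank k V = N →
      ∃ (n : ℕ) (ρ : Representation k G (Fin n → k)) (M : Multiset (X k G)), Has ρ M ∧
        Nonempty (Representation.Equiv σ ρ) := by
  induction N using Nat.strong_induction_on with
  | _ N ih =>
    intro V _ _ _ σ hσ hN
    let b := (Module.finBasis k V).equivFun
    rcases subsingleton_or_nontrivial V with hV | hV
    · have h0 : finrank k V = 0 := finrank_zero_of_subsingleton
      refine ⟨0, tp σ ((Module.finBasis k V).reindex (finCongr h0)).equivFun, 0, Has.zero _,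
        ⟨tpEquiv _ _⟩⟩
    · obtain ⟨U, hU⟩ := exists_atom σ
      obtain ⟨U', hU'⟩ := hσ.exists_isCompl U
      have hlt : finrank k U'.toSubmodule < N := by
        rw [← hN]
        apply Submodule.finrank_lt
        intro h
        have h1 : U' = ⊤ := Subrepresentation.toSubmodule_injective h
        rw [h1] at hU'
        exact hU.1 (le_bot_iff.1 (hU'.disjoint le_rfl le_top))
      obtain ⟨n', ρ', M, hM, ⟨e'⟩⟩ := ih _ hlt U'.toSubmodule U'.toRepresentation
        (semi_sub hσ U') rfl
      obtain ⟨e⟩ := prod_of_compl hU'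
      let f : X k G := ⟨U.toRepresentation.character, isIr_char _ (irr_of_atom hU)⟩
      obtain ⟨e₁⟩ := equiv_of_char_irr (rp f) U.toRepresentation (rp_irr f) (irr_of_atom hU)
        (rp_char f)
      refine ⟨_, tp σ b, f ::ₘ M, Has.cons _ ρ' f M ⟨?_⟩ hM, ⟨tpEquiv _ _⟩⟩
      exact (tpEquiv σ b).symm.trans (e.symm.trans (prodEquiv e₁.symm e'))

/-- **Brauer-Nesbitt**: semisimple representations with the same eigenvalues are isomorphic -/
theorem brauer_nesbitt {V W : Type} [AddCommGroup V] [Module k V] [FiniteDimensional k V]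
    [AddCommGroup W] [Module k W] [FiniteDimensional k W] (ρ : Representation k G V)
    (σ : Representation k G W) (hρ : ρ.IsSemisimpleRepresentation)
    (hσ : σ.IsSemisimpleRepresentation) (h : ∀ g, eig (ρ g) = eig (σ g)) :
    Nonempty (Representation.Equiv ρ σ) := by
  obtain ⟨n, ρ', M, hM, ⟨e⟩⟩ := exists_has _ V ρ hρ rfl
  obtain ⟨m, σ', M', hM', ⟨e'⟩⟩ := exists_has _ W σ hσ rfl
  have h1 : M = M' := mult_unique _ M M' le_rfl (fun g => by
    rw [← eig_has hM, ← eig_has hM', eig_equiv e g, eig_equiv e' g, h g])
  subst h1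
  obtain ⟨e₂⟩ := has_unique hM hM'
  exact ⟨e.trans (e₂.trans e'.symm)⟩

end Pool.Agent.Q227.CD
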