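import Pool.Agent.Q227.CD.MF

/-!
# Clifford's theorem: restriction to a normal subgroup is semisimple
-/

set_option autoImplicit false
set_option linter.unusedSectionVars false

namespace Pool.Agent.Q227.CD

open Representation Module Pool.Agent.Q15.GR

variable {k : Type} [Field k]
variable {G H V : Type} [Group G] [Group H] [AddCommGroup V] [Module k V]

/-- translates of subrepresentations -/
def tr (ρ : Representation k G V) (φ : H →* G) (hφ : ∀ g h, ∃ h', φ h' = g * φ h * g⁻¹) (g : G)
    (X : Subrepresentation (ρ.comp φ : Representation k H V)) :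
    Subrepresentation (ρ.comp φ : Representation k H V) where
  toSubmodule := X.toSubmodule.map (ρ g)
  apply_mem_toSubmodule h v hv := by
    obtain ⟨w, hw, rfl⟩ := hv
    obtain ⟨h', hh'⟩ := hφ g⁻¹ h
    rw [inv_inv] at hh'
    refine ⟨ρ (φ h') w, X.apply_mem_toSubmodule h' hw, ?_⟩
    change ρ g (ρ (φ h') w) = ρ (φ h) (ρ g w)
    rw [hh', ← Module.End.mul_apply, ← Module.End.mul_apply, ← map_mul, ← map_mul]
    congr 2
    group

theorem tr_mono (ρ : Representation k G V) (φ : H →* G)
    (hφ : ∀ g h, ∃ h', φ h' = g * φ h * g⁻¹) (g : G)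
    {X Y : Subrepresentation (ρ.comp φ : Representation k H V)} (h : X ≤ Y) :
    tr ρ φ hφ g X ≤ tr ρ φ hφ g Y := by
  intro v hv
  obtain ⟨w, hw, rfl⟩ := hv
  exact ⟨w, h hw, rfl⟩

theorem tr_tr (ρ : Representation k G V) (φ : H →* G)
    (hφ : ∀ g h, ∃ h', φ h' = g * φ h * g⁻¹) (g g' : G) (hg : g' * g = 1)
    (X : Subrepresentation (ρ.comp φ : Representation k H V)) :
    tr ρ φ hφ g' (tr ρ φ hφ g X) = X := by
  apply Subrepresentation.toSubmodule_injective
  change (X.toSubmodule.map (ρ g)).map (ρ g') = X.toSubmodule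
  rw [← Submodule.map_comp]
  have h1 : ρ g' ∘ₗ ρ g = LinearMap.id := by
    change ρ g' * ρ g = 1
    rw [← map_mul, hg, map_one]
  rw [h1, Submodule.map_id]

/-- translation as an automorphism of the lattice of subrepresentations -/
def trIso (ρ : Representation k G V) (φ : H →* G) (hφ : ∀ g h, ∃ h', φ h' = g * φ h * g⁻¹)
    (g : G) : Subrepresentation (ρ.comp φ : Representation k H V) ≃o
      Subrepresentation (ρ.comp φ : Representation k H V) where
  toFun := tr ρ φ hφ g
  invFun := tr ρ φ hφ g⁻¹
  left_inv := tr_tr ρ φ hφ g g⁻¹ (inv_mul_cancel g)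
  right_inv := tr_tr ρ φ hφ g⁻¹ g (mul_inv_cancel g)
  map_rel_iff' {X Y} := by
    constructor
    · intro h
      have h1 := tr_mono ρ φ hφ g⁻¹ h
      change tr ρ φ hφ g⁻¹ (tr ρ φ hφ g X) ≤ tr ρ φ hφ g⁻¹ (tr ρ φ hφ g Y) at h1
      rwa [tr_tr ρ φ hφ g g⁻¹ (inv_mul_cancel g), tr_tr ρ φ hφ g g⁻¹ (inv_mul_cancel g)] at h1
    · exact tr_mono ρ φ hφ g

/-- **Clifford's theorem** -/
theorem clifford [FiniteDimensional k V] (ρ : Representation k G V) (φ : H →* G)
    (hφ : ∀ g h, ∃ h', φ h' = g * φ h * g⁻¹) (hss : ρ.IsSemisimpleRepresentation) :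
    IsSemisimpleRepresentation (ρ.comp φ : Representation k H V) := by
  let σ : Representation k H V := ρ.comp φ
  let e : Subrepresentation σ ≃o Submodule (MonoidAlgebra k H) σ.asModule :=
    Subrepresentation.subrepresentationSubmoduleOrderIso
  haveI : IsArtinian k σ.asModule := inferInstanceAs (IsArtinian k V)
  haveI : IsArtinian (MonoidAlgebra k H) σ.asModule := isArtinian_of_tower k inferInstance
  let s : Submodule (MonoidAlgebra k H) σ.asModule := sSup {a | IsAtom a}
  let S : Subrepresentation σ := e.symm s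
  have hS : ∀ g, tr ρ φ hφ g S ≤ S := by
    intro g
    let T : Submodule (MonoidAlgebra k H) σ.asModule ≃o Submodule (MonoidAlgebra k H) σ.asModule :=
      (e.symm.trans (trIso ρ φ hφ g)).trans e
    have h1 : T s ≤ s := by
      change T (sSup {a | IsAtom a}) ≤ s
      rw [T.map_sSup]
      refine iSup₂_le fun a ha => ?_
      exact le_sSup ((T.isAtom_iff a).2 ha)
    have h2 := e.symm.monotone h1
    change e.symm (e (tr ρ φ hφ g (e.symm s))) ≤ S at h2
    rwa [e.symm_apply_apply] at h2
  let X : Subrepresentation ρ :=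
    { toSubmodule := S.toSubmodule
      apply_mem_toSubmodule := fun g v hv => hS g ⟨v, hv, rfl⟩ }
  obtain ⟨Y, hY⟩ := hss.exists_isCompl X
  have hc := isCompl_sub hY
  let Y' : Subrepresentation σ :=
    { toSubmodule := Y.toSubmodule
      apply_mem_toSubmodule := fun h v hv => Y.apply_mem_toSubmodule (φ h) hv }
  have hY' : Y' = ⊥ := by
    by_contra hne
    have h1 : e Y' ≠ ⊥ := fun h => hne (by
      have := congrArg e.symm h
      rwa [e.symm_apply_apply, e.symm.map_bot] at this)
    obtain ⟨a, ha, hle⟩ := (eq_bot_or_exists_atom_le (e Y')).resolve_left h1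
    have h2 : a ≤ s := le_sSup ha
    have h3 : e.symm a ≤ S := e.symm.monotone h2
    have h4 : e.symm a ≤ Y' := by
      have := e.symm.monotone hle
      rwa [e.symm_apply_apply] at this
    have h5 : (e.symm a).toSubmodule ≤ ⊥ := by
      rw [← disjoint_iff.1 hc.disjoint]
      exact le_inf (fun x hx => h3 hx) (fun x hx => h4 hx)
    have h6 : e.symm a = ⊥ := by
      apply Subrepresentation.toSubmodule_injective
      exact le_bot_iff.1 h5
    have h7 : a = ⊥ := by
      have := congrArg e h6
      rwa [e.apply_symm_apply, e.map_bot] at this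
    exact ha.1 h7
  have hS' : S = ⊤ := by
    apply Subrepresentation.toSubmodule_injective
    have h1 : Y.toSubmodule = ⊥ := congrArg Subrepresentation.toSubmodule hY'
    have h2 := codisjoint_iff.1 hc.codisjoint
    rw [h1, sup_bot_eq] at h2
    exact h2
  have hs : s = ⊤ := by
    have := congrArg e hS'
    rwa [e.apply_symm_apply, e.map_top] at this
  have h1 : ComplementedLattice (Submodule (MonoidAlgebra k H) σ.asModule) :=
    complementedLattice_of_sSup_atoms_eq_top hs
  exact (OrderIso.complementedLattice_iff e).2 h1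

end Pool.Agent.Q227.CD
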