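import Mathlib

/-!
# Gluing crossed homomorphisms given on subgroups of finite index
-/

set_option autoImplicit false
set_option linter.unusedSectionVars false

namespace Pool.Agent.Q227.CD

open MulAction Subgroup

variable {E A : Type} [Group E] [CommGroup A] [MulDistribMulAction E A]

/-- `f` is a crossed homomorphism on `H` -/
def Crossed (H : Subgroup E) (f : E → A) : Prop :=
  ∀ x ∈ H, ∀ y ∈ H, f (x * y) = f x * x • f y

theorem Crossed.one {H : Subgroup E} {f : E → A} (h : Crossed H f) : f 1 = 1 := by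
  have h1 := h 1 H.one_mem 1 H.one_mem
  rw [mul_one, one_smul] at h1
  exact (mul_eq_left.1 h1.symm)

/-- the family is compatible with conjugation -/
def CStable {ι : Type} (H : ι → Subgroup E) (f : ι → E → A) : Prop :=
  ∀ i j (g : E), ∃ c : A, ∀ u ∈ H i, g * u * g⁻¹ ∈ H j →
    c * g • f i u = f j (g * u * g⁻¹) * (g * u * g⁻¹) • c

/-- an equivariant function -/
theorem exists_bi {H H' : Subgroup E} {f f' : E → A} (hf : Crossed H f) (hf' : Crossed H' f')
    (hst : ∀ g : E, ∃ c : A, ∀ u ∈ H, g * u * g⁻¹ ∈ H' →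
      c * g • f u = f' (g * u * g⁻¹) * (g * u * g⁻¹) • c) :
    ∃ φ : E → A, (∀ g, ∀ u ∈ H, φ (g * u) = φ g * g • f u) ∧
      (∀ h ∈ H', ∀ g, φ (h * g) = f' h * h • φ g) := by
  classical
  choose c hc using hst
  let S : Setoid E :=
    { r := fun g g' => ∃ h ∈ H', ∃ u ∈ H, g' = h * g * u
      iseqv :=
        { refl := fun g => ⟨1, H'.one_mem, 1, H.one_mem, by rw [one_mul, mul_one]⟩
          symm := by
            rintro g g' ⟨h, hh, u, hu, rfl⟩
            exact ⟨h⁻¹, H'.inv_mem hh, u⁻¹, H.inv_mem hu, by group⟩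
          trans := by
            rintro g g' g'' ⟨h, hh, u, hu, rfl⟩ ⟨h', hh', u', hu', rfl⟩
            exact ⟨h' * h, H'.mul_mem hh' hh, u * u', H.mul_mem hu hu', by group⟩ } }
  let rep : E → E := fun g => (Quotient.mk S g).out
  have hrep : ∀ g, ∃ h ∈ H', ∃ u ∈ H, g = h * rep g * u := by
    intro g
    exact Quotient.exact (s := S) (Quotient.out_eq (Quotient.mk S g))
  have hrep' : ∀ g g', (∃ h ∈ H', ∃ u ∈ H, g' = h * g * u) → rep g' = rep g := by
    intro g g' h
    have h1 : Quotient.mk S g = Quotient.mk S g' := Quotient.sound h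
    change (Quotient.mk S g').out = (Quotient.mk S g).out
    rw [h1]
  choose hh hhm uu huu hdec using hrep
  -- the value does not depend on the decomposition
  have hwd : ∀ (g₀ h h₁ u u₁ : E), h ∈ H' → h₁ ∈ H' → u ∈ H → u₁ ∈ H →
      h * g₀ * u = h₁ * g₀ * u₁ →
      f' h * h • c g₀ * (h * g₀) • f u = f' h₁ * h₁ • c g₀ * (h₁ * g₀) • f u₁ := by
    intro g₀ h h₁ u u₁ hh hh₁ hu hu₁ heq
    have hv : u₁ * u⁻¹ ∈ H := H.mul_mem hu₁ (H.inv_mem hu)
    have hk : g₀ * (u₁ * u⁻¹) * g₀⁻¹ = h₁⁻¹ * h := by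
      have h1 : h = h₁ * g₀ * u₁ * u⁻¹ * g₀⁻¹ := by
        rw [← heq]
        group
      rw [h1]
      group
    have hkm : g₀ * (u₁ * u⁻¹) * g₀⁻¹ ∈ H' := by
      rw [hk]
      exact H'.mul_mem (H'.inv_mem hh₁) hh
    have h1 := hc g₀ (u₁ * u⁻¹) hv hkm
    rw [hk] at h1
    have h2 : f' h = f' h₁ * h₁ • f' (h₁⁻¹ * h) := by
      rw [← hf' h₁ hh₁ _ (H'.mul_mem (H'.inv_mem hh₁) hh), mul_inv_cancel_left]
    have h3 : f u₁ = f (u₁ * u⁻¹) * (u₁ * u⁻¹) • f u := by
      rw [← hf _ hv _ hu, inv_mul_cancel_right]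
    have h4 : h • c g₀ = h₁ • (h₁⁻¹ * h) • c g₀ := by
      rw [smul_smul, mul_inv_cancel_left]
    have h5 : (h * g₀) • f u = (h₁ * g₀) • (u₁ * u⁻¹) • f u := by
      rw [smul_smul]
      congr 1
      have h6 : h * g₀ = h * g₀ * u * u⁻¹ := by group
      rw [h6, heq]
      group
    rw [h2, h3, h4, h5, smul_mul', mul_assoc (f' h₁), ← smul_mul', ← h1, smul_mul', ← mul_smul h₁ g₀]
    simp only [mul_assoc]
  let φ : E → A := fun g => f' (hh g) * hh g • c (rep g) * (hh g * rep g) • f (uu g)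
  refine ⟨φ, fun g u hu => ?_, fun h hh' g => ?_⟩
  · have h1 : rep (g * u) = rep g := hrep' g (g * u) ⟨1, H'.one_mem, u, hu, by rw [one_mul]⟩
    change f' (hh (g * u)) * hh (g * u) • c (rep (g * u)) * (hh (g * u) * rep (g * u)) •
      f (uu (g * u)) = f' (hh g) * hh g • c (rep g) * (hh g * rep g) • f (uu g) * g • f u
    have h2 := hwd (rep g) (hh (g * u)) (hh g) (uu (g * u)) (uu g * u) (hhm _) (hhm _) (huu _)
      (H.mul_mem (huu _) hu) (by
        rw [← h1, ← hdec (g * u), ← mul_assoc, h1, ← hdec g])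
    rw [h1, h2, hf _ (huu g) _ hu, smul_mul', ← mul_assoc]
    congr 1
    rw [smul_smul, ← hdec g]
  · have h1 : rep (h * g) = rep g := hrep' g (h * g) ⟨h, hh', 1, H.one_mem, by rw [mul_one]⟩
    change f' (hh (h * g)) * hh (h * g) • c (rep (h * g)) * (hh (h * g) * rep (h * g)) •
      f (uu (h * g)) = f' h * h • (f' (hh g) * hh g • c (rep g) * (hh g * rep g) • f (uu g))
    have h2 := hwd (rep g) (hh (h * g)) (h * hh g) (uu (h * g)) (uu g) (hhm _)
      (H'.mul_mem hh' (hhm _)) (huu _) (huu _) (by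
        rw [← h1, ← hdec (h * g), h1, mul_assoc h, mul_assoc h, ← hdec g])
    rw [h1, h2, hf' _ hh' _ (hhm g), smul_mul', smul_mul', smul_smul, smul_smul, mul_assoc h]
    simp only [mul_assoc]

/-! ## the transfer -/

section cor

variable (H : Subgroup E) [H.FiniteIndex] (φ : E → A)

/-- the transfer -/
noncomputable def cor (h : E) : A :=
  letI := H.fintypeQuotientOfFiniteIndex
  ∏ x : E ⧸ H, (φ (h * x.out) / (h • φ x.out))

variable {f : E → A} (hφ : ∀ g, ∀ u ∈ H, φ (g * u) = φ g * g • f u)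

include hφ

theorem cor_inv (h g : E) : φ (h * g) / (h • φ g) =
    φ (h * (g : E ⧸ H).out) / (h • φ (g : E ⧸ H).out) := by
  obtain ⟨u, hu⟩ := QuotientGroup.mk_out_eq_mul H g
  rw [hu, ← mul_assoc, hφ _ _ u.2, hφ _ _ u.2, smul_mul', smul_smul, mul_div_mul_right_eq_div]

theorem cor_crossed : Crossed ⊤ (cor H φ) := by
  classical
  letI := H.fintypeQuotientOfFiniteIndex
  intro h _ h' _
  unfold cor
  have h1 : ∀ x : E ⧸ H, φ (h * h' * x.out) / ((h * h') • φ x.out) =
      (φ (h * (h' • x).out) / (h • φ (h' • x).out)) *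
        h • (φ (h' * x.out) / (h' • φ x.out)) := by
    intro x
    have h2 := cor_inv H φ hφ h (h' * x.out)
    have h3 : ((h' * x.out : E) : E ⧸ H) = h' • x := by
      conv_rhs => rw [← QuotientGroup.out_eq' x]
      rfl
    rw [h3] at h2
    rw [← h2, smul_div', smul_smul, mul_assoc h]
    rw [div_mul_div_cancel]
  rw [Finset.prod_congr rfl fun x _ => h1 x, Finset.prod_mul_distrib]
  congr 1
  · exact Fintype.prod_equiv (MulAction.toPerm h') _ _ (fun x => rfl)
  · rw [Finset.smul_prod']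

theorem cor_bi {H' : Subgroup E} {f' : E → A} (hφ' : ∀ h ∈ H', ∀ g, φ (h * g) = f' h * h • φ g)
    (h : E) (hh : h ∈ H') : cor H φ h = f' h ^ H.index := by
  classical
  letI := H.fintypeQuotientOfFiniteIndex
  unfold cor
  have h1 : ∀ x : E ⧸ H, φ (h * x.out) / (h • φ x.out) = f' h := by
    intro x
    rw [hφ' h hh, mul_div_cancel_right]
  rw [Finset.prod_congr rfl fun x _ => h1 x, Finset.prod_const, Finset.card_univ,
    Subgroup.index_eq_card, Nat.card_eq_fintype_card]

theorem cor_change (φ' : E → A) (hφ' : ∀ g, ∀ u ∈ H, φ' (g * u) = φ' g * g • f u) :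
    ∃ b : A, ∀ h, cor H φ h = cor H φ' h * (b / h • b) := by
  classical
  letI := H.fintypeQuotientOfFiniteIndex
  let ψ : E → A := fun g => φ g / φ' g
  have hψ : ∀ g : E, ψ (g : E ⧸ H).out = ψ g := by
    intro g
    obtain ⟨u, hu⟩ := QuotientGroup.mk_out_eq_mul H g
    change φ _ / φ' _ = φ g / φ' g
    rw [hu, hφ _ _ u.2, hφ' _ _ u.2, mul_div_mul_right_eq_div]
  refine ⟨∏ x : E ⧸ H, ψ x.out, fun h => ?_⟩
  unfold cor
  have h1 : ∀ x : E ⧸ H, φ (h * x.out) / (h • φ x.out) =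
      (φ' (h * x.out) / (h • φ' x.out)) * (ψ (h • x).out / h • ψ x.out) := by
    intro x
    have h3 : ((h * x.out : E) : E ⧸ H) = h • x := by
      conv_rhs => rw [← QuotientGroup.out_eq' x]
      rfl
    have h2 : ψ (h • x).out = ψ (h * x.out) := by rw [← h3, hψ]
    rw [h2]
    change _ = (φ' (h * x.out) / (h • φ' x.out)) *
      ((φ (h * x.out) / φ' (h * x.out)) / h • (φ x.out / φ' x.out))
    rw [smul_div']
    generalize φ' (h * x.out) = a1
    generalize φ (h * x.out) = a2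
    generalize h • φ' x.out = a3
    generalize h • φ x.out = a4
    rw [div_div_div_comm, mul_div_cancel]
  rw [Finset.prod_congr rfl fun x _ => h1 x, Finset.prod_mul_distrib]
  congr 1
  rw [Finset.prod_div_distrib, Finset.smul_prod']
  congr 1
  exact Fintype.prod_equiv (MulAction.toPerm h) _ _ (fun x => rfl)

end cor

end Pool.Agent.Q227.CD
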