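import Pool.Agent.Q227.CD.Cross

/-!
# Gluing crossed homomorphisms and sections given on subgroups of finite index
-/

set_option autoImplicit false
set_option linter.unusedSectionVars false

namespace Pool.Agent.Q227.CD

open MulAction Subgroup

section crossed

variable {E A : Type} [Group E] [CommGroup A] [MulDistribMulAction E A]

/-- the exponents `m` for which the `m`-th powers of the `f i` have a common extension -/
def cexpo {ι : Type} (H : ι → Subgroup E) (f : ι → E → A) : AddSubgroup ℤ where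
  carrier := {m | ∃ F : E → A, Crossed ⊤ F ∧ ∀ j, ∃ b : A, ∀ h ∈ H j, F h = f j h ^ m * (b / h • b)}
  add_mem' := by
    rintro a a' ⟨F, hF, hF'⟩ ⟨G, hG, hG'⟩
    refine ⟨fun h => F h * G h, fun x hx y hy => ?_, fun j => ?_⟩
    · change F (x * y) * G (x * y) = F x * G x * x • (F y * G y)
      rw [hF x hx y hy, hG x hx y hy, smul_mul', mul_mul_mul_comm]
    · obtain ⟨b, hb⟩ := hF' j
      obtain ⟨b', hb'⟩ := hG' j
      refine ⟨b * b', fun h hh => ?_⟩
      change F h * G h = _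
      rw [hb h hh, hb' h hh, zpow_add, smul_mul', mul_mul_mul_comm, div_mul_div_comm]
  zero_mem' := by
    refine ⟨fun _ => 1, fun x _ y _ => by rw [smul_one, mul_one], fun j => ⟨1, fun h _ => ?_⟩⟩
    rw [zpow_zero, smul_one, div_one, mul_one]
  neg_mem' := by
    rintro a ⟨F, hF, hF'⟩
    refine ⟨fun h => (F h)⁻¹, fun x hx y hy => ?_, fun j => ?_⟩
    · change (F (x * y))⁻¹ = (F x)⁻¹ * x • (F y)⁻¹
      rw [hF x hx y hy, mul_inv, smul_inv']
    · obtain ⟨b, hb⟩ := hF' j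
      refine ⟨b⁻¹, fun h hh => ?_⟩
      change (F h)⁻¹ = _
      rw [hb h hh, zpow_neg, smul_inv', mul_inv]
      congr 1
      rw [inv_div, inv_div_inv]

theorem index_mem_cexpo {ι : Type} {H : ι → Subgroup E} [∀ i, (H i).FiniteIndex] {f : ι → E → A}
    (hf : ∀ i, Crossed (H i) (f i)) (hst : CStable H f) (i : ι) :
    ((H i).index : ℤ) ∈ cexpo H f := by
  obtain ⟨φ, hφ, -⟩ := exists_bi (hf i) (hf i) (hst i i)
  refine ⟨cor (H i) φ, cor_crossed (H i) φ hφ, fun j => ?_⟩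
  obtain ⟨φ', hφ', hφ''⟩ := exists_bi (hf i) (hf j) (hst i j)
  obtain ⟨b, hb⟩ := cor_change (H i) φ hφ φ' hφ'
  refine ⟨b, fun h hh => ?_⟩
  rw [hb, cor_bi (H i) φ' hφ' hφ'' h hh, zpow_natCast]

theorem smul_root {p : ℕ} (r : A ≃* A) (hr : ∀ x, r x = x ^ p) (g : E) (x : A) :
    r.symm (g • x) = g • r.symm x := by
  rw [MulEquiv.symm_apply_eq, hr, ← smul_pow', ← hr, MulEquiv.apply_symm_apply]

/-- the power maps with exponent a power of `p` -/
theorem pow_pow_bij {p : ℕ} (hp : Function.Bijective fun a : A => a ^ p) (b : ℕ) :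
    Function.Bijective fun x : A => x ^ p ^ b := by
  induction b with
  | zero =>
    have : (fun x : A => x ^ p ^ 0) = id := by
      funext x
      rw [pow_zero, pow_one]
      rfl
    rw [this]
    exact Function.bijective_id
  | succ b ih =>
    have : (fun x : A => x ^ p ^ (b + 1)) = (fun x : A => x ^ p) ∘ (fun x : A => x ^ p ^ b) := by
      funext x
      rw [Function.comp_apply, ← pow_mul, pow_succ]
    rw [this]
    exact hp.comp ih

/-- a number whose prime divisors are all equal to `p` -/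
theorem eq_pow_of {ι : Type} [Nonempty ι] (n : ι → ℕ) (hn : ∀ i, n i ≠ 0) {p : ℕ}
    (hp1 : p = 1 ∨ p.Prime) (hH : ∀ q : ℕ, q.Prime → q ≠ p → ∃ i, ¬ q ∣ n i) {d : ℕ}
    (hd : ∀ i, d ∣ n i) : ∃ a : ℕ, d = p ^ a := by
  have hd0 : d ≠ 0 := by
    rintro rfl
    obtain ⟨i⟩ := ‹Nonempty ι›
    exact hn i (zero_dvd_iff.1 (hd i))
  rcases hp1 with rfl | hpp
  · refine ⟨0, ?_⟩
    rw [pow_zero]
    by_contra hne
    obtain ⟨q, hq, hqd⟩ := Nat.exists_prime_and_dvd hne
    obtain ⟨i, hi⟩ := hH q hq hq.one_lt.ne'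
    exact hi (hqd.trans (hd i))
  · exact ⟨_, Nat.eq_prime_pow_of_unique_prime_dvd hd0 (fun {q} hq hqd => by
      by_contra hne
      obtain ⟨i, hi⟩ := hH q hq hne
      exact hi (hqd.trans (hd i)))⟩

/-- an integral combination of the numbers `n i` in a subgroup -/
theorem mem_of_indices {ι : Type} [Nonempty ι] (n : ι → ℕ) (hn : ∀ i, n i ≠ 0) {p : ℕ}
    (hp1 : p = 1 ∨ p.Prime) (hH : ∀ q : ℕ, q.Prime → q ≠ p → ∃ i, ¬ q ∣ n i)
    (T : AddSubgroup ℤ) (hT : ∀ i, (n i : ℤ) ∈ T) : ∃ a : ℕ, ((p ^ a : ℕ) : ℤ) ∈ T := by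
  obtain ⟨g, hg⟩ := Int.subgroup_cyclic T
  have hdvd : ∀ i, g.natAbs ∣ n i := by
    intro i
    have h1 := hT i
    rw [hg, AddSubgroup.mem_closure_singleton] at h1
    obtain ⟨m, hm⟩ := h1
    rw [← Int.natCast_dvd_natCast, Int.natCast_natAbs, abs_dvd]
    exact ⟨m, by rw [← hm, smul_eq_mul, mul_comm]⟩
  obtain ⟨a, ha⟩ := eq_pow_of n hn hp1 hH hdvd
  refine ⟨a, ?_⟩
  rw [← ha]
  have h1 : g ∈ T := by
    rw [hg]
    exact AddSubgroup.subset_closure rfl
  rcases Int.natAbs_eq g with h2 | h2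
  · rw [← h2]
    exact h1
  · have h3 : ((g.natAbs : ℕ) : ℤ) = - g := by omega
    rw [h3]
    exact T.neg_mem h1

/-- **Gluing lemma for crossed homomorphisms** -/
theorem glue_crossed {ι : Type} [Nonempty ι] {H : ι → Subgroup E} [∀ i, (H i).FiniteIndex]
    {f : ι → E → A} (hf : ∀ i, Crossed (H i) (f i)) (hst : CStable H f) (p : ℕ)
    (hp : Function.Bijective fun a : A => a ^ p) (hp1 : p = 1 ∨ p.Prime)
    (hH : ∀ q : ℕ, q.Prime → q ≠ p → ∃ i, ¬ q ∣ (H i).index) :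
    ∃ F : E → A, Crossed ⊤ F ∧ ∀ j, ∃ b : A, ∀ h ∈ H j, F h = f j h * (b / h • b) := by
  obtain ⟨a, F, hF, hF'⟩ := mem_of_indices (fun i => (H i).index)
    (fun i => Subgroup.FiniteIndex.index_ne_zero) hp1 hH (cexpo H f) (index_mem_cexpo hf hst)
  let r : A ≃* A := MulEquiv.ofBijective (powMonoidHom (p ^ a)) (pow_pow_bij hp a)
  have hr : ∀ x, r x = x ^ p ^ a := fun _ => rfl
  refine ⟨fun h => r.symm (F h), fun x hx y hy => ?_, fun j => ?_⟩
  · change r.symm (F (x * y)) = r.symm (F x) * x • r.symm (F y)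
    rw [hF x hx y hy, map_mul, smul_root r hr]
  · obtain ⟨b, hb⟩ := hF' j
    refine ⟨r.symm b, fun h hh => ?_⟩
    change r.symm (F h) = _
    rw [hb h hh, map_mul, map_div, smul_root r hr]
    congr 1
    rw [MulEquiv.symm_apply_eq, hr, zpow_natCast]

/-- **uniqueness** -/
theorem crossed_unique {ι : Type} [Nonempty ι] {H : ι → Subgroup E} [∀ i, (H i).FiniteIndex]
    {F : E → A} (hF : Crossed ⊤ F) (p : ℕ)
    (hp : Function.Bijective fun a : A => a ^ p) (hp1 : p = 1 ∨ p.Prime)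
    (hH : ∀ q : ℕ, q.Prime → q ≠ p → ∃ i, ¬ q ∣ (H i).index)
    (h1 : ∀ j, ∃ b : A, ∀ h ∈ H j, F h = b / h • b) : ∃ b : A, ∀ h, F h = b / h • b := by
  classical
  let T : AddSubgroup ℤ :=
    { carrier := {m | ∃ b : A, ∀ h, F h ^ m = b / h • b}
      add_mem' := by
        rintro a a' ⟨b, hb⟩ ⟨b', hb'⟩
        exact ⟨b * b', fun h => by rw [zpow_add, hb, hb', smul_mul', div_mul_div_comm]⟩
      zero_mem' := ⟨1, fun h => by rw [zpow_zero, smul_one, div_one]⟩
      neg_mem' := by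
        rintro a ⟨b, hb⟩
        exact ⟨b⁻¹, fun h => by rw [zpow_neg, hb, smul_inv', inv_div, inv_div_inv]⟩ }
  have hT : ∀ i, ((H i).index : ℤ) ∈ T := by
    intro i
    letI := (H i).fintypeQuotientOfFiniteIndex
    obtain ⟨b, hb⟩ := h1 i
    let θ : E → A := fun g => F g * g • b
    have hθ : ∀ g : E, θ (g : E ⧸ H i).out = θ g := by
      intro g
      obtain ⟨u, hu⟩ := QuotientGroup.mk_out_eq_mul (H i) g
      change F _ * _ • b = F g * g • b
      rw [hu, hF g trivial _ trivial, hb _ u.2, smul_div', smul_smul, mul_assoc, div_mul_cancel]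
    have hθ' : ∀ h g : E, θ (h * g) = F h * h • θ g := by
      intro h g
      change F (h * g) * (h * g) • b = F h * h • (F g * g • b)
      rw [hF h trivial g trivial, smul_mul', smul_smul, mul_assoc]
    refine ⟨∏ x : E ⧸ H i, θ x.out, fun h => ?_⟩
    have h2 : ∏ x : E ⧸ H i, θ x.out = ∏ x : E ⧸ H i, θ (h • x).out :=
      (Fintype.prod_equiv (MulAction.toPerm h) _ _ (fun x => rfl)).symm
    have h3 : ∀ x : E ⧸ H i, θ (h • x).out = F h * h • θ x.out := by
      intro x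
      have h4 : ((h * x.out : E) : E ⧸ H i) = h • x := by
        conv_rhs => rw [← QuotientGroup.out_eq' x]
        rfl
      rw [← h4, hθ, hθ']
    rw [eq_div_iff_mul_eq']
    conv_rhs => rw [h2, Finset.prod_congr rfl fun x _ => h3 x, Finset.prod_mul_distrib,
      Finset.prod_const, Finset.card_univ]
    rw [Finset.smul_prod', Subgroup.index_eq_card, Nat.card_eq_fintype_card, zpow_natCast, mul_comm]
  obtain ⟨a, b, hb⟩ := mem_of_indices (fun i => (H i).index)
    (fun i => Subgroup.FiniteIndex.index_ne_zero) hp1 hH T hT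
  let r : A ≃* A := MulEquiv.ofBijective (powMonoidHom (p ^ a)) (pow_pow_bij hp a)
  have hr : ∀ x, r x = x ^ p ^ a := fun _ => rfl
  refine ⟨r.symm b, fun h => ?_⟩
  rw [← smul_root r hr, ← map_div, eq_comm, MulEquiv.symm_apply_eq, hr, ← hb, zpow_natCast]

end crossed

/-! ## sections -/

section sections

variable {E Γ : Type} [Group E] [Group Γ] (π : E →* Γ) (hcomm : ∀ a ∈ π.ker, ∀ b ∈ π.ker, a * b = b * a)

include hcomm in
/-- **Gluing lemma for sections** of a homomorphism with commutative kernel -/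
theorem glue_sec {ι : Type} [Nonempty ι] {U : ι → Subgroup Γ} [∀ i, (U i).FiniteIndex]
    (s : ∀ i, U i →* E) (hs : ∀ i (u : U i), π (s i u) = u)
    (hst : ∀ i j (g : Γ), ∃ e : E, π e = g ∧ ∀ (u : U i) (h : g * u * g⁻¹ ∈ U j),
      s j ⟨g * u * g⁻¹, h⟩ = e * s i u * e⁻¹)
    (p : ℕ) (hp : Function.Bijective fun a : π.ker => a ^ p) (hp1 : p = 1 ∨ p.Prime)
    (hH : ∀ q : ℕ, q.Prime → q ≠ p → ∃ i, ¬ q ∣ (U i).index) :
    ∃ S : Γ →* E, (∀ g, π (S g) = g) ∧ ∀ j, ∃ a ∈ π.ker, ∀ u : U j, S u = a * s j u * a⁻¹ := by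
  classical
  have hsurj : Function.Surjective π := by
    intro g
    obtain ⟨i⟩ := ‹Nonempty ι›
    obtain ⟨e, he, -⟩ := hst i i g
    exact ⟨e, he⟩
  letI cg : CommGroup π.ker := { (inferInstance : Group π.ker) with
    mul_comm := fun a b => Subtype.ext (hcomm a a.2 b b.2) }
  letI act : MulDistribMulAction E π.ker :=
    MulDistribMulAction.compHom π.ker (MulAut.conjNormal : E →* MulAut π.ker)
  have hact : ∀ (e : E) (a : π.ker), ((e • a : π.ker) : E) = e * a * e⁻¹ := fun e a => rfl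
  have hswap : ∀ (x y : E) (a : π.ker), π x = π y → x * a * x⁻¹ = y * a * y⁻¹ := by
    intro x y a h
    have h1 : y⁻¹ * x ∈ π.ker := by
      rw [MonoidHom.mem_ker, map_mul, map_inv, h, inv_mul_cancel]
    have h2 := hcomm _ h1 a a.2
    have h3 : x = y * (y⁻¹ * x) := by group
    rw [h3, mul_assoc y, h2]
    group
  let H : ι → Subgroup E := fun i => (U i).comap π
  haveI : ∀ i, (H i).FiniteIndex := fun i =>
    ⟨by
      change ((U i).comap π).index ≠ 0
      rw [Subgroup.index_comap_of_surjective _ hsurj]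
      exact Subgroup.FiniteIndex.index_ne_zero⟩
  let f : ι → E → π.ker := fun i x => if h : π x ∈ U i then
    ⟨x * (s i ⟨π x, h⟩)⁻¹, by
      rw [MonoidHom.mem_ker, map_mul, map_inv, hs]
      exact mul_inv_cancel _⟩ else 1
  have hfv : ∀ i x (h : π x ∈ U i), ((f i x : π.ker) : E) = x * (s i ⟨π x, h⟩)⁻¹ := by
    intro i x h
    change (((if h : π x ∈ U i then (⟨x * (s i ⟨π x, h⟩)⁻¹, _⟩ : π.ker) else 1) : π.ker) : E) = _
    rw [dif_pos h]
  have hf : ∀ i, Crossed (H i) (f i) := by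
    intro i x hx y hy
    have hx' : π x ∈ U i := hx
    have hy' : π y ∈ U i := hy
    have hxy : π (x * y) ∈ U i := by
      rw [map_mul]
      exact (U i).mul_mem hx' hy'
    apply Subtype.ext
    rw [Subgroup.coe_mul, hact, hfv i _ hxy, hfv i _ hx', hfv i _ hy']
    have h1 : s i ⟨π (x * y), hxy⟩ = s i ⟨π x, hx'⟩ * s i ⟨π y, hy'⟩ := by
      rw [← map_mul]
      congr 1
      exact Subtype.ext (map_mul π x y)
    have h2 := hcomm (x * (s i ⟨π x, hx'⟩)⁻¹) (by
        rw [← hfv i x hx']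
        exact (f i x).2) (x * (y * (s i ⟨π y, hy'⟩)⁻¹) * x⁻¹) (by
        rw [← hfv i y hy', ← hact]
        exact (x • f i y).2)
    rw [h2, h1]
    group
  have hstab : CStable H f := by
    intro i j g
    obtain ⟨e, he, hes⟩ := hst i j (π g)
    have hc : g * e⁻¹ ∈ π.ker := by
      rw [MonoidHom.mem_ker, map_mul, map_inv, he, mul_inv_cancel]
    refine ⟨⟨g * e⁻¹, hc⟩, fun x hx hxj => ?_⟩
    have hx' : π x ∈ U i := hx
    have hxj' : π (g * x * g⁻¹) ∈ U j := hxj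
    have hxj'' : π g * ((⟨π x, hx'⟩ : U i) : Γ) * (π g)⁻¹ ∈ U j := by
      rw [← map_inv, ← map_mul, ← map_mul]
      exact hxj'
    have h1 := hes ⟨π x, hx'⟩ hxj''
    apply Subtype.ext
    rw [Subgroup.coe_mul, Subgroup.coe_mul, hact, hact, hfv i x hx', hfv j _ hxj']
    have h2 : s j ⟨π (g * x * g⁻¹), hxj'⟩ = e * s i ⟨π x, hx'⟩ * e⁻¹ := by
      rw [← h1]
      congr 1
      exact Subtype.ext (by
        change π (g * x * g⁻¹) = π g * π x * (π g)⁻¹
        rw [map_mul, map_mul, map_inv])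
    rw [h2]
    change g * e⁻¹ * (g * (x * (s i ⟨π x, hx'⟩)⁻¹) * g⁻¹) =
      g * x * g⁻¹ * (e * s i ⟨π x, hx'⟩ * e⁻¹)⁻¹ * (g * x * g⁻¹ * (g * e⁻¹) * (g * x * g⁻¹)⁻¹)
    -- conjugation by `x` and by `s` agree on the kernel
    have h3 := hswap (g * x * g⁻¹) (e * s i ⟨π x, hx'⟩ * e⁻¹) ⟨g * e⁻¹, hc⟩ (by
      rw [map_mul, map_mul, map_mul, map_mul, map_inv, map_inv, he, hs])
    change g * x * g⁻¹ * (g * e⁻¹) * (g * x * g⁻¹)⁻¹ =
      e * s i ⟨π x, hx'⟩ * e⁻¹ * (g * e⁻¹) * (e * s i ⟨π x, hx'⟩ * e⁻¹)⁻¹ at h3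
    rw [h3]
    have h4 : g * (x * (s i ⟨π x, hx'⟩)⁻¹) * g⁻¹ ∈ π.ker := by
      rw [← hfv i x hx', ← hact]
      exact (g • f i x).2
    rw [hcomm _ hc _ h4]
    group
  have hH' : ∀ q : ℕ, q.Prime → q ≠ p → ∃ i, ¬ q ∣ (H i).index := by
    intro q hq hqp
    obtain ⟨i, hi⟩ := hH q hq hqp
    refine ⟨i, ?_⟩
    change ¬ q ∣ ((U i).comap π).index
    rwa [Subgroup.index_comap_of_surjective _ hsurj]
  obtain ⟨F, hF, hFj⟩ := glue_crossed hf hstab p hp hp1 hH'
  -- `F` is the identity on the kernel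
  have hFa : ∀ a : π.ker, F a = a := by
    intro a
    obtain ⟨j⟩ := ‹Nonempty ι›
    obtain ⟨b, hb⟩ := hFj j
    have ha : π (a : E) ∈ U j := by
      rw [MonoidHom.mem_ker.1 a.2]
      exact (U j).one_mem
    rw [hb a ha]
    apply Subtype.ext
    have h1 : ((a : E) • b : π.ker) = b := by
      apply Subtype.ext
      rw [hact, hcomm _ a.2 _ b.2, mul_inv_cancel_right]
    rw [h1, div_self', mul_one, hfv j _ ha]
    have h2 : (⟨π (a : E), ha⟩ : U j) = 1 := Subtype.ext (MonoidHom.mem_ker.1 a.2)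
    rw [h2, map_one, inv_one, mul_one]
  have hFm : ∀ x y, F (x * y) = F x * x • F y := fun x y => hF x trivial y trivial
  -- the section does not depend on the lift
  have hwd : ∀ x y : E, π x = π y → ((F x : E))⁻¹ * x = ((F y : E))⁻¹ * y := by
    intro x y h
    have h1 : x * y⁻¹ ∈ π.ker := by
      rw [MonoidHom.mem_ker, map_mul, map_inv, h, mul_inv_cancel]
    have h2 := hFm (⟨x * y⁻¹, h1⟩ : π.ker) y
    rw [hFa] at h2
    have h3 : ((⟨x * y⁻¹, h1⟩ : π.ker) : E) * y = x := by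
      change x * y⁻¹ * y = x
      group
    rw [h3] at h2
    have h4 : (((⟨x * y⁻¹, h1⟩ : π.ker) : E) • F y : π.ker) = F y := by
      apply Subtype.ext
      rw [hact, hcomm _ h1 _ (F y).2, mul_inv_cancel_right]
    rw [h4] at h2
    have h5 : (F x : E) = x * y⁻¹ * (F y : E) := congrArg Subtype.val h2
    rw [h5]
    group
  let t : Γ → E := fun g => (hsurj g).choose
  have ht : ∀ g, π (t g) = g := fun g => (hsurj g).choose_spec
  refine ⟨MonoidHom.mk' (fun g => ((F (t g) : E))⁻¹ * t g) (fun g h => ?_), fun g => ?_,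
    fun j => ?_⟩
  · rw [hwd (t (g * h)) (t g * t h) (by rw [ht, map_mul, ht, ht]), hFm, Subgroup.coe_mul, hact]
    have h1 := hcomm _ (F (t g)).2 _ (t g • F (t h)).2
    rw [hact] at h1
    rw [h1]
    group
  · change π (((F (t g) : E))⁻¹ * t g) = g
    rw [map_mul, map_inv, MonoidHom.mem_ker.1 (F (t g)).2, inv_one, one_mul, ht]
  · obtain ⟨b, hb⟩ := hFj j
    refine ⟨(b : E)⁻¹, π.ker.inv_mem b.2, fun u => ?_⟩
    change ((F (t u) : E))⁻¹ * t u = _
    have hu : π (s j u) ∈ U j := by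
      rw [hs]
      exact u.2
    rw [hwd (t u) (s j u) (by rw [ht, hs]), hb _ hu]
    have h1 : f j (s j u) = 1 := by
      apply Subtype.ext
      rw [hfv j _ hu]
      have h2 : (⟨π (s j u), hu⟩ : U j) = u := Subtype.ext (hs j u)
      rw [h2, mul_inv_cancel]
      rfl
    rw [h1, one_mul, div_eq_mul_inv, Subgroup.coe_mul, Subgroup.coe_inv, hact]
    have h3 : s j u * b * (s j u)⁻¹ ∈ π.ker := by
      rw [← hact]
      exact (s j u • b).2
    have h4 := hcomm _ b.2 _ (π.ker.inv_mem h3)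
    rw [h4]
    group

/-- **uniqueness of the section** -/
theorem sec_unique {ι : Type} [Nonempty ι] {U : ι → Subgroup Γ} [∀ i, (U i).FiniteIndex]
    (hcomm : ∀ a ∈ π.ker, ∀ b ∈ π.ker, a * b = b * a)
    (p : ℕ) (hp : Function.Bijective fun a : π.ker => a ^ p) (hp1 : p = 1 ∨ p.Prime)
    (hH : ∀ q : ℕ, q.Prime → q ≠ p → ∃ i, ¬ q ∣ (U i).index)
    (S S' : Γ →* E) (hS : ∀ g, π (S g) = g) (hS' : ∀ g, π (S' g) = g)
    (h : ∀ j, ∃ a ∈ π.ker, ∀ u : U j, S' u = a * S u * a⁻¹) :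
    ∃ a ∈ π.ker, ∀ g, S' g = a * S g * a⁻¹ := by
  classical
  letI cg : CommGroup π.ker := { (inferInstance : Group π.ker) with
    mul_comm := fun a b => Subtype.ext (hcomm a a.2 b b.2) }
  letI act : MulDistribMulAction Γ π.ker :=
    MulDistribMulAction.compHom π.ker ((MulAut.conjNormal : E →* MulAut π.ker).comp S)
  have hact : ∀ (g : Γ) (a : π.ker), ((g • a : π.ker) : E) = S g * a * (S g)⁻¹ := fun e a => rfl
  let F : Γ → π.ker := fun g => ⟨S' g * (S g)⁻¹, by
    rw [MonoidHom.mem_ker, map_mul, map_inv, hS, hS', mul_inv_cancel]⟩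
  have hFv : ∀ g, ((F g : π.ker) : E) = S' g * (S g)⁻¹ := fun _ => rfl
  have hF : Crossed ⊤ F := by
    intro x _ y _
    apply Subtype.ext
    rw [Subgroup.coe_mul, hact, hFv, hFv, hFv, map_mul, map_mul]
    group
  obtain ⟨b, hb⟩ := crossed_unique (H := U) hF p hp hp1 hH (fun j => by
    obtain ⟨a, ha, haj⟩ := h j
    refine ⟨⟨a, ha⟩, fun u hu => Subtype.ext ?_⟩
    rw [div_eq_mul_inv, Subgroup.coe_mul, Subgroup.coe_inv, hact, hFv]
    have h1 := haj ⟨u, hu⟩
    change S' u = a * S u * a⁻¹ at h1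
    rw [h1]
    change a * S u * a⁻¹ * (S u)⁻¹ = a * (S u * a * (S u)⁻¹)⁻¹
    group)
  refine ⟨b, b.2, fun g => ?_⟩
  have h1 := congrArg Subtype.val (hb g)
  change S' g * (S g)⁻¹ = ((b / g • b : π.ker) : E) at h1
  rw [div_eq_mul_inv, Subgroup.coe_mul, Subgroup.coe_inv, hact] at h1
  have h2 : S' g = (S' g * (S g)⁻¹) * S g := by group
  rw [h2, h1]
  group

end sections

end Pool.Agent.Q227.CD
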