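import Pool.Agent.Q227.CD.BN
import Pool.Agent.Q227.CD.Orb

/-!
# Extension of invariant semisimple representations along a cyclic quotient
-/

set_option autoImplicit false
set_option linter.unusedSectionVars false

namespace Pool.Agent.Q227.CD

open Representation Module Pool.Agent.Q15.GR

/-- extension of a homomorphism along a cyclic quotient -/
theorem ext_cyclic {Γ H : Type} [Group Γ] [Group H] (N : Subgroup Γ) [N.Normal] (g : Γ)
    (hcov : ∀ x : Γ, ∃ i : ℤ, g ^ (-i) * x ∈ N) (ρ : N →* H) (A : H)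
    (hA : ∀ n m : N, (m : Γ) = g * n * g⁻¹ → A * ρ n * A⁻¹ = ρ m)
    (hpow : ∀ (i : ℤ) (m : N), (m : Γ) = g ^ i → A ^ i = ρ m) :
    ∃ R : Γ →* H, (∀ n : N, R n = ρ n) ∧ R g = A := by
  choose ix hix using hcov
  -- conjugation by powers
  have hconj : ∀ (j : ℤ) (n m : N), (m : Γ) = g ^ j * n * g ^ (-j) →
      A ^ j * ρ n * A ^ (-j) = ρ m := by
    intro j
    induction j using Int.induction_on with
    | zero =>
      intro n m h
      rw [zpow_zero, neg_zero, zpow_zero, one_mul, mul_one] at h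
      rw [zpow_zero, neg_zero, zpow_zero, one_mul, mul_one, Subtype.ext h]
    | succ j ih =>
      intro n m h
      have h1 : g ^ (j : ℤ) * (n : Γ) * g ^ (-(j : ℤ)) ∈ N := by
        rw [zpow_neg]
        exact Subgroup.Normal.conj_mem inferInstance _ n.2 _
      have h2 := ih n ⟨_, h1⟩ rfl
      have h3 := hA ⟨_, h1⟩ m (by
        rw [h]
        change g ^ ((j : ℤ) + 1) * (n : Γ) * g ^ (-((j : ℤ) + 1)) =
          g * (g ^ (j : ℤ) * (n : Γ) * g ^ (-(j : ℤ))) * g⁻¹
        group)
      rw [← h3, ← h2]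
      group
    | pred j ih =>
      intro n m h
      have h1 : g ^ (-(j : ℤ)) * (n : Γ) * g ^ (- -(j : ℤ)) ∈ N := by
        rw [zpow_neg g (-(j : ℤ))]
        exact Subgroup.Normal.conj_mem inferInstance _ n.2 _
      have h2 := ih n ⟨_, h1⟩ rfl
      have h3 := hA m ⟨_, h1⟩ (by
        rw [h]
        change g ^ (-(j : ℤ)) * (n : Γ) * g ^ (- -(j : ℤ)) =
          g * (g ^ (-(j : ℤ) - 1) * (n : Γ) * g ^ (-(-(j : ℤ) - 1))) * g⁻¹
        group)
      rw [← h2] at h3
      have h4 : ρ m = A⁻¹ * (A * ρ m * A⁻¹) * A := by group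
      rw [h4, h3]
      group
  -- all choices of the exponent give the same element
  have hwd : ∀ (x : Γ) (j : ℤ) (m : N), (m : Γ) = g ^ (-j) * x →
      A ^ (ix x) * ρ ⟨_, hix x⟩ = A ^ j * ρ m := by
    intro x j m hm
    have h1 := hpow (j - ix x) (⟨_, hix x⟩ * m⁻¹) (by
      rw [Subgroup.coe_mul, Subgroup.coe_inv, hm]
      change g ^ (-ix x) * x * (g ^ (-j) * x)⁻¹ = g ^ (j - ix x)
      group)
    rw [map_mul, map_inv] at h1
    have h2 : ρ ⟨_, hix x⟩ = A ^ (j - ix x) * ρ m := by
      rw [h1]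
      group
    rw [h2, ← mul_assoc, ← zpow_add]
    congr 2
    ring
  refine ⟨MonoidHom.mk' (fun x => A ^ (ix x) * ρ ⟨_, hix x⟩) ?_, ?_, ?_⟩
  · intro x y
    have h1 : g ^ (-ix y) * (g ^ (-ix x) * x) * g ^ (-(-ix y)) ∈ N := by
      rw [zpow_neg g (-ix y)]
      exact Subgroup.Normal.conj_mem inferInstance _ (hix x) _
    have h2 := hconj (-ix y) ⟨_, hix x⟩ ⟨_, h1⟩ rfl
    have h3 := hwd (x * y) (ix x + ix y) (⟨_, h1⟩ * ⟨_, hix y⟩) (by
      change g ^ (-ix y) * (g ^ (-ix x) * x) * g ^ (-(-ix y)) * (g ^ (-ix y) * y) =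
        g ^ (-(ix x + ix y)) * (x * y)
      group)
    rw [h3, map_mul, ← h2, zpow_add]
    group
  · intro n
    have h1 := hwd n 0 n (by rw [neg_zero, zpow_zero, one_mul])
    rw [zpow_zero, one_mul] at h1
    exact h1
  · have h1 := hwd g 1 1 (by rw [zpow_neg, zpow_one, inv_mul_cancel]; rfl)
    rw [zpow_one, map_one, mul_one] at h1
    exact h1

variable {k : Type} [Field k] [IsAlgClosed k]

theorem semi_comp_surj {G H : Type} [Group G] [Group H] {V : Type} [AddCommGroup V] [Module k V]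
    (ρ : Representation k G V) (φ : H →* G) (hφ : Function.Surjective φ)
    (h : ρ.IsSemisimpleRepresentation) :
    IsSemisimpleRepresentation (ρ.comp φ : Representation k H V) := by
  refine ⟨fun S => ?_⟩
  let S' : Subrepresentation ρ :=
    { toSubmodule := S.toSubmodule
      apply_mem_toSubmodule := fun g v hv => by
        obtain ⟨h, rfl⟩ := hφ g
        exact S.apply_mem_toSubmodule h hv }
  obtain ⟨T', hT'⟩ := h.exists_isCompl S'
  let T : Subrepresentation (ρ.comp φ : Representation k H V) :=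
    { toSubmodule := T'.toSubmodule
      apply_mem_toSubmodule := fun g v hv => T'.apply_mem_toSubmodule (φ g) hv }
  refine ⟨T, ?_, ?_⟩
  · have h1 : S' ⊓ T' = ⊥ := disjoint_iff.1 hT'.disjoint
    rw [disjoint_iff]
    apply Subrepresentation.toSubmodule_injective
    have h2 : S'.toSubmodule ⊓ T'.toSubmodule = ⊥ := congrArg Subrepresentation.toSubmodule h1
    exact h2
  · have h1 : S' ⊔ T' = ⊤ := codisjoint_iff.1 hT'.codisjoint
    rw [codisjoint_iff]
    apply Subrepresentation.toSubmodule_injective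
    have h2 : S'.toSubmodule ⊔ T'.toSubmodule = ⊤ := congrArg Subrepresentation.toSubmodule h1
    exact h2

theorem eig_pow {V : Type} [AddCommGroup V] [Module k V] [FiniteDimensional k V]
    (T : V →ₗ[k] V) (m : ℕ) : eig (T ^ m) = (eig T).map fun x => x ^ m := by
  let b := (Module.finBasis k V).equivFun
  have h1 : ∀ S : V →ₗ[k] V, eig S = (b.conj S).charpoly.roots := by
    intro S
    unfold eig
    rw [LinearEquiv.charpoly_conj]
  rw [h1, h1, ← roots_pow]
  congr 2
  have h2 : ∀ m : ℕ, b.conj (T ^ m) = (b.conj T) ^ m := by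
    intro m
    induction m with
    | zero =>
      rw [pow_zero, pow_zero]
      exact b.conj_id
    | succ m ih =>
      rw [pow_succ, pow_succ, ← ih]
      exact b.conj_comp _ _
  exact h2 m

end Pool.Agent.Q227.CD
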