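import Mathlib

/-!
# Gluing homomorphisms given on subgroups of finite index

Let `H i` be subgroups of finite index of a group `G` and `f i : H i → A` homomorphisms to a
commutative group which are compatible with conjugation in `G`.  The transfers of the `f i` show
that some homomorphism `F : G → A` restricts to `(f i) ^ m` on every `H i`, where `m` is the greatest
common divisor of the indices.
-/

set_option autoImplicit false
set_option linter.unusedSectionVars false

namespace Pool.Agent.Q227.CD

open MulAction Subgroup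

variable {G A : Type*} [Group G] [CommGroup A]

/-- the homomorphisms are compatible with conjugation -/
def Stable {ι : Type*} (H : ι → Subgroup G) (f : ∀ i, H i →* A) : Prop :=
  ∀ i j (x : H i) (g : G) (h : g * x * g⁻¹ ∈ H j), f j ⟨g * x * g⁻¹, h⟩ = f i x

theorem sum_minimalPeriod (H : Subgroup G) [H.FiniteIndex] (g : G)
    [Fintype (Quotient (orbitRel (zpowers g) (G ⧸ H)))] :
    ∑ q : Quotient (orbitRel (zpowers g) (G ⧸ H)), Function.minimalPeriod (g • ·) q.out =
      H.index := by
  classical
  letI := H.fintypeQuotientOfFiniteIndex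
  simp only [minimalPeriod_eq_card]
  rw [← Fintype.card_sigma, Subgroup.index_eq_card, Nat.card_eq_fintype_card]
  exact (Fintype.card_congr (selfEquivSigmaOrbits (zpowers g) (G ⧸ H))).symm

theorem transfer_stable {ι : Type*} {H : ι → Subgroup G} [∀ i, (H i).FiniteIndex]
    {f : ∀ i, H i →* A} (hf : Stable H f) (i j : ι) (x : H j) :
    MonoidHom.transfer (f i) (x : G) = f j x ^ (H i).index := by
  classical
  letI := (H i).fintypeQuotientOfFiniteIndex
  rw [MonoidHom.transfer_eq_prod_quotient_orbitRel_zpowers_quot, ← sum_minimalPeriod (H i) (x : G),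
    ← Finset.prod_pow_eq_pow_sum]
  refine Finset.prod_congr rfl fun q _ => ?_
  rw [← map_pow]
  have key := QuotientGroup.out_conj_pow_minimalPeriod_mem (H i) (x : G) q.out
  have h1 : (q.out.out)⁻¹ * ((x ^ Function.minimalPeriod ((x : G) • ·) q.out : H j) : G) *
      ((q.out.out)⁻¹)⁻¹ ∈ H i := by
    rw [inv_inv, Subgroup.coe_pow]
    exact key
  have h2 := hf j i (x ^ Function.minimalPeriod ((x : G) • ·) q.out) (q.out.out)⁻¹ h1
  rw [← h2]
  congr 1
  apply Subtype.ext
  change _ = (q.out.out)⁻¹ * ((x ^ Function.minimalPeriod ((x : G) • ·) q.out : H j) : G) *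
      ((q.out.out)⁻¹)⁻¹
  rw [inv_inv, Subgroup.coe_pow]

theorem transfer_restrict (H : Subgroup G) [H.FiniteIndex] (F : G →* A) (x : G) :
    MonoidHom.transfer (F.comp H.subtype) x = F x ^ H.index := by
  classical
  letI := H.fintypeQuotientOfFiniteIndex
  rw [MonoidHom.transfer_eq_prod_quotient_orbitRel_zpowers_quot, ← sum_minimalPeriod H x,
    ← Finset.prod_pow_eq_pow_sum]
  refine Finset.prod_congr rfl fun q _ => ?_
  change F ((q.out.out)⁻¹ * x ^ _ * q.out.out) = _
  rw [map_mul, map_mul, map_inv, map_pow, mul_right_comm, inv_mul_cancel, one_mul]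

theorem transfer_one' (H : Subgroup G) [H.FiniteIndex] (x : G) :
    MonoidHom.transfer (1 : H →* A) x = 1 := by
  have h1 : (1 : H →* A) = (1 : G →* A).comp H.subtype := rfl
  rw [h1, transfer_restrict, MonoidHom.one_apply, one_pow]

/-- the exponents `m` for which the `m`-th powers of the `f i` have a common extension -/
def expo {ι : Type*} (H : ι → Subgroup G) (f : ∀ i, H i →* A) : AddSubgroup ℤ where
  carrier := {m | ∃ F : G →* A, ∀ j (x : H j), F x = f j x ^ m}
  add_mem' := by
    rintro a b ⟨F, hF⟩ ⟨F', hF'⟩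
    exact ⟨F * F', fun j x => by rw [MonoidHom.mul_apply, hF, hF', zpow_add]⟩
  zero_mem' := ⟨1, fun j x => by rw [MonoidHom.one_apply, zpow_zero]⟩
  neg_mem' := by
    rintro a ⟨F, hF⟩
    exact ⟨F⁻¹, fun j x => by rw [MonoidHom.inv_apply, hF, zpow_neg]⟩

/-- **Gluing lemma.** Compatible homomorphisms on subgroups of finite index `H i` extend to the
whole group if every prime number but `p` is prime to one of the indices and `x ↦ x ^ p` is bijective
on `A` (`p = 1` is allowed). -/
theorem glue_hom {ι : Type*} {H : ι → Subgroup G} [∀ i, (H i).FiniteIndex] {f : ∀ i, H i →* A}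
    (hf : Stable H f) (p : ℕ) (hp : Function.Bijective fun a : A => a ^ p) (hp1 : p = 1 ∨ p.Prime)
    (hH : ∀ q : ℕ, q.Prime → q ≠ p → ∃ i, ¬ q ∣ (H i).index) [Nonempty ι] :
    ∃ F : G →* A, ∀ j (x : H j), F x = f j x := by
  classical
  obtain ⟨g, hg⟩ := Int.subgroup_cyclic (expo H f)
  have hmem : ∀ i, ((H i).index : ℤ) ∈ expo H f := fun i =>
    ⟨MonoidHom.transfer (f i), fun j x => by
      rw [transfer_stable hf i j x, zpow_natCast]⟩
  have hdvd : ∀ i, g.natAbs ∣ (H i).index := by
    intro i
    have h1 := hmem i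
    rw [hg, AddSubgroup.mem_closure_singleton] at h1
    obtain ⟨n, hn⟩ := h1
    rw [← Int.natCast_dvd_natCast, Int.natCast_natAbs, abs_dvd]
    exact ⟨n, by rw [← hn, smul_eq_mul, mul_comm]⟩
  have hg0 : g.natAbs ≠ 0 := by
    intro h0
    obtain ⟨i⟩ := ‹Nonempty ι›
    have h1 := hdvd i
    rw [h0, zero_dvd_iff] at h1
    exact Subgroup.FiniteIndex.index_ne_zero h1
  have hpow : ∃ a : ℕ, g.natAbs = p ^ a := by
    rcases hp1 with rfl | hpp
    · refine ⟨0, ?_⟩
      rw [pow_zero]
      by_contra hne
      obtain ⟨q, hq, hqd⟩ := Nat.exists_prime_and_dvd hne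
      obtain ⟨i, hi⟩ := hH q hq hq.one_lt.ne'
      exact hi (hqd.trans (hdvd i))
    · have h2 : ∀ q : ℕ, q.Prime → q ∣ g.natAbs → q = p := by
        intro q hq hqd
        by_contra hne
        obtain ⟨i, hi⟩ := hH q hq hne
        exact hi (hqd.trans (hdvd i))
      exact ⟨_, Nat.eq_prime_pow_of_unique_prime_dvd hg0 (fun {d} hd hd' => h2 d hd hd')⟩
  obtain ⟨a, ha⟩ := hpow
  have hgm : (g.natAbs : ℤ) ∈ expo H f := by
    have h1 : g ∈ expo H f := by
      rw [hg]
      exact AddSubgroup.subset_closure rfl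
    rcases Int.natAbs_eq g with h2 | h2
    · rw [← h2]
      exact h1
    · have h3 : ((g.natAbs : ℕ) : ℤ) = - g := by omega
      rw [h3]
      exact (expo H f).neg_mem h1
  obtain ⟨F, hF⟩ := hgm
  have hbij : Function.Bijective (powMonoidHom (p ^ a) : A →* A) := by
    have h1 : ∀ b : ℕ, Function.Bijective fun x : A => x ^ p ^ b := by
      intro b
      induction b with
      | zero =>
        have : (fun x : A => x ^ p ^ 0) = id := by
          funext x
          rw [pow_zero, pow_one]
          rfl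
        rw [this]
        exact Function.bijective_id
      | succ b ih =>
        have : (fun x : A => x ^ p ^ (b + 1)) = (fun x : A => x ^ p) ∘ (fun x : A => x ^ p ^ b) := by
          funext x
          rw [Function.comp_apply, ← pow_mul, pow_succ]
        rw [this]
        exact hp.comp ih
    exact h1 a
  let r : A ≃* A := MulEquiv.ofBijective (powMonoidHom (p ^ a)) hbij
  refine ⟨r.symm.toMonoidHom.comp F, fun j x => ?_⟩
  change r.symm (F x) = f j x
  rw [MulEquiv.symm_apply_eq, hF, ha]
  change f j x ^ ((p ^ a : ℕ) : ℤ) = f j x ^ (p ^ a)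
  rw [zpow_natCast]

/-- uniqueness of the extension -/
theorem hom_unique {ι : Type*} {H : ι → Subgroup G} [∀ i, (H i).FiniteIndex]
    (p : ℕ) (hp : Function.Injective fun a : A => a ^ p) (hp1 : p = 1 ∨ p.Prime)
    (hH : ∀ q : ℕ, q.Prime → q ≠ p → ∃ i, ¬ q ∣ (H i).index) [Nonempty ι]
    (F : G →* A) (hF : ∀ j (x : H j), F x = 1) : F = 1 := by
  classical
  have h1 : ∀ (i : ι) (x : G), F x ^ (H i).index = 1 := by
    intro i x
    rw [← transfer_restrict]
    have h2 : F.comp (H i).subtype = 1 := MonoidHom.ext fun y => hF i y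
    rw [h2, transfer_one']
  ext x
  rw [MonoidHom.one_apply]
  have h2 : ∃ a : ℕ, orderOf (F x) = p ^ a := by
    have h3 : ∀ i, orderOf (F x) ∣ (H i).index := fun i => orderOf_dvd_of_pow_eq_one (h1 i x)
    have h0 : orderOf (F x) ≠ 0 := by
      intro h0
      obtain ⟨i⟩ := ‹Nonempty ι›
      have h4 := h3 i
      rw [h0, zero_dvd_iff] at h4
      exact Subgroup.FiniteIndex.index_ne_zero h4
    rcases hp1 with rfl | hpp
    · refine ⟨0, ?_⟩
      rw [pow_zero]
      by_contra hne
      obtain ⟨q, hq, hqd⟩ := Nat.exists_prime_and_dvd hne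
      obtain ⟨i, hi⟩ := hH q hq hq.one_lt.ne'
      exact hi (hqd.trans (h3 i))
    · refine ⟨_, Nat.eq_prime_pow_of_unique_prime_dvd h0 (fun {q} hq hqd => ?_)⟩
      by_contra hne
      obtain ⟨i, hi⟩ := hH q hq hne
      exact hi (hqd.trans (h3 i))
  obtain ⟨a, ha⟩ := h2
  have h3 : F x ^ p ^ a = 1 := by
    rw [← ha]
    exact pow_orderOf_eq_one _
  have h4 : ∀ b : ℕ, ∀ y : A, y ^ p ^ b = 1 → y = 1 := by
    intro b
    induction b with
    | zero =>
      intro y hy
      rwa [pow_zero, pow_one] at hy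
    | succ b ih =>
      intro y hy
      apply ih
      apply hp
      change (y ^ p ^ b) ^ p = 1 ^ p
      rw [← pow_mul, ← pow_succ, hy, one_pow]
  exact h4 a _ h3

end Pool.Agent.Q227.CD
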