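import Pool.Agent.Q227.CD.Irr
import Pool.Agent.Q227.CD.Hom

/-!
# Gluing irreducible representations of subgroups

`Γ` is a group, `N` a normal subgroup, `U i` subgroups of `Γ` containing `N`, and `ρ i`
representations of the `U i` which are irreducible on `N` and have characters that agree on conjugate
elements.  The scalar factors `sc i` give compatible homomorphisms on subgroups of the group `E` of
pairs `(g, B)`, `B` intertwining `ρ₀` and its conjugate by `g`; an extension of these homomorphisms to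
`E` is the same as a representation of `Γ` which extends all `ρ i`.
-/

set_option autoImplicit false
set_option linter.unusedSectionVars false

namespace Pool.Agent.Q227.CD

open Representation Module Pool.Agent.Q15.GR

variable {k : Type} [Field k] [IsAlgClosed k] {Γ : Type} [Group Γ]
variable {V : Type} [AddCommGroup V] [Module k V] [FiniteDimensional k V]
variable {N : Subgroup Γ} [N.Normal]

/-- the pairs `(g, B)` such that `B` intertwines `ρ₀` and its conjugate by `g` -/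
def E (ρ₀ : Representation k N V) : Subgroup (Γ × (V ≃ₗ[k] V)) where
  carrier := {x | ∀ (ν : N) (v : V), x.2 (ρ₀ ν v) =
    ρ₀ ⟨x.1 * ν * x.1⁻¹, ‹N.Normal›.conj_mem ν ν.2 x.1⟩ (x.2 v)}
  one_mem' := by
    intro ν v
    change ρ₀ ν v = ρ₀ ⟨1 * ν * 1⁻¹, _⟩ v
    congr 3
    apply Subtype.ext
    simp
  mul_mem' := by
    rintro ⟨g, B⟩ ⟨h, C⟩ hx hy ν v
    change B (C (ρ₀ ν v)) = ρ₀ ⟨g * h * ν * (g * h)⁻¹, _⟩ (B (C v))
    have h1 := hy ν v
    have h2 := hx ⟨h * ν * h⁻¹, ‹N.Normal›.conj_mem ν ν.2 h⟩ (C v)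
    change C (ρ₀ ν v) = _ at h1
    rw [h1]
    refine h2.trans ?_
    congr 3
    change g * (h * ν * h⁻¹) * g⁻¹ = g * h * ν * (g * h)⁻¹
    group
  inv_mem' := by
    rintro ⟨g, B⟩ hx ν v
    change B.symm (ρ₀ ν v) = ρ₀ ⟨g⁻¹ * ν * g⁻¹⁻¹, _⟩ (B.symm v)
    rw [LinearEquiv.symm_apply_eq]
    have h1 := hx ⟨g⁻¹ * ν * g⁻¹⁻¹, ‹N.Normal›.conj_mem ν ν.2 g⁻¹⟩ (B.symm v)
    refine Eq.trans ?_ h1.symm
    change ρ₀ ν v = ρ₀ _ (B (B.symm v))
    rw [LinearEquiv.apply_symm_apply]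
    congr 2
    apply Subtype.ext
    change (ν : Γ) = g * (g⁻¹ * ν * g⁻¹⁻¹) * g⁻¹
    group

/-- the projection -/
def pr (ρ₀ : Representation k N V) : E ρ₀ →* Γ := (MonoidHom.fst Γ (V ≃ₗ[k] V)).comp (E ρ₀).subtype

theorem mem_E {ρ₀ : Representation k N V} (x : E ρ₀) (ν : N) (v : V) : x.1.2 (ρ₀ ν v) =
    ρ₀ ⟨pr ρ₀ x * ν * (pr ρ₀ x)⁻¹, ‹N.Normal›.conj_mem ν ν.2 _⟩ (x.1.2 v) := x.2 ν v

/-- a linear automorphism which intertwines -/
noncomputable def inv' {G : Type} [Group G] (ρ : Representation k G V) (g : G) : V ≃ₗ[k] V :=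
  LinearEquiv.ofLinear (ρ g) (ρ g⁻¹)
    (by rw [← Module.End.mul_eq_comp, ← map_mul, mul_inv_cancel, map_one]; rfl)
    (by rw [← Module.End.mul_eq_comp, ← map_mul, inv_mul_cancel, map_one]; rfl)

theorem inv'_apply {G : Type} [Group G] (ρ : Representation k G V) (g : G) (v : V) :
    inv' ρ g v = ρ g v := rfl

section

variable {ρ₀ : Representation k N V} (h0 : ρ₀.IsIrreducible)

include h0 in
theorem exists_scalar {x : E ρ₀} {U : Subgroup Γ} (hU : N ≤ U) (ρ : Representation k U V)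
    (hρ : ∀ ν : N, ρ ⟨ν, hU ν.2⟩ = ρ₀ ν) (hx : pr ρ₀ x ∈ U) :
    ∃ c : kˣ, ∀ v, x.1.2 v = (c : k) • ρ ⟨pr ρ₀ x, hx⟩ v := by
  let g : U := ⟨pr ρ₀ x, hx⟩
  let T : V →ₗ[k] V := ρ g⁻¹ ∘ₗ x.1.2.toLinearMap
  have hT : ∀ ν, T ∘ₗ ρ₀ ν = ρ₀ ν ∘ₗ T := by
    intro ν
    ext v
    change ρ g⁻¹ (x.1.2 (ρ₀ ν v)) = ρ₀ ν (ρ g⁻¹ (x.1.2 v))
    rw [mem_E, ← hρ, ← hρ, ← Module.End.mul_apply, ← Module.End.mul_apply, ← map_mul, ← map_mul]
    congr 2
    apply Subtype.ext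
    change (pr ρ₀ x)⁻¹ * (pr ρ₀ x * ν * (pr ρ₀ x)⁻¹) = ν * (pr ρ₀ x)⁻¹
    group
  obtain ⟨c, hc⟩ := schur ρ₀ h0 T hT
  haveI := nontriv ρ₀ h0
  have hgg : ∀ v, ρ g (ρ g⁻¹ v) = v := by
    intro v
    rw [← Module.End.mul_apply, ← map_mul, mul_inv_cancel, map_one, Module.End.one_apply]
  have h1 : ∀ v, x.1.2 v = c • ρ g v := by
    intro v
    have h2 : ρ g⁻¹ (x.1.2 v) = c • v := LinearMap.congr_fun hc v
    rw [← map_smul, ← h2, hgg]
  have hc0 : c ≠ 0 := by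
    rintro rfl
    obtain ⟨v, hv⟩ := exists_ne (0 : V)
    have h2 := h1 v
    rw [zero_smul] at h2
    exact hv (x.1.2.map_eq_zero_iff.1 h2)
  exact ⟨Units.mk0 c hc0, h1⟩

include h0 in
theorem scalar_unique {U : Subgroup Γ} (ρ : Representation k U V) (g : U) {c c' : k}
    (h : ∀ v, c • ρ g v = c' • ρ g v) : c = c' := by
  haveI := nontriv ρ₀ h0
  obtain ⟨v, hv⟩ := exists_ne (0 : V)
  have h1 := h (ρ g⁻¹ v)
  rw [← Module.End.mul_apply, ← map_mul, mul_inv_cancel, map_one, Module.End.one_apply] at h1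
  exact smul_left_injective k hv h1

/-- the scalar factor, a homomorphism -/
noncomputable def sc {U : Subgroup Γ} (hU : N ≤ U) (ρ : Representation k U V)
    (hρ : ∀ ν : N, ρ ⟨ν, hU ν.2⟩ = ρ₀ ν) : U.comap (pr ρ₀) →* kˣ where
  toFun x := (exists_scalar h0 hU ρ hρ x.2).choose
  map_one' := by
    have h1 := (exists_scalar h0 hU ρ hρ (1 : U.comap (pr ρ₀)).2).choose_spec
    apply Units.ext
    refine scalar_unique h0 ρ 1 (fun v => ?_)
    refine Eq.trans (h1 v).symm ?_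
    rw [map_one, Module.End.one_apply, Units.val_one, one_smul]
    rfl
  map_mul' x y := by
    have h1 := (exists_scalar h0 hU ρ hρ (x * y).2).choose_spec
    have h2 := (exists_scalar h0 hU ρ hρ x.2).choose_spec
    have h3 := (exists_scalar h0 hU ρ hρ y.2).choose_spec
    apply Units.ext
    refine scalar_unique h0 ρ (⟨pr ρ₀ x, x.2⟩ * ⟨pr ρ₀ y, y.2⟩) (fun v => ?_)
    refine Eq.trans (h1 v).symm ?_
    change x.1.1.2 (y.1.1.2 v) = _
    refine (congrArg x.1.1.2 (h3 v)).trans ?_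
    refine (h2 _).trans ?_
    rw [Units.val_mul, map_mul, Module.End.mul_apply, map_smul, smul_smul]

theorem sc_spec {U : Subgroup Γ} (hU : N ≤ U) (ρ : Representation k U V)
    (hρ : ∀ ν : N, ρ ⟨ν, hU ν.2⟩ = ρ₀ ν) (x : U.comap (pr ρ₀)) (v : V) :
    x.1.1.2 v = (sc h0 hU ρ hρ x : k) • ρ ⟨pr ρ₀ x, x.2⟩ v :=
  (exists_scalar h0 hU ρ hρ x.2).choose_spec v

/-- elements of `E` from elements of `U` -/
noncomputable def up {U : Subgroup Γ} (hU : N ≤ U) (ρ : Representation k U V)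
    (hρ : ∀ ν : N, ρ ⟨ν, hU ν.2⟩ = ρ₀ ν) (g : U) : E ρ₀ :=
  ⟨((g : Γ), inv' ρ g), by
    intro ν v
    change ρ g (ρ₀ ν v) = ρ₀ _ (ρ g v)
    rw [← hρ, ← hρ, ← Module.End.mul_apply, ← Module.End.mul_apply, ← map_mul, ← map_mul]
    congr 2
    apply Subtype.ext
    change (g : Γ) * ν = (g : Γ) * ν * (g : Γ)⁻¹ * g
    group⟩

theorem pr_up {U : Subgroup Γ} (hU : N ≤ U) (ρ : Representation k U V)
    (hρ : ∀ ν : N, ρ ⟨ν, hU ν.2⟩ = ρ₀ ν) (g : U) : pr ρ₀ (up hU ρ hρ g) = g := rfl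

theorem sc_up {U : Subgroup Γ} (hU : N ≤ U) (ρ : Representation k U V)
    (hρ : ∀ ν : N, ρ ⟨ν, hU ν.2⟩ = ρ₀ ν) (g : U) :
    sc h0 hU ρ hρ ⟨up hU ρ hρ g, g.2⟩ = 1 := by
  have h1 := sc_spec h0 hU ρ hρ ⟨up hU ρ hρ g, g.2⟩
  apply Units.ext
  refine scalar_unique h0 ρ g (fun v => ?_)
  refine Eq.trans (h1 v).symm ?_
  rw [Units.val_one, one_smul]
  rfl

/-- a representation from a homomorphism that splits off the scalars -/
theorem rep_of_hom (hsurj : Function.Surjective (pr ρ₀)) (F : E ρ₀ →* kˣ)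
    {ι : Type} [Nonempty ι] {U : ι → Subgroup Γ} (hU : ∀ i, N ≤ U i)
    (ρ : ∀ i, Representation k (U i) V) (hρ : ∀ i, ∀ ν : N, ρ i ⟨ν, hU i ν.2⟩ = ρ₀ ν)
    (hF : ∀ i (x : (U i).comap (pr ρ₀)), F x = sc h0 (hU i) (ρ i) (hρ i) x) :
    ∃ R : Representation k Γ V, ∀ i (g : U i), R g = ρ i g := by
  classical
  obtain ⟨i⟩ := ‹Nonempty ι›
  have hz : ∀ x y : E ρ₀, pr ρ₀ x = pr ρ₀ y →
      ((F x)⁻¹ : kˣ) • (x.1.2.toLinearMap : V →ₗ[k] V) =
      ((F y)⁻¹ : kˣ) • (y.1.2.toLinearMap : V →ₗ[k] V) := by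
    intro x y hxy
    have hm : pr ρ₀ (y⁻¹ * x) ∈ U i := by
      rw [map_mul, map_inv, hxy, inv_mul_cancel]
      exact (U i).one_mem
    have h1 := hF i ⟨y⁻¹ * x, hm⟩
    have h2 : ∀ v, x.1.2 v = (F (y⁻¹ * x) : k) • y.1.2 v := by
      intro v
      have h3 := sc_spec h0 (hU i) (ρ i) (hρ i) ⟨y⁻¹ * x, hm⟩ v
      rw [← h1] at h3
      have h4 : (⟨pr ρ₀ (y⁻¹ * x), hm⟩ : U i) = 1 := by
        apply Subtype.ext
        change pr ρ₀ (y⁻¹ * x) = 1
        rw [map_mul, map_inv, hxy, inv_mul_cancel]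
      change y.1.2.symm (x.1.2 v) = (F (y⁻¹ * x) : k) • ρ i ⟨pr ρ₀ (y⁻¹ * x), hm⟩ v at h3
      rw [h4, map_one, Module.End.one_apply, LinearEquiv.symm_apply_eq, map_smul] at h3
      exact h3
    ext v
    rw [LinearMap.smul_apply, LinearMap.smul_apply]
    change ((F x)⁻¹ : kˣ) • (x.1.2 v) = ((F y)⁻¹ : kˣ) • (y.1.2 v)
    rw [h2 v]
    change (((F x)⁻¹ : kˣ) : k) • (F (y⁻¹ * x) : k) • y.1.2 v = (((F y)⁻¹ : kˣ) : k) • (y.1.2 v)
    rw [smul_smul, ← Units.val_mul, map_mul, map_inv]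
    congr 2
    rw [mul_comm (F y)⁻¹, ← mul_assoc, inv_mul_cancel, one_mul]
  let s : Γ → E ρ₀ := fun g => (hsurj g).choose
  have hs : ∀ g, pr ρ₀ (s g) = g := fun g => (hsurj g).choose_spec
  refine ⟨{ toFun := fun g => ((F (s g))⁻¹ : kˣ) • ((s g).1.2.toLinearMap : V →ₗ[k] V)
            map_one' := ?_
            map_mul' := fun g h => ?_ }, fun j g => ?_⟩
  · have h1 := hz (s 1) 1 (by rw [hs, map_one])
    rw [h1, map_one, inv_one, one_smul]
    rfl
  · have h1 := hz (s (g * h)) (s g * s h) (by rw [hs, map_mul, hs, hs])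
    rw [h1]
    ext v
    rw [LinearMap.smul_apply, Module.End.mul_apply, LinearMap.smul_apply, LinearMap.smul_apply]
    change ((F (s g * s h))⁻¹ : kˣ) • ((s g).1.2 ((s h).1.2 v)) = ((F (s g))⁻¹ : kˣ) •
      ((s g).1.2 ((((F (s h))⁻¹ : kˣ) : k) • (s h).1.2 v))
    rw [map_smul]
    change (((F (s g * s h))⁻¹ : kˣ) : k) • ((s g).1.2 ((s h).1.2 v)) = (((F (s g))⁻¹ : kˣ) : k) •
      (((F (s h))⁻¹ : kˣ) : k) • ((s g).1.2 ((s h).1.2 v))
    rw [smul_smul, ← Units.val_mul, map_mul, mul_inv]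
  · have h1 := hz (s g) (up (hU j) (ρ j) (hρ j) g) (by rw [hs, pr_up])
    refine h1.trans ?_
    have h2 := hF j ⟨up (hU j) (ρ j) (hρ j) g, g.2⟩
    rw [sc_up] at h2
    rw [h2, inv_one, one_smul]
    rfl

end

/-! ## the compatibility of the scalar factors -/

section compat

variable {ρ₀ : Representation k N V} (h0 : ρ₀.IsIrreducible)
variable {ι : Type} {U : ι → Subgroup Γ} (hU : ∀ i, N ≤ U i)
  (ρ : ∀ i, Representation k (U i) V) (hρ : ∀ i, ∀ ν : N, ρ i ⟨ν, hU i ν.2⟩ = ρ₀ ν)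

theorem sc_stable (hch : ∀ i j (x : U i) (g : Γ) (h : g * x * g⁻¹ ∈ U j),
      (ρ j).character ⟨g * x * g⁻¹, h⟩ = (ρ i).character x) :
    Stable (fun i => (U i).comap (pr ρ₀)) (fun i => sc h0 (hU i) (ρ i) (hρ i)) := by
  intro i j x y hxy
  -- the group on which both representations live
  let g : Γ := pr ρ₀ y
  let W : Subgroup Γ := U i ⊓ (U j).comap (MulAut.conj g).toMonoidHom
  have hW1 : ∀ w : W, (w : Γ) ∈ U i := fun w => w.2.1
  have hW2 : ∀ w : W, g * w * g⁻¹ ∈ U j := fun w => w.2.2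
  let a : W →* U j := (((MulAut.conj g).toMonoidHom.comp W.subtype).codRestrict (U j)
    fun w => hW2 w)
  let b : W →* U i := (W.subtype.codRestrict (U i) fun w => hW1 w)
  let α : Representation k W V := (ρ j).comp a
  let β : Representation k W V := tp ((ρ i).comp b : Representation k W V) y.1.2
  have hNW : N ≤ W := by
    intro ν hν
    refine ⟨hU i hν, hU j ?_⟩
    exact ‹N.Normal›.conj_mem ν hν g
  let c : N →* W := (N.subtype.codRestrict W fun ν => hNW ν.2)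
  have hαN : ∀ (ν : N) (v : V), α (c ν) v =
      ρ₀ ⟨g * ν * g⁻¹, ‹N.Normal›.conj_mem ν ν.2 g⟩ v := by
    intro ν v
    rw [← hρ j]
    rfl
  have hβN : ∀ (ν : N) (v : V), β (c ν) v = α (c ν) v := by
    intro ν v
    rw [hαN]
    have h1 : ρ i (b (c ν)) = ρ₀ ν := hρ i ν
    change y.1.2 (ρ i (b (c ν)) (y.1.2.symm v)) = _
    rw [h1, mem_E, LinearEquiv.apply_symm_apply]
  have hαc : (α.comp c : Representation k N V) =
      ρ₀.comp (((MulAut.conj g).toMonoidHom.comp N.subtype).codRestrict N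
        fun ν => ‹N.Normal›.conj_mem ν ν.2 g) := by
    ext ν v
    exact hαN ν v
  have hαNirr : Representation.IsIrreducible (α.comp c : Representation k N V) := by
    rw [hαc]
    refine irr_comp_surj ρ₀ _ ?_ h0
    intro ν
    refine ⟨⟨g⁻¹ * ν * g⁻¹⁻¹, ‹N.Normal›.conj_mem ν ν.2 g⁻¹⟩, ?_⟩
    apply Subtype.ext
    change g * (g⁻¹ * ν * g⁻¹⁻¹) * g⁻¹ = ν
    group
  have hβc : (β.comp c : Representation k N V) = α.comp c := by
    ext ν v
    exact hβN ν v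
  have hαirr : α.IsIrreducible := irr_of_comp α c hαNirr
  have hβirr : β.IsIrreducible := irr_of_comp β c (by rw [hβc]; exact hαNirr)
  have hchar : α.character = β.character := by
    rw [char_tp]
    ext w
    exact hch i j (b w) g (hW2 w)
  obtain ⟨Q⟩ := equiv_of_char_irr α β hαirr hβirr hchar
  have hQ : ∀ w v, Q.toLinearEquiv (α w v) = β w (Q.toLinearEquiv v) := fun w v =>
    LinearMap.congr_fun (Q.toIntertwiningMap.isIntertwining' w) v
  obtain ⟨z, hz⟩ := schur _ hαNirr Q.toLinearEquiv.toLinearMap (by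
    intro ν
    ext v
    change Q.toLinearEquiv (α (c ν) v) = α (c ν) (Q.toLinearEquiv v)
    rw [hQ, hβN])
  haveI := nontriv ρ₀ h0
  have hz' : ∀ v, Q.toLinearEquiv v = z • v := fun v => LinearMap.congr_fun hz v
  have hz0 : z ≠ 0 := by
    rintro rfl
    obtain ⟨v, hv⟩ := exists_ne (0 : V)
    have h2 := hz' v
    rw [zero_smul] at h2
    exact hv (Q.toLinearEquiv.map_eq_zero_iff.1 h2)
  have hab : ∀ w v, α w v = β w v := by
    intro w v
    have h1 := hQ w v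
    rw [hz', hz', map_smul] at h1
    exact smul_right_injective V hz0 h1
  -- now compare
  have hxi : pr ρ₀ x ∈ U i := x.2
  have hxj : g * pr ρ₀ x * g⁻¹ ∈ U j := by
    have h1 : pr ρ₀ (y * x * y⁻¹) ∈ U j := hxy
    rwa [map_mul, map_mul, map_inv] at h1
  let w : W := ⟨pr ρ₀ x, hxi, hxj⟩
  have h1 := sc_spec h0 (hU i) (ρ i) (hρ i) x
  have h2 := sc_spec h0 (hU j) (ρ j) (hρ j) ⟨y * x * y⁻¹, hxy⟩
  apply Units.ext
  refine scalar_unique h0 (ρ j) ⟨pr ρ₀ (y * x * y⁻¹), hxy⟩ (fun v => ?_)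
  refine Eq.trans (h2 v).symm ?_
  change y.1.2 (x.1.1.2 (y.1.2.symm v)) = _
  rw [h1, map_smul]
  congr 1
  have h3 : (⟨pr ρ₀ (y * x * y⁻¹), hxy⟩ : U j) = a w := by
    apply Subtype.ext
    change pr ρ₀ (y * x * y⁻¹) = g * pr ρ₀ x * g⁻¹
    rw [map_mul, map_mul, map_inv]
  rw [h3]
  exact (hab w v).symm

end compat

/-! ## the gluing theorem -/

section main

variable {ι : Type} {U : ι → Subgroup Γ} (hU : ∀ i, N ≤ U i)

/-- the restriction of a representation of `U` to `N ≤ U` -/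
def rs {U : Subgroup Γ} (hU : N ≤ U) (ρ : Representation k U V) : Representation k N V :=
  ρ.comp (Subgroup.inclusion hU)

/-- **reduction to homomorphisms**: compatible representations which are irreducible on `N` have a
common extension if compatible homomorphisms to the multiplicative group have one. -/
theorem glue_rep [Nonempty ι] (ρ : ∀ i, Representation k (U i) V)
    (hirr : ∀ i, (rs (hU i) (ρ i)).IsIrreducible)
    (hch : ∀ i j (x : U i) (g : Γ) (h : g * x * g⁻¹ ∈ U j),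
      (ρ j).character ⟨g * x * g⁻¹, h⟩ = (ρ i).character x)
    (hglue : ∀ (E' : Type) [Group E'] (p : E' →* Γ), Function.Surjective p →
      ∀ f : ∀ i, (U i).comap p →* kˣ, Stable (fun i => (U i).comap p) f →
      ∃ F : E' →* kˣ, ∀ i (x : (U i).comap p), F x = f i x) :
    ∃ R : Representation k Γ V, ∀ i,
      Nonempty (Representation.Equiv (R.comp (U i).subtype : Representation k (U i) V) (ρ i)) := by
  classical
  obtain ⟨i₀⟩ := ‹Nonempty ι›
  haveI : Nonempty ι := ⟨i₀⟩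
  let ρ₀ : Representation k N V := rs (hU i₀) (ρ i₀)
  have h0 : ρ₀.IsIrreducible := hirr i₀
  have he : ∀ i, ∃ e : V ≃ₗ[k] V, ∀ ν : N, tp (ρ i) e ⟨ν, hU i ν.2⟩ = ρ₀ ν := by
    intro i
    have h1 : (rs (hU i) (ρ i)).character = ρ₀.character := by
      ext ν
      have h2 : (1 : Γ) * ((⟨ν, hU i₀ ν.2⟩ : U i₀) : Γ) * 1⁻¹ ∈ U i := by
        rw [one_mul, inv_one, mul_one]
        exact hU i ν.2
      have h3 := hch i₀ i ⟨ν, hU i₀ ν.2⟩ 1 h2
      refine Eq.trans ?_ h3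
      change (ρ i).character ⟨ν, hU i ν.2⟩ = _
      congr 1
      apply Subtype.ext
      change (ν : Γ) = 1 * ν * 1⁻¹
      rw [one_mul, inv_one, mul_one]
    obtain ⟨Q⟩ := equiv_of_char_irr _ _ (hirr i) h0 h1
    refine ⟨Q.toLinearEquiv, fun ν => ?_⟩
    ext v
    change Q.toLinearEquiv ((rs (hU i) (ρ i)) ν (Q.toLinearEquiv.symm v)) = ρ₀ ν v
    have h2 : ∀ w, Q.toLinearEquiv ((rs (hU i) (ρ i)) ν w) = ρ₀ ν (Q.toLinearEquiv w) := fun w =>
      LinearMap.congr_fun (Q.toIntertwiningMap.isIntertwining' ν) w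
    rw [h2, LinearEquiv.apply_symm_apply]
  choose e he using he
  let ρ' : ∀ i, Representation k (U i) V := fun i => tp (ρ i) (e i)
  have hch' : ∀ i j (x : U i) (g : Γ) (h : g * x * g⁻¹ ∈ U j),
      (ρ' j).character ⟨g * x * g⁻¹, h⟩ = (ρ' i).character x := by
    intro i j x g h
    change (tp (ρ j) (e j)).character _ = (tp (ρ i) (e i)).character _
    rw [char_tp, char_tp]
    exact hch i j x g h
  have hsurj : Function.Surjective (pr ρ₀) := by
    intro g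
    let γ : N →* N := (((MulAut.conj g).toMonoidHom.comp N.subtype).codRestrict N
        fun ν => ‹N.Normal›.conj_mem ν ν.2 g)
    have hγ : Function.Surjective γ := by
      intro ν
      refine ⟨⟨g⁻¹ * ν * g⁻¹⁻¹, ‹N.Normal›.conj_mem ν ν.2 g⁻¹⟩, ?_⟩
      apply Subtype.ext
      change g * (g⁻¹ * ν * g⁻¹⁻¹) * g⁻¹ = ν
      group
    have h1 : ρ₀.character = Representation.character (ρ₀.comp γ : Representation k N V) := by
      ext ν
      have h2 : g * ((⟨ν, hU i₀ ν.2⟩ : U i₀) : Γ) * g⁻¹ ∈ U i₀ :=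
        hU i₀ (‹N.Normal›.conj_mem ν ν.2 g)
      exact (hch i₀ i₀ ⟨ν, hU i₀ ν.2⟩ g h2).symm
    obtain ⟨Q⟩ := equiv_of_char_irr _ _ h0 (irr_comp_surj ρ₀ γ hγ h0) h1
    refine ⟨⟨(g, Q.toLinearEquiv), ?_⟩, rfl⟩
    intro ν v
    exact LinearMap.congr_fun (Q.toIntertwiningMap.isIntertwining' ν) v
  obtain ⟨F, hF⟩ := hglue (E ρ₀) (pr ρ₀) hsurj (fun i => sc h0 (hU i) (ρ' i) (he i))
    (sc_stable h0 hU ρ' he hch')
  obtain ⟨R, hR⟩ := rep_of_hom h0 hsurj F hU ρ' he hF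
  refine ⟨R, fun i => ?_⟩
  have h1 : (R.comp (U i).subtype : Representation k (U i) V) = ρ' i := by
    ext g v
    exact LinearMap.congr_fun (hR i g) v
  rw [h1]
  exact ⟨(tpEquiv (ρ i) (e i)).symm⟩

end main

end Pool.Agent.Q227.CD
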