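import Pool.Agent.Q227.CD.Cyc
import Pool.Agent.Q227.CD.Glue

/-!
# Extension of invariant semisimple representations along a cyclic quotient: the simple case
-/

set_option autoImplicit false
set_option linter.unusedSectionVars false

namespace Pool.Agent.Q227.CD

open Representation Module Pool.Agent.Q15.GR

variable {k : Type} [Field k] [IsAlgClosed k]

theorem simple_ext {Γ : Type} [Group Γ] (M : Subgroup Γ) [M.Normal] (g : Γ)
    (hcov : ∀ x : Γ, ∃ i : ℤ, g ^ (-i) * x ∈ M) (p : ℕ) (hp : 0 < p)
    (hdiv : ∀ i : ℤ, g ^ i ∈ M → (p : ℤ) ∣ i) (hgp : g ^ p ∈ M)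
    {V : Type} [AddCommGroup V] [Module k V] [FiniteDimensional k V] [Nontrivial V]
    (ρ : Representation k M V) (A : V ≃ₗ[k] V)
    (hA : ∀ n m : M, (m : Γ) = g * n * g⁻¹ → ∀ x, A (ρ n x) = ρ m (A x)) :
    ∃ S : Subrepresentation ρ, S ≠ ⊥ ∧ ∃ R : Representation k Γ S.toSubmodule, R.IsIrreducible ∧
      ∀ (m : M) (x : S.toSubmodule), (R m x : V) = ρ m x := by
  let U := (Module.End k V)ˣ
  let a : U := ⟨A.toLinearMap, A.symm.toLinearMap, LinearMap.ext fun x => A.apply_symm_apply x,
    LinearMap.ext fun x => A.symm_apply_apply x⟩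
  let r : M →* U := MonoidHom.toHomUnits (ρ : M →* Module.End k V)
  have hrv : ∀ m, ((r m : U) : Module.End k V) = ρ m := fun _ => rfl
  have har : ∀ n m : M, (m : Γ) = g * n * g⁻¹ → a * r n * a⁻¹ = r m := by
    intro n m h
    rw [mul_inv_eq_iff_eq_mul]
    apply Units.ext
    exact LinearMap.ext fun x => hA n m h x
  have harp : ∀ (j : ℕ) (n m : M), (m : Γ) = g ^ j * n * (g ^ j)⁻¹ →
      a ^ j * r n * (a ^ j)⁻¹ = r m := by
    intro j
    induction j with
    | zero =>
      intro n m h
      rw [pow_zero, inv_one, one_mul, mul_one] at h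
      rw [pow_zero, inv_one, one_mul, mul_one, Subtype.ext h]
    | succ j ih =>
      intro n m h
      have h1 : g ^ j * (n : Γ) * (g ^ j)⁻¹ ∈ M := Subgroup.Normal.conj_mem inferInstance _ n.2 _
      have h2 := ih n ⟨_, h1⟩ rfl
      have h3 := har ⟨_, h1⟩ m (by
        rw [h]
        change g ^ (j + 1) * (n : Γ) * (g ^ (j + 1))⁻¹ =
          g * (g ^ j * (n : Γ) * (g ^ j)⁻¹) * g⁻¹
        rw [pow_succ']
        group)
      rw [← h3, ← h2, pow_succ']
      group
  let H : Subgroup U := Subgroup.closure (insert a (Set.range r))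
  have haH : a ∈ H := Subgroup.subset_closure (Set.mem_insert _ _)
  have hrH : ∀ m, r m ∈ H := fun m => Subgroup.subset_closure (Set.mem_insert_of_mem _ ⟨m, rfl⟩)
  let τ : Representation k H V := (Units.coeHom (Module.End k V)).comp H.subtype
  obtain ⟨S, hS⟩ := exists_atom τ
  have hSirr : S.toRepresentation.IsIrreducible := irr_of_atom hS
  let G₀ : M := ⟨g ^ p, hgp⟩
  let c : U := (r G₀)⁻¹ * a ^ p
  have hcH : c ∈ H := H.mul_mem (H.inv_mem (hrH _)) (H.pow_mem haH p)
  have hac : a * c = c * a := by
    have h1 := har G₀ G₀ (by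
      change g ^ p = g * g ^ p * g⁻¹
      rw [← pow_succ', pow_succ, mul_assoc, mul_inv_cancel, mul_one])
    have h2 : a * (r G₀)⁻¹ = (r G₀)⁻¹ * a := by
      rw [mul_inv_eq_iff_eq_mul] at h1
      rw [eq_inv_mul_iff_mul_eq, ← mul_assoc, ← h1, mul_assoc, mul_inv_cancel, mul_one]
    change a * ((r G₀)⁻¹ * a ^ p) = (r G₀)⁻¹ * a ^ p * a
    rw [← mul_assoc, h2, mul_assoc, mul_assoc, ← pow_succ, ← pow_succ']
  have hrc : ∀ n, r n * c = c * r n := by
    intro n
    have h1 : g ^ p * (n : Γ) * (g ^ p)⁻¹ ∈ M := Subgroup.Normal.conj_mem inferInstance _ n.2 _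
    have h2 := harp p n ⟨_, h1⟩ rfl
    have h3 : (⟨_, h1⟩ : M) = G₀ * n * G₀⁻¹ := rfl
    rw [h3, map_mul, map_mul, map_inv, mul_inv_eq_iff_eq_mul] at h2
    change r n * ((r G₀)⁻¹ * a ^ p) = (r G₀)⁻¹ * a ^ p * r n
    rw [mul_assoc _ _ (r n), h2, mul_assoc (r G₀ * r n), mul_assoc (r G₀), inv_mul_cancel_left]
  have hcomm : ∀ h ∈ H, h * c = c * h := by
    have h1 : H ≤ Subgroup.centralizer {c} := by
      rw [Subgroup.closure_le]
      rintro x (rfl | ⟨n, rfl⟩)
      · rw [SetLike.mem_coe, Subgroup.mem_centralizer_iff]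
        rintro y rfl
        exact hac.symm
      · rw [SetLike.mem_coe, Subgroup.mem_centralizer_iff]
        rintro y rfl
        exact (hrc n).symm
    intro h hh
    exact (Subgroup.mem_centralizer_iff.1 (h1 hh) c rfl).symm
  obtain ⟨l, hl⟩ := schur S.toRepresentation hSirr (S.toRepresentation ⟨c, hcH⟩) (fun h => by
    have h1 : (⟨c, hcH⟩ : H) * h = h * ⟨c, hcH⟩ := Subtype.ext (hcomm h h.2).symm
    have h2 := congrArg S.toRepresentation h1
    rw [map_mul, map_mul] at h2
    exact h2)
  haveI := nontriv _ hSirr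
  have hl0 : l ≠ 0 := by
    intro h0
    rw [h0, zero_smul] at hl
    obtain ⟨x, hx⟩ := exists_ne (0 : S.toSubmodule)
    apply hx
    have h1 : S.toRepresentation (⟨c, hcH⟩⁻¹ * ⟨c, hcH⟩ : H) x = x := by
      rw [inv_mul_cancel, map_one]
      rfl
    rw [map_mul, hl, mul_zero] at h1
    exact h1.symm
  obtain ⟨μ, hμ⟩ := IsAlgClosed.exists_pow_nat_eq l hp
  have hμ0 : μ ≠ 0 := by
    rintro rfl
    rw [zero_pow hp.ne'] at hμ
    exact hl0 hμ.symm
  let US := (Module.End k S.toSubmodule)ˣ
  let s : H →* US := MonoidHom.toHomUnits (S.toRepresentation : H →* Module.End k S.toSubmodule)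
  let zz : kˣ →* US := Units.map (algebraMap k (Module.End k S.toSubmodule)).toMonoidHom
  have hzv : ∀ (t : kˣ) (x : S.toSubmodule), ((zz t : US) : Module.End k S.toSubmodule) x =
      (t : k) • x := fun _ _ => rfl
  have hsv : ∀ (h : H) (x : S.toSubmodule), ((s h : US) : Module.End k S.toSubmodule) x =
      S.toRepresentation h x := fun _ _ => rfl
  have hzc : ∀ (t : kˣ) (u : US), zz t * u = u * zz t := by
    intro t u
    apply Units.ext
    refine LinearMap.ext fun x => ?_
    change (t : k) • ((u : Module.End k S.toSubmodule) x) =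
      (u : Module.End k S.toSubmodule) ((t : k) • x)
    rw [map_smul]
  let m₀ : kˣ := Units.mk0 μ hμ0
  let AS : US := zz m₀⁻¹ * s ⟨a, haH⟩
  let rH : M →* H := r.codRestrict H hrH
  have hsc : s ⟨c, hcH⟩ = zz (m₀ ^ p) := by
    apply Units.ext
    refine LinearMap.ext fun x => ?_
    rw [hsv, hzv, hl, Units.val_pow_eq_pow_val]
    change l • x = (μ ^ p) • x
    rw [hμ]
  have hASp : AS ^ p = s (rH G₀) := by
    have h1 : AS ^ p = zz m₀⁻¹ ^ p * s ⟨a, haH⟩ ^ p := by
      have h2 : Commute (zz m₀⁻¹) (s ⟨a, haH⟩) := hzc _ _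
      exact h2.mul_pow p
    rw [h1, ← map_pow, ← map_pow]
    have h2 : (⟨a, haH⟩ : H) ^ p = rH G₀ * ⟨c, hcH⟩ := by
      apply Subtype.ext
      change a ^ p = r G₀ * ((r G₀)⁻¹ * a ^ p)
      rw [mul_inv_cancel_left]
    rw [h2, map_mul, hsc, ← mul_assoc, hzc, mul_assoc, ← map_mul, inv_pow, inv_mul_cancel, map_one,
      mul_one]
  obtain ⟨R, hR1, hR2⟩ := ext_cyclic M g hcov (s.comp rH) AS (fun n m h => by
    have h1 : (⟨a, haH⟩ : H) * rH n * ⟨a, haH⟩⁻¹ = rH m := Subtype.ext (har n m h)
    have h3 : s (rH m) = s ⟨a, haH⟩ * s (rH n) * (s ⟨a, haH⟩)⁻¹ := by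
      rw [← h1, map_mul, map_mul, map_inv]
    change zz m₀⁻¹ * s ⟨a, haH⟩ * s (rH n) * (zz m₀⁻¹ * s ⟨a, haH⟩)⁻¹ = s (rH m)
    have hz := hzc m₀⁻¹
    generalize zz m₀⁻¹ = z at hz ⊢
    rw [h3, mul_inv_rev, mul_assoc z, hz, mul_assoc _ z, ← mul_assoc z, hz, mul_assoc _ z,
      mul_inv_cancel, mul_one]) (fun i m h => by
    obtain ⟨j, rfl⟩ := hdiv i (by rw [← h]; exact m.2)
    have h1 : m = G₀ ^ j := by
      apply Subtype.ext
      rw [h, Subgroup.coe_zpow, zpow_mul, zpow_natCast]
    rw [zpow_mul, zpow_natCast, hASp, h1, map_zpow]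
    rfl)
  let RS : Representation k Γ S.toSubmodule :=
    (Units.coeHom (Module.End k S.toSubmodule)).comp R
  have hRS1 : ∀ (m : M) (x : S.toSubmodule), RS m x = S.toRepresentation (rH m) x := by
    intro m x
    change ((R m : US) : Module.End k S.toSubmodule) x = _
    rw [hR1]
    rfl
  have hRSg : ∀ x : S.toSubmodule, S.toRepresentation ⟨a, haH⟩ x = μ • RS g x := by
    intro x
    change _ = μ • ((R g : US) : Module.End k S.toSubmodule) x
    rw [hR2]
    change _ = μ • ((((m₀⁻¹ : kˣ) : k)) • S.toRepresentation ⟨a, haH⟩ x)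
    rw [smul_smul, Units.val_inv_eq_inv_val]
    change _ = (μ * μ⁻¹) • _
    rw [mul_inv_cancel₀ hμ0, one_smul]
  have hRSgi : ∀ x : S.toSubmodule, S.toRepresentation (⟨a, haH⟩⁻¹ : H) x = μ⁻¹ • RS g⁻¹ x := by
    intro x
    have h1 : RS g (μ • (S.toRepresentation (⟨a, haH⟩⁻¹ : H) x)) = x := by
      rw [map_smul, ← hRSg]
      have h2 : S.toRepresentation (⟨a, haH⟩ * (⟨a, haH⟩⁻¹ : H)) x = x := by
        rw [mul_inv_cancel, map_one]
        rfl
      rw [map_mul] at h2
      exact h2
    have h2 : RS g⁻¹ x = μ • (S.toRepresentation (⟨a, haH⟩⁻¹ : H) x) := by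
      conv_lhs => rw [← h1]
      have h3 : RS (g⁻¹ * g) (μ • (S.toRepresentation (⟨a, haH⟩⁻¹ : H) x)) =
          μ • (S.toRepresentation (⟨a, haH⟩⁻¹ : H) x) := by
        rw [inv_mul_cancel, map_one]
        rfl
      rw [map_mul] at h3
      exact h3
    rw [h2, smul_smul, inv_mul_cancel₀ hμ0, one_smul]
  let S₁ : Subrepresentation ρ :=
    { toSubmodule := S.toSubmodule
      apply_mem_toSubmodule := fun m v hv => S.apply_mem_toSubmodule (rH m) hv }
  refine ⟨S₁, ?_, RS, ?_, ?_⟩
  · intro h
    apply hS.1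
    apply Subrepresentation.toSubmodule_injective
    have h1 : S₁.toSubmodule = (⊥ : Submodule k V) := congrArg Subrepresentation.toSubmodule h
    exact h1
  · refine { exists_pair_ne := ⟨⊥, ⊤, ?_⟩, eq_bot_or_eq_top := fun W => ?_ }
    · intro h1
      exact bot_ne_top (congrArg Subrepresentation.toSubmodule h1 :
        (⊥ : Submodule k S.toSubmodule) = ⊤)
    · have hstab : ∀ (u : U) (hu : u ∈ H), ∀ x ∈ W.toSubmodule,
          S.toRepresentation ⟨u, hu⟩ x ∈ W.toSubmodule ∧
            S.toRepresentation (⟨u, hu⟩⁻¹ : H) x ∈ W.toSubmodule := by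
        intro u hu
        induction hu using Subgroup.closure_induction with
        | mem u hu =>
          intro x hx
          rcases hu with rfl | ⟨n, rfl⟩
          · refine ⟨?_, ?_⟩
            · rw [hRSg]
              exact W.toSubmodule.smul_mem _ (W.apply_mem_toSubmodule g hx)
            · rw [hRSgi]
              exact W.toSubmodule.smul_mem _ (W.apply_mem_toSubmodule g⁻¹ hx)
          · refine ⟨?_, ?_⟩
            · have h1 := hRS1 n x
              change S.toRepresentation (rH n) x ∈ _
              rw [← h1]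
              exact W.apply_mem_toSubmodule _ hx
            · have h1 := hRS1 n⁻¹ x
              change S.toRepresentation (rH n)⁻¹ x ∈ _
              rw [← map_inv, ← h1]
              exact W.apply_mem_toSubmodule _ hx
        | one =>
          intro x hx
          refine ⟨?_, ?_⟩
          · have h1 : S.toRepresentation (1 : H) x = x := by rw [map_one]; rfl
            change S.toRepresentation (1 : H) x ∈ _
            rwa [h1]
          · have h1 : S.toRepresentation (1 : H) x = x := by rw [map_one]; rfl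
            change S.toRepresentation (1 : H)⁻¹ x ∈ _
            rwa [inv_one, h1]
        | mul u v hu hv ihu ihv =>
          intro x hx
          refine ⟨?_, ?_⟩
          · change S.toRepresentation ((⟨u, hu⟩ : H) * ⟨v, hv⟩) x ∈ _
            rw [map_mul]
            exact (ihu _ (ihv _ hx).1).1
          · change S.toRepresentation ((⟨u, hu⟩ : H) * ⟨v, hv⟩)⁻¹ x ∈ _
            rw [mul_inv_rev, map_mul]
            exact (ihv _ (ihu _ hx).2).2
        | inv u hu ih =>
          intro x hx
          refine ⟨?_, ?_⟩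
          · change S.toRepresentation (⟨u, hu⟩ : H)⁻¹ x ∈ _
            exact (ih x hx).2
          · change S.toRepresentation (⟨u, hu⟩ : H)⁻¹⁻¹ x ∈ _
            rw [inv_inv]
            exact (ih x hx).1
      let W' : Subrepresentation S.toRepresentation :=
        { toSubmodule := W.toSubmodule
          apply_mem_toSubmodule := fun h v hv => (hstab h.1 h.2 v hv).1 }
      haveI := hSirr
      rcases eq_bot_or_eq_top W' with h1 | h1
      · left
        apply Subrepresentation.toSubmodule_injective
        have h2 : W'.toSubmodule = (⊥ : Submodule k S.toSubmodule) :=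
          congrArg Subrepresentation.toSubmodule h1
        exact h2
      · right
        apply Subrepresentation.toSubmodule_injective
        have h2 : W'.toSubmodule = (⊤ : Submodule k S.toSubmodule) :=
          congrArg Subrepresentation.toSubmodule h1
        exact h2
  · intro m x
    have h1 := hRS1 m x
    exact congrArg Subtype.val h1

/-- the trivial extension of an equality of eigenvalues to a complement -/
theorem eig_compl {G V : Type} [Group G] [AddCommGroup V] [Module k V] [FiniteDimensional k V]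
    {ρ : Representation k G V} {S T : Subrepresentation ρ} (h : IsCompl S T) (g : G) :
    eig (ρ g) = eig (S.toRepresentation g) + eig (T.toRepresentation g) := by
  obtain ⟨e⟩ := prod_of_compl h
  rw [← eig_prod, eig_equiv e g]
  rfl

/-- **extension along a cyclic quotient** -/
theorem cyclic_step {Γ : Type} [Group Γ] (M : Subgroup Γ) [M.Normal] (g : Γ)
    (hcov : ∀ x : Γ, ∃ i : ℤ, g ^ (-i) * x ∈ M) (p : ℕ) (hp : 0 < p)
    (hdiv : ∀ i : ℤ, g ^ i ∈ M → (p : ℤ) ∣ i) (hgp : g ^ p ∈ M) (N : ℕ) :
    ∀ (V : Type) [AddCommGroup V] [Module k V] [FiniteDimensional k V] (ρ : Representation k M V),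
      finrank k V = N → ρ.IsSemisimpleRepresentation →
      (∀ n m : M, (m : Γ) = g * n * g⁻¹ → eig (ρ m) = eig (ρ n)) →
      ∃ R : Representation k Γ V, R.IsSemisimpleRepresentation ∧ ∀ m : M, R m = ρ m := by
  induction N using Nat.strong_induction_on with
  | _ N ih =>
    intro V _ _ _ ρ hN hss hinv
    rcases subsingleton_or_nontrivial V with hV | hV
    · refine ⟨1, ⟨fun S => ⟨⊥, ?_, ?_⟩⟩, fun m => LinearMap.ext fun x => Subsingleton.elim _ _⟩
      · exact disjoint_bot_right
      · rw [codisjoint_iff]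
        apply Subrepresentation.toSubmodule_injective
        exact Subsingleton.elim _ _
    · -- the conjugate representation
      let φ : M →* M := MonoidHom.mk' (fun n => ⟨g * n * g⁻¹,
        Subgroup.Normal.conj_mem inferInstance _ n.2 _⟩) (fun x y => Subtype.ext (by
          change g * ((x : Γ) * y) * g⁻¹ = g * x * g⁻¹ * (g * y * g⁻¹)
          group))
      have hφ : Function.Surjective φ := by
        intro y
        have h1 : g⁻¹ * (y : Γ) * g⁻¹⁻¹ ∈ M := Subgroup.Normal.conj_mem inferInstance _ y.2 _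
        refine ⟨⟨_, h1⟩, Subtype.ext ?_⟩
        change g * (g⁻¹ * (y : Γ) * g⁻¹⁻¹) * g⁻¹ = y
        group
      obtain ⟨e⟩ := brauer_nesbitt ρ (ρ.comp φ : Representation k M V) hss
        (semi_comp_surj ρ φ hφ hss) (fun n => (hinv n (φ n) rfl).symm)
      obtain ⟨S, hS, RS, hRS, hRS'⟩ := simple_ext M g hcov p hp hdiv hgp ρ e.toLinearEquiv
        (fun n m h x => by
          have h1 := LinearMap.congr_fun (e.toIntertwiningMap.isIntertwining' n) x
          have h2 : m = φ n := Subtype.ext h
          rw [h2]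
          exact h1)
      obtain ⟨T, hT⟩ := hss.exists_isCompl S
      have hlt : finrank k T.toSubmodule < N := by
        rw [← hN]
        apply Submodule.finrank_lt
        intro h
        have h1 : T = ⊤ := Subrepresentation.toSubmodule_injective h
        rw [h1] at hT
        exact hS (le_bot_iff.1 (hT.disjoint le_rfl le_top))
      have hSinv : ∀ n m : M, (m : Γ) = g * n * g⁻¹ →
          eig (S.toRepresentation m) = eig (S.toRepresentation n) := by
        intro n m h
        have h1 : ∀ m : M, S.toRepresentation m = RS m := fun m => LinearMap.ext fun x =>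
          Subtype.ext (hRS' m x).symm
        rw [h1, h1, h]
        have h2 : RS (g * n * g⁻¹) = (inv' RS g).conj (RS n) := by
          rw [map_mul, map_mul]
          rfl
        unfold eig
        rw [h2, LinearEquiv.charpoly_conj]
      obtain ⟨RT, hRT, hRT'⟩ := ih _ hlt T.toSubmodule T.toRepresentation rfl (semi_sub hss T)
        (fun n m h => by
          have h1 := hinv n m h
          rw [eig_compl hT, eig_compl hT, hSinv n m h] at h1
          exact add_left_cancel h1)
      have hc : IsCompl S.toSubmodule T.toSubmodule := by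
        constructor
        · rw [disjoint_iff]
          exact congrArg Subrepresentation.toSubmodule (disjoint_iff.1 hT.disjoint)
        · rw [codisjoint_iff]
          exact congrArg Subrepresentation.toSubmodule (codisjoint_iff.1 hT.codisjoint)
      let E := Submodule.prodEquivOfIsCompl _ _ hc
      refine ⟨tp (RS.prod RT) E, semi_congr (tpEquiv _ _) (semi_prod (irr_semi hRS) hRT),
        fun m => LinearMap.ext fun x => ?_⟩
      obtain ⟨y, rfl⟩ := E.surjective x
      change E ((RS m (E.symm (E y)).1, RT m (E.symm (E y)).2)) = ρ m (E y)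
      rw [E.symm_apply_apply]
      change ((RS m y.1 : S.toSubmodule) : V) + ((RT m y.2 : T.toSubmodule) : V) =
        ρ m ((y.1 : V) + (y.2 : V))
      rw [hRS', hRT', map_add]
      rfl

end Pool.Agent.Q227.CD
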