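import Mathlib

/-!
# Proper subgroups of finite groups

For a finite noncyclic group `G` which is a `p`-group generated by two elements there is a function
`G → kˣ` which is a homomorphism on every proper subgroup, but not on `G`.
-/

set_option autoImplicit false
set_option linter.unusedSectionVars false

namespace Pool.Agent.Q227.CD

section

variable {G : Type*} [Group G] [Finite G]

theorem proper_index (q : ℕ) (hq : q.Prime) (hG : ¬ IsPGroup q G) :
    ∃ H : Subgroup G, H ≠ ⊤ ∧ ¬ q ∣ H.index := by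
  haveI : Fact q.Prime := ⟨hq⟩
  obtain ⟨P⟩ : Nonempty (Sylow q G) := inferInstance
  refine ⟨P, ?_, P.not_dvd_index⟩
  intro h
  apply hG
  have h1 : IsPGroup q (P : Subgroup G) := P.isPGroup'
  rw [h] at h1
  exact h1.of_equiv Subgroup.topEquiv

/-- an upper bound for the index of a subgroup -/
theorem index_le (T : Subgroup G) [T.Normal] {r : ℕ} (hr : 0 < r)
    (hcomm : ∀ x y : G, x * y * x⁻¹ * y⁻¹ ∈ T) (hpow : ∀ x : G, x ^ r ∈ T) (a b : G)
    (hab : Subgroup.closure {a, b} = ⊤) : T.index ≤ r * r := by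
  classical
  have hc : ∀ x y : G ⧸ T, x * y = y * x := by
    intro x y
    obtain ⟨x, rfl⟩ := QuotientGroup.mk_surjective x
    obtain ⟨y, rfl⟩ := QuotientGroup.mk_surjective y
    rw [← QuotientGroup.mk_mul, ← QuotientGroup.mk_mul, eq_comm, QuotientGroup.eq]
    have h1 : (y * x)⁻¹ * (x * y) = x⁻¹ * y⁻¹ * x⁻¹⁻¹ * y⁻¹⁻¹ := by group
    rw [h1]
    exact hcomm x⁻¹ y⁻¹
  letI cg : CommGroup (G ⧸ T) := { (inferInstance : Group (G ⧸ T)) with mul_comm := hc }
  have hp : ∀ x : G ⧸ T, x ^ r = 1 := by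
    intro x
    obtain ⟨x, rfl⟩ := QuotientGroup.mk_surjective x
    rw [← QuotientGroup.mk_pow, QuotientGroup.eq_one_iff]
    exact hpow x
  have hcl : ∀ z : G ⧸ T, ∃ m n : ℤ, (a : G ⧸ T) ^ m * (b : G ⧸ T) ^ n = z := by
    intro z
    obtain ⟨z, rfl⟩ := QuotientGroup.mk_surjective z
    have h1 : z ∈ Subgroup.closure {a, b} := by
      rw [hab]
      exact Subgroup.mem_top z
    have h2 : (QuotientGroup.mk' T) z ∈ (Subgroup.closure {a, b}).map (QuotientGroup.mk' T) :=
      Subgroup.mem_map_of_mem _ h1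
    rw [MonoidHom.map_closure, Set.image_pair] at h2
    exact Subgroup.mem_closure_pair.1 h2
  have hred : ∀ (x : G ⧸ T) (m : ℤ), ∃ i : Fin r, x ^ m = x ^ (i : ℕ) := by
    intro x m
    have hr' : (0 : ℤ) < r := by exact_mod_cast hr
    refine ⟨⟨(m % r).toNat, ?_⟩, ?_⟩
    · have h1 := Int.emod_lt_of_pos m hr'
      have h2 := Int.emod_nonneg m hr'.ne'
      omega
    · change x ^ m = x ^ ((m % r).toNat)
      have h2 := Int.emod_nonneg m hr'.ne'
      rw [← zpow_natCast x, Int.toNat_of_nonneg h2]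
      conv_lhs => rw [← Int.mul_ediv_add_emod m r]
      rw [zpow_add, zpow_mul, zpow_natCast, hp, one_zpow, one_mul]
  have hsurj : Function.Surjective fun z : Fin r × Fin r =>
      (a : G ⧸ T) ^ (z.1 : ℕ) * (b : G ⧸ T) ^ (z.2 : ℕ) := by
    intro z
    obtain ⟨m, n, hmn⟩ := hcl z
    obtain ⟨i, hi⟩ := hred (a : G ⧸ T) m
    obtain ⟨j, hj⟩ := hred (b : G ⧸ T) n
    exact ⟨(i, j), by rw [← hmn, hi, hj]⟩
  have h1 := Nat.card_le_card_of_surjective _ hsurj
  rw [Nat.card_prod, Nat.card_fin] at h1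
  exact h1

end

section pgroup

variable {G : Type*} [Group G] [Finite G] {r : ℕ} [hr : Fact r.Prime] (hG : IsPGroup r G)

include hG

theorem coatom_normal {M : Subgroup G} (hM : IsCoatom M) : M.Normal := by
  haveI := hG.isNilpotent
  exact Subgroup.NormalizerCondition.normal_of_coatom M Group.normalizerCondition_of_isNilpotent hM

/-- maximal subgroups of a `p`-group: commutators and powers -/
theorem coatom_props {M : Subgroup G} (hM : IsCoatom M) :
    M.index = r ∧ ∀ x y : G, x * y * x⁻¹ * y⁻¹ ∈ M := by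
  haveI := coatom_normal hG hM
  have hQ : IsPGroup r (G ⧸ M) := hG.to_quotient M
  have hnt : Nontrivial (G ⧸ M) := by
    rw [QuotientGroup.nontrivial_iff]
    exact hM.1
  obtain ⟨n, hn⟩ := IsPGroup.iff_card.1 hQ
  have hn0 : n ≠ 0 := by
    rintro rfl
    rw [pow_zero] at hn
    have := Finite.one_lt_card (α := G ⧸ M)
    omega
  have hdvd : r ∣ Nat.card (G ⧸ M) := by
    rw [hn]
    exact dvd_pow_self r hn0
  obtain ⟨x, hx⟩ := exists_prime_orderOf_dvd_card' r hdvd
  have htop : Subgroup.zpowers x = ⊤ := by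
    let H : Subgroup G := (Subgroup.zpowers x).comap (QuotientGroup.mk' M)
    have hMH : M ≤ H := by
      intro m hm
      change (QuotientGroup.mk' M) m ∈ Subgroup.zpowers x
      have : (QuotientGroup.mk' M) m = 1 := (QuotientGroup.eq_one_iff m).2 hm
      rw [this]
      exact Subgroup.one_mem _
    have hne : M ≠ H := by
      intro h
      obtain ⟨g, rfl⟩ := QuotientGroup.mk_surjective x
      have h1 : g ∈ H := Subgroup.mem_zpowers _
      rw [← h] at h1
      have h2 : (g : G ⧸ M) = 1 := (QuotientGroup.eq_one_iff g).2 h1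
      rw [h2, orderOf_one] at hx
      exact hr.out.one_lt.ne hx
    have h1 : H = ⊤ := hM.2 H (lt_of_le_of_ne hMH hne)
    rw [eq_top_iff]
    intro y _
    obtain ⟨g, rfl⟩ := QuotientGroup.mk_surjective y
    have h2 : g ∈ H := by
      rw [h1]
      exact Subgroup.mem_top g
    exact h2
  constructor
  · have h1 : Nat.card (Subgroup.zpowers x) = r := by rw [Nat.card_zpowers, hx]
    rw [htop, Subgroup.card_top] at h1
    exact h1
  · intro a b
    have hc : ∀ y z : G ⧸ M, y * z = z * y := by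
      intro y z
      have hy : y ∈ Subgroup.zpowers x := by rw [htop]; exact Subgroup.mem_top y
      have hz : z ∈ Subgroup.zpowers x := by rw [htop]; exact Subgroup.mem_top z
      obtain ⟨i, rfl⟩ := Subgroup.mem_zpowers_iff.1 hy
      obtain ⟨j, rfl⟩ := Subgroup.mem_zpowers_iff.1 hz
      rw [← zpow_add, ← zpow_add, add_comm]
    rw [← QuotientGroup.eq_one_iff]
    change (a : G ⧸ M) * (b : G ⧸ M) * (a : G ⧸ M)⁻¹ * (b : G ⧸ M)⁻¹ = 1
    rw [hc a b, mul_assoc (b : G ⧸ M), mul_inv_cancel, mul_one, mul_inv_cancel]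

/-- the key property of two-generated `p`-groups -/
theorem coatom_inf (a b : G) (hab : Subgroup.closure {a, b} = ⊤) {M M₁ M₂ : Subgroup G}
    (hM : IsCoatom M) (hM₁ : IsCoatom M₁) (hM₂ : IsCoatom M₂) (h12 : M₁ ≠ M₂) (hne : M ≠ M₂) :
    M ⊓ M₂ ≤ M₁ := by
  haveI := coatom_normal hG hM
  haveI := coatom_normal hG hM₁
  haveI := coatom_normal hG hM₂
  by_contra hcon
  let P : Subgroup G := M ⊓ M₂
  have hr2 := hr.out.two_le
  have hsup : ∀ {A B : Subgroup G}, IsCoatom A → ¬ B ≤ A → B ⊔ A = ⊤ := by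
    intro A B hA hB
    refine hA.2 _ (lt_of_le_of_ne le_sup_right ?_)
    intro h
    apply hB
    rw [h]
    exact le_sup_left
  have h1 : P.index = r * r := by
    have h2 : M₂ ⊔ M = ⊤ := by
      apply hsup hM
      intro h
      exact hne (hM₂.2 M |> fun f => by
        by_contra h3
        exact hM.1 (f (lt_of_le_of_ne h (Ne.symm h3))))
    have h3 := Subgroup.relIndex_mul_index (H := P) (K := M₂) inf_le_right
    rw [Subgroup.inf_relIndex_right, ← Subgroup.relIndex_sup_right, h2,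
      Subgroup.relIndex_top_right, (coatom_props hG hM).1, (coatom_props hG hM₂).1] at h3
    exact h3.symm
  have h2 : (M₁ ⊓ P).index = r * (r * r) := by
    have h2 : P ⊔ M₁ = ⊤ := hsup hM₁ hcon
    have h3 := Subgroup.relIndex_mul_index (H := M₁ ⊓ P) (K := P) inf_le_right
    rw [Subgroup.inf_relIndex_right, ← Subgroup.relIndex_sup_right, h2,
      Subgroup.relIndex_top_right, (coatom_props hG hM₁).1, h1] at h3
    exact h3.symm
  have h3 := index_le (M₁ ⊓ P) hr.out.pos (fun x y => ⟨(coatom_props hG hM₁).2 x y,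
    (coatom_props hG hM).2 x y, (coatom_props hG hM₂).2 x y⟩) (fun x => by
      refine ⟨?_, ?_, ?_⟩
      · have := Subgroup.pow_index_mem M₁ x
        rwa [(coatom_props hG hM₁).1] at this
      · have := Subgroup.pow_index_mem M x
        rwa [(coatom_props hG hM).1] at this
      · have := Subgroup.pow_index_mem M₂ x
        rwa [(coatom_props hG hM₂).1] at this) a b hab
  rw [h2] at h3
  have h4 : 0 < r * r := by positivity
  nlinarith

/-- **the twisting function** -/
theorem exists_twist {k : Type*} [Field k] [IsAlgClosed k] [CharZero k] (hnc : ¬ IsCyclic G)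
    (a b : G) (hab : Subgroup.closure {a, b} = ⊤) :
    ∃ χ : G → kˣ, (∀ g x, χ (g * x * g⁻¹) = χ x) ∧
      (∀ H : Subgroup G, H ≠ ⊤ → ∀ x ∈ H, ∀ y ∈ H, χ (x * y) = χ x * χ y) ∧
      ∃ x y, χ (x * y) ≠ χ x * χ y := by
  classical
  have hnt : (⊥ : Subgroup G) ≠ ⊤ := by
    intro h
    apply hnc
    refine ⟨1, fun x => ?_⟩
    have h1 : x ∈ (⊤ : Subgroup G) := Subgroup.mem_top x
    rw [← h, Subgroup.mem_bot] at h1
    rw [h1]
    exact Subgroup.mem_zpowers 1
  obtain ⟨M₂, hM₂, -⟩ := (eq_top_or_exists_le_coatom (⊥ : Subgroup G)).resolve_left hnt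
  obtain ⟨g, hg⟩ : ∃ g : G, g ∉ M₂ := by
    by_contra hne
    apply hM₂.1
    rw [eq_top_iff]
    intro x _
    by_contra hx
    exact hne ⟨x, hx⟩
  have hzg : Subgroup.zpowers g ≠ ⊤ := by
    intro h
    apply hnc
    refine ⟨g, fun x => ?_⟩
    have h1 : x ∈ Subgroup.zpowers g := by
      rw [h]
      exact Subgroup.mem_top x
    exact h1
  obtain ⟨M₁, hM₁, hgM₁⟩ := (eq_top_or_exists_le_coatom _).resolve_left hzg
  have h12 : M₁ ≠ M₂ := by
    intro h
    apply hg
    rw [← h]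
    exact hgM₁ (Subgroup.mem_zpowers g)
  haveI := coatom_normal hG hM₁
  haveI := coatom_normal hG hM₂
  obtain ⟨z, hz2, hz1⟩ : ∃ z ∈ M₂, z ∉ M₁ := by
    by_contra hne
    have h1 : M₂ ≤ M₁ := by
      intro x hx
      by_contra hx1
      exact hne ⟨x, hx, hx1⟩
    rcases lt_or_eq_of_le h1 with h2 | h2
    · exact hM₁.1 (hM₂.2 M₁ h2)
    · exact h12 h2.symm
  -- the homomorphism
  have hcomm : ∀ x y : G ⧸ M₁, x * y = y * x := by
    intro x y
    obtain ⟨x, rfl⟩ := QuotientGroup.mk_surjective x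
    obtain ⟨y, rfl⟩ := QuotientGroup.mk_surjective y
    have h1 := (coatom_props hG hM₁).2 x y
    rw [← QuotientGroup.eq_one_iff] at h1
    change (x : G ⧸ M₁) * (y : G ⧸ M₁) * (x : G ⧸ M₁)⁻¹ * (y : G ⧸ M₁)⁻¹ = 1 at h1
    rw [mul_inv_eq_one, mul_inv_eq_iff_eq_mul] at h1
    exact h1
  letI cg : CommGroup (G ⧸ M₁) := { (inferInstance : Group (G ⧸ M₁)) with mul_comm := hcomm }
  haveI hne0 : NeZero ((Monoid.exponent (G ⧸ M₁) : ℕ) : k) :=
    ⟨by exact_mod_cast (NeZero.ne (Monoid.exponent (G ⧸ M₁)))⟩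
  have hz1' : (z : G ⧸ M₁) ≠ 1 := fun h => hz1 ((QuotientGroup.eq_one_iff z).1 h)
  obtain ⟨φ, hφ⟩ := CommGroup.exists_apply_ne_one_of_hasEnoughRootsOfUnity (G ⧸ M₁) k hz1'
  let ψ : G →* kˣ := φ.comp (QuotientGroup.mk' M₁)
  have hψ1 : ∀ x ∈ M₁, ψ x = 1 := by
    intro x hx
    change φ (x : G ⧸ M₁) = 1
    rw [(QuotientGroup.eq_one_iff x).2 hx, map_one]
  have hψz : ψ z ≠ 1 := hφ
  refine ⟨fun x => if x ∈ M₂ then ψ x else 1, ?_, ?_, ?_⟩
  · intro g x
    have h1 : g * x * g⁻¹ ∈ M₂ ↔ x ∈ M₂ := by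
      constructor
      · intro h
        have h2 := Subgroup.Normal.conj_mem inferInstance _ h g⁻¹
        have h3 : g⁻¹ * (g * x * g⁻¹) * g⁻¹⁻¹ = x := by group
        rwa [h3] at h2
      · intro h
        exact Subgroup.Normal.conj_mem inferInstance _ h g
    simp only [h1]
    by_cases hx : x ∈ M₂
    · rw [if_pos hx, if_pos hx, map_mul, map_mul, map_inv, mul_comm (ψ g), mul_assoc,
        mul_inv_cancel, mul_one]
    · rw [if_neg hx, if_neg hx]
  · intro H hH x hx y hy
    obtain ⟨M, hM, hHM⟩ := (eq_top_or_exists_le_coatom H).resolve_left hH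
    by_cases hMM : M = M₂
    · rw [hMM] at hHM
      simp only [if_pos (hHM hx), if_pos (hHM hy), if_pos (hHM (H.mul_mem hx hy)), map_mul]
    · have h1 : ∀ w ∈ H, (if w ∈ M₂ then ψ w else 1) = 1 := by
        intro w hw
        by_cases hw2 : w ∈ M₂
        · rw [if_pos hw2]
          exact hψ1 w (coatom_inf hG a b hab hM hM₁ hM₂ h12 hMM ⟨hHM hw, hw2⟩)
        · rw [if_neg hw2]
      change (if x * y ∈ M₂ then ψ (x * y) else 1) = (if x ∈ M₂ then ψ x else 1) *
        (if y ∈ M₂ then ψ y else 1)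
      rw [h1 _ (H.mul_mem hx hy), h1 x hx, h1 y hy, mul_one]
  · refine ⟨g, g⁻¹ * z, ?_⟩
    have h1 : g⁻¹ * z ∉ M₂ := by
      intro h
      apply hg
      have h2 := M₂.mul_mem hz2 (M₂.inv_mem h)
      have h3 : z * (g⁻¹ * z)⁻¹ = g := by group
      rwa [h3] at h2
    change (if g * (g⁻¹ * z) ∈ M₂ then ψ (g * (g⁻¹ * z)) else 1) ≠
      (if g ∈ M₂ then ψ g else 1) * (if g⁻¹ * z ∈ M₂ then ψ (g⁻¹ * z) else 1)
    rw [mul_inv_cancel_left, if_pos hz2, if_neg hg, if_neg h1, mul_one]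
    exact hψz

end pgroup

end Pool.Agent.Q227.CD
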