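import Pool.Agent.Q227.CD.Cyc2
import Pool.Agent.Q227.CD.GT

/-!
# In characteristic `p`, invariant semisimple representations extend uniquely along `p`-extensions
-/

set_option autoImplicit false
set_option linter.unusedSectionVars false

namespace Pool.Agent.Q227.CD

open Representation Module Pool.Agent.Q15.GR

variable {k : Type} [Field k] [IsAlgClosed k]

theorem map_frob_inj (p : ℕ) [ExpChar k p] (m : ℕ) {A B : Multiset k}
    (h : (A.map fun x => x ^ p ^ m) = B.map fun x => x ^ p ^ m) : A = B :=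
  Multiset.map_injective (fun x y hxy => iterateFrobenius_inj k p m (by
    rw [iterateFrobenius_def, iterateFrobenius_def]
    exact hxy)) h

theorem extend_p {p : ℕ} (hp : p.Prime) [ExpChar k p] (m : ℕ) : ∀ (Γ : Type) [Group Γ]
    (N : Subgroup Γ) [N.Normal], N.index = p ^ m →
    ∀ (V : Type) [AddCommGroup V] [Module k V] [FiniteDimensional k V] (ρ : Representation k N V),
      ρ.IsSemisimpleRepresentation →
      (∀ (g : Γ) (n n' : N), (n' : Γ) = g * n * g⁻¹ → eig (ρ n') = eig (ρ n)) →
      ∃ R : Representation k Γ V, R.IsSemisimpleRepresentation ∧ ∀ n : N, R n = ρ n := by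
  classical
  induction m with
  | zero =>
    intro Γ _ N _ hidx V _ _ _ ρ hss _
    rw [pow_zero, Subgroup.index_eq_one] at hidx
    have hm : ∀ x : Γ, x ∈ N := fun x => by
      rw [hidx]
      exact Subgroup.mem_top x
    let φ : Γ →* N := MonoidHom.mk' (fun x => ⟨x, hm x⟩) (fun x y => rfl)
    exact ⟨ρ.comp φ, semi_comp_surj ρ φ (fun y => ⟨y, rfl⟩) hss, fun n => rfl⟩
  | succ m ih =>
    intro Γ _ N _ hidx V _ _ _ ρ hss hinv
    haveI : Fact p.Prime := ⟨hp⟩
    haveI : Finite (Γ ⧸ N) := Nat.finite_of_card_ne_zero (by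
      change N.index ≠ 0
      rw [hidx]
      exact pow_ne_zero _ hp.ne_zero)
    have hG : IsPGroup p (Γ ⧸ N) := IsPGroup.of_card (n := m + 1) hidx
    have hnt : (⊥ : Subgroup (Γ ⧸ N)) ≠ ⊤ := by
      intro h
      have h1 : Nat.card (Γ ⧸ N) = 1 := by
        rw [← Subgroup.card_top, ← h, Subgroup.card_bot]
      change N.index = 1 at h1
      rw [hidx] at h1
      have h2 := Nat.one_lt_pow (n := m + 1) (by omega) hp.one_lt
      omega
    obtain ⟨C, hC, -⟩ := (eq_top_or_exists_le_coatom (⊥ : Subgroup (Γ ⧸ N))).resolve_left hnt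
    haveI := coatom_normal hG hC
    have hCi := (coatom_props hG hC).1
    let M : Subgroup Γ := C.comap (QuotientGroup.mk' N)
    have hMi : M.index = p := by
      rw [← hCi]
      exact Subgroup.index_comap_of_surjective _ (QuotientGroup.mk'_surjective N)
    have hNM : N ≤ M := by
      intro ν hν
      rw [Subgroup.mem_comap, show (QuotientGroup.mk' N) ν = 1 from
        (QuotientGroup.eq_one_iff ν).2 hν]
      exact Subgroup.one_mem _
    haveI : M.Normal := Subgroup.Normal.comap inferInstance _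
    let N' : Subgroup M := N.subgroupOf M
    haveI : N'.Normal := Subgroup.normal_subgroupOf
    have hN'i : N'.index = p ^ m := by
      have h1 := Subgroup.relIndex_mul_index hNM
      rw [hMi, hidx, pow_succ] at h1
      exact Nat.eq_of_mul_eq_mul_right hp.pos h1
    let ι : N' →* N := MonoidHom.mk' (fun x => ⟨x.1.1, Subgroup.mem_subgroupOf.1 x.2⟩)
      (fun x y => rfl)
    have hι : Function.Surjective ι := fun y =>
      ⟨⟨⟨y, hNM y.2⟩, Subgroup.mem_subgroupOf.2 y.2⟩, rfl⟩
    obtain ⟨RM, hRM, hRM'⟩ := ih M N' hN'i V (ρ.comp ι : Representation k N' V)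
      (semi_comp_surj ρ ι hι hss) (fun g n n' h => hinv g (ι n) (ι n') (congrArg Subtype.val h))
    obtain ⟨g, hg⟩ : ∃ g : Γ, g ∉ M := by
      by_contra hne
      have h1 : M = ⊤ := by
        rw [eq_top_iff]
        intro x _
        by_contra hx
        exact hne ⟨x, hx⟩
      rw [h1, Subgroup.index_top] at hMi
      exact hp.one_lt.ne hMi
    have hcard : Nat.card (Γ ⧸ M) = p := hMi
    have hg1 : (g : Γ ⧸ M) ≠ 1 := fun h => hg ((QuotientGroup.eq_one_iff g).1 h)
    have hord : orderOf (g : Γ ⧸ M) = p := by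
      haveI : Finite (Γ ⧸ M) := Nat.finite_of_card_ne_zero (by rw [hcard]; exact hp.ne_zero)
      have h1 : orderOf (g : Γ ⧸ M) ∣ p := by
        rw [← hcard]
        exact orderOf_dvd_natCard _
      rcases (Nat.dvd_prime hp).1 h1 with h2 | h2
      · exact absurd (orderOf_eq_one_iff.1 h2) hg1
      · exact h2
    have hcov : ∀ x : Γ, ∃ i : ℤ, g ^ (-i) * x ∈ M := by
      intro x
      obtain ⟨i, hi⟩ := mem_zpowers_of_prime_card hcard hg1 (g' := (x : Γ ⧸ M))
      refine ⟨i, ?_⟩
      rw [zpow_neg, ← QuotientGroup.eq]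
      exact hi
    have hdiv : ∀ i : ℤ, g ^ i ∈ M → (p : ℤ) ∣ i := by
      intro i hi
      rw [← hord]
      apply orderOf_dvd_iff_zpow_eq_one.2
      exact (QuotientGroup.eq_one_iff _).2 hi
    have hgp : g ^ p ∈ M := by
      rw [← hord]
      apply (QuotientGroup.eq_one_iff _).1
      exact pow_orderOf_eq_one (g : Γ ⧸ M)
    obtain ⟨R, hR, hR'⟩ := cyclic_step M g hcov p hp.pos hdiv hgp _ V RM rfl hRM
      (fun n n' h => by
        have h1 : n ^ p ^ m ∈ N' := by
          rw [← hN'i]
          exact Subgroup.pow_index_mem N' n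
        have h2 : n' ^ p ^ m ∈ N' := by
          rw [← hN'i]
          exact Subgroup.pow_index_mem N' n'
        have h3 := hinv g (ι ⟨_, h1⟩) (ι ⟨_, h2⟩) (by
          change ((n' : Γ) ^ p ^ m) = g * ((n : Γ) ^ p ^ m) * g⁻¹
          rw [h, conj_pow])
        have h4 := hRM' ⟨_, h1⟩
        have h5 := hRM' ⟨_, h2⟩
        change RM (n ^ p ^ m) = ρ (ι ⟨_, h1⟩) at h4
        change RM (n' ^ p ^ m) = ρ (ι ⟨_, h2⟩) at h5
        rw [← h4, ← h5, map_pow, map_pow, eig_pow, eig_pow] at h3
        exact map_frob_inj p m h3)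
    refine ⟨R, hR, fun n => ?_⟩
    have h1 := hR' ⟨n, hNM n.2⟩
    have h2 := hRM' ⟨⟨n, hNM n.2⟩, Subgroup.mem_subgroupOf.2 n.2⟩
    exact h1.trans h2

/-- uniqueness: eigenvalues on a normal subgroup of `p`-power index determine all eigenvalues -/
theorem eig_of_p {p : ℕ} [ExpChar k p] {Γ : Type} [Group Γ] (N : Subgroup Γ) [N.Normal] {m : ℕ}
    (hN : N.index = p ^ m) {V W : Type} [AddCommGroup V] [Module k V] [FiniteDimensional k V]
    [AddCommGroup W] [Module k W] [FiniteDimensional k W] (R : Representation k Γ V)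
    (R' : Representation k Γ W) (h : ∀ n : N, eig (R n) = eig (R' n)) (x : Γ) :
    eig (R x) = eig (R' x) := by
  have h1 : x ^ p ^ m ∈ N := by
    rw [← hN]
    exact Subgroup.pow_index_mem N x
  have h2 := h ⟨_, h1⟩
  change eig (R (x ^ p ^ m)) = eig (R' (x ^ p ^ m)) at h2
  rw [map_pow, map_pow, eig_pow, eig_pow] at h2
  exact map_frob_inj p m h2

end Pool.Agent.Q227.CD
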