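import Mathlib

/-!
# Chromatic discrepancy
-/

set_option autoImplicit false

namespace Pool.Agent.Q227.CD

variable {V : Type} (G : SimpleGraph V)

/-- `|c(H)| - χ(H)` for the subgraph `H` induced by `S` (or `0`, if this is negative). -/
noncomputable def disc (c : G.Coloring ℕ) (S : Set V) : ℕ :=
  (c '' S).ncard - (G.induce S).chromaticNumber.toNat

/-- The maximum of `|c(H)| - χ(H)` over the induced subgraphs `H`. -/
noncomputable def phiC (c : G.Coloring ℕ) : ℕ := sSup {d | ∃ S : Set V, d = disc G c S}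

/-- The maximum of `|c(H)| - χ(H)` over the connected induced subgraphs `H`. -/
noncomputable def phiHatC (c : G.Coloring ℕ) : ℕ :=
  sSup {d | ∃ S : Set V, (G.induce S).Connected ∧ d = disc G c S}

/-- The chromatic discrepancy. -/
noncomputable def phi : ℕ := sInf {d | ∃ c : G.Coloring ℕ, d = phiC G c}

/-- The chromatic discrepancy with respect to connected induced subgraphs. -/
noncomputable def phiHat : ℕ := sInf {d | ∃ c : G.Coloring ℕ, d = phiHatC G c}

variable {G}

theorem disc_le_card [Finite V] (c : G.Coloring ℕ) (S : Set V) : disc G c S ≤ Nat.card V := by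
  refine (Nat.sub_le _ _).trans ((Set.ncard_image_le (Set.toFinite S)).trans ?_)
  rw [← Set.ncard_univ]
  exact Set.ncard_le_ncard (Set.subset_univ S)

theorem disc_le_phiC [Finite V] (c : G.Coloring ℕ) (S : Set V) : disc G c S ≤ phiC G c :=
  le_csSup ⟨Nat.card V, by rintro _ ⟨S, rfl⟩; exact disc_le_card c S⟩ ⟨S, rfl⟩

theorem disc_le_phiHatC [Finite V] (c : G.Coloring ℕ) {S : Set V} (h : (G.induce S).Connected) :
    disc G c S ≤ phiHatC G c :=
  le_csSup ⟨Nat.card V, by rintro _ ⟨S, _, rfl⟩; exact disc_le_card c S⟩ ⟨S, h, rfl⟩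

theorem phiC_le {c : G.Coloring ℕ} {k : ℕ} (h : ∀ S : Set V, disc G c S ≤ k) :
    phiC G c ≤ k :=
  csSup_le ⟨_, ∅, rfl⟩ (by rintro _ ⟨S, rfl⟩; exact h S)

theorem phiHatC_le_phiC [Finite V] (c : G.Coloring ℕ) : phiHatC G c ≤ phiC G c := by
  unfold phiHatC
  by_cases hne : {d | ∃ S : Set V, (G.induce S).Connected ∧ d = disc G c S}.Nonempty
  · exact csSup_le hne (by rintro _ ⟨S, _, rfl⟩; exact disc_le_phiC c S)
  · rw [Set.not_nonempty_iff_eq_empty.1 hne]
    simp

theorem phi_le_phiC (c : G.Coloring ℕ) : phi G ≤ phiC G c := by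
  unfold phi
  exact Nat.sInf_le ⟨c, rfl⟩

theorem phiHat_le_phiHatC (c : G.Coloring ℕ) : phiHat G ≤ phiHatC G c := by
  unfold phiHat
  exact Nat.sInf_le ⟨c, rfl⟩

theorem phi_le {c : G.Coloring ℕ} {k : ℕ} (h : ∀ S : Set V, disc G c S ≤ k) : phi G ≤ k :=
  (phi_le_phiC c).trans (phiC_le h)

theorem exists_coloring [Finite V] : Nonempty (G.Coloring ℕ) := by
  obtain ⟨n, ⟨e⟩⟩ := Finite.exists_equiv_fin V
  exact ⟨SimpleGraph.Coloring.mk (fun v => (e v : ℕ)) fun h h2 =>
    h.ne (e.injective (Fin.ext h2))⟩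

theorem exists_phi [Finite V] : ∃ c : G.Coloring ℕ, phi G = phiC G c := by
  obtain ⟨c₀⟩ := exists_coloring (G := G)
  have hne : {d | ∃ c : G.Coloring ℕ, d = phiC G c}.Nonempty := ⟨_, c₀, rfl⟩
  obtain ⟨c, hc⟩ := Nat.sInf_mem hne
  exact ⟨c, hc⟩

theorem exists_phiHat [Finite V] : ∃ c : G.Coloring ℕ, phiHat G = phiHatC G c := by
  obtain ⟨c₀⟩ := exists_coloring (G := G)
  have hne : {d | ∃ c : G.Coloring ℕ, d = phiHatC G c}.Nonempty := ⟨_, c₀, rfl⟩
  obtain ⟨c, hc⟩ := Nat.sInf_mem hne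
  exact ⟨c, hc⟩

theorem phiHat_le_phi [Finite V] : phiHat G ≤ phi G := by
  obtain ⟨c, hc⟩ := exists_phi (G := G)
  rw [hc]
  exact (phiHat_le_phiHatC c).trans (phiHatC_le_phiC c)

theorem le_phiHat [Finite V] {k : ℕ}
    (h : ∀ c : G.Coloring ℕ, ∃ S : Set V, (G.induce S).Connected ∧ k ≤ disc G c S) :
    k ≤ phiHat G := by
  obtain ⟨c, hc⟩ := exists_phiHat (G := G)
  rw [hc]
  obtain ⟨S, hS, hk⟩ := h c
  exact hk.trans (disc_le_phiHatC c hS)

theorem disc_le_of [Finite V] {c : G.Coloring ℕ} {S : Set V} {k : ℕ}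
    (h : ∀ m, (G.induce S).Colorable m → (c '' S).ncard ≤ k + m) : disc G c S ≤ k := by
  classical
  unfold disc
  have := Fintype.ofFinite V
  have := Fintype.ofFinite S
  have h1 : (G.induce S).Colorable (G.induce S).chromaticNumber.toNat :=
    SimpleGraph.colorable_chromaticNumber_of_fintype _
  have := h _ h1
  omega

theorem le_disc {c : G.Coloring ℕ} {S : Set V} {k m : ℕ} (h : (G.induce S).Colorable m)
    (hk : k + m ≤ (c '' S).ncard) : k ≤ disc G c S := by
  unfold disc
  have h1 : (G.induce S).chromaticNumber.toNat ≤ m := by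
    have := h.chromaticNumber_le
    exact ENat.toNat_le_of_le_natCast this
  omega

/-- The restriction of an isomorphism. -/
def isoInd {W : Type} {H : SimpleGraph W} (e : H ≃g G) (S : Set V) :
    H.induce (e ⁻¹' S) ≃g G.induce S where
  toFun w := ⟨e w.1, w.2⟩
  invFun v := ⟨e.symm v.1, by
    change e (e.symm v.1) ∈ S
    rw [e.apply_symm_apply]
    exact v.2⟩
  left_inv w := Subtype.ext (e.symm_apply_apply _)
  right_inv v := Subtype.ext (e.apply_symm_apply _)
  map_rel_iff' := e.map_adj_iff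

/-- Isomorphic graphs have equal discrepancies. -/
theorem disc_iso {W : Type} {H : SimpleGraph W} (e : H ≃g G) (c : G.Coloring ℕ) (S : Set V) :
    disc H (c.comp e.toHom) (e ⁻¹' S) = disc G c S := by
  unfold disc
  have h1 : (c.comp e.toHom) '' (e ⁻¹' S) = c '' S := by
    ext n
    constructor
    · rintro ⟨w, hw, rfl⟩
      exact ⟨e w, hw, rfl⟩
    · rintro ⟨v, hv, rfl⟩
      refine ⟨e.symm v, ?_, ?_⟩
      · change e (e.symm v) ∈ S
        rw [e.apply_symm_apply]
        exact hv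
      · change c (e (e.symm v)) = c v
        rw [e.apply_symm_apply]
  have h2 : (H.induce (e ⁻¹' S)).chromaticNumber = (G.induce S).chromaticNumber :=
    le_antisymm (SimpleGraph.chromaticNumber_mono_of_hom (isoInd e S).toHom)
      (SimpleGraph.chromaticNumber_mono_of_hom (isoInd e S).symm.toHom)
  rw [h1, h2]

theorem preimage_preimage {W : Type} {H : SimpleGraph W} (e : H ≃g G) (S : Set W) :
    e ⁻¹' (e.symm ⁻¹' S) = S := by
  ext w
  change e.symm (e w) ∈ S ↔ w ∈ S
  rw [e.symm_apply_apply]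

theorem phi_le_of_iso [Finite V] {W : Type} {H : SimpleGraph W} (e : H ≃g G) :
    phi H ≤ phi G := by
  obtain ⟨c, hc⟩ := exists_phi (G := G)
  rw [hc]
  refine phi_le (c := c.comp e.toHom) fun S => ?_
  rw [← preimage_preimage e S, disc_iso]
  exact disc_le_phiC c _

theorem phiHat_le_of_iso [Finite V] {W : Type} {H : SimpleGraph W} (e : H ≃g G) :
    phiHat H ≤ phiHat G := by
  obtain ⟨c, hc⟩ := exists_phiHat (G := G)
  rw [hc]
  refine (phiHat_le_phiHatC (c.comp e.toHom)).trans ?_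
  unfold phiHatC
  by_cases hne : {d | ∃ S : Set W, (H.induce S).Connected ∧
      d = disc H (c.comp e.toHom) S}.Nonempty
  · refine csSup_le hne ?_
    rintro _ ⟨S, hS, rfl⟩
    have h1 : (G.induce (e.symm ⁻¹' S)).Connected := by
      rw [← (isoInd e (e.symm ⁻¹' S)).connected_iff, preimage_preimage]
      exact hS
    rw [← preimage_preimage e S, disc_iso]
    exact disc_le_phiHatC c h1
  · rw [Set.not_nonempty_iff_eq_empty.1 hne]
    simp

theorem phi_iso [Finite V] {W : Type} [Finite W] {H : SimpleGraph W} (e : H ≃g G) :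
    phi H = phi G := le_antisymm (phi_le_of_iso e) (phi_le_of_iso e.symm)

theorem phiHat_iso [Finite V] {W : Type} [Finite W] {H : SimpleGraph W} (e : H ≃g G) :
    phiHat H = phiHat G := le_antisymm (phiHat_le_of_iso e) (phiHat_le_of_iso e.symm)

end Pool.Agent.Q227.CD
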