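import Pool.Agent.Q227.CD.Z2

/-!
# Gluing homomorphisms into a group over `Γ`
-/

set_option autoImplicit false
set_option linter.unusedSectionVars false

namespace Pool.Agent.Q227.CD.G

open NumberField IsDedekindDomain Pool.Agent.W401.Cheb Pool.Agent.W401.Frob MulAction Topology
open Pool.Agent.Q227.CD (glue_sec sec_unique IsFrobPow isFrobPow_one index_dvd_card open_of_ge
  finiteIndex_of_open)

section abstract

variable {Γ 𝓛 : Type} [Group Γ] [Group 𝓛] (pr : 𝓛 →* Γ) {N : Subgroup Γ} [N.Normal]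
variable {ι : Type} {U : ι → Subgroup Γ}

/-- conjugate homomorphisms are conjugate on the intersections -/
def Compat (r : ∀ i, U i →* 𝓛) : Prop :=
  ∀ i j (g : Γ), ∃ e, pr e = g ∧ ∀ (u : U i) (h : g * u * g⁻¹ ∈ U j),
    r j ⟨g * u * g⁻¹, h⟩ = e * r i u * e⁻¹

/-- the centralizer of `r(N)` in the kernel is commutative -/
def CommCent (N : Subgroup Γ) {V : Subgroup Γ} (r : V →* 𝓛) : Prop :=
  ∀ x ∈ pr.ker, ∀ y ∈ pr.ker, (∀ u : V, (u : Γ) ∈ N → x * r u = r u * x) →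
    (∀ u : V, (u : Γ) ∈ N → y * r u = r u * y) → x * y = y * x

/-- the elements which normalize `r` -/
def Nrm {V : Subgroup Γ} (hV : N ≤ V) (r : V →* 𝓛) : Subgroup 𝓛 where
  carrier := {e | ∀ (ν : Γ) (hν : ν ∈ N), r ⟨pr e * ν * (pr e)⁻¹, hV (‹N.Normal›.conj_mem ν hν _)⟩ =
    e * r ⟨ν, hV hν⟩ * e⁻¹}
  one_mem' := by
    intro ν hν
    rw [one_mul, inv_one, mul_one]
    congr 1
    apply Subtype.ext
    change pr 1 * ν * (pr 1)⁻¹ = ν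
    rw [map_one, one_mul, inv_one, mul_one]
  mul_mem' := by
    intro e f he hf ν hν
    have h1 := he _ (‹N.Normal›.conj_mem ν hν (pr f))
    have h2 := hf ν hν
    rw [h2] at h1
    have h3 : e * (f * r ⟨ν, hV hν⟩ * f⁻¹) * e⁻¹ = e * f * r ⟨ν, hV hν⟩ * (e * f)⁻¹ := by group
    rw [← h3, ← h1]
    congr 1
    apply Subtype.ext
    change pr (e * f) * ν * (pr (e * f))⁻¹ = pr e * (pr f * ν * (pr f)⁻¹) * (pr e)⁻¹
    rw [map_mul]
    group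
  inv_mem' := by
    intro e he ν hν
    have h1 := he _ (‹N.Normal›.conj_mem ν hν (pr e⁻¹))
    have h2 : r ⟨pr e * (pr e⁻¹ * ν * (pr e⁻¹)⁻¹) * (pr e)⁻¹,
        hV (‹N.Normal›.conj_mem _ (‹N.Normal›.conj_mem ν hν (pr e⁻¹)) (pr e))⟩ = r ⟨ν, hV hν⟩ := by
      congr 1
      apply Subtype.ext
      change pr e * (pr e⁻¹ * ν * (pr e⁻¹)⁻¹) * (pr e)⁻¹ = ν
      rw [map_inv]
      group
    rw [h2] at h1
    rw [h1]
    group

variable {pr}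

theorem mem_Nrm {V : Subgroup Γ} {hV : N ≤ V} {r : V →* 𝓛} {e : 𝓛} :
    e ∈ Nrm pr hV r ↔ ∀ (ν : Γ) (hν : ν ∈ N),
      r ⟨pr e * ν * (pr e)⁻¹, hV (‹N.Normal›.conj_mem ν hν _)⟩ = e * r ⟨ν, hV hν⟩ * e⁻¹ := Iff.rfl

variable (pr) in
/-- the projection -/
def prN {V : Subgroup Γ} (hV : N ≤ V) (r : V →* 𝓛) : Nrm pr hV r →* Γ :=
  pr.comp (Nrm pr hV r).subtype

theorem ker_comm {V : Subgroup Γ} {hV : N ≤ V} {r : V →* 𝓛} (hc : CommCent pr N r)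
    (a : Nrm pr hV r) (ha : a ∈ (prN pr hV r).ker) (b : Nrm pr hV r)
    (hb : b ∈ (prN pr hV r).ker) : a * b = b * a := by
  have key : ∀ a : Nrm pr hV r, a ∈ (prN pr hV r).ker → ∀ u : V, (u : Γ) ∈ N →
      (a : 𝓛) * r u = r u * a := by
    intro a ha u hu
    have h1 := mem_Nrm.1 a.2 u hu
    have h2 : pr (a : 𝓛) = 1 := ha
    have h3 : r ⟨pr (a : 𝓛) * u * (pr (a : 𝓛))⁻¹, hV (‹N.Normal›.conj_mem _ hu _)⟩ = r u := by
      congr 1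
      apply Subtype.ext
      change pr (a : 𝓛) * u * (pr (a : 𝓛))⁻¹ = u
      rw [h2, one_mul, inv_one, mul_one]
    rw [h3] at h1
    have h4 : r ⟨(u : Γ), hV hu⟩ = r u := rfl
    rw [h4] at h1
    calc (a : 𝓛) * r u = ((a : 𝓛) * r u * (a : 𝓛)⁻¹) * a := by group
      _ = r u * a := by rw [← h1]
  apply Subtype.ext
  exact hc a ha b hb (key a ha) (key b hb)

theorem pow_one_bij {A : Type} [Group A] : Function.Bijective fun a : A => a ^ 1 := by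
  have h1 : (fun a : A => a ^ 1) = id := funext fun a => pow_one a
  rw [h1]
  exact Function.bijective_id

/-- **gluing** -/
theorem glue [Nonempty ι] [∀ i, (U i).FiniteIndex] (hU : ∀ i, N ≤ U i)
    (hind : ∀ q : ℕ, q.Prime → ∃ i, ¬ q ∣ (U i).index)
    (r : ∀ i, U i →* 𝓛) (hr : ∀ i u, pr (r i u) = u) (hcc : ∀ i, CommCent pr N (r i))
    (hcompat : Compat pr r) :
    ∃ R : Γ →* 𝓛, (∀ g, pr (R g) = g) ∧
      ∀ j, ∃ a ∈ pr.ker, ∀ u : U j, R u = a * r j u * a⁻¹ := by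
  classical
  obtain ⟨i₀⟩ := ‹Nonempty ι›
  haveI : Nonempty ι := ⟨i₀⟩
  have ha : ∀ i, ∃ a, pr a = 1 ∧ ∀ (ν : Γ) (hν : ν ∈ N),
      r i₀ ⟨ν, hU i₀ hν⟩ = a * r i ⟨ν, hU i hν⟩ * a⁻¹ := by
    intro i
    obtain ⟨e, he1, he⟩ := hcompat i i₀ 1
    refine ⟨e, he1, fun ν hν => ?_⟩
    have h1 : (1 : Γ) * ((⟨ν, hU i hν⟩ : U i) : Γ) * 1⁻¹ ∈ U i₀ := by
      rw [one_mul, inv_one, mul_one]
      exact hU i₀ hν
    rw [← he _ h1]
    congr 1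
    apply Subtype.ext
    change ν = 1 * ν * 1⁻¹
    rw [one_mul, inv_one, mul_one]
  choose a ha1 ha using ha
  -- the sections
  have hs : ∀ i (u : U i), a i * r i u * (a i)⁻¹ ∈ Nrm pr (hU i₀) (r i₀) := by
    intro i u
    rw [mem_Nrm]
    intro ν hν
    have h1 : pr (a i * r i u * (a i)⁻¹) = u := by
      rw [map_mul, map_mul, map_inv, ha1, hr, one_mul, inv_one, mul_one]
    have h2 : (u : Γ) * ν * (u : Γ)⁻¹ ∈ N := ‹N.Normal›.conj_mem ν hν u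
    have h3 : r i₀ ⟨pr (a i * r i u * (a i)⁻¹) * ν * (pr (a i * r i u * (a i)⁻¹))⁻¹,
        hU i₀ (‹N.Normal›.conj_mem ν hν _)⟩ = r i₀ ⟨(u : Γ) * ν * (u : Γ)⁻¹, hU i₀ h2⟩ := by
      congr 1
      apply Subtype.ext
      change pr (a i * r i u * (a i)⁻¹) * ν * (pr (a i * r i u * (a i)⁻¹))⁻¹ = _
      rw [h1]
    have h4 : (⟨(u : Γ) * ν * (u : Γ)⁻¹, hU i h2⟩ : U i) = u * ⟨ν, hU i hν⟩ * u⁻¹ := rfl
    rw [h3, ha i _ h2, ha i ν hν, h4, map_mul, map_mul, map_inv]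
    group
  let s : ∀ i, U i →* Nrm pr (hU i₀) (r i₀) := fun i =>
    MonoidHom.mk' (fun u => ⟨_, hs i u⟩) (fun u w => Subtype.ext (by
      change a i * r i (u * w) * (a i)⁻¹ = a i * r i u * (a i)⁻¹ * (a i * r i w * (a i)⁻¹)
      rw [map_mul]
      group))
  have hs' : ∀ i u, ((s i u : Nrm pr (hU i₀) (r i₀)) : 𝓛) = a i * r i u * (a i)⁻¹ :=
    fun _ _ => rfl
  have hsp : ∀ i (u : U i), prN pr (hU i₀) (r i₀) (s i u) = u := by
    intro i u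
    change pr (a i * r i u * (a i)⁻¹) = u
    rw [map_mul, map_mul, map_inv, ha1, hr, one_mul, inv_one, mul_one]
  have hst : ∀ i j (g : Γ), ∃ e, prN pr (hU i₀) (r i₀) e = g ∧ ∀ (u : U i) (h : g * u * g⁻¹ ∈ U j),
      s j ⟨g * u * g⁻¹, h⟩ = e * s i u * e⁻¹ := by
    intro i j g
    obtain ⟨e, he1, he⟩ := hcompat i j g
    have hpe : pr (a j * e * (a i)⁻¹) = g := by
      rw [map_mul, map_mul, map_inv, ha1, ha1, he1, one_mul, inv_one, mul_one]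
    have hmem : a j * e * (a i)⁻¹ ∈ Nrm pr (hU i₀) (r i₀) := by
      rw [mem_Nrm]
      intro ν hν
      have h2 : g * ν * g⁻¹ ∈ N := ‹N.Normal›.conj_mem ν hν g
      have h3 : r i₀ ⟨pr (a j * e * (a i)⁻¹) * ν * (pr (a j * e * (a i)⁻¹))⁻¹,
          hU i₀ (‹N.Normal›.conj_mem ν hν _)⟩ = r i₀ ⟨g * ν * g⁻¹, hU i₀ h2⟩ := by
        congr 1
        apply Subtype.ext
        change pr (a j * e * (a i)⁻¹) * ν * (pr (a j * e * (a i)⁻¹))⁻¹ = _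
        rw [hpe]
      rw [h3, ha j _ h2, ha i ν hν, he ⟨ν, hU i hν⟩ (hU j h2)]
      group
    refine ⟨⟨_, hmem⟩, hpe, fun u h => Subtype.ext ?_⟩
    change a j * r j ⟨g * u * g⁻¹, h⟩ * (a j)⁻¹ =
      a j * e * (a i)⁻¹ * (a i * r i u * (a i)⁻¹) * (a j * e * (a i)⁻¹)⁻¹
    rw [he u h]
    group
  obtain ⟨T, hT, hTj⟩ := glue_sec (prN pr (hU i₀) (r i₀))
    (fun a ha b hb => ker_comm (hcc i₀) a ha b hb) s hsp hst 1 pow_one_bij (Or.inl rfl)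
    (fun q hq _ => hind q hq)
  refine ⟨(Nrm pr (hU i₀) (r i₀)).subtype.comp T, hT, fun j => ?_⟩
  obtain ⟨b, hb, hbj⟩ := hTj j
  refine ⟨b * a j, ?_, fun u => ?_⟩
  · rw [MonoidHom.mem_ker, map_mul, ha1, mul_one]
    exact hb
  · have h1 := congrArg Subtype.val (hbj u)
    change ((T (u : Γ) : Nrm pr (hU i₀) (r i₀)) : 𝓛) = b * a j * r j u * (b * a j)⁻¹
    rw [h1]
    change (b : 𝓛) * (a j * r j u * (a j)⁻¹) * (b : 𝓛)⁻¹ = _
    group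

/-- **uniqueness** -/
theorem unique [Nonempty ι] [∀ i, (U i).FiniteIndex] (hU : ∀ i, N ≤ U i)
    (hind : ∀ q : ℕ, q.Prime → ∃ i, ¬ q ∣ (U i).index)
    (R R' : Γ →* 𝓛) (hR : ∀ g, pr (R g) = g) (hR' : ∀ g, pr (R' g) = g)
    (hcc : CommCent pr N (R.comp (⊤ : Subgroup Γ).subtype))
    (h : ∀ j, ∃ a ∈ pr.ker, ∀ u : U j, R' u = a * R u * a⁻¹) :
    ∃ a ∈ pr.ker, ∀ g, R' g = a * R g * a⁻¹ := by
  classical
  obtain ⟨j₀⟩ := ‹Nonempty ι›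
  haveI : Nonempty ι := ⟨j₀⟩
  obtain ⟨a₀, ha₀, ha₀u⟩ := h j₀
  have hpa : pr a₀ = 1 := ha₀
  let r₀ : (⊤ : Subgroup Γ) →* 𝓛 := R.comp (⊤ : Subgroup Γ).subtype
  have hmem : ∀ X : Γ →* 𝓛, (∀ g, pr (X g) = g) → (∀ ν ∈ N, X ν = R ν) →
      ∀ g, X g ∈ Nrm pr (le_top : N ≤ ⊤) r₀ := by
    intro X hX hXN g
    rw [mem_Nrm]
    intro ν hν
    have h1 : g * ν * g⁻¹ ∈ N := ‹N.Normal›.conj_mem ν hν g
    change R (pr (X g) * ν * (pr (X g))⁻¹) = X g * R ν * (X g)⁻¹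
    rw [hX, ← hXN _ h1, ← hXN ν hν, map_mul, map_mul, map_inv]
  let T : Γ →* 𝓛 := (MulAut.conj a₀⁻¹).toMonoidHom.comp R'
  have hT : ∀ g, T g = a₀⁻¹ * R' g * a₀⁻¹⁻¹ := fun g => rfl
  have hTp : ∀ g, pr (T g) = g := by
    intro g
    rw [hT, map_mul, map_mul, map_inv, map_inv, map_inv, hpa, hR', inv_one, inv_one, one_mul,
      mul_one]
  have hTN : ∀ ν ∈ N, T ν = R ν := by
    intro ν hν
    have h1 := ha₀u ⟨ν, hU j₀ hν⟩
    change R' ν = a₀ * R ν * a₀⁻¹ at h1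
    rw [hT, h1]
    group
  let s : ∀ X : Γ →* 𝓛, (∀ g, pr (X g) = g) → (∀ ν ∈ N, X ν = R ν) →
      Γ →* Nrm pr (le_top : N ≤ ⊤) r₀ := fun X hX hXN =>
    MonoidHom.mk' (fun g => ⟨_, hmem X hX hXN g⟩) (fun x y => Subtype.ext (map_mul X x y))
  obtain ⟨b, hb, hbg⟩ := sec_unique (prN pr (le_top : N ≤ ⊤) r₀)
    (fun a ha b hb => ker_comm hcc a ha b hb) 1 pow_one_bij (Or.inl rfl)
    (fun q hq _ => hind q hq) (s R hR fun _ _ => rfl) (s T hTp hTN) (fun g => hR g)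
    (fun g => hTp g) (fun j => by
      obtain ⟨a, ha, hau⟩ := h j
      have hpa' : pr (a₀⁻¹ * a) = 1 := by
        rw [map_mul, map_inv, hpa, MonoidHom.mem_ker.1 ha, inv_one, mul_one]
      have hc : ∀ u : U j, T u = (a₀⁻¹ * a) * R u * (a₀⁻¹ * a)⁻¹ := by
        intro u
        rw [hT, hau u]
        group
      have hm : a₀⁻¹ * a ∈ Nrm pr (le_top : N ≤ ⊤) r₀ := by
        rw [mem_Nrm]
        intro ν hν
        have h1 := hc ⟨ν, hU j hν⟩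
        change T ν = (a₀⁻¹ * a) * R ν * (a₀⁻¹ * a)⁻¹ at h1
        change R (pr (a₀⁻¹ * a) * ν * (pr (a₀⁻¹ * a))⁻¹) = a₀⁻¹ * a * R ν * (a₀⁻¹ * a)⁻¹
        rw [← h1, hTN ν hν, hpa', one_mul, inv_one, mul_one]
      exact ⟨⟨_, hm⟩, hpa', fun u => Subtype.ext (hc u)⟩)
  refine ⟨a₀ * b, ?_, fun g => ?_⟩
  · rw [MonoidHom.mem_ker, map_mul, hpa, one_mul]
    exact hb
  · have h1 := congrArg Subtype.val (hbg g)
    change T g = (b : 𝓛) * R g * (b : 𝓛)⁻¹ at h1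
    rw [hT, inv_inv] at h1
    have h2 : R' g = a₀ * (a₀⁻¹ * R' g * a₀) * a₀⁻¹ := by group
    rw [h2, h1]
    group

end abstract

end Pool.Agent.Q227.CD.G
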