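import Pool.Agent.Q227.CD.G1
import Mathlib.GroupTheory.SemidirectProduct

/-!
# Descent of admissible homomorphisms into L-groups
-/

set_option autoImplicit false
set_option linter.unusedSectionVars false

namespace Pool.Agent.Q227.CD.G

open NumberField IsDedekindDomain Pool.Agent.W401.Cheb Pool.Agent.W401.Frob MulAction Topology
open Pool.Agent.Q227.CD (glue_sec sec_unique IsFrobPow isFrobPow_one index_dvd_card open_of_ge
  finiteIndex_of_open)

variable {K : Type} [Field K] [NumberField K]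
variable {H : Type} [Group H] {φ : GK K →* MulAut H}
variable {ι : Type} {U : ι → Subgroup (GK K)} {N : Subgroup (GK K)} [N.Normal]
  {S : Set (HeightOneSpectrum (𝓞 K))}

/-- elements of the dual group -/
noncomputable abbrev lft (φ : GK K →* MulAut H) : H →* (H ⋊[φ] GK K) := SemidirectProduct.inl

/-- the canonical section -/
noncomputable abbrev can (φ : GK K →* MulAut H) : GK K →* H ⋊[φ] GK K := SemidirectProduct.inr

theorem mem_ker_iff {x : (H ⋊[φ] GK K)} : x ∈ (SemidirectProduct.rightHom : (H ⋊[φ] GK K) →* GK K).ker ↔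
    ∃ h : H, x = lft φ h := by
  constructor
  · intro hx
    refine ⟨x.left, ?_⟩
    have h1 : x.right = 1 := hx
    ext
    · rfl
    · rw [h1]; rfl
  · rintro ⟨h, rfl⟩
    rfl

section nt

variable {R : GK K →* (H ⋊[φ] GK K)} (hR : ∀ g, (R g).right = g)
  {r : ∀ i, U i →* (H ⋊[φ] GK K)}
  (hj : ∀ j, ∃ h : H, ∀ u : U j,
    R u = lft φ h * r j u * (lft φ h)⁻¹)

include hR in
theorem decomp (g : GK K) : R g = lft φ (R g).left * can φ g := by
  ext
  · simp
  · simp [hR]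

theorem inr_comm {τ : GK K} (hτ : φ τ = 1) (h : H) :
    lft φ h * can φ τ =
      can φ τ * lft φ h := by
  ext
  · simp [hτ]
  · simp

include hj in
/-- inertia elements conjugate into one of the subgroups -/
theorem one_of_inert (hR : ∀ g, (R g).right = g)
    (hφ : ∀ v ∉ S, ∀ τ, IsInert v τ → φ τ = 1)
    (hunr : ∀ i, ∀ v ∉ S, ∀ σ : U i, IsInert v (σ : GK K) →
      r i σ = can φ (σ : GK K))
    {v : HeightOneSpectrum (𝓞 K)} (hv : v ∉ S) {τ g : GK K} {i : ι} (hg : g⁻¹ * τ * g ∈ U i)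
    (hτ : IsInert v τ) : R τ = can φ τ := by
  obtain ⟨h, hh⟩ := hj i
  have h1 : IsInert v (g⁻¹ * τ * g) := by
    have := isInert_conj hτ g⁻¹
    rwa [inv_inv] at this
  have h2 : R (g⁻¹ * τ * g) = can φ (g⁻¹ * τ * g) := by
    have h3 := hh ⟨g⁻¹ * τ * g, hg⟩
    rw [hunr i v hv ⟨g⁻¹ * τ * g, hg⟩ h1, inr_comm (hφ v hv _ h1), mul_inv_cancel_right] at h3
    exact h3
  have h4 : τ = g * (g⁻¹ * τ * g) * g⁻¹ := by group
  have h5 : R τ = R g * can φ (g⁻¹ * τ * g) * (R g)⁻¹ := by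
    conv_lhs => rw [h4]
    rw [map_mul, map_mul, map_inv, h2]
  have h6 : (can φ τ : (H ⋊[φ] GK K)) =
      can φ g * can φ (g⁻¹ * τ * g) *
        (can φ g)⁻¹ := by
    rw [← map_inv, ← map_mul, ← map_mul, ← h4]
  rw [h5, decomp hR g]
  have h7 : (lft φ (R g).left * can φ g : (H ⋊[φ] GK K)) *
      can φ (g⁻¹ * τ * g) *
      (lft φ (R g).left * can φ g)⁻¹ =
      lft φ (R g).left * (can φ g *
        can φ (g⁻¹ * τ * g) * (can φ g)⁻¹) *
        (lft φ (R g).left)⁻¹ := by group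
  rw [h7, ← h6, inr_comm (hφ v hv τ hτ), mul_inv_cancel_right]

include hj in
theorem inertia_index [∀ i, (U i).FiniteIndex] (hR : ∀ g, (R g).right = g)
    (hφ : ∀ v ∉ S, ∀ τ, IsInert v τ → φ τ = 1)
    (hunr : ∀ i, ∀ v ∉ S, ∀ σ : U i, IsInert v (σ : GK K) →
      r i σ = can φ (σ : GK K))
    {v : HeightOneSpectrum (𝓞 K)} (hv : v ∉ S) {Q : Ideal (𝓞 (AlgebraicClosure K))}
    (hQ : Over v Q) (i : ι) :
    ((R.eqLocus (can φ)).subgroupOf (iner Q)).index ∣ (U i).index := by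
  haveI : Finite (GK K ⧸ U i) := Subgroup.finite_quotient_of_finiteIndex
  refine index_dvd_card (X := GK K ⧸ U i) _ (fun x => ?_)
  obtain ⟨g, rfl⟩ := QuotientGroup.mk_surjective x
  intro τ hτ
  rw [Subgroup.mem_subgroupOf]
  rw [mem_stabilizer_iff] at hτ
  change (QuotientGroup.mk ((τ : GK K) * g) : GK K ⧸ U i) = QuotientGroup.mk g at hτ
  rw [eq_comm, QuotientGroup.eq] at hτ
  refine one_of_inert hj hR hφ hunr hv (i := i) (g := g) ?_ (isInert_iff.2 ⟨Q, hQ, τ.2⟩)
  rwa [mul_assoc]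

include hj in
/-- the common extension is unramified -/
theorem inertia_one [∀ i, (U i).FiniteIndex] (hR : ∀ g, (R g).right = g)
    (hφ : ∀ v ∉ S, ∀ τ, IsInert v τ → φ τ = 1)
    (hunr : ∀ i, ∀ v ∉ S, ∀ σ : U i, IsInert v (σ : GK K) →
      r i σ = can φ (σ : GK K))
    (hind : ∀ q : ℕ, q.Prime → ∃ i, ¬ q ∣ (U i).index)
    {v : HeightOneSpectrum (𝓞 K)} (hv : v ∉ S) {τ : GK K} (hτ : IsInert v τ) :
    R τ = can φ τ := by
  obtain ⟨Q, hQ, hτ⟩ := isInert_iff.1 hτ
  have h1 : ((R.eqLocus (can φ)).subgroupOf (iner Q)).index = 1 := by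
    by_contra hne
    obtain ⟨q, hq, hqd⟩ := Nat.exists_prime_and_dvd hne
    obtain ⟨i, hi⟩ := hind q hq
    exact hi (hqd.trans (inertia_index hj hR hφ hunr hv hQ i))
  rw [Subgroup.index_eq_one] at h1
  have h2 : (⟨τ, hτ⟩ : iner Q) ∈ (R.eqLocus (can φ)).subgroupOf (iner Q) := by
    rw [h1]
    exact Subgroup.mem_top _
  exact Subgroup.mem_subgroupOf.1 h2

include hj in
/-- Frobenius elements at places with a place of degree one -/
theorem degree_one {v : HeightOneSpectrum (𝓞 K)}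
    (hin : ∀ τ, IsInert v τ → R τ = can φ τ) (s : Set (H ⋊[φ] GK K))
    (hs : ∀ x ∈ s, ∀ y, y * x * y⁻¹ ∈ s)
    (hs' : ∀ x ∈ s, ∀ τ, IsInert v τ → x * can φ τ ∈ s)
    {i : ι} {σ₀ : GK K} (hσ₀ : IsFrob v σ₀) (hU : σ₀ ∈ U i) (hri : r i ⟨σ₀, hU⟩ ∈ s)
    {σ : GK K} (hσ : IsFrob v σ) : R σ ∈ s := by
  obtain ⟨g, τ, hτ, h⟩ := conj_frob v σ₀ σ hσ₀ hσ
  obtain ⟨a, ha⟩ := hj i
  have h1 : R σ₀ ∈ s := by
    have h2 := ha ⟨σ₀, hU⟩
    change R σ₀ = _ at h2
    rw [h2]
    exact hs _ hri _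
  rw [h, map_mul, map_mul, map_mul, map_inv, hin τ hτ]
  exact hs' _ (hs _ h1 _) τ hτ

end nt

section cont

variable [TopologicalSpace H] [IsTopologicalGroup H]

/-- the action of `Γ` on a fixed element is locally constant -/
theorem act_cont (hφ : IsOpen (φ.ker : Set (GK K))) (h : H) : Continuous fun g => φ g h := by
  rw [continuous_iff_continuousAt]
  intro σ
  have h1 : (fun τ : GK K => φ τ h) =ᶠ[𝓝 σ] fun _ => φ σ h := by
    have h2 : (fun τ : GK K => σ⁻¹ * τ) ⁻¹' (φ.ker : Set (GK K)) ∈ 𝓝 σ := by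
      apply (hφ.preimage (continuous_mul_left σ⁻¹)).mem_nhds
      rw [Set.mem_preimage, inv_mul_cancel]
      exact φ.ker.one_mem
    filter_upwards [h2] with τ hτ
    have h3 : φ (σ⁻¹ * τ) = 1 := hτ
    have h4 : φ τ = φ σ * φ (σ⁻¹ * τ) := by rw [← map_mul, mul_inv_cancel_left]
    rw [h4, h3, mul_one]
  exact (continuousAt_const).congr h1.symm

theorem cts_of_res [Nonempty ι] (hφ : IsOpen (φ.ker : Set (GK K)))
    (hφc : ∀ γ, Continuous (φ γ)) (hUo : ∀ i, IsOpen (U i : Set (GK K)))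
    {R : GK K →* (H ⋊[φ] GK K)} (hR : ∀ g, (R g).right = g) {r : ∀ i, U i →* (H ⋊[φ] GK K)}
    (hr : ∀ i u, (r i u).right = u) (hc : ∀ i, Continuous fun u => (r i u).left)
    (hj : ∀ j, ∃ h : H, ∀ u : U j,
      R u = lft φ h * r j u * (lft φ h)⁻¹) :
    Continuous fun g => (R g).left := by
  obtain ⟨i⟩ := ‹Nonempty ι›
  obtain ⟨h, hh⟩ := hj i
  have h1 : ContinuousOn (fun g => (R g).left) (U i : Set (GK K)) := by
    rw [continuousOn_iff_continuous_restrict]
    have h2 : ∀ g : U i, (R g).left = h * (r i g).left * φ g h⁻¹ := by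
      intro g
      rw [hh g]
      simp [hr i g]
    have h3 : Set.domRestrict (U i : Set (GK K)) (fun g => (R g).left) =
        fun g : U i => h * (r i g).left * φ g h⁻¹ := by
      funext g
      exact h2 g
    rw [h3]
    exact (continuous_const.mul (hc i)).mul ((act_cont hφ _).comp continuous_subtype_val)
  rw [continuous_iff_continuousAt]
  intro g₀
  have h4 : (fun g => (R g).left) = fun g => (R g₀).left * φ g₀ (R (g₀⁻¹ * g)).left := by
    funext g
    have h5 : R g = R g₀ * R (g₀⁻¹ * g) := by rw [← map_mul, mul_inv_cancel_left]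
    rw [h5, SemidirectProduct.mul_left, hR]
  rw [h4]
  have h5 : ContinuousAt (fun g => (R g).left) (g₀⁻¹ * g₀) := by
    rw [inv_mul_cancel]
    exact h1.continuousAt ((hUo i).mem_nhds (U i).one_mem)
  have h6 : ContinuousAt (fun g => (R (g₀⁻¹ * g)).left) g₀ :=
    ContinuousAt.comp (f := fun g => g₀⁻¹ * g) (g := fun g => (R g).left) h5
      (continuous_mul_left g₀⁻¹).continuousAt
  exact continuousAt_const.mul ((hφc g₀).continuousAt.comp h6)

end cont

end Pool.Agent.Q227.CD.G
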