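import Pool.Agent.Q227.CD.G2

/-!
# Descent of admissible homomorphisms: the main theorems
-/

set_option autoImplicit false
set_option linter.unusedSectionVars false

namespace Pool.Agent.Q227.CD.G

open NumberField IsDedekindDomain Pool.Agent.W401.Cheb Pool.Agent.W401.Frob MulAction Topology
open Pool.Agent.Q227.CD (glue_sec sec_unique IsFrobPow isFrobPow_one index_dvd_card open_of_ge
  finiteIndex_of_open proper_of_notcyclic proper_index)

variable {K : Type} [Field K] [NumberField K]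
variable {H : Type} [Group H] {φ : GK K →* MulAut H}

/-- the centralizer in the dual group of the image of `N` is commutative -/
def CommCent' (N : Subgroup (GK K)) {V : Subgroup (GK K)} (r : V →* (H ⋊[φ] GK K)) : Prop :=
  ∀ x y : H, (∀ u : V, (u : GK K) ∈ N → lft φ x * r u = r u * lft φ x) →
    (∀ u : V, (u : GK K) ∈ N → lft φ y * r u = r u * lft φ y) → x * y = y * x

/-- the homomorphisms are compatible -/
def Compat' {ι : Type} {U : ι → Subgroup (GK K)} (r : ∀ i, U i →* (H ⋊[φ] GK K)) : Prop :=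
  ∀ i j (g : GK K), ∃ h : H, ∀ (u : U i) (hu : g * u * g⁻¹ ∈ U j),
    r j ⟨g * u * g⁻¹, hu⟩ = (lft φ h * can φ g) * r i u * (lft φ h * can φ g)⁻¹

/-- the property of the sets of Satake parameters -/
def Stable (v : HeightOneSpectrum (𝓞 K)) (s : Set (H ⋊[φ] GK K)) : Prop :=
  (∀ x ∈ s, ∀ y, y * x * y⁻¹ ∈ s) ∧ ∀ x ∈ s, ∀ τ, IsInert v τ → x * can φ τ ∈ s

theorem commCent_of {N V : Subgroup (GK K)} {r : V →* (H ⋊[φ] GK K)} (h : CommCent' N r) :
    CommCent (SemidirectProduct.rightHom : (H ⋊[φ] GK K) →* GK K) N r := by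
  intro x hx y hy hxr hyr
  obtain ⟨a, rfl⟩ := mem_ker_iff.1 hx
  obtain ⟨b, rfl⟩ := mem_ker_iff.1 hy
  change lft φ a * lft φ b = lft φ b * lft φ a
  rw [← map_mul, ← map_mul, h a b hxr hyr]

theorem lft_inj {x y : H} (h : lft φ x = lft φ y) : x = y :=
  SemidirectProduct.inl_injective h

variable {ι : Type} {U : ι → Subgroup (GK K)} {N : Subgroup (GK K)} [N.Normal]
  {S : Set (HeightOneSpectrum (𝓞 K))} {s : HeightOneSpectrum (𝓞 K) → Set (H ⋊[φ] GK K)}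

/-- **descent of admissible homomorphisms** -/
theorem mainG [TopologicalSpace H] [IsTopologicalGroup H] [Nonempty ι]
    (hφ : IsOpen (φ.ker : Set (GK K))) (hφc : ∀ γ, Continuous (φ γ))
    (hφS : ∀ v ∉ S, ∀ τ, IsInert v τ → φ τ = 1)
    (hN : IsOpen (N : Set (GK K))) (hNU : ∀ i, N ≤ U i)
    (hind : ∀ q : ℕ, q.Prime → ∃ i, ¬ q ∣ (U i).index)
    (hs : ∀ v ∉ S, Stable v (s v))
    (r : ∀ i, U i →* (H ⋊[φ] GK K)) (hr : ∀ i u, (r i u).right = u)
    (hc : ∀ i, Continuous fun u => (r i u).left) (hcc : ∀ i, CommCent' N (r i))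
    (hcompat : Compat' r)
    (hatt : ∀ i, ∀ v ∉ S, (∀ σ : U i, IsInert v (σ : GK K) → r i σ = can φ (σ : GK K)) ∧
      ∀ σ : U i, IsFrob v (σ : GK K) → r i σ ∈ s v) :
    ∃ R : GK K →* (H ⋊[φ] GK K), (∀ g, (R g).right = g) ∧ (Continuous fun g => (R g).left) ∧
      (∀ j, ∃ h : H, ∀ u : U j, R u = lft φ h * r j u * (lft φ h)⁻¹) ∧
      (∀ R' : GK K →* (H ⋊[φ] GK K), (∀ g, (R' g).right = g) →
        (∀ j, ∃ h : H, ∀ u : U j, R' u = lft φ h * r j u * (lft φ h)⁻¹) →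
        ∃ h : H, ∀ g, R' g = lft φ h * R g * (lft φ h)⁻¹) ∧
      (∀ x y : H, (∀ ν ∈ N, lft φ x * R ν = R ν * lft φ x) →
        (∀ ν ∈ N, lft φ y * R ν = R ν * lft φ y) → x * y = y * x) ∧
      ∀ v ∉ S, (∀ τ, IsInert v τ → R τ = can φ τ) ∧
        ((∃ i, ∃ σ ∈ U i, IsFrob v σ) → ∀ σ, IsFrob v σ → R σ ∈ s v) := by
  have hUo : ∀ i, IsOpen (U i : Set (GK K)) := fun i => open_of_ge hN (hNU i)
  haveI : ∀ i, (U i).FiniteIndex := fun i => finiteIndex_of_open (hUo i)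
  obtain ⟨R, hR, hRj⟩ := glue (pr := (SemidirectProduct.rightHom : (H ⋊[φ] GK K) →* GK K)) hNU hind
    r hr (fun i => commCent_of (hcc i)) (fun i j g => by
      obtain ⟨h, hh⟩ := hcompat i j g
      refine ⟨lft φ h * can φ g, ?_, hh⟩
      rw [map_mul]
      change (1 : GK K) * g = g
      rw [one_mul])
  have hj : ∀ j, ∃ h : H, ∀ u : U j, R u = lft φ h * r j u * (lft φ h)⁻¹ := by
    intro j
    obtain ⟨a, ha, hau⟩ := hRj j
    obtain ⟨h, rfl⟩ := mem_ker_iff.1 ha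
    exact ⟨h, hau⟩
  have hR' : ∀ g, (R g).right = g := hR
  have hcR : ∀ x y : H, (∀ ν ∈ N, lft φ x * R ν = R ν * lft φ x) →
      (∀ ν ∈ N, lft φ y * R ν = R ν * lft φ y) → x * y = y * x := by
    intro x y hx hy
    obtain ⟨i⟩ := ‹Nonempty ι›
    obtain ⟨h, hh⟩ := hj i
    have key : ∀ z : H, (∀ ν ∈ N, lft φ z * R ν = R ν * lft φ z) →
        ∀ u : U i, (u : GK K) ∈ N → lft φ (h⁻¹ * z * h) * r i u = r i u * lft φ (h⁻¹ * z * h) := by
      intro z hz u hu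
      have h1 := hz u hu
      rw [hh u] at h1
      rw [map_mul, map_mul, map_inv]
      calc (lft φ h)⁻¹ * lft φ z * lft φ h * r i u
          = (lft φ h)⁻¹ * (lft φ z * (lft φ h * r i u * (lft φ h)⁻¹)) * lft φ h := by group
        _ = (lft φ h)⁻¹ * (lft φ h * r i u * (lft φ h)⁻¹ * lft φ z) * lft φ h := by rw [h1]
        _ = r i u * ((lft φ h)⁻¹ * lft φ z * lft φ h) := by group
    have h2 := hcc i _ _ (key x hx) (key y hy)
    have h3 : h * (h⁻¹ * x * h * (h⁻¹ * y * h)) * h⁻¹ = h * (h⁻¹ * y * h * (h⁻¹ * x * h)) * h⁻¹ := by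
      rw [h2]
    have h4 : h * (h⁻¹ * x * h * (h⁻¹ * y * h)) * h⁻¹ = x * y := by group
    have h5 : h * (h⁻¹ * y * h * (h⁻¹ * x * h)) * h⁻¹ = y * x := by group
    rwa [h4, h5] at h3
  refine ⟨R, hR', cts_of_res hφ hφc hUo hR' hr hc hj, hj, fun R' hR1 hR2 => ?_, hcR,
    fun v hv => ?_⟩
  · obtain ⟨a, ha, hag⟩ := unique (pr := (SemidirectProduct.rightHom : (H ⋊[φ] GK K) →* GK K))
      (N := N) (U := U) hNU hind R R' hR hR1 (commCent_of (fun x y hx hy => hcR x y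
        (fun ν hν => hx ⟨ν, Subgroup.mem_top ν⟩ hν) (fun ν hν => hy ⟨ν, Subgroup.mem_top ν⟩ hν)))
      (fun j => by
        obtain ⟨h, hh⟩ := hj j
        obtain ⟨h', hh'⟩ := hR2 j
        refine ⟨lft φ (h' * h⁻¹), mem_ker_iff.2 ⟨_, rfl⟩, fun u => ?_⟩
        rw [hh u, hh' u, map_mul, map_inv]
        group)
    obtain ⟨h, rfl⟩ := mem_ker_iff.1 ha
    exact ⟨h, hag⟩
  · have hin : ∀ τ, IsInert v τ → R τ = can φ τ := fun τ hτ =>
      inertia_one hj hR' hφS (fun i v hv => (hatt i v hv).1) hind hv hτ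
    refine ⟨hin, ?_⟩
    rintro ⟨i, σ₀, hσ₀, hfr⟩ σ hσ
    exact degree_one hj hin (s v) (hs v hv).1 (hs v hv).2 hfr hσ₀
      ((hatt i v hv).2 ⟨σ₀, hσ₀⟩ hfr) hσ

/-- the proper subextensions -/
def Proper (N : Subgroup (GK K)) : Type := {U : Subgroup (GK K) // N ≤ U ∧ U ≠ ⊤}

/-- **existence over all proper subextensions** -/
theorem exactG [TopologicalSpace H] [IsTopologicalGroup H]
    (hφ : IsOpen (φ.ker : Set (GK K))) (hφc : ∀ γ, Continuous (φ γ))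
    (hφS : ∀ v ∉ S, ∀ τ, IsInert v τ → φ τ = 1)
    (hN : IsOpen (N : Set (GK K))) (hnc : ¬ IsCyclic (GK K ⧸ N))
    (hG : ¬ ∃ r : ℕ, r.Prime ∧ IsPGroup r (GK K ⧸ N))
    (hs : ∀ v ∉ S, Stable v (s v)) :
    (∃ R : GK K →* (H ⋊[φ] GK K), (∀ g, (R g).right = g) ∧ (Continuous fun g => (R g).left) ∧
      (∀ x y : H, (∀ ν ∈ N, lft φ x * R ν = R ν * lft φ x) →
        (∀ ν ∈ N, lft φ y * R ν = R ν * lft φ y) → x * y = y * x) ∧
      ∀ v ∉ S, (∀ τ, IsInert v τ → R τ = can φ τ) ∧ ∀ σ, IsFrob v σ → R σ ∈ s v) ↔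
    ∃ r : ∀ i : Proper N, i.1 →* (H ⋊[φ] GK K), (∀ i u, (r i u).right = u) ∧
      (∀ i, Continuous fun u => (r i u).left) ∧ (∀ i, CommCent' N (r i)) ∧ Compat' r ∧
      ∀ i, ∀ v ∉ S, (∀ σ : i.1, IsInert v (σ : GK K) → r i σ = can φ (σ : GK K)) ∧
        ∀ σ : i.1, IsFrob v (σ : GK K) → r i σ ∈ s v := by
  classical
  constructor
  · rintro ⟨R, h1, h2, h3, h4⟩
    refine ⟨fun i => R.comp i.1.subtype, fun i u => h1 u,
      fun i => h2.comp continuous_subtype_val, fun i x y hx hy => ?_, fun i j g => ?_,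
      fun i v hv => ⟨fun σ hσ => (h4 v hv).1 σ hσ, fun σ hσ => (h4 v hv).2 σ hσ⟩⟩
    · exact h3 x y (fun ν hν => hx ⟨ν, i.2.1 hν⟩ hν) (fun ν hν => hy ⟨ν, i.2.1 hν⟩ hν)
    · refine ⟨(R g).left, fun u hu => ?_⟩
      change R (g * u * g⁻¹) = _ * R u * _
      rw [← decomp h1 g, map_mul, map_mul, map_inv]
  · rintro ⟨r, h1, h2, h3, h4, h5⟩
    have hcov : ∀ σ : GK K, ∃ i : Proper N, σ ∈ i.1 := fun σ => by
      obtain ⟨V, h1, h2, h3⟩ := proper_of_notcyclic N hnc σ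
      exact ⟨⟨V, h1, h2⟩, h3⟩
    haveI : Nonempty (Proper N) := by
      obtain ⟨i, -⟩ := hcov 1
      exact ⟨i⟩
    haveI : Finite (GK K ⧸ N) := Subgroup.quotient_finite_of_isOpen _ hN
    obtain ⟨R, hR, hRc, -, -, hRcc, hRv⟩ := mainG (U := fun i : Proper N => i.1) hφ hφc hφS hN
      (fun i => i.2.1) (fun q hq => by
        obtain ⟨H, hH1, hH2⟩ := proper_index q hq (G := GK K ⧸ N) (fun h => hG ⟨q, hq, h⟩)
        refine ⟨⟨H.comap (QuotientGroup.mk' N), ?_, ?_⟩, ?_⟩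
        · intro ν hν
          rw [Subgroup.mem_comap, show (QuotientGroup.mk' N) ν = 1 from
            (QuotientGroup.eq_one_iff ν).2 hν]
          exact Subgroup.one_mem _
        · intro h
          apply hH1
          rw [eq_top_iff]
          intro z _
          obtain ⟨z, rfl⟩ := QuotientGroup.mk_surjective z
          have h2 : z ∈ H.comap (QuotientGroup.mk' N) := by
            rw [h]
            exact Subgroup.mem_top z
          exact h2
        · change ¬ q ∣ (H.comap (QuotientGroup.mk' N)).index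
          rw [Subgroup.index_comap_of_surjective _ (QuotientGroup.mk'_surjective N)]
          exact hH2) hs r h1 h2 h3 h4 h5
    refine ⟨R, hR, hRc, hRcc, fun v hv => ⟨(hRv v hv).1, fun σ hσ => ?_⟩⟩
    obtain ⟨i, hi⟩ := hcov σ
    exact (hRv v hv).2 ⟨i, σ, hi, hσ⟩ σ hσ

end Pool.Agent.Q227.CD.G
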