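import Pool.Agent.Q227.CD.Cliff

/-!
# Representations which are semisimple on a subgroup of finite index
-/

set_option autoImplicit false
set_option linter.unusedSectionVars false

namespace Pool.Agent.Q227.CD

open Representation Module Pool.Agent.Q15.GR

variable {k : Type} [Field k] [CharZero k]
variable {G V : Type} [Group G] [AddCommGroup V] [Module k V]

/-- a representation which is semisimple on a normal subgroup of finite index is semisimple -/
theorem semi_of_finite (ρ : Representation k G V) (N : Subgroup G) [N.Normal] [N.FiniteIndex]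
    (h : IsSemisimpleRepresentation (ρ.comp N.subtype : Representation k N V)) :
    ρ.IsSemisimpleRepresentation := by
  classical
  haveI : Finite (G ⧸ N) := Subgroup.finite_quotient_of_finiteIndex
  letI : Fintype (G ⧸ N) := Fintype.ofFinite _
  refine ⟨fun X => ?_⟩
  let X' : Subrepresentation (ρ.comp N.subtype : Representation k N V) :=
    { toSubmodule := X.toSubmodule
      apply_mem_toSubmodule := fun h v hv => X.apply_mem_toSubmodule (h : G) hv }
  obtain ⟨Y', hY'⟩ := h.exists_isCompl X'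
  have hc : IsCompl X.toSubmodule Y'.toSubmodule := isCompl_sub hY'
  set P := X.toSubmodule.projection Y'.toSubmodule hc with hP
  have hPN : ∀ ν : N, P ∘ₗ ρ ν = ρ ν ∘ₗ P := fun ν => proj_comm (X := X') (Y := Y') hc ν
  let T : G → (V →ₗ[k] V) := fun g => ρ g ∘ₗ P ∘ₗ ρ g⁻¹
  have hT : ∀ g (ν : N), T (g * ν) = T g := by
    intro g ν
    refine LinearMap.ext fun v => ?_
    change ρ (g * ν) (P (ρ (g * ν)⁻¹ v)) = ρ g (P (ρ g⁻¹ v))
    rw [mul_inv_rev, map_mul, map_mul, Module.End.mul_apply, Module.End.mul_apply]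
    have h1 := LinearMap.congr_fun (hPN ν⁻¹) (ρ g⁻¹ v)
    change P (ρ ((ν : G)⁻¹) (ρ g⁻¹ v)) = ρ ((ν : G)⁻¹) (P (ρ g⁻¹ v)) at h1
    rw [h1, ← Module.End.mul_apply (ρ (ν : G)), ← map_mul, mul_inv_cancel, map_one,
      Module.End.one_apply]
  have hTout : ∀ g, T (QuotientGroup.mk g : G ⧸ N).out = T g := by
    intro g
    obtain ⟨ν, hν⟩ := QuotientGroup.mk_out_eq_mul N g
    rw [hν, hT]
  have hTx : ∀ x g v, ρ x (T g v) = T (x * g) (ρ x v) := by
    intro x g v
    change ρ x (ρ g (P (ρ g⁻¹ v))) = ρ (x * g) (P (ρ (x * g)⁻¹ (ρ x v)))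
    rw [← Module.End.mul_apply, ← map_mul, ← Module.End.mul_apply (ρ (x * g)⁻¹), ← map_mul]
    congr 4
    group
  let m : k := (Fintype.card (G ⧸ N) : k)
  have hm : m ≠ 0 := by
    exact Nat.cast_ne_zero.2 Fintype.card_ne_zero
  let Q : V →ₗ[k] V := m⁻¹ • ∑ q : G ⧸ N, T q.out
  have hQ : ∀ v, Q v = m⁻¹ • ∑ q : G ⧸ N, T q.out v := by
    intro v
    change (m⁻¹ • ∑ q : G ⧸ N, T q.out) v = _
    rw [LinearMap.smul_apply, LinearMap.sum_apply]
  have hQx : ∀ x v, ρ x (Q v) = Q (ρ x v) := by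
    intro x v
    rw [hQ, hQ, map_smul, map_sum]
    congr 1
    rw [← Equiv.sum_comp (MulAction.toPerm x : Equiv.Perm (G ⧸ N)) (fun q => T q.out (ρ x v))]
    refine Finset.sum_congr rfl fun q _ => ?_
    rw [hTx]
    congr 1
    obtain ⟨g, rfl⟩ := QuotientGroup.mk_surjective q
    obtain ⟨ν, hν⟩ := QuotientGroup.mk_out_eq_mul N g
    change T (x * (QuotientGroup.mk g : G ⧸ N).out) = T (QuotientGroup.mk (x * g) : G ⧸ N).out
    rw [hTout, hν, ← mul_assoc, hT]
  have hTX : ∀ g v, T g v ∈ X.toSubmodule := fun g v =>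
    X.apply_mem_toSubmodule g (Submodule.projection_apply_mem hc _)
  have hQX : ∀ v, Q v ∈ X.toSubmodule := by
    intro v
    rw [hQ]
    exact X.toSubmodule.smul_mem _ (Submodule.sum_mem _ fun q _ => hTX _ _)
  have hQid : ∀ v ∈ X.toSubmodule, Q v = v := by
    intro v hv
    have h1 : ∀ g, T g v = v := by
      intro g
      change ρ g (P (ρ g⁻¹ v)) = v
      rw [hP, Submodule.projection_apply_of_mem_left hc (X.apply_mem_toSubmodule g⁻¹ hv),
        ← Module.End.mul_apply, ← map_mul, mul_inv_cancel, map_one, Module.End.one_apply]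
    rw [hQ, Finset.sum_congr rfl fun q _ => h1 _, Finset.sum_const, Finset.card_univ,
      ← Nat.cast_smul_eq_nsmul k, smul_smul, inv_mul_cancel₀ hm, one_smul]
  let Y : Subrepresentation ρ :=
    { toSubmodule := LinearMap.ker Q
      apply_mem_toSubmodule := fun g v hv => by
        rw [LinearMap.mem_ker] at hv ⊢
        rw [← hQx, hv, map_zero] }
  refine ⟨Y, ?_, ?_⟩
  · rw [disjoint_iff]
    apply Subrepresentation.toSubmodule_injective
    change X.toSubmodule ⊓ LinearMap.ker Q = ⊥
    rw [Submodule.eq_bot_iff]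
    rintro v ⟨hv1, hv2⟩
    rw [← hQid v hv1]
    exact hv2
  · rw [codisjoint_iff]
    apply Subrepresentation.toSubmodule_injective
    change X.toSubmodule ⊔ LinearMap.ker Q = ⊤
    rw [eq_top_iff]
    intro v _
    rw [Submodule.mem_sup]
    refine ⟨Q v, hQX v, v - Q v, ?_, by abel⟩
    rw [LinearMap.mem_ker, map_sub, hQid _ (hQX v), sub_self]

end Pool.Agent.Q227.CD
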