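import Pool.Agent.Q227.CD.NT3

/-!
# Irreducibility is necessary: extensions with group `S₃`

For an extension with group `S₃` there are two-dimensional data which are attached to semisimple
representations over all proper subextensions (of degrees `2`, `3`, `6`) but not over `K`.
-/

set_option autoImplicit false
set_option linter.unusedSectionVars false

namespace Pool.Agent.Q227.CD

open NumberField IsDedekindDomain Pool.Agent.W401.Cheb Pool.Agent.W401.Frob MulAction
open Representation Module Pool.Agent.Q15.GR Topology Equiv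

variable {K : Type} [Field K] [NumberField K]
variable {k : Type} [Field k] [IsAlgClosed k] [TopologicalSpace k] [IsTopologicalRing k]
  [T2Space k]

/-! ## permutations of three letters -/

theorem perm_even_mul : ∀ g h : Perm (Fin 3), Perm.sign g = 1 → Perm.sign h = 1 →
    (g * h) 0 = g 0 + h 0 := by decide

theorem perm_generate : ∀ t c g : Perm (Fin 3), Perm.sign t = -1 → Perm.sign c = 1 → c ≠ 1 →
    g = 1 ∨ g = c ∨ g = c * c ∨ g = t ∨ g = t * c ∨ g = t * c * c := by decide

theorem perm_odd_sq : ∀ t : Perm (Fin 3), Perm.sign t = -1 → t ^ 2 = 1 := by decide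

theorem perm_even_cube : ∀ t : Perm (Fin 3), Perm.sign t = 1 → t ^ 3 = 1 := by decide

theorem perm_conj : ∀ g c : Perm (Fin 3), Perm.sign c = 1 →
    (g * c * g⁻¹) 0 = c 0 ∨ (g * c * g⁻¹) 0 = c 0 + c 0 := by decide

theorem perm_zero : ∀ c : Perm (Fin 3), Perm.sign c = 1 → c 0 = 0 → c = 1 := by decide

theorem exists_tc : ∃ t c : Perm (Fin 3), Perm.sign t = -1 ∧ Perm.sign c = 1 ∧ c 0 = 1 ∧
    Perm.sign (t * c) = -1 ∧ Perm.sign (t * c⁻¹) = -1 := by decide

/-! ## the eigenvalues -/

section eigen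

variable (ζ : kˣ)

/-- the first character -/
noncomputable def c1 (g : Perm (Fin 3)) : kˣ := if Perm.sign g = 1 then ζ ^ (g 0).val else -1

/-- the second character -/
noncomputable def c2 (g : Perm (Fin 3)) : kˣ := if Perm.sign g = 1 then ζ ^ (2 * (g 0).val) else -1

/-- the eigenvalues -/
noncomputable def ev2 (g : Perm (Fin 3)) : Multiset k := {((c1 ζ g : kˣ) : k), ((c2 ζ g : kˣ) : k)}

variable {ζ} (hζ : ζ ^ 3 = 1)

include hζ

theorem pow_fin_add (a b : Fin 3) : ζ ^ (a + b).val = ζ ^ a.val * ζ ^ b.val := by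
  rw [Fin.val_add, ← pow_add, ← pow_mod_orderOf ζ (a.val + b.val), ← pow_mod_orderOf ζ]
  congr 1
  have h1 : orderOf ζ ∣ 3 := orderOf_dvd_of_pow_eq_one hζ
  exact Nat.mod_mod_of_dvd _ h1

theorem c1_mul {g h : Perm (Fin 3)} (hg : Perm.sign g = 1) (hh : Perm.sign h = 1) :
    c1 ζ (g * h) = c1 ζ g * c1 ζ h := by
  unfold c1
  rw [if_pos hg, if_pos hh, if_pos (by rw [map_mul, hg, hh, mul_one]), perm_even_mul g h hg hh,
    pow_fin_add hζ]

theorem c2_eq (g : Perm (Fin 3)) (hg : Perm.sign g = 1) : c2 ζ g = c1 ζ g ^ 2 := by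
  unfold c1 c2
  rw [if_pos hg, if_pos hg, ← pow_mul, mul_comm]

omit hζ in
theorem c1_one : c1 ζ 1 = 1 := by
  unfold c1
  rw [if_pos (map_one _)]
  simp

omit hζ in
theorem c2_one : c2 ζ 1 = 1 := by
  unfold c2
  rw [if_pos (map_one _)]
  simp

theorem c1_pow {g : Perm (Fin 3)} (hg : Perm.sign g = 1) (f : ℕ) : c1 ζ (g ^ f) = c1 ζ g ^ f := by
  induction f with
  | zero => rw [pow_zero, pow_zero, c1_one]
  | succ f ih =>
    rw [pow_succ, c1_mul hζ (by rw [map_pow, hg, one_pow]) hg, ih, pow_succ]

theorem ev2_conj_even {g c : Perm (Fin 3)} (hc : Perm.sign c = 1) :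
    ev2 ζ (g * c * g⁻¹) = (ev2 ζ c : Multiset k) := by
  have hs : Perm.sign (g * c * g⁻¹) = 1 := by
    rw [map_mul, map_mul, map_inv, mul_comm (Perm.sign g), mul_assoc, mul_inv_cancel, mul_one, hc]
  unfold ev2
  rw [c2_eq hζ _ hs, c2_eq hζ _ hc]
  rcases perm_conj g c hc with h | h
  · have h1 : c1 ζ (g * c * g⁻¹) = c1 ζ c := by
      unfold c1
      rw [if_pos hs, if_pos hc, h]
    rw [h1]
  · have h1 : c1 ζ (g * c * g⁻¹) = c1 ζ c ^ 2 := by
      unfold c1
      rw [if_pos hs, if_pos hc, h, pow_fin_add hζ, pow_two]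
    have h2 : (c1 ζ c ^ 2) ^ 2 = c1 ζ c := by
      have h3 : c1 ζ c ^ 3 = 1 := by
        rw [← c1_pow hζ hc, perm_even_cube c hc, c1_one]
      rw [← pow_mul]
      calc c1 ζ c ^ (2 * 2) = c1 ζ c ^ 3 * c1 ζ c := by rw [← pow_succ]
        _ = c1 ζ c := by rw [h3, one_mul]
    rw [h1, h2]
    exact Multiset.pair_comm _ _

/-- the eigenvalues of powers of even elements -/
theorem ev2_pow_even {c : Perm (Fin 3)} (hc : Perm.sign c = 1) (f : ℕ) :
    ((ev2 ζ c : Multiset k).map fun x => x ^ f) = ev2 ζ (c ^ f) := by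
  unfold ev2
  rw [c2_eq hζ _ hc, c2_eq hζ _ (by rw [map_pow, hc, one_pow]), c1_pow hζ hc]
  rw [Multiset.insert_eq_cons, Multiset.map_cons, Multiset.map_singleton,
    ← Units.val_pow_eq_pow_val, ← Units.val_pow_eq_pow_val, Multiset.insert_eq_cons, ← pow_mul,
    ← pow_mul, mul_comm]

omit hζ in
theorem ev2_odd {t : Perm (Fin 3)} (ht : Perm.sign t = -1) :
    (ev2 ζ t : Multiset k) = {(-1 : k), (-1 : k)} := by
  unfold ev2 c1 c2
  have h1 : ¬ Perm.sign t = 1 := by
    rw [ht]
    decide
  rw [if_neg h1, if_neg h1]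
  simp

omit hζ in
theorem ev2_one : (ev2 ζ 1 : Multiset k) = {(1 : k), (1 : k)} := by
  unfold ev2
  rw [c1_one, c2_one]
  simp

end eigen

/-! ## two-dimensional representations -/

/-- the linear isomorphism -/
noncomputable def two : ((Fin 1 → k) × (Fin 1 → k)) ≃ₗ[k] (Fin 2 → k) :=
  LinearEquiv.ofFinrankEq _ _ (by
    rw [Module.finrank_prod, Module.finrank_fin_fun, Module.finrank_fin_fun])

/-- a sum of two characters -/
noncomputable def sumRep {Γ : Type} [Group Γ] (X Y : Γ →* kˣ) : Representation k Γ (Fin 2 → k) :=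
  tp ((oneDim X).prod (oneDim Y)) two

omit [TopologicalSpace k] [IsTopologicalRing k] [T2Space k] in
theorem roots_sumRep {Γ : Type} [Group Γ] (X Y : Γ →* kˣ) (g : Γ) :
    (sumRep X Y g).charpoly.roots = ({((X g : kˣ) : k), ((Y g : kˣ) : k)} : Multiset k) := by
  have h1 := eig_equiv (tpEquiv ((oneDim X).prod (oneDim Y)) two) g
  unfold eig at h1
  refine h1.trans ?_
  have h2 := eig_prod (oneDim X g) (oneDim Y g)
  unfold eig at h2
  refine h2.trans ?_
  change (((X g : kˣ) : k) • LinearMap.id).charpoly.roots +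
    (((Y g : kˣ) : k) • LinearMap.id).charpoly.roots = _
  rw [roots_scalar, roots_scalar]
  rfl

omit [TopologicalSpace k] [IsTopologicalRing k] [T2Space k] in
theorem semi_sumRep {Γ : Type} [Group Γ] (X Y : Γ →* kˣ) :
    (sumRep X Y).IsSemisimpleRepresentation :=
  semi_congr (tpEquiv _ _) (semi_prod (irr_semi (irr_oneDim _)) (irr_semi (irr_oneDim _)))

omit [TopologicalSpace k] [IsTopologicalRing k] [T2Space k] in
theorem sumRep_apply {Γ : Type} [Group Γ] (X Y : Γ →* kˣ) (g : Γ) (x : Fin 2 → k) :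
    sumRep X Y g x = two (((X g : kˣ) : k) • (two.symm x).1, ((Y g : kˣ) : k) • (two.symm x).2) :=
  rfl

omit [TopologicalSpace k] [IsTopologicalRing k] [T2Space k] in
/-- no two-dimensional representation has these traces -/
theorem no_rep [CharZero k] {Γ : Type} [Group Γ] (R : Representation k Γ (Fin 2 → k)) (t c : Γ)
    (ht : LinearMap.trace k _ (R t) = -2)
    (hc : LinearMap.trace k _ (R c) = -1) (hcc : LinearMap.trace k _ (R (c * c)) = -1)
    (htc : LinearMap.trace k _ (R (t * c)) = -2)
    (htc' : LinearMap.trace k _ (R (t * c⁻¹)) = -2) : False := by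
  have h1 : (R c).charpoly = Polynomial.X ^ 2 + Polynomial.X + 1 := by
    have h2 := (IsAlgClosed.splits (R c).charpoly).eq_prod_roots_of_monic
      (LinearMap.charpoly_monic _)
    have h3 := card_eig (R c)
    rw [Module.finrank_fin_fun, Multiset.card_eq_two] at h3
    obtain ⟨x, y, hxy⟩ := h3
    have h4 := sum_eig (R c)
    rw [hxy, hc] at h4
    have h5 := sum_eig (R (c * c))
    have h6 : eig (R (c * c)) = (eig (R c)).map fun z => z ^ 2 := by
      unfold eig
      rw [map_mul, ← pow_two, roots_pow]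
    rw [h6, hxy, hcc] at h5
    unfold eig at hxy
    rw [h2, hxy]
    simp only [Multiset.insert_eq_cons, Multiset.map_cons, Multiset.map_singleton,
      Multiset.prod_cons, Multiset.prod_singleton, Multiset.sum_cons, Multiset.sum_singleton]
      at h4 h5 ⊢
    have h7 : x * y = 1 := by
      have h8 : (2 : k) * (x * y) = 2 := by linear_combination (x + y - 1) * h4 - h5
      exact mul_left_cancel₀ two_ne_zero (by rw [h8, mul_one])
    have h8 : (Polynomial.C x) * (Polynomial.C y) = (1 : Polynomial k) := by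
      rw [← map_mul, h7, map_one]
    have h9 : (Polynomial.C x) + (Polynomial.C y) = (-1 : Polynomial k) := by
      rw [← map_add, h4, map_neg, map_one]
    linear_combination (-Polynomial.X) * h9 + h8
  have h2 := LinearMap.aeval_self_charpoly (R c)
  rw [h1, map_add, map_add, map_pow, Polynomial.aeval_X, map_one] at h2
  -- `R c ^ 2 + R c + 1 = 0`, so `R c + 1 + R c⁻¹ = 0`
  have h3 : R (t * c) + R t + R (t * c⁻¹) = 0 := by
    have h4 : R (t * c⁻¹) * (R c ^ 2 + R c + 1) = R (t * c) + R t + R (t * c⁻¹) := by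
      rw [mul_add, mul_add, mul_one, ← map_pow, ← map_mul, ← map_mul]
      congr 3
      · group
      · group
    rw [← h4, h2, mul_zero]
  have h5 := congrArg (LinearMap.trace k (Fin 2 → k)) h3
  rw [map_add, map_add, ht, htc, htc', map_zero] at h5
  norm_num at h5

/-! ## the theorem -/

variable (N : Subgroup (GK K)) [N.Normal]

theorem s3_example [CharZero k] (hN : IsOpen (N : Set (GK K)))
    (e : GK K ⧸ N ≃* Perm (Fin 3)) :
    ∃ (S : Set (HeightOneSpectrum (𝓞 K))) (D : HeightOneSpectrum (𝓞 K) → Multiset k), S.Finite ∧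
    (∀ (U : Subgroup (GK K)), N ≤ U → U ≠ ⊤ → ∃ ρ : Representation k U (Fin 2 → k), Cts ρ ∧
      ρ.IsSemisimpleRepresentation ∧ AttachedOver U ρ S D) ∧
    ¬ ∃ R : Representation k (GK K) (Fin 2 → k), Cts R ∧
      ∀ v ∉ S, ∀ σ, IsFrob v σ → (R σ⁻¹).charpoly.roots = D v := by
  classical
  -- a primitive cube root of unity
  obtain ⟨z, hz⟩ : ∃ z : k, z ^ 2 + z + 1 = 0 := by
    have h1 := IsAlgClosed.exists_root (Polynomial.X ^ 2 + Polynomial.X + 1 : Polynomial k) (by
      have h2 : (Polynomial.X ^ 2 + Polynomial.X + 1 : Polynomial k).degree = 2 := by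
        compute_degree!
      rw [h2]
      decide)
    obtain ⟨z, hz⟩ := h1
    refine ⟨z, ?_⟩
    simpa [Polynomial.IsRoot] using hz
  have hz0 : z ≠ 0 := by
    rintro rfl
    norm_num at hz
  have hz3 : z ^ 3 = 1 := by linear_combination (z - 1) * hz
  let ζ : kˣ := Units.mk0 z hz0
  have hζ : ζ ^ 3 = 1 := by
    apply Units.ext
    rw [Units.val_pow_eq_pow_val, Units.val_one]
    exact hz3
  let s : GK K → Perm (Fin 3) := fun σ => e (σ : GK K ⧸ N)
  have hs_mul : ∀ σ τ, s (σ * τ) = s σ * s τ := fun σ τ => by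
    change e (((σ * τ : GK K)) : GK K ⧸ N) = _
    rw [QuotientGroup.mk_mul, map_mul]
  have hs_inv : ∀ σ, s σ⁻¹ = (s σ)⁻¹ := fun σ => by
    change e (((σ⁻¹ : GK K)) : GK K ⧸ N) = _
    rw [QuotientGroup.mk_inv, map_inv]
  have hs_one : ∀ τ ∈ N, s τ = 1 := fun τ hτ => by
    change e ((τ : GK K) : GK K ⧸ N) = 1
    rw [(QuotientGroup.eq_one_iff τ).2 hτ, map_one]
  have hs_surj : Function.Surjective s := fun g => by
    obtain ⟨x, hx⟩ := e.surjective g
    obtain ⟨σ, rfl⟩ := QuotientGroup.mk_surjective x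
    exact ⟨σ, hx⟩
  let S : Set (HeightOneSpectrum (𝓞 K)) := {v | ∃ τ, IsInert v τ ∧ τ ∉ N}
  have hS : S.Finite := ram_finite N hN
  have hin : ∀ v ∉ S, ∀ τ, IsInert v τ → τ ∈ N := by
    intro v hv τ hτ
    by_contra h
    exact hv ⟨τ, hτ, h⟩
  let D : HeightOneSpectrum (𝓞 K) → Multiset k := fun v => ev2 ζ (s (exists_frob v).choose)⁻¹
  have hpow : ∀ v ∉ S, ∀ (f : ℕ) (σ : GK K), IsFrobPow v f σ → ∃ (z g : Perm (Fin 3)),
      D v = ev2 ζ z ∧ (s σ)⁻¹ = g * z ^ f * g⁻¹ := by
    intro v hv f σ hσ
    obtain ⟨g, hg⟩ := frobPow_mod N (hin v hv) (exists_frob v).choose_spec hσ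
    refine ⟨(s (exists_frob v).choose)⁻¹, s g, rfl, ?_⟩
    have h1 : s σ = s g * (s (exists_frob v).choose) ^ f * (s g)⁻¹ := by
      change e (σ : GK K ⧸ N) = _
      rw [hg, map_mul, map_mul, map_pow, map_inv]
    rw [h1, mul_inv_rev, mul_inv_rev, inv_inv, inv_pow, mul_assoc]
  refine ⟨S, D, hS, ?_, ?_⟩
  · intro U hU hUt
    -- the image is proper
    have hH : ∃ g : Perm (Fin 3), ∀ u ∈ U, s u ≠ g := by
      by_contra hne
      apply hUt
      rw [eq_top_iff]
      intro σ _
      have h1 : ∃ u ∈ U, s u = s σ := by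
        by_contra h2
        exact hne ⟨s σ, fun u hu h3 => h2 ⟨u, hu, h3⟩⟩
      obtain ⟨u, hu, h2⟩ := h1
      have h3 : (u : GK K ⧸ N) = (σ : GK K ⧸ N) := e.injective h2
      rw [QuotientGroup.eq] at h3
      have h4 := U.mul_mem hu (hU h3)
      rwa [mul_inv_cancel_left] at h4
    by_cases heven : ∀ u ∈ U, Perm.sign (s u) = 1
    · let X : U →* kˣ := MonoidHom.mk' (fun u => c1 ζ (s u)) (fun u w => by
        rw [← c1_mul hζ (heven u u.2) (heven w w.2), ← hs_mul]
        rfl)
      let Y : U →* kˣ := MonoidHom.mk' (fun u => c2 ζ (s u)) (fun u w => by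
        have h1 := heven (u * w) (U.mul_mem u.2 w.2)
        change c2 ζ (s ((u : GK K) * w)) = _
        rw [c2_eq hζ _ h1, c2_eq hζ _ (heven u u.2), c2_eq hζ _ (heven w w.2), hs_mul,
          c1_mul hζ (heven u u.2) (heven w w.2), mul_pow])
      have hX : ∀ u : U, X u = c1 ζ (s u) := fun _ => rfl
      have hY : ∀ u : U, Y u = c2 ζ (s u) := fun _ => rfl
      refine ⟨sumRep X Y, fun x => ?_, semi_sumRep X Y, fun v hv => ⟨fun σ hσ => ?_,
        fun f σ hf hσ => ?_⟩⟩
      · have h1 : Continuous fun u : U => two (k := k) (((c1 ζ (e ((u : GK K) : GK K ⧸ N)) : kˣ) : k) •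
            (two.symm x).1, ((c2 ζ (e ((u : GK K) : GK K ⧸ N)) : kˣ) : k) • (two.symm x).2) :=
          (cont_quot N hN (fun w => two (k := k) (((c1 ζ (e w) : kˣ) : k) •
            (two.symm x).1, ((c2 ζ (e w) : kˣ) : k) • (two.symm x).2))).comp
              continuous_subtype_val
        exact h1
      · have h1 := hs_one _ (hin v hv _ hσ)
        refine LinearMap.ext fun x => ?_
        rw [sumRep_apply, hX, hY, h1, c1_one, c2_one, Units.val_one, one_smul, one_smul]
        change two (two.symm x) = x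
        exact two.apply_symm_apply x
      · obtain ⟨z, g, hDz, hsz⟩ := hpow v hv f σ hσ
        rw [roots_sumRep, hDz, hX, hY]
        change ev2 ζ (s ((σ : GK K)⁻¹)) = _
        rw [hs_inv, hsz]
        have h1 := heven _ (U.inv_mem σ.2)
        rw [hs_inv, hsz, map_mul, map_mul, map_inv, mul_comm (Perm.sign g), mul_assoc,
          mul_inv_cancel, mul_one] at h1
        rcases Int.units_eq_one_or (Perm.sign z) with h2 | h2
        · rw [ev2_conj_even hζ h1, ev2_pow_even hζ h2]
        · rw [map_pow, h2] at h1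
          have h3 : Even f := by
            rcases Nat.even_or_odd f with h | h
            · exact h
            · rw [h.neg_one_pow] at h1
              exact absurd h1 (by decide)
          obtain ⟨m, rfl⟩ := h3
          have h4 : z ^ (m + m) = 1 := by
            rw [← two_mul, pow_mul, perm_odd_sq z h2, one_pow]
          rw [h4, mul_one, mul_inv_cancel, ev2_one, ev2_odd h2, ← two_mul]
          simp
    · -- the image has two elements
      obtain ⟨u₀, hu₀, hodd⟩ : ∃ u ∈ U, Perm.sign (s u) = -1 := by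
        by_contra hne
        apply heven
        intro u hu
        rcases Int.units_eq_one_or (Perm.sign (s u)) with h | h
        · exact h
        · exact absurd ⟨u, hu, h⟩ hne
      have hone : ∀ u ∈ U, Perm.sign (s u) = 1 → s u = 1 := by
        intro u hu h1
        by_contra h2
        obtain ⟨g, hg⟩ := hH
        rcases perm_generate _ _ g hodd h1 h2 with h | h | h | h | h | h
        · exact hg 1 U.one_mem (by rw [h, hs_one 1 N.one_mem])
        · exact hg u hu h.symm
        · exact hg (u * u) (U.mul_mem hu hu) (by rw [h, hs_mul])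
        · exact hg u₀ hu₀ h.symm
        · exact hg (u₀ * u) (U.mul_mem hu₀ hu) (by rw [h, hs_mul])
        · exact hg (u₀ * u * u) (U.mul_mem (U.mul_mem hu₀ hu) hu) (by rw [h, hs_mul, hs_mul])
      let sg : ℤˣ →* kˣ := Units.map (Int.castRingHom k).toMonoidHom
      let X : U →* kˣ := sg.comp (Perm.sign.comp (MonoidHom.mk' (fun u : U => s u) (fun u w =>
        hs_mul u w)))
      have hX : ∀ u : U, X u = sg (Perm.sign (s u)) := fun _ => rfl
      have hsg : sg (-1) = -1 := by
        apply Units.ext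
        change ((-1 : ℤ) : k) = -1
        push_cast
        rfl
      refine ⟨sumRep X X, fun x => ?_, semi_sumRep X X, fun v hv => ⟨fun σ hσ => ?_,
        fun f σ hf hσ => ?_⟩⟩
      · have h1 : Continuous fun u : U => two (k := k)
            (((sg (Perm.sign (e ((u : GK K) : GK K ⧸ N))) : kˣ) : k) •
            (two.symm x).1, ((sg (Perm.sign (e ((u : GK K) : GK K ⧸ N))) : kˣ) : k) •
              (two.symm x).2) :=
          (cont_quot N hN (fun w => two (k := k) (((sg (Perm.sign (e w)) : kˣ) : k) •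
            (two.symm x).1, ((sg (Perm.sign (e w)) : kˣ) : k) • (two.symm x).2))).comp
              continuous_subtype_val
        exact h1
      · have h1 := hs_one _ (hin v hv _ hσ)
        refine LinearMap.ext fun x => ?_
        rw [sumRep_apply, hX, h1, map_one, map_one, Units.val_one, one_smul, one_smul]
        change two (two.symm x) = x
        exact two.apply_symm_apply x
      · obtain ⟨z, g, hDz, hsz⟩ := hpow v hv f σ hσ
        rw [roots_sumRep, hDz, hX]
        have hsgn : Perm.sign (s ((σ : GK K)⁻¹)) = Perm.sign z ^ f := by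
          rw [hs_inv, hsz, map_mul, map_mul, map_inv, mul_comm (Perm.sign g), mul_assoc,
            mul_inv_cancel, mul_one, map_pow]
        change ({((sg (Perm.sign (s ((σ : GK K)⁻¹))) : kˣ) : k),
          ((sg (Perm.sign (s ((σ : GK K)⁻¹))) : kˣ) : k)} : Multiset k) = _
        rw [hsgn]
        rcases Int.units_eq_one_or (Perm.sign z) with h2 | h2
        · rw [h2, one_pow] at hsgn
          have h3 := hone _ (U.inv_mem σ.2) hsgn
          rw [hs_inv, hsz] at h3
          have h4 : z ^ f = 1 := by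
            have h5 : z ^ f = g⁻¹ * (g * z ^ f * g⁻¹) * g := by group
            rw [h5, h3, mul_one, inv_mul_cancel]
          rw [h2, one_pow, map_one, Units.val_one, ev2_pow_even hζ h2, h4, ev2_one]
        · rw [h2, map_pow, hsg, ev2_odd h2]
          simp
  · rintro ⟨R, hRc, hR⟩
    have htr : (fun σ => R.character σ) = fun σ : GK K => (ev2 ζ (s σ) : Multiset k).sum := by
      refine eq_of_frob hS (char_cont hRc) (cont_quot N hN (fun w => (ev2 ζ (e w) :
        Multiset k).sum)) (fun v hv σ hσ => ?_)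
      have h1 := hR v hv σ hσ
      obtain ⟨z, g, hDz, hsz⟩ := hpow v hv 1 σ (isFrobPow_one.2 hσ)
      have h3 := sum_eig (R σ⁻¹)
      unfold eig at h3
      rw [h1, hDz] at h3
      refine h3.symm.trans ?_
      rw [hs_inv, hsz, pow_one]
      rcases Int.units_eq_one_or (Perm.sign z) with h2 | h2
      · rw [ev2_conj_even hζ h2]
      · have h4 : Perm.sign (g * z * g⁻¹) = -1 := by
          rw [map_mul, map_mul, map_inv, mul_comm (Perm.sign g), mul_assoc,
            mul_inv_cancel, mul_one, h2]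
        rw [ev2_odd h2, ev2_odd h4]
    obtain ⟨t, c, ht, hc, hc0, htc, htc'⟩ := exists_tc
    obtain ⟨τ, rfl⟩ := hs_surj t
    obtain ⟨γ, rfl⟩ := hs_surj c
    have htrace : ∀ σ : GK K, Perm.sign (s σ) = -1 → LinearMap.trace k _ (R σ) = -2 := by
      intro σ hσ
      have h1 := congrFun htr σ
      change LinearMap.trace k _ (R σ) = _ at h1
      rw [h1, ev2_odd hσ]
      simp
      norm_num
    have htrace1 : ∀ σ : GK K, Perm.sign (s σ) = 1 → s σ ≠ 1 → LinearMap.trace k _ (R σ) = -1 := by
      intro σ hσ hσ1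
      have h1 := congrFun htr σ
      change LinearMap.trace k _ (R σ) = _ at h1
      rw [h1]
      have h2 : c1 ζ (s σ) ≠ 1 := by
        intro h3
        apply hσ1
        apply perm_zero _ hσ
        unfold c1 at h3
        rw [if_pos hσ] at h3
        have h4 : ζ ≠ 1 := by
          intro h5
          have h6 : z = 1 := congrArg Units.val h5
          rw [h6] at hz
          norm_num at hz
        have h5 : orderOf ζ = 3 := by
          haveI : Fact (Nat.Prime 3) := ⟨Nat.prime_three⟩
          exact orderOf_eq_prime hζ h4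
        have h6 := orderOf_dvd_of_pow_eq_one h3
        rw [h5] at h6
        have h7 := (s σ 0).isLt
        apply Fin.ext
        change (s σ 0).val = 0
        omega
      unfold ev2
      rw [c2_eq hζ _ hσ]
      have h3 : c1 ζ (s σ) ^ 3 = 1 := by
        rw [← c1_pow hζ hσ, perm_even_cube _ hσ, c1_one]
      have h4 : ((c1 ζ (s σ) : kˣ) : k) ^ 3 = 1 := by
        rw [← Units.val_pow_eq_pow_val, h3, Units.val_one]
      have h5 : ((c1 ζ (s σ) : kˣ) : k) - 1 ≠ 0 := by
        intro h6
        exact h2 (Units.ext (sub_eq_zero.1 h6))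
      rw [Multiset.insert_eq_cons, Multiset.sum_cons, Multiset.sum_singleton,
        Units.val_pow_eq_pow_val]
      apply mul_left_cancel₀ h5
      linear_combination h4
    have hc1 : s γ ≠ 1 := by
      intro h
      rw [h] at hc0
      exact absurd hc0 (by decide)
    have hcc : s (γ * γ) ≠ 1 := by
      intro h
      apply hc1
      rw [hs_mul] at h
      have h1 := perm_even_cube _ hc
      rw [pow_succ, pow_two, h, one_mul] at h1
      exact h1
    refine no_rep R τ γ (htrace τ ht) (htrace1 γ hc hc1) (htrace1 _ ?_ hcc) (htrace _ ?_)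
      (htrace _ ?_)
    · rw [hs_mul, map_mul, hc, mul_one]
    · rw [hs_mul]
      exact htc
    · rw [hs_mul, hs_inv]
      exact htc'

end Pool.Agent.Q227.CD
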