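import Pool.Agent.Q227.CD.G3
import Pool.Agent.Q227.CD.S3
import Pool.Agent.Q227.CD.Masch

/-!
# Semisimple homomorphisms into `GL₂` do not glue
-/

set_option autoImplicit false
set_option linter.unusedSectionVars false

namespace Pool.Agent.Q227.CD.G

open NumberField IsDedekindDomain Pool.Agent.W401.Cheb Pool.Agent.W401.Frob MulAction Topology
open Representation Module Pool.Agent.Q15.GR
open Pool.Agent.Q227.CD (IsFrobPow isFrobPow_one open_of_ge finiteIndex_of_open AttachedOver
  chars_agree s3_example semi_of_finite clifford)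

section compat

variable {K : Type} [Field K] [NumberField K]
variable {k : Type} [Field k] [IsAlgClosed k] [CharZero k] [TopologicalSpace k]
  [IsTopologicalRing k] [T2Space k] {n : ℕ}
variable {ι : Type} {U : ι → Subgroup (GK K)} {S : Set (HeightOneSpectrum (𝓞 K))}
  {D : HeightOneSpectrum (𝓞 K) → Multiset k} {ρ : ∀ i, Representation k (U i) (Fin n → k)}
  {N : Subgroup (GK K)} [N.Normal]

/-- semisimple representations attached to the same data are compatible -/
theorem compat_ss (hS : S.Finite) (hN : IsOpen (N : Set (GK K))) (hNU : ∀ i, N ≤ U i)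
    (hc : ∀ i, Cts (ρ i)) (hss : ∀ i, (ρ i).IsSemisimpleRepresentation)
    (hatt : ∀ i, AttachedOver (U i) (ρ i) S D) : Pool.Agent.Q227.CD.Compat ρ := by
  have hUo : ∀ i, IsOpen (U i : Set (GK K)) := fun i => open_of_ge hN (hNU i)
  haveI : N.FiniteIndex := finiteIndex_of_open hN
  intro i j g
  let W : Subgroup (GK K) := U i ⊓ (U j).comap (MulAut.conj g).toMonoidHom
  have hi : W ≤ U i := fun w hw => hw.1
  have hj : ∀ w : W, g * w * g⁻¹ ∈ U j := fun w => w.2.2
  have hNW : N ≤ W := fun ν hν => ⟨hNU i hν, hNU j (‹N.Normal›.conj_mem ν hν g)⟩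
  haveI : (N.subgroupOf W).FiniteIndex := ⟨by
    have h1 : (N.subgroupOf W).index ∣ N.index := Subgroup.relIndex_dvd_index_of_normal N W
    intro h2
    rw [h2, zero_dvd_iff] at h1
    exact Subgroup.FiniteIndex.index_ne_zero h1⟩
  have key : ∀ (V : Subgroup (GK K)) (_ : N ≤ V) (r : Representation k V (Fin n → k))
      (c : W →* V) (x : GK K) (_ : ∀ w : W, (c w : GK K) = x * w * x⁻¹),
      r.IsSemisimpleRepresentation →
      IsSemisimpleRepresentation (r.comp c : Representation k W (Fin n → k)) := by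
    intro V hNV r c x hcx hr
    refine semi_of_finite _ (N.subgroupOf W) ?_
    refine clifford r (c.comp (N.subgroupOf W).subtype) (fun y ν => ?_) hr
    have h1 : (ν.1 : GK K) ∈ N := ν.2
    have h2 : x⁻¹ * (y * (x * ν.1 * x⁻¹) * (y : GK K)⁻¹) * x⁻¹⁻¹ ∈ N :=
      ‹N.Normal›.conj_mem _ (‹N.Normal›.conj_mem _ (‹N.Normal›.conj_mem _ h1 x) y) x⁻¹
    refine ⟨⟨⟨_, hNW h2⟩, h2⟩, Subtype.ext ?_⟩
    change (c ⟨_, hNW h2⟩ : GK K) = y * (c ν.1 : GK K) * (y : GK K)⁻¹
    rw [hcx, hcx]
    change x * (x⁻¹ * (y * (x * ν.1 * x⁻¹) * (y : GK K)⁻¹) * x⁻¹⁻¹) * x⁻¹ = _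
    group
  have h1 : IsSemisimpleRepresentation
      ((ρ i).comp (Subgroup.inclusion hi) : Representation k W (Fin n → k)) :=
    key (U i) (hNU i) (ρ i) (Subgroup.inclusion hi) 1 (fun w => by
      rw [one_mul, inv_one, mul_one]; rfl) (hss i)
  have h2 : IsSemisimpleRepresentation
      ((ρ j).comp (Pool.Agent.Q227.CD.conjTo g hj) : Representation k W (Fin n → k)) :=
    key (U j) (hNU j) (ρ j) (Pool.Agent.Q227.CD.conjTo g hj) g (fun w => rfl) (hss j)
  obtain ⟨e⟩ := equiv_of_char _ _ h1 h2 (by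
    funext w
    exact (chars_agree hS hUo hc hatt i j ⟨w, hi w.2⟩ g (hj w)).symm)
  refine ⟨e.toLinearEquiv, fun u h v => ?_⟩
  exact LinearMap.congr_fun (e.toIntertwiningMap.isIntertwining' ⟨u, u.2, h⟩) v

end compat

section gl

variable {k : Type} [Field k]

/-- the matrices of a representation -/
noncomputable def mat {G : Type} [Group G] (ρ : Representation k G (Fin 2 → k)) :
    G →* Matrix.GeneralLinearGroup (Fin 2) k :=
  (Matrix.GeneralLinearGroup.toLin.symm.toMonoidHom).comp ρ.asGroupHom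

theorem toLin_mat {G : Type} [Group G] (ρ : Representation k G (Fin 2 → k)) (g : G) :
    Matrix.GeneralLinearGroup.toLin (mat ρ g) = ρ.asGroupHom g :=
  MulEquiv.apply_symm_apply _ _

theorem mat_val {G : Type} [Group G] (ρ : Representation k G (Fin 2 → k)) (g : G) :
    (mat ρ g : Matrix (Fin 2) (Fin 2) k) = LinearMap.toMatrix' (ρ g) := rfl

theorem mat_cont {G : Type} [Group G] [TopologicalSpace G] [IsTopologicalGroup G]
    [TopologicalSpace k] [IsTopologicalRing k] {ρ : Representation k G (Fin 2 → k)} (h : Cts ρ) :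
    Continuous (mat ρ) := by
  have h1 : Continuous fun g => (mat ρ g : Matrix (Fin 2) (Fin 2) k) := by
    refine continuous_matrix fun i j => ?_
    have h2 : ∀ g, (mat ρ g : Matrix (Fin 2) (Fin 2) k) i j = ρ g (Pi.single j 1) i := by
      intro g
      rw [mat_val, LinearMap.toMatrix'_apply]
    simp_rw [h2]
    exact (continuous_apply i).comp (h _)
  rw [Units.continuous_iff]
  refine ⟨h1, ?_⟩
  have h2 : (fun g => ((mat ρ g)⁻¹ : Matrix.GeneralLinearGroup (Fin 2) k).val) =
      fun g => (mat ρ g⁻¹ : Matrix (Fin 2) (Fin 2) k) := by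
    funext g
    rw [map_inv]
  rw [h2]
  exact h1.comp continuous_inv

/-- the roots of the characteristic polynomial -/
noncomputable def rts (A : Matrix.GeneralLinearGroup (Fin 2) k) : Multiset k :=
  (A : Matrix (Fin 2) (Fin 2) k).charpoly.roots

theorem rts_conj (A B : Matrix.GeneralLinearGroup (Fin 2) k) : rts (B * A * B⁻¹) = rts A := by
  unfold rts
  have h1 := Matrix.charpoly_units_conj B (A : Matrix (Fin 2) (Fin 2) k)
  have h2 : ((B * A * B⁻¹ : Matrix.GeneralLinearGroup (Fin 2) k) : Matrix (Fin 2) (Fin 2) k) =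
      (B : Matrix (Fin 2) (Fin 2) k) * A * (B : Matrix (Fin 2) (Fin 2) k)⁻¹ := by
    rw [Units.val_mul, Units.val_mul, Matrix.coe_units_inv]
  rw [h2, h1]

theorem rts_mat {G : Type} [Group G] (ρ : Representation k G (Fin 2 → k)) (g : G) :
    rts (mat ρ g) = (ρ g).charpoly.roots := by
  unfold rts
  rw [mat_val, ← LinearMap.toMatrix_eq_toMatrix', LinearMap.charpoly_toMatrix]

end gl

variable {K : Type} [Field K] [NumberField K]
variable {k : Type} [Field k] [IsAlgClosed k] [CharZero k] [TopologicalSpace k]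
  [IsTopologicalRing k] [T2Space k]

section direct

variable {H G : Type} [Group H] [Group G]

theorem mul_left1 (x y : H ⋊[(1 : G →* MulAut H)] G) : (x * y).left = x.left * y.left := by
  rw [SemidirectProduct.mul_left]
  rfl

theorem inv_left1 (x : H ⋊[(1 : G →* MulAut H)] G) : x⁻¹.left = x.left⁻¹ := by
  rw [SemidirectProduct.inv_left]
  rfl

theorem conj_left1 (x y : H ⋊[(1 : G →* MulAut H)] G) :
    (y * x * y⁻¹).left = y.left * x.left * y.left⁻¹ := by
  rw [mul_left1, mul_left1, inv_left1]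

theorem conj_right1 (x y : H ⋊[(1 : G →* MulAut H)] G) :
    (y * x * y⁻¹).right = y.right * x.right * y.right⁻¹ := rfl

theorem left_lc (h : H) (g : G) : (SemidirectProduct.inl h * SemidirectProduct.inr g :
    H ⋊[(1 : G →* MulAut H)] G).left = h := by
  rw [mul_left1]
  exact mul_one h

theorem right_lc (h : H) (g : G) : (SemidirectProduct.inl h * SemidirectProduct.inr g :
    H ⋊[(1 : G →* MulAut H)] G).right = g := by
  rw [SemidirectProduct.mul_right]
  exact one_mul g

theorem mul_inr_left (x : H ⋊[(1 : G →* MulAut H)] G) (g : G) :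
    (x * SemidirectProduct.inr g).left = x.left := by
  rw [mul_left1]
  exact mul_one _

/-- conjugation in a direct product -/
theorem conj_dir {x y : H ⋊[(1 : G →* MulAut H)] G} (h : H) (g : G)
    (h1 : x.left = h * y.left * h⁻¹) (h2 : x.right = g * y.right * g⁻¹) :
    x = (SemidirectProduct.inl h * SemidirectProduct.inr g) * y *
      (SemidirectProduct.inl h * SemidirectProduct.inr g)⁻¹ := by
  apply SemidirectProduct.ext
  · rw [conj_left1, left_lc, h1]
  · rw [conj_right1, right_lc, h2]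

end direct

/-- the homomorphism into the direct product given by a representation -/
noncomputable def homOf {V : Subgroup (GK K)} (ρ : Representation k V (Fin 2 → k)) :
    V →* (Matrix.GeneralLinearGroup (Fin 2) k ⋊[(1 : GK K →*
      MulAut (Matrix.GeneralLinearGroup (Fin 2) k))] GK K) :=
  MonoidHom.mk' (fun u => ⟨mat ρ u, u⟩) (fun x y => by
    apply SemidirectProduct.ext
    · rw [mul_left1]
      exact map_mul (mat ρ) x y
    · rfl)

omit [IsAlgClosed k] [CharZero k] [TopologicalSpace k] [IsTopologicalRing k] [T2Space k] in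
theorem homOf_left {V : Subgroup (GK K)} (ρ : Representation k V (Fin 2 → k)) (u : V) :
    (homOf ρ u).left = mat ρ u := rfl

omit [IsAlgClosed k] [CharZero k] [TopologicalSpace k] [IsTopologicalRing k] [T2Space k] in
theorem homOf_right {V : Subgroup (GK K)} (ρ : Representation k V (Fin 2 → k)) (u : V) :
    (homOf ρ u).right = u := rfl

/-- the representation given by a homomorphism into the direct product -/
noncomputable def repOf (R : GK K →* (Matrix.GeneralLinearGroup (Fin 2) k ⋊[(1 : GK K →*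
      MulAut (Matrix.GeneralLinearGroup (Fin 2) k))] GK K)) :
    Representation k (GK K) (Fin 2 → k) :=
  (Units.coeHom _).comp (Matrix.GeneralLinearGroup.toLin.toMonoidHom.comp
    (MonoidHom.mk' (fun g => (R g).left) (fun x y => by rw [map_mul, mul_left1])))

/-- **commutativity of the centralizers cannot be omitted** -/
theorem counterG (N : Subgroup (GK K)) [N.Normal] (hN : IsOpen (N : Set (GK K)))
    (e : GK K ⧸ N ≃* Equiv.Perm (Fin 3)) :
    ∃ (S : Set (HeightOneSpectrum (𝓞 K))) (s : HeightOneSpectrum (𝓞 K) →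
        Set (Matrix.GeneralLinearGroup (Fin 2) k ⋊[(1 : GK K →*
          MulAut (Matrix.GeneralLinearGroup (Fin 2) k))] GK K)), S.Finite ∧
      (∀ v ∉ S, Stable v (s v)) ∧
      (∃ r : ∀ i : Proper N, i.1 →* (Matrix.GeneralLinearGroup (Fin 2) k ⋊[(1 : GK K →*
          MulAut (Matrix.GeneralLinearGroup (Fin 2) k))] GK K),
        (∀ i u, (r i u).right = u) ∧ (∀ i, Continuous fun u => (r i u).left) ∧ Compat' r ∧
        ∀ i, ∀ v ∉ S, (∀ σ : i.1, IsInert v (σ : GK K) → r i σ = can 1 (σ : GK K)) ∧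
          ∀ σ : i.1, IsFrob v (σ : GK K) → r i σ ∈ s v) ∧
      ¬ ∃ R : GK K →* (Matrix.GeneralLinearGroup (Fin 2) k ⋊[(1 : GK K →*
          MulAut (Matrix.GeneralLinearGroup (Fin 2) k))] GK K),
        (∀ g, (R g).right = g) ∧ (Continuous fun g => (R g).left) ∧
          ∀ v ∉ S, ∀ σ, IsFrob v σ → R σ ∈ s v := by
  classical
  obtain ⟨S, D, hS, h1, h2⟩ := s3_example (k := k) N hN e
  choose ρ' hρ' using fun i : Proper N => h1 i.1 i.2.1 i.2.2
  have hcomp := compat_ss (U := fun i : Proper N => i.1) (ρ := ρ') hS hN (fun i => i.2.1)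
    (fun i => (hρ' i).1) (fun i => (hρ' i).2.1) (fun i => (hρ' i).2.2)
  refine ⟨S, fun v => {x | rts x.left⁻¹ = D v}, hS, fun v hv => ⟨fun x hx y => ?_,
    fun x hx τ hτ => ?_⟩, ⟨fun i => homOf (ρ' i), fun i u => rfl,
    fun i => mat_cont (hρ' i).1, fun i j g => ?_, fun i v hv => ⟨fun σ hσ => ?_,
      fun σ hσ => ?_⟩⟩, ?_⟩
  · change rts (y * x * y⁻¹).left⁻¹ = D v
    rw [conj_left1]
    have h4 : (y.left * x.left * y.left⁻¹)⁻¹ = y.left * x.left⁻¹ * y.left⁻¹ := by group
    rw [h4, rts_conj]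
    exact hx
  · have h3 := mul_inr_left x τ
    rw [Set.mem_setOf_eq] at hx ⊢
    rw [← hx]
    exact congrArg (fun z => rts z⁻¹) h3
  · obtain ⟨B, hB⟩ := hcomp i j g
    let b : LinearMap.GeneralLinearGroup k (Fin 2 → k) :=
      (LinearMap.GeneralLinearGroup.generalLinearEquiv k (Fin 2 → k)).symm B
    refine ⟨Matrix.GeneralLinearGroup.toLin.symm b, fun u hu => ?_⟩
    have h3 : mat (ρ' j) ⟨g * u * g⁻¹, hu⟩ = Matrix.GeneralLinearGroup.toLin.symm b *
        mat (ρ' i) u * (Matrix.GeneralLinearGroup.toLin.symm b)⁻¹ := by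
      apply Matrix.GeneralLinearGroup.toLin.injective
      rw [map_mul, map_mul, map_inv, toLin_mat, toLin_mat, MulEquiv.apply_symm_apply,
        eq_mul_inv_iff_mul_eq]
      apply Units.ext
      rw [Units.val_mul, Units.val_mul, asGroupHom_apply, asGroupHom_apply]
      refine LinearMap.ext fun v => ?_
      exact (hB u hu v).symm
    refine conj_dir _ _ ?_ ?_
    · rw [homOf_left, homOf_left]
      exact h3
    · rw [homOf_right, homOf_right]
  · have h3 : ρ' i σ = 1 := ((hρ' i).2.2 v hv).1 σ hσ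
    apply SemidirectProduct.ext
    · rw [homOf_left]
      change mat (ρ' i) σ = 1
      apply Units.ext
      rw [mat_val, h3]
      exact LinearMap.toMatrix'_one
    · rw [homOf_right]
      rfl
  · change rts (mat (ρ' i) σ)⁻¹ = D v
    rw [← map_inv, rts_mat]
    have h3 := ((hρ' i).2.2 v hv).2 1 σ one_pos (isFrobPow_one.2 hσ)
    rw [h3]
    simp
  · rintro ⟨R, hR1, hR2, hR3⟩
    apply h2
    have hval : ∀ g, repOf R g = Matrix.toLin' ((R g).left : Matrix (Fin 2) (Fin 2) k) :=
      fun g => rfl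
    refine ⟨repOf R, fun x => ?_, fun v hv σ hσ => ?_⟩
    · have h3 : (fun g => repOf R g x) = fun g =>
          ((R g).left : Matrix (Fin 2) (Fin 2) k).mulVec x := by
        funext g
        rw [hval, Matrix.toLin'_apply]
      rw [h3]
      exact Continuous.matrix_mulVec (Units.continuous_val.comp hR2) continuous_const
    · have h3 : rts (R σ).left⁻¹ = D v := hR3 v hv σ hσ
      have h4 : (R σ)⁻¹.left = (R σ).left⁻¹ := inv_left1 _
      rw [hval, map_inv, h4, ← h3]
      unfold rts
      rw [← Matrix.charpoly_toLin']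

end Pool.Agent.Q227.CD.G
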