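import Pool.Agent.Q227.CD.GT

/-!
# The twisting function over fields of characteristic different from `p`
-/

set_option autoImplicit false
set_option linter.unusedSectionVars false

namespace Pool.Agent.Q227.CD

section pgroup

variable {G : Type*} [Group G] [Finite G] {r : ℕ} [hr : Fact r.Prime] (hG : IsPGroup r G)

include hG

/-- **the twisting function** -/
theorem exists_twist' {k : Type*} [Field k] [IsAlgClosed k] (hrk : (r : k) ≠ 0) (hnc : ¬ IsCyclic G)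
    (a b : G) (hab : Subgroup.closure {a, b} = ⊤) :
    ∃ χ : G → kˣ, (∀ g x, χ (g * x * g⁻¹) = χ x) ∧
      (∀ H : Subgroup G, H ≠ ⊤ → ∀ x ∈ H, ∀ y ∈ H, χ (x * y) = χ x * χ y) ∧
      ∃ x y, χ (x * y) ≠ χ x * χ y := by
  classical
  have hnt : (⊥ : Subgroup G) ≠ ⊤ := by
    intro h
    apply hnc
    refine ⟨1, fun x => ?_⟩
    have h1 : x ∈ (⊤ : Subgroup G) := Subgroup.mem_top x
    rw [← h, Subgroup.mem_bot] at h1
    rw [h1]
    exact Subgroup.mem_zpowers 1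
  obtain ⟨M₂, hM₂, -⟩ := (eq_top_or_exists_le_coatom (⊥ : Subgroup G)).resolve_left hnt
  obtain ⟨g, hg⟩ : ∃ g : G, g ∉ M₂ := by
    by_contra hne
    apply hM₂.1
    rw [eq_top_iff]
    intro x _
    by_contra hx
    exact hne ⟨x, hx⟩
  have hzg : Subgroup.zpowers g ≠ ⊤ := by
    intro h
    apply hnc
    refine ⟨g, fun x => ?_⟩
    have h1 : x ∈ Subgroup.zpowers g := by
      rw [h]
      exact Subgroup.mem_top x
    exact h1
  obtain ⟨M₁, hM₁, hgM₁⟩ := (eq_top_or_exists_le_coatom _).resolve_left hzg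
  have h12 : M₁ ≠ M₂ := by
    intro h
    apply hg
    rw [← h]
    exact hgM₁ (Subgroup.mem_zpowers g)
  haveI := coatom_normal hG hM₁
  haveI := coatom_normal hG hM₂
  obtain ⟨z, hz2, hz1⟩ : ∃ z ∈ M₂, z ∉ M₁ := by
    by_contra hne
    have h1 : M₂ ≤ M₁ := by
      intro x hx
      by_contra hx1
      exact hne ⟨x, hx, hx1⟩
    rcases lt_or_eq_of_le h1 with h2 | h2
    · exact hM₁.1 (hM₂.2 M₁ h2)
    · exact h12 h2.symm
  -- the homomorphism
  have hcomm : ∀ x y : G ⧸ M₁, x * y = y * x := by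
    intro x y
    obtain ⟨x, rfl⟩ := QuotientGroup.mk_surjective x
    obtain ⟨y, rfl⟩ := QuotientGroup.mk_surjective y
    have h1 := (coatom_props hG hM₁).2 x y
    rw [← QuotientGroup.eq_one_iff] at h1
    change (x : G ⧸ M₁) * (y : G ⧸ M₁) * (x : G ⧸ M₁)⁻¹ * (y : G ⧸ M₁)⁻¹ = 1 at h1
    rw [mul_inv_eq_one, mul_inv_eq_iff_eq_mul] at h1
    exact h1
  letI cg : CommGroup (G ⧸ M₁) := { (inferInstance : Group (G ⧸ M₁)) with mul_comm := hcomm }
  haveI hne0 : NeZero ((Monoid.exponent (G ⧸ M₁) : ℕ) : k) := by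
    have hQ : IsPGroup r (G ⧸ M₁) := hG.to_quotient M₁
    obtain ⟨m, hm⟩ := IsPGroup.iff_card.1 hQ
    have h1 : Monoid.exponent (G ⧸ M₁) ∣ r ^ m := by
      rw [← hm]
      exact Group.exponent_dvd_nat_card
    obtain ⟨j, -, hj⟩ := (Nat.dvd_prime_pow hr.out).1 h1
    refine ⟨?_⟩
    rw [hj, Nat.cast_pow]
    exact pow_ne_zero _ hrk
  have hz1' : (z : G ⧸ M₁) ≠ 1 := fun h => hz1 ((QuotientGroup.eq_one_iff z).1 h)
  obtain ⟨φ, hφ⟩ := CommGroup.exists_apply_ne_one_of_hasEnoughRootsOfUnity (G ⧸ M₁) k hz1'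
  let ψ : G →* kˣ := φ.comp (QuotientGroup.mk' M₁)
  have hψ1 : ∀ x ∈ M₁, ψ x = 1 := by
    intro x hx
    change φ (x : G ⧸ M₁) = 1
    rw [(QuotientGroup.eq_one_iff x).2 hx, map_one]
  have hψz : ψ z ≠ 1 := hφ
  refine ⟨fun x => if x ∈ M₂ then ψ x else 1, ?_, ?_, ?_⟩
  · intro g x
    have h1 : g * x * g⁻¹ ∈ M₂ ↔ x ∈ M₂ := by
      constructor
      · intro h
        have h2 := Subgroup.Normal.conj_mem inferInstance _ h g⁻¹
        have h3 : g⁻¹ * (g * x * g⁻¹) * g⁻¹⁻¹ = x := by group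
        rwa [h3] at h2
      · intro h
        exact Subgroup.Normal.conj_mem inferInstance _ h g
    simp only [h1]
    by_cases hx : x ∈ M₂
    · rw [if_pos hx, if_pos hx, map_mul, map_mul, map_inv, mul_comm (ψ g), mul_assoc,
        mul_inv_cancel, mul_one]
    · rw [if_neg hx, if_neg hx]
  · intro H hH x hx y hy
    obtain ⟨M, hM, hHM⟩ := (eq_top_or_exists_le_coatom H).resolve_left hH
    by_cases hMM : M = M₂
    · rw [hMM] at hHM
      simp only [if_pos (hHM hx), if_pos (hHM hy), if_pos (hHM (H.mul_mem hx hy)), map_mul]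
    · have h1 : ∀ w ∈ H, (if w ∈ M₂ then ψ w else 1) = 1 := by
        intro w hw
        by_cases hw2 : w ∈ M₂
        · rw [if_pos hw2]
          exact hψ1 w (coatom_inf hG a b hab hM hM₁ hM₂ h12 hMM ⟨hHM hw, hw2⟩)
        · rw [if_neg hw2]
      change (if x * y ∈ M₂ then ψ (x * y) else 1) = (if x ∈ M₂ then ψ x else 1) *
        (if y ∈ M₂ then ψ y else 1)
      rw [h1 _ (H.mul_mem hx hy), h1 x hx, h1 y hy, mul_one]
  · refine ⟨g, g⁻¹ * z, ?_⟩
    have h1 : g⁻¹ * z ∉ M₂ := by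
      intro h
      apply hg
      have h2 := M₂.mul_mem hz2 (M₂.inv_mem h)
      have h3 : z * (g⁻¹ * z)⁻¹ = g := by group
      rwa [h3] at h2
    change (if g * (g⁻¹ * z) ∈ M₂ then ψ (g * (g⁻¹ * z)) else 1) ≠
      (if g ∈ M₂ then ψ g else 1) * (if g⁻¹ * z ∈ M₂ then ψ (g⁻¹ * z) else 1)
    rw [mul_inv_cancel_left, if_pos hz2, if_neg hg, if_neg h1, mul_one]
    exact hψz

end pgroup

end Pool.Agent.Q227.CD
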