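import Pool.Agent.Q227.CD.Glue

/-!
# Descent along subgroups whose indices are coprime (up to the characteristic)
-/

set_option autoImplicit false
set_option linter.unusedSectionVars false

namespace Pool.Agent.Q227.CD

open Representation Module Pool.Agent.Q15.GR

variable {k : Type} [Field k] [IsAlgClosed k] {Γ : Type} [Group Γ]
variable {V : Type} [AddCommGroup V] [Module k V] [FiniteDimensional k V]
variable {N : Subgroup Γ} [N.Normal]
variable {ι : Type} {U : ι → Subgroup Γ} (hU : ∀ i, N ≤ U i)

/-- `x ↦ x ^ p` is bijective on the units, `p` the exponential characteristic -/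
theorem pow_bij (p : ℕ) [ExpChar k p] : Function.Bijective fun a : kˣ => a ^ p := by
  constructor
  · intro a b h
    apply Units.ext
    have h1 : (a : k) ^ p = (b : k) ^ p := by
      rw [← Units.val_pow_eq_pow_val, ← Units.val_pow_eq_pow_val]
      exact congrArg Units.val h
    exact frobenius_inj k p h1
  · intro a
    have hp : 0 < p := expChar_pos k p
    obtain ⟨z, hz⟩ := IsAlgClosed.exists_pow_nat_eq (a : k) hp
    have hz0 : z ≠ 0 := by
      rintro rfl
      rw [zero_pow hp.ne'] at hz
      exact a.ne_zero hz.symm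
    refine ⟨Units.mk0 z hz0, Units.ext ?_⟩
    change z ^ p = a
    exact hz

/-- **Descent.** Irreducible representations on subgroups `U i` of finite index, with characters
that agree on conjugate elements, have a common extension if every prime number different from the
characteristic is prime to one of the indices. -/
theorem descent [Nonempty ι] [∀ i, (U i).FiniteIndex] (p : ℕ) [ExpChar k p]
    (hind : ∀ q : ℕ, q.Prime → q ≠ p → ∃ i, ¬ q ∣ (U i).index)
    (ρ : ∀ i, Representation k (U i) V)
    (hirr : ∀ i, (rs (hU i) (ρ i)).IsIrreducible)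
    (hch : ∀ i j (x : U i) (g : Γ) (h : g * x * g⁻¹ ∈ U j),
      (ρ j).character ⟨g * x * g⁻¹, h⟩ = (ρ i).character x) :
    ∃ R : Representation k Γ V, ∀ i,
      Nonempty (Representation.Equiv (R.comp (U i).subtype : Representation k (U i) V) (ρ i)) := by
  refine glue_rep hU ρ hirr hch ?_
  intro E' _ π hπ f hf
  haveI : ∀ i, ((U i).comap π).FiniteIndex := fun i =>
    ⟨by rw [Subgroup.index_comap_of_surjective _ hπ]; exact Subgroup.FiniteIndex.index_ne_zero⟩
  refine glue_hom hf p (pow_bij p) ?_ ?_
  · rcases ‹ExpChar k p› with _ | hp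
    · left; rfl
    · right; exact hp
  · intro q hq hqp
    obtain ⟨i, hi⟩ := hind q hq hqp
    exact ⟨i, by rwa [Subgroup.index_comap_of_surjective _ hπ]⟩

/-- restriction to `N` of a representation of the whole group -/
def rN (N : Subgroup Γ) (R : Representation k Γ V) : Representation k N V := R.comp N.subtype

/-- a twist of an irreducible representation with the same character -/
theorem twist_trivial {G : Type} [Group G] {M : Subgroup G} (R R' : Representation k G V)
    (hirr : (rN M R).IsIrreducible) (hM : ∀ ν : M, R' ν = R ν) (χ : G → kˣ)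
    (hχ : ∀ g v, R' g v = (χ g : k) • R g v) (hc : R'.character = R.character) (g : G) :
    χ g = 1 := by
  have hR : R.IsIrreducible := irr_of_comp R M.subtype hirr
  have hR' : R'.IsIrreducible := by
    refine irr_of_comp R' M.subtype ?_
    have h1 : (R'.comp M.subtype : Representation k M V) = rN M R := by
      ext ν v
      exact LinearMap.congr_fun (hM ν) v
    rw [h1]
    exact hirr
  obtain ⟨Q⟩ := equiv_of_char_irr R' R hR' hR hc
  have hQ : ∀ w v, Q.toLinearEquiv (R' w v) = R w (Q.toLinearEquiv v) := fun w v =>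
    LinearMap.congr_fun (Q.toIntertwiningMap.isIntertwining' w) v
  obtain ⟨z, hz⟩ := schur _ hirr Q.toLinearEquiv.toLinearMap (by
    intro ν
    ext v
    change Q.toLinearEquiv (R ν v) = R ν (Q.toLinearEquiv v)
    rw [← hQ, hM])
  haveI := nontriv R hR
  have hz' : ∀ v, Q.toLinearEquiv v = z • v := fun v => LinearMap.congr_fun hz v
  obtain ⟨v, hv⟩ := exists_ne (0 : V)
  have hz0 : z ≠ 0 := by
    rintro rfl
    have h2 := hz' v
    rw [zero_smul] at h2
    exact hv (Q.toLinearEquiv.map_eq_zero_iff.1 h2)
  have h1 := hQ g (R g⁻¹ v)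
  rw [hz', hz', map_smul, hχ] at h1
  have h2 := smul_right_injective V hz0 h1
  rw [← Module.End.mul_apply, ← map_mul, mul_inv_cancel, map_one, Module.End.one_apply] at h2
  apply Units.ext
  rw [Units.val_one]
  have h3 : (χ g : k) • v = (1 : k) • v := by rw [one_smul]; exact h2
  exact smul_left_injective k hv h3

include hU in
/-- **uniqueness of the descent** -/
theorem unique [Nonempty ι] [∀ i, (U i).FiniteIndex] (p : ℕ) [ExpChar k p]
    (hind : ∀ q : ℕ, q.Prime → q ≠ p → ∃ i, ¬ q ∣ (U i).index)
    (R R' : Representation k Γ V) (hirr : (rN N R).IsIrreducible) (hirr' : (rN N R').IsIrreducible)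
    (hc : ∀ i (g : U i), R'.character g = R.character g) :
    Nonempty (Representation.Equiv R' R) := by
  obtain ⟨i₀⟩ := ‹Nonempty ι›
  haveI : Nonempty ι := ⟨i₀⟩
  have hcN : (rN N R').character = (rN N R).character := by
    ext ν
    exact hc i₀ ⟨ν, hU i₀ ν.2⟩
  obtain ⟨Q⟩ := equiv_of_char_irr _ _ hirr' hirr hcN
  have hQ : ∀ (ν : N) v, Q.toLinearEquiv (R' ν v) = R ν (Q.toLinearEquiv v) := fun w v =>
    LinearMap.congr_fun (Q.toIntertwiningMap.isIntertwining' w) v
  let S : Representation k Γ V := tp R' Q.toLinearEquiv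
  have hSN : ∀ ν : N, S ν = R ν := by
    intro ν
    ext v
    change Q.toLinearEquiv (R' ν (Q.toLinearEquiv.symm v)) = R ν v
    rw [hQ, LinearEquiv.apply_symm_apply]
  haveI := nontriv _ hirr
  -- the scalar
  have hRR : ∀ g v, R g (R g⁻¹ v) = v := by
    intro g v
    rw [← Module.End.mul_apply, ← map_mul, mul_inv_cancel, map_one, Module.End.one_apply]
  have hsc : ∀ g, ∃ c : kˣ, ∀ v, S g v = (c : k) • R g v := by
    intro g
    obtain ⟨c, hc⟩ := schur _ hirr (R g⁻¹ ∘ₗ S g) (by
      intro ν
      ext v
      change R g⁻¹ (S g (R ν v)) = R ν (R g⁻¹ (S g v))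
      rw [← hSN, ← Module.End.mul_apply (S g), ← map_mul]
      have h1 : g * ν = (g * ν * g⁻¹) * g := by group
      rw [h1, map_mul, Module.End.mul_apply]
      have h2 := hSN ⟨g * ν * g⁻¹, ‹N.Normal›.conj_mem ν ν.2 g⟩
      change S (g * ν * g⁻¹) = R (g * ν * g⁻¹) at h2
      rw [h2, hSN, ← Module.End.mul_apply, ← Module.End.mul_apply (R ν), ← map_mul, ← map_mul]
      congr 2
      group)
    have h1 : ∀ v, S g v = c • R g v := by
      intro v
      have h2 : R g⁻¹ (S g v) = c • v := LinearMap.congr_fun hc v
      rw [← map_smul, ← h2, hRR]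
    have hc0 : c ≠ 0 := by
      rintro rfl
      obtain ⟨v, hv⟩ := exists_ne (0 : V)
      have h2 := h1 (S g⁻¹ v)
      rw [← Module.End.mul_apply, ← map_mul, mul_inv_cancel, map_one, Module.End.one_apply,
        zero_smul] at h2
      exact hv h2
    exact ⟨Units.mk0 c hc0, h1⟩
  choose χ hχ using hsc
  have huniq : ∀ g (c c' : k), (∀ v, c • R g v = c' • R g v) → c = c' := by
    intro g c c' h
    obtain ⟨v, hv⟩ := exists_ne (0 : V)
    have h1 := h (R g⁻¹ v)
    rw [hRR] at h1
    exact smul_left_injective k hv h1
  let X : Γ →* kˣ :=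
    { toFun := χ
      map_one' := by
        apply Units.ext
        refine huniq 1 _ _ (fun v => ?_)
        rw [← hχ, map_one, map_one, Units.val_one, one_smul]
      map_mul' := fun g h => by
        apply Units.ext
        refine huniq (g * h) _ _ (fun v => ?_)
        rw [← hχ, map_mul, Module.End.mul_apply, hχ, hχ, map_smul, Units.val_mul, smul_smul,
          map_mul, Module.End.mul_apply] }
  have hX : X = 1 := by
    refine hom_unique (H := U) p (pow_bij p).1 ?_ hind X (fun j x => ?_)
    · rcases ‹ExpChar k p› with _ | hp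
      · left; rfl
      · right; exact hp
    · let a : Representation k (U j) V := R.comp (U j).subtype
      let a' : Representation k (U j) V := S.comp (U j).subtype
      have hia : (rN (N.subgroupOf (U j)) a).IsIrreducible := by
        let φ : N →* N.subgroupOf (U j) :=
          { toFun := fun ν => ⟨⟨ν, hU j ν.2⟩, ν.2⟩
            map_one' := rfl
            map_mul' := fun _ _ => rfl }
        exact irr_of_comp (rN (N.subgroupOf (U j)) a) φ hirr
      refine twist_trivial a a' hia ?_ (fun g => χ g) (fun g v => hχ g v) ?_ x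
      · rintro ⟨⟨ν, _⟩, hν⟩
        exact hSN ⟨ν, hν⟩
      · ext g
        change S.character g = R.character g
        rw [char_tp]
        exact hc j g
  have hSR : S = R := by
    ext g v
    have h1 := hχ g v
    have h2 : χ g = 1 := DFunLike.congr_fun hX g
    rw [h2, Units.val_one, one_smul] at h1
    exact h1
  rw [← hSR]
  exact ⟨tpEquiv R' Q.toLinearEquiv⟩

end Pool.Agent.Q227.CD
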