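import Pool.Agent.Q227.CD.Defs
import Pool.Agent.Q227.MkM
import Pool.Agent.Q229.X3

/-!
# Chromatic discrepancy: the construction

The vertices are triples `(e, j, a)`, where `e` is an element of the `j`-th triple of an instance
of exact cover by 3-sets, and `a < M`, and one further vertex. Two vertices are adjacent if both
the elements `e` and the pairs `(j, a)` are different.
-/

set_option autoImplicit false

namespace Pool.Agent.Q227.CD

open Pool.Agent.NPC Pool.Agent.NPC.H632

/-- Codes of vertices. -/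
abbrev Cd : Type := ℕ × ℕ × ℕ

/-- Adjacency. -/
def adj (u v : Cd) : Bool := decide (u.1 ≠ v.1) && decide (u.2 ≠ v.2)

theorem adj_iff {u v : Cd} : adj u v = true ↔ u.1 ≠ v.1 ∧ u.2 ≠ v.2 := by
  unfold adj
  rw [Bool.and_eq_true, decide_eq_true_eq, decide_eq_true_eq]

theorem adj_symm (u v : Cd) (h : adj u v = true) : adj v u = true := by
  rw [adj_iff] at h ⊢
  exact ⟨h.1.symm, h.2.symm⟩

theorem adj_irrefl (u : Cd) : adj u u = false := by
  rw [← Bool.not_eq_true, adj_iff]
  exact fun h => h.1 rfl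

/-- The instances of exact cover. -/
abbrev XI : Type := List (ℕ × ℕ × ℕ) × ℕ

/-- The list of the vertices is right. -/
def IsVL (I : XI) (M : ℕ) (L : List Cd) : Prop :=
  ∀ v : Cd, v ∈ L ↔ (v.1 < 3 * I.2 ∧ v.2.2 < M ∧ ∃ t, I.1[v.2.1]? = some t ∧ v.1 ∈ el t) ∨
    v = (3 * I.2, I.1.length, 0)

/-- The graph. -/
abbrev RG (L : List Cd) : SimpleGraph {v : Cd // v ∈ L} := GrL L adj adj_symm adj_irrefl

section

variable {I : XI} {M : ℕ} {L : List Cd} (hL : IsVL I M L)

theorem rg_adj {u v : {v : Cd // v ∈ L}} : (RG L).Adj u v ↔ u.1.1 ≠ v.1.1 ∧ u.1.2 ≠ v.1.2 :=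
  adj_iff

/-- The universal vertex. -/
def top : {v : Cd // v ∈ L} := ⟨(3 * I.2, I.1.length, 0), (hL _).2 (Or.inr rfl)⟩

include hL in
theorem lt_or (v : {v : Cd // v ∈ L}) : v.1.1 < 3 * I.2 ∧ v.1.2.2 < M ∧
    (∃ t, I.1[v.1.2.1]? = some t ∧ v.1.1 ∈ el t) ∨ v = top hL := by
  rcases (hL v.1).1 v.2 with h | h
  · exact Or.inl h
  · exact Or.inr (Subtype.ext h)

theorem top_adj {v : {v : Cd // v ∈ L}} (hv : v ≠ top hL) : (RG L).Adj (top hL) v := by
  rcases lt_or hL v with ⟨h1, h2, t, ht, h3⟩ | h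
  · refine rg_adj.2 ⟨?_, fun h => ?_⟩
    · change 3 * I.2 ≠ v.1.1
      omega
    · have h4 : I.1.length = v.1.2.1 := congrArg Prod.fst h
      rw [List.getElem?_eq_none (by omega)] at ht
      exact absurd ht (by simp)
  · exact absurd h hv

theorem ne_top_iff {v : {v : Cd // v ∈ L}} : v ≠ top hL ↔ v.1.1 < 3 * I.2 := by
  constructor
  · intro h
    rcases lt_or hL v with h1 | h1
    · exact h1.1
    · exact absurd h1 h
  · rintro h rfl
    exact absurd h (by change ¬ (3 * I.2 < 3 * I.2); omega)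

theorem el_card (t : ℕ × ℕ × ℕ) : (el t).toFinset.card ≤ 3 := (List.toFinset_card_le _)

include hL in
/-- Without an exact cover, the discrepancy is small. -/
theorem phi_le_of (h : Q229.X3Ok I) (hno : ¬ X3C I) : phi (RG L) ≤ 2 * I.2 - 1 := by
  classical
  have hq := h.pos
  refine phi_le (c := SimpleGraph.Coloring.mk (fun v => v.1.1) fun huv => (rg_adj.1 huv).1)
    fun T => disc_le_of fun m hm => ?_
  obtain ⟨f⟩ := hm
  set c : (RG L).Coloring ℕ :=
    SimpleGraph.Coloring.mk (fun v => v.1.1) fun huv => (rg_adj.1 huv).1 with hc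
  have hcv : ∀ v, c v = v.1.1 := fun v => rfl
  by_contra hlt
  rw [not_le] at hlt
  refine hno ?_
  rw [Q229.x3c_iff h]
  -- the colouring of `T` as a function with values in the natural numbers
  set g : {v : Cd // v ∈ L} → ℕ := fun v => if hv : v ∈ T then (f ⟨v, hv⟩ : ℕ) else 0 with hg
  have hgv : ∀ v (hv : v ∈ T), g v = (f ⟨v, hv⟩ : ℕ) := fun v hv => by rw [hg]; exact dif_pos hv
  have hgm : ∀ v ∈ T, g v < m := fun v hv => by rw [hgv v hv]; exact (f ⟨v, hv⟩).2
  have hga : ∀ u ∈ T, ∀ v ∈ T, g u = g v → ¬ (RG L).Adj u v := by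
    intro u hu v hv he hadj
    rw [hgv u hu, hgv v hv] at he
    exact f.valid (v := ⟨u, hu⟩) (w := ⟨v, hv⟩) hadj (Fin.ext he)
  set T₀ : Finset {v : Cd // v ∈ L} := Finset.univ.filter fun v => v ∈ T ∧ v ≠ top hL with hT₀
  have hT₀' : ∀ v, v ∈ T₀ ↔ v ∈ T ∧ v ≠ top hL := fun v => by rw [hT₀]; simp
  set E : Finset ℕ := T₀.image fun v => v.1.1 with hE
  set J : Finset ℕ := T₀.image g with hJ
  -- comparison of the numbers
  have hmain : 2 * I.2 + J.card ≤ E.card := by
    by_cases htop : top hL ∈ T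
    · have h1 : (c '' T).ncard ≤ E.card + 1 := by
        have hsub : c '' T ⊆ ((insert (3 * I.2) E : Finset ℕ) : Set ℕ) := by
          rintro _ ⟨v, hv, rfl⟩
          rw [Finset.mem_coe, Finset.mem_insert]
          by_cases hvt : v = top hL
          · left
            rw [hvt]
            rfl
          · right
            exact Finset.mem_image.2 ⟨v, (hT₀' v).2 ⟨hv, hvt⟩, rfl⟩
        have h2 := Set.ncard_le_ncard hsub (Finset.finite_toSet _)
        rw [Set.ncard_coe_finset] at h2
        exact h2.trans (Finset.card_insert_le _ _)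
      have h2 : J.card + 1 ≤ m := by
        have h3 : g (top hL) ∉ J := by
          intro h3
          obtain ⟨v, hv, he⟩ := Finset.mem_image.1 h3
          rw [hT₀'] at hv
          exact hga _ htop _ hv.1 he.symm (top_adj hL hv.2)
        have h4 : insert (g (top hL)) J ⊆ Finset.range m := by
          intro x hx
          rw [Finset.mem_insert] at hx
          rw [Finset.mem_range]
          rcases hx with rfl | hx
          · exact hgm _ htop
          · obtain ⟨v, hv, rfl⟩ := Finset.mem_image.1 hx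
            exact hgm _ ((hT₀' v).1 hv).1
        have h5 := Finset.card_le_card h4
        rw [Finset.card_insert_of_notMem h3, Finset.card_range] at h5
        exact h5
      omega
    · have h1 : (c '' T).ncard ≤ E.card := by
        have hsub : c '' T ⊆ (E : Set ℕ) := by
          rintro _ ⟨v, hv, rfl⟩
          rw [Finset.mem_coe]
          exact Finset.mem_image.2 ⟨v, (hT₀' v).2 ⟨hv, fun he => htop (he ▸ hv)⟩, rfl⟩
        have h2 := Set.ncard_le_ncard hsub (Finset.finite_toSet _)
        rwa [Set.ncard_coe_finset] at h2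
      have h2 : J.card ≤ m := by
        have h4 : J ⊆ Finset.range m := by
          intro x hx
          rw [Finset.mem_range]
          obtain ⟨v, hv, rfl⟩ := Finset.mem_image.1 hx
          exact hgm _ ((hT₀' v).1 hv).1
        have h5 := Finset.card_le_card h4
        rwa [Finset.card_range] at h5
      omega
  -- every colour class is contained in a triple
  have htrip : ∀ i ∈ J, ∃ j, ∃ hj : j < I.1.length, ∀ u ∈ T₀, g u = i → u.1.1 ∈ el I.1[j] := by
    intro i hi
    by_cases hex : ∃ u ∈ T₀, ∃ v ∈ T₀, g u = i ∧ g v = i ∧ u.1.1 ≠ v.1.1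
    · obtain ⟨u, hu, v, hv, hui, hvi, huv⟩ := hex
      have hu' := (hT₀' u).1 hu
      have hv' := (hT₀' v).1 hv
      have key : ∀ x ∈ T₀, ∀ y ∈ T₀, g x = i → g y = i → x.1.1 ≠ y.1.1 → x.1.2 = y.1.2 := by
        intro x hx y hy hxi hyi hxy
        by_contra hne
        exact hga _ ((hT₀' x).1 hx).1 _ ((hT₀' y).1 hy).1 (hxi.trans hyi.symm)
          (rg_adj.2 ⟨hxy, hne⟩)
      have h2 := key u hu v hv hui hvi huv
      have hall : ∀ x ∈ T₀, g x = i → x.1.2 = u.1.2 := by
        intro x hx hxi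
        by_cases h3 : x.1.1 = u.1.1
        · exact (key x hx v hv hxi hvi (by rw [h3]; exact huv)).trans h2.symm
        · exact key x hx u hu hxi hui h3
      rcases lt_or hL u with ⟨_, _, t, ht, _⟩ | h3
      · obtain ⟨hj, _⟩ := List.getElem?_eq_some_iff.1 ht
        refine ⟨u.1.2.1, hj, fun x hx hxi => ?_⟩
        rcases lt_or hL x with ⟨_, _, t', ht', hxt⟩ | h4
        · rw [hall x hx hxi, List.getElem?_eq_getElem hj, Option.some.injEq] at ht'
          rw [ht']
          exact hxt
        · exact absurd h4 ((hT₀' x).1 hx).2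
      · exact absurd h3 hu'.2
    · push Not at hex
      obtain ⟨v, hv, hvi⟩ := Finset.mem_image.1 hi
      rcases lt_or hL v with ⟨_, _, t, ht, hvt⟩ | h3
      · obtain ⟨hj, he⟩ := List.getElem?_eq_some_iff.1 ht
        refine ⟨v.1.2.1, hj, fun x hx hxi => ?_⟩
        rw [hex x hx v hv hxi hvi, he]
        exact hvt
      · exact absurd h3 ((hT₀' v).1 hv).2
  choose! jj hjj using htrip
  have hE3 : E.card ≤ 3 * J.card := by
    have hsub : E ⊆ J.biUnion fun i => (el (I.1.getD (jj i) (0, 0, 0))).toFinset := by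
      intro e he
      obtain ⟨v, hv, rfl⟩ := Finset.mem_image.1 he
      have hi : g v ∈ J := Finset.mem_image.2 ⟨v, hv, rfl⟩
      refine Finset.mem_biUnion.2 ⟨g v, hi, List.mem_toFinset.2 ?_⟩
      obtain ⟨hj, h1⟩ := hjj (g v) hi
      rw [List.getD_eq_getElem _ _ hj]
      exact h1 v hv rfl
    refine (Finset.card_le_card hsub).trans (Finset.card_biUnion_le.trans ?_)
    refine (Finset.sum_le_card_nsmul _ _ 3 fun i _ => el_card _).trans ?_
    rw [smul_eq_mul, mul_comm]
  have hEq : E ⊆ Finset.range (3 * I.2) := by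
    intro e he
    obtain ⟨v, hv, rfl⟩ := Finset.mem_image.1 he
    exact Finset.mem_range.2 ((ne_top_iff hL).1 ((hT₀' v).1 hv).2)
  have hEc := Finset.card_le_card hEq
  rw [Finset.card_range] at hEc
  have hJq : J.card = I.2 := by omega
  have hEall : E = Finset.range (3 * I.2) :=
    Finset.eq_of_subset_of_card_le hEq (by rw [Finset.card_range]; omega)
  have eJ : J ≃ Fin I.2 := J.equivFinOfCardEq hJq
  refine ⟨fun i => ⟨jj (eJ.symm i).1, (hjj _ (eJ.symm i).2).choose⟩, fun e he => ?_⟩
  have h1 : e ∈ E := by rw [hEall]; exact Finset.mem_range.2 he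
  obtain ⟨v, hv, hve⟩ := Finset.mem_image.1 h1
  have hi : g v ∈ J := Finset.mem_image.2 ⟨v, hv, rfl⟩
  refine ⟨eJ ⟨g v, hi⟩, ?_⟩
  obtain ⟨hj, h2⟩ := hjj (g v) hi
  have h3 := h2 v hv rfl
  rw [hve] at h3
  have h4 : (eJ.symm (eJ ⟨g v, hi⟩)).1 = g v := by rw [Equiv.symm_apply_apply]
  simp only [Fin.getElem_fin]
  simp only [h4]
  exact h3

end

end Pool.Agent.Q227.CD
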