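import Pool.Agent.Q15.GR3

/-!
# Irreducible representations over an algebraically closed field of any characteristic

Schur's lemma, Burnside's theorem, and: irreducible representations with the same character are
isomorphic.
-/

set_option autoImplicit false
set_option linter.unusedSectionVars false

namespace Pool.Agent.Q227.CD

open Representation Module Pool.Agent.Q15.GR
open scoped MonoidAlgebra

variable {k : Type} [Field k] [IsAlgClosed k] {G : Type} [Group G]
variable {V W : Type} [AddCommGroup V] [Module k V] [FiniteDimensional k V] [AddCommGroup W]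
  [Module k W] [FiniteDimensional k W]

theorem schur (ρ : Representation k G V) (h : ρ.IsIrreducible) (T : V →ₗ[k] V)
    (hT : ∀ g, T ∘ₗ ρ g = ρ g ∘ₗ T) : ∃ c : k, T = c • LinearMap.id := by
  haveI := h
  let f : IntertwiningMap ρ ρ := { toLinearMap := T, isIntertwining' := hT }
  obtain ⟨c, hc⟩ := (IsIrreducible.algebraMap_intertwiningMap_bijective_of_isAlgClosed
    (ρ := ρ)).2 f
  refine ⟨c, ?_⟩
  have h1 := congrArg IntertwiningMap.toLinearMap hc
  rw [show f.toLinearMap = T from rfl] at h1
  rw [← h1]
  rfl

theorem nontriv (ρ : Representation k G V) (h : ρ.IsIrreducible) : Nontrivial V := by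
  by_contra hne
  rw [not_nontrivial_iff_subsingleton] at hne
  haveI := h
  have h4 : (⊥ : Subrepresentation ρ) = ⊤ := by
    apply Subrepresentation.toSubmodule_injective
    exact Subsingleton.elim _ _
  exact bot_ne_top h4

theorem burnside (ρ : Representation k G V) (h : ρ.IsIrreducible) (T : V →ₗ[k] V) :
    ∃ r : k[G], ρ.asAlgebraHom r = T := by
  classical
  haveI : IsSimpleModule k[G] ρ.asModule := (irreducible_iff_isSimpleModule_asModule ρ).1 h
  let f : Module.End (Module.End k[G] ρ.asModule) ρ.asModule :=
    { toFun := fun x => (T x : V)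
      map_add' := fun x y => map_add T x y
      map_smul' := fun φ x => by
        obtain ⟨c, hc⟩ := schur ρ h
          ((IntertwiningMap.equivLinearMapAsModule ρ ρ).symm φ).toLinearMap
          ((IntertwiningMap.equivLinearMapAsModule ρ ρ).symm φ).isIntertwining'
        have h1 : ∀ y : V, (φ y : V) = c • y := fun y => LinearMap.congr_fun hc y
        change T (φ x : V) = (φ (T x) : V)
        rw [h1, h1, map_smul] }
  let b := Module.finBasis k V
  obtain ⟨r, hr⟩ := jacobson_density f (Finset.univ.image fun i => (b i : ρ.asModule))
  refine ⟨r, b.ext fun i => ?_⟩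
  exact (hr _ (Finset.mem_image_of_mem _ (Finset.mem_univ i))).symm

/-- **irreducible representations with the same character are isomorphic**, in any characteristic -/
theorem equiv_of_char_irr (ρ : Representation k G V) (σ : Representation k G W)
    (hρ : ρ.IsIrreducible) (hσ : σ.IsIrreducible) (h : ρ.character = σ.character) :
    Nonempty (Representation.Equiv ρ σ) := by
  by_contra hne
  rw [not_nonempty_iff] at hne
  obtain ⟨r, hr, hr'⟩ := sep_rep ρ σ hρ hσ hne
  haveI := nontriv ρ hρ
  obtain ⟨v, hv⟩ := exists_ne (0 : V)
  have hex : ∃ φ : V →ₗ[k] k, φ v = 1 := by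
    obtain ⟨ψ, hψ⟩ := Module.Projective.exists_dual_ne_zero k hv
    refine ⟨(ψ v)⁻¹ • ψ, ?_⟩
    rw [LinearMap.smul_apply, smul_eq_mul, inv_mul_cancel₀ hψ]
  obtain ⟨φ, hφ⟩ := hex
  obtain ⟨s, hs⟩ := burnside ρ hρ (φ.smulRight v)
  have ha : ρ.asAlgebraHom (r * s) = φ.smulRight v := by
    rw [map_mul, hr, hs, one_mul]
  have hb : σ.asAlgebraHom (r * s) = 0 := by
    rw [map_mul, hr', zero_mul]
  have h1 := ev_char (r * s) ρ
  rw [h, ev_char, ha, hb, map_zero, LinearMap.trace_smulRight, hφ] at h1
  exact zero_ne_one h1

/-- a representation with an irreducible restriction is irreducible -/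
theorem irr_of_comp {H : Type} [Group H] (ρ : Representation k G V) (φ : H →* G)
    (h : Representation.IsIrreducible (ρ.comp φ : Representation k H V)) : ρ.IsIrreducible := by
  haveI := h
  haveI := nontriv _ h
  refine { exists_pair_ne := ⟨⊥, ⊤, ?_⟩, eq_bot_or_eq_top := fun S => ?_ }
  · intro h1
    exact bot_ne_top (congrArg Subrepresentation.toSubmodule h1 : (⊥ : Submodule k V) = ⊤)
  · let S' : Subrepresentation (ρ.comp φ : Representation k H V) :=
      { toSubmodule := S.toSubmodule
        apply_mem_toSubmodule := fun g v hv => S.apply_mem_toSubmodule (φ g) hv }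
    rcases eq_bot_or_eq_top S' with h1 | h1
    · left
      apply Subrepresentation.toSubmodule_injective
      have h2 : S'.toSubmodule = (⊥ : Submodule k V) := congrArg Subrepresentation.toSubmodule h1
      exact h2
    · right
      apply Subrepresentation.toSubmodule_injective
      have h2 : S'.toSubmodule = (⊤ : Submodule k V) := congrArg Subrepresentation.toSubmodule h1
      exact h2

theorem irr_comp_surj {H : Type} [Group H] (ρ : Representation k G V) (φ : H →* G)
    (hφ : Function.Surjective φ) (h : ρ.IsIrreducible) :
    Representation.IsIrreducible (ρ.comp φ : Representation k H V) := by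
  haveI := h
  haveI := nontriv _ h
  refine { exists_pair_ne := ⟨⊥, ⊤, ?_⟩, eq_bot_or_eq_top := fun S => ?_ }
  · intro h1
    exact bot_ne_top (congrArg Subrepresentation.toSubmodule h1 : (⊥ : Submodule k V) = ⊤)
  · let S' : Subrepresentation ρ :=
      { toSubmodule := S.toSubmodule
        apply_mem_toSubmodule := fun g v hv => by
          obtain ⟨h, rfl⟩ := hφ g
          exact S.apply_mem_toSubmodule h hv }
    rcases eq_bot_or_eq_top S' with h1 | h1
    · left
      apply Subrepresentation.toSubmodule_injective
      have h2 : S'.toSubmodule = (⊥ : Submodule k V) := congrArg Subrepresentation.toSubmodule h1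
      exact h2
    · right
      apply Subrepresentation.toSubmodule_injective
      have h2 : S'.toSubmodule = (⊤ : Submodule k V) := congrArg Subrepresentation.toSubmodule h1
      exact h2

end Pool.Agent.Q227.CD
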