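import Pool.Agent.Q227.CD.Graph

/-!
# Chromatic discrepancy: the lower bound
-/

set_option autoImplicit false

namespace Pool.Agent.Q227.CD

open Pool.Agent.NPC Pool.Agent.NPC.H632

theorem connected_of {V : Type} {G : SimpleGraph V} {S : Set V} {z : V} (hz : z ∈ S)
    (h : ∀ v ∈ S, v ≠ z → G.Adj z v) : (G.induce S).Connected := by
  have h1 : ∀ v : S, (G.induce S).Reachable ⟨z, hz⟩ v := by
    intro v
    by_cases hv : v.1 = z
    · have : v = ⟨z, hz⟩ := Subtype.ext hv
      rw [this]
    · exact SimpleGraph.Adj.reachable (show (G.induce S).Adj ⟨z, hz⟩ v from h v.1 v.2 hv)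
  have : Nonempty S := ⟨⟨z, hz⟩⟩
  exact ⟨fun u v => (h1 u).symm.trans (h1 v)⟩

section

variable {I : XI} {M : ℕ} {L : List Cd} (hL : IsVL I M L)

include hL in
/-- With an exact cover, the discrepancy is large. -/
theorem le_phiHat_of (h : Q229.X3Ok I) (hyes : X3C I)
    (hM : 3 * I.2 * (2 * I.2 + 1) ≤ M) : 2 * I.2 ≤ phiHat (RG L) := by
  classical
  have hq := h.pos
  obtain ⟨f, hf⟩ := (Q229.x3c_iff h).1 hyes
  have hne0 : Nonempty (Fin I.2) := ⟨⟨0, hq⟩⟩
  choose! idx hidx using hf
  set jf : ℕ → ℕ := fun e => (f (idx e)).1 with hjf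
  have hjl : ∀ e, jf e < I.1.length := fun e => (f (idx e)).2
  have hje : ∀ e < 3 * I.2, ∃ t, I.1[jf e]? = some t ∧ e ∈ el t := fun e he =>
    ⟨_, List.getElem?_eq_getElem (hjl e), hidx e he⟩
  -- the vertices
  have hw : ∀ a < M, ∀ e < 3 * I.2, ((e, jf e, a) : Cd) ∈ L := fun a ha e he =>
    (hL _).2 (Or.inl ⟨he, ha, hje e he⟩)
  set z := top hL with hz
  set w : ℕ → ℕ → {v : Cd // v ∈ L} := fun a e =>
    if hae : a < M ∧ e < 3 * I.2 then ⟨(e, jf e, a), hw a hae.1 e hae.2⟩ else z with hwdef
  have hwv : ∀ a < M, ∀ e < 3 * I.2, (w a e).1 = (e, jf e, a) := by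
    intro a ha e he
    rw [hwdef]
    simp only
    rw [dif_pos ⟨ha, he⟩]
  have hwz : ∀ a < M, ∀ e < 3 * I.2, w a e ≠ z := by
    intro a ha e he
    rw [hz, ne_top_iff hL, hwv a ha e he]
    exact he
  refine le_phiHat fun c => ?_
  have hcz : ∀ v, v ≠ z → c z ≠ c v := fun v hv => c.valid (top_adj hL hv)
  by_cases hlayer : ∃ a < M, ∀ e < 3 * I.2, ∀ e' < 3 * I.2, e ≠ e' → c (w a e) ≠ c (w a e')
  · obtain ⟨a, ha, hinj⟩ := hlayer
    set S : Set {v : Cd // v ∈ L} := {v | v = z ∨ ∃ e < 3 * I.2, v = w a e} with hS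
    refine ⟨S, connected_of (z := z) (Or.inl rfl) fun v _ hv => top_adj hL hv,
      le_disc (m := I.2 + 1) ?_ ?_⟩
    · refine ⟨SimpleGraph.Coloring.mk (fun v => if v.1.1.1 < 3 * I.2 then
        Fin.castSucc (idx v.1.1.1) else Fin.last _) ?_⟩
      rintro ⟨u, hu⟩ ⟨v, hv⟩ huv
      have hadj : (RG L).Adj u v := huv
      have hzl : ¬ z.1.1 < 3 * I.2 := fun hlt => ((ne_top_iff hL).2 hlt) rfl
      simp only
      rcases hu with rfl | ⟨e, he, rfl⟩ <;> rcases hv with rfl | ⟨e', he', rfl⟩
      · exact absurd rfl hadj.ne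
      · rw [if_neg hzl, if_pos (by rw [hwv a ha e' he']; exact he')]
        exact (Fin.castSucc_lt_last _).ne'
      · rw [if_neg hzl, if_pos (by rw [hwv a ha e he]; exact he)]
        exact (Fin.castSucc_lt_last _).ne
      · rw [if_pos (by rw [hwv a ha e he]; exact he),
          if_pos (by rw [hwv a ha e' he']; exact he'), hwv a ha e he, hwv a ha e' he']
        intro heq
        have h1 : idx e = idx e' := Fin.castSucc_injective _ heq
        have h2 := (rg_adj.1 hadj).2
        rw [hwv a ha e he, hwv a ha e' he'] at h2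
        refine h2 ?_
        simp only [hjf, h1]
    · have hsub : (((Finset.range (3 * I.2 + 1)).image fun e =>
          if e < 3 * I.2 then c (w a e) else c z : Finset ℕ) : Set ℕ) ⊆ c '' S := by
        intro x hx
        rw [Finset.mem_coe] at hx
        obtain ⟨e, _, rfl⟩ := Finset.mem_image.1 hx
        by_cases he : e < 3 * I.2
        · rw [if_pos he]
          exact ⟨_, Or.inr ⟨e, he, rfl⟩, rfl⟩
        · rw [if_neg he]
          exact ⟨_, Or.inl rfl, rfl⟩
      have h1 := Set.ncard_le_ncard hsub (Set.toFinite _)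
      rw [Set.ncard_coe_finset, Finset.card_image_of_injOn, Finset.card_range] at h1
      · omega
      · intro e he e' he' heq
        rw [Finset.mem_coe, Finset.mem_range] at he he'
        simp only at heq
        split_ifs at heq with h1 h2 h2
        · by_contra hne
          exact hinj e h1 e' h2 hne heq
        · exact absurd heq.symm (hcz _ (hwz a ha e h1))
        · exact absurd heq (hcz _ (hwz a ha e' h2))
        · omega
  · push Not at hlayer
    choose! e1 he1 e2 he2 hne heq using hlayer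
    -- the two vertices are in the same triple
    have hcell : ∀ a < M, jf (e1 a) = jf (e2 a) := by
      intro a ha
      by_contra hj
      refine c.valid (v := w a (e1 a)) (w := w a (e2 a)) (rg_adj.2 ?_) (heq a ha)
      rw [hwv a ha _ (he1 a ha), hwv a ha _ (he2 a ha)]
      exact ⟨hne a ha, fun h => hj (Prod.mk.inj h).1⟩
    have hdist : ∀ a < M, ∀ b < M, a ≠ b → c (w a (e1 a)) ≠ c (w b (e1 b)) := by
      intro a ha b hb hab h1
      have key : ∀ e < 3 * I.2, ∀ e' < 3 * I.2, c (w a e) = c (w b e') → e = e' := by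
        intro e he e' he' h2
        by_contra h3
        refine c.valid (v := w a e) (w := w b e') (rg_adj.2 ?_) h2
        rw [hwv a ha e he, hwv b hb e' he']
        exact ⟨h3, fun h => hab (Prod.mk.inj h).2⟩
      have h2 := key _ (he1 a ha) _ (he1 b hb) h1
      have h3 := key _ (he1 a ha) _ (he2 b hb) (h1.trans (heq b hb))
      exact hne b hb (h2.symm.trans h3)
    obtain ⟨e₀, he₀, hcard⟩ := Finset.exists_le_card_fiber_of_mul_le_card_of_maps_to
      (s := Finset.range M) (t := Finset.range (3 * I.2)) (f := e1) (n := 2 * I.2 + 1)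
      (fun a ha => Finset.mem_range.2 (he1 a (Finset.mem_range.1 ha)))
      (Finset.nonempty_range_iff.2 (by omega))
      (by rw [Finset.card_range, Finset.card_range]; exact hM)
    rw [Finset.mem_range] at he₀
    set A := (Finset.range M).filter fun a => e1 a = e₀ with hA
    have hAM : ∀ a ∈ A, a < M ∧ e1 a = e₀ := fun a ha => by
      rw [hA, Finset.mem_filter, Finset.mem_range] at ha
      exact ha
    set S : Set {v : Cd // v ∈ L} := {v | v = z ∨ ∃ a ∈ A, v = w a e₀} with hS
    refine ⟨S, connected_of (z := z) (Or.inl rfl) fun v _ hv => top_adj hL hv,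
      le_disc (m := 2) ?_ ?_⟩
    · refine ⟨SimpleGraph.Coloring.mk (fun v => if v.1 = z then 1 else 0) ?_⟩
      rintro ⟨u, hu⟩ ⟨v, hv⟩ huv
      have hadj : (RG L).Adj u v := huv
      simp only
      rcases hu with rfl | ⟨a, ha, rfl⟩ <;> rcases hv with rfl | ⟨b, hb, rfl⟩
      · exact absurd rfl hadj.ne
      · rw [if_pos rfl, if_neg (hwz b (hAM b hb).1 _ he₀)]
        decide
      · rw [if_pos rfl, if_neg (hwz a (hAM a ha).1 _ he₀)]
        decide
      · exfalso
        have h2 := (rg_adj.1 hadj).1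
        rw [hwv a (hAM a ha).1 _ he₀, hwv b (hAM b hb).1 _ he₀] at h2
        exact h2 rfl
    · have hsub : ((insert (c z) (A.image fun a => c (w a e₀)) : Finset ℕ) : Set ℕ) ⊆ c '' S := by
        intro x hx
        rw [Finset.mem_coe, Finset.mem_insert] at hx
        rcases hx with rfl | hx
        · exact ⟨_, Or.inl rfl, rfl⟩
        · obtain ⟨a, ha, rfl⟩ := Finset.mem_image.1 hx
          exact ⟨_, Or.inr ⟨a, ha, rfl⟩, rfl⟩
      have h1 := Set.ncard_le_ncard hsub (Set.toFinite _)
      rw [Set.ncard_coe_finset, Finset.card_insert_of_notMem, Finset.card_image_of_injOn] at h1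
      · omega
      · intro a ha b hb hab
        rw [Finset.mem_coe] at ha hb
        by_contra hne'
        simp only at hab
        have h2 := hdist a (hAM a ha).1 b (hAM b hb).1 hne'
        rw [(hAM a ha).2, (hAM b hb).2] at h2
        exact h2 hab
      · intro hx
        obtain ⟨a, ha, hx⟩ := Finset.mem_image.1 hx
        exact hcz _ (hwz a (hAM a ha).1 _ he₀) hx.symm

end

end Pool.Agent.Q227.CD
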