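import Pool.Agent.Q227.CD.Cross2
import Pool.Agent.Q227.CD.Glue2
import Pool.Agent.Q227.CD.Cyc

/-!
# Gluing representations which are multiplicity free on a normal subgroup
-/

set_option autoImplicit false
set_option linter.unusedSectionVars false

namespace Pool.Agent.Q227.CD

open Representation Module Pool.Agent.Q15.GR

variable {k : Type} [Field k]

/-- the endomorphisms of the representation commute with each other -/
def EndComm {G V : Type} [Group G] [AddCommGroup V] [Module k V] (ρ : Representation k G V) :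
    Prop :=
  ∀ A B : V →ₗ[k] V, (∀ g, A ∘ₗ ρ g = ρ g ∘ₗ A) → (∀ g, B ∘ₗ ρ g = ρ g ∘ₗ B) →
    A ∘ₗ B = B ∘ₗ A

section basic

variable {G H V : Type} [Group G] [Group H] [AddCommGroup V] [Module k V]

theorem isCompl_sub {ρ : Representation k G V} {X Y : Subrepresentation ρ} (h : IsCompl X Y) :
    IsCompl X.toSubmodule Y.toSubmodule := by
  constructor
  · rw [disjoint_iff]
    exact congrArg Subrepresentation.toSubmodule (disjoint_iff.1 h.disjoint)
  · rw [codisjoint_iff]
    exact congrArg Subrepresentation.toSubmodule (codisjoint_iff.1 h.codisjoint)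

theorem proj_comm {ρ : Representation k G V} {X Y : Subrepresentation ρ}
    (h : IsCompl X.toSubmodule Y.toSubmodule) (g : G) :
    X.toSubmodule.projection Y.toSubmodule h ∘ₗ ρ g =
      ρ g ∘ₗ X.toSubmodule.projection Y.toSubmodule h := by
  refine LinearMap.ext fun v => ?_
  set P := X.toSubmodule.projection Y.toSubmodule h with hP
  have h1 : v = P v + (v - P v) := by abel
  have h2 : v - P v ∈ Y.toSubmodule := by
    rw [← Submodule.projection_eq_self_sub_projection h]
    exact Submodule.projection_apply_mem _ _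
  have h3 : P (ρ g (P v)) = ρ g (P v) :=
    Submodule.projection_apply_of_mem_left h
      (X.apply_mem_toSubmodule g (Submodule.projection_apply_mem h v))
  have h4 : P (ρ g (v - P v)) = 0 :=
    Submodule.projection_apply_of_mem_right h (Y.apply_mem_toSubmodule g h2)
  change P (ρ g v) = ρ g (P v)
  conv_lhs => rw [h1]
  rw [map_add, map_add, h3, h4, add_zero]

theorem EndComm.comp_surj {ρ : Representation k G V} (h : EndComm ρ) (φ : H →* G)
    (hφ : Function.Surjective φ) : EndComm (ρ.comp φ : Representation k H V) := by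
  intro A B hA hB
  refine h A B (fun g => ?_) (fun g => ?_)
  · obtain ⟨x, rfl⟩ := hφ g
    exact hA x
  · obtain ⟨x, rfl⟩ := hφ g
    exact hB x

theorem EndComm.equiv {W : Type} [AddCommGroup W] [Module k W] {ρ : Representation k G V}
    {σ : Representation k G W} (h : EndComm ρ) (e : Representation.Equiv ρ σ) : EndComm σ := by
  intro A B hA hB
  let e' := e.toLinearEquiv
  have he : ∀ g v, e' (ρ g v) = σ g (e' v) := fun g v =>
    LinearMap.congr_fun (e.toIntertwiningMap.isIntertwining' g) v
  have he' : ∀ g v, e'.symm (σ g v) = ρ g (e'.symm v) := by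
    intro g v
    rw [LinearEquiv.symm_apply_eq, he, LinearEquiv.apply_symm_apply]
  have h1 := h (e'.symm.toLinearMap ∘ₗ A ∘ₗ e'.toLinearMap)
    (e'.symm.toLinearMap ∘ₗ B ∘ₗ e'.toLinearMap) (fun g => LinearMap.ext fun v => by
      change e'.symm (A (e' (ρ g v))) = ρ g (e'.symm (A (e' v)))
      rw [he, ← he']
      exact congrArg e'.symm (LinearMap.congr_fun (hA g) (e' v))) (fun g => LinearMap.ext fun v => by
      change e'.symm (B (e' (ρ g v))) = ρ g (e'.symm (B (e' v)))
      rw [he, ← he']
      exact congrArg e'.symm (LinearMap.congr_fun (hB g) (e' v)))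
  refine LinearMap.ext fun w => ?_
  have h2 := LinearMap.congr_fun h1 (e'.symm w)
  change e'.symm (A (e' (e'.symm (B (e' (e'.symm w)))))) =
    e'.symm (B (e' (e'.symm (A (e' (e'.symm w)))))) at h2
  rw [LinearEquiv.apply_symm_apply, LinearEquiv.apply_symm_apply, LinearEquiv.apply_symm_apply]
    at h2
  exact e'.symm.injective h2

/-- a representation which is semisimple and multiplicity free on a normal subgroup is
semisimple -/
theorem semi_of_mf (ρ : Representation k G V) (φ : H →* G)
    (hφ : ∀ g h, ∃ h', φ h' = g * φ h * g⁻¹)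
    (hss : IsSemisimpleRepresentation (ρ.comp φ : Representation k H V))
    (hmf : EndComm (ρ.comp φ : Representation k H V)) : ρ.IsSemisimpleRepresentation := by
  refine ⟨fun X => ?_⟩
  let X' : Subrepresentation (ρ.comp φ : Representation k H V) :=
    { toSubmodule := X.toSubmodule
      apply_mem_toSubmodule := fun h v hv => X.apply_mem_toSubmodule (φ h) hv }
  obtain ⟨Y', hY'⟩ := hss.exists_isCompl X'
  have hc : IsCompl X.toSubmodule Y'.toSubmodule := isCompl_sub hY'
  set P := X.toSubmodule.projection Y'.toSubmodule hc with hP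
  have hPH : ∀ h, P ∘ₗ ρ (φ h) = ρ (φ h) ∘ₗ P := fun h => proj_comm (X := X') (Y := Y') hc h
  have hinv : ∀ g v, ρ g (ρ g⁻¹ v) = v := by
    intro g v
    rw [← Module.End.mul_apply, ← map_mul, mul_inv_cancel, map_one, Module.End.one_apply]
  have hPg : ∀ g, P ∘ₗ ρ g = ρ g ∘ₗ P := by
    intro g
    let Q : V →ₗ[k] V := ρ g ∘ₗ P ∘ₗ ρ g⁻¹
    have hQH : ∀ h, Q ∘ₗ ρ (φ h) = ρ (φ h) ∘ₗ Q := by
      intro h
      obtain ⟨h', hh'⟩ := hφ g⁻¹ h
      rw [inv_inv] at hh'
      refine LinearMap.ext fun v => ?_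
      change ρ g (P (ρ g⁻¹ (ρ (φ h) v))) = ρ (φ h) (ρ g (P (ρ g⁻¹ v)))
      have h1 : ρ g⁻¹ (ρ (φ h) v) = ρ (φ h') (ρ g⁻¹ v) := by
        rw [hh', ← Module.End.mul_apply, ← Module.End.mul_apply (ρ _), ← map_mul, ← map_mul]
        congr 2
        group
      have h2 := LinearMap.congr_fun (hPH h') (ρ g⁻¹ v)
      change P (ρ (φ h') (ρ g⁻¹ v)) = ρ (φ h') (P (ρ g⁻¹ v)) at h2
      rw [h1, h2, hh', ← Module.End.mul_apply, ← Module.End.mul_apply (ρ _), ← map_mul, ← map_mul]
      congr 2
      group
    have h1 := hmf P Q hPH hQH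
    refine LinearMap.ext fun v => ?_
    have h2 := LinearMap.congr_fun h1 (ρ g v)
    change P (ρ g (P (ρ g⁻¹ (ρ g v)))) = ρ g (P (ρ g⁻¹ (P (ρ g v)))) at h2
    have h3 : ρ g⁻¹ (ρ g v) = v := by
      have := hinv g⁻¹ v
      rwa [inv_inv] at this
    rw [h3] at h2
    have h4 : P (ρ g (P v)) = ρ g (P v) :=
      Submodule.projection_apply_of_mem_left hc
        (X.apply_mem_toSubmodule g (Submodule.projection_apply_mem hc v))
    have h5 : P (ρ g⁻¹ (P (ρ g v))) = ρ g⁻¹ (P (ρ g v)) :=
      Submodule.projection_apply_of_mem_left hc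
        (X.apply_mem_toSubmodule g⁻¹ (Submodule.projection_apply_mem hc _))
    rw [h4, h5, hinv] at h2
    exact h2.symm
  let Y : Subrepresentation ρ :=
    { toSubmodule := Y'.toSubmodule
      apply_mem_toSubmodule := fun g v hv => by
        have h1 : P v = 0 := Submodule.projection_apply_of_mem_right hc hv
        have h2 := LinearMap.congr_fun (hPg g) v
        change P (ρ g v) = ρ g (P v) at h2
        rw [h1, map_zero] at h2
        exact (Submodule.projection_apply_eq_zero_iff hc).1 h2 }
  refine ⟨Y, ?_, ?_⟩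
  · rw [disjoint_iff]
    apply Subrepresentation.toSubmodule_injective
    exact disjoint_iff.1 hc.disjoint
  · rw [codisjoint_iff]
    apply Subrepresentation.toSubmodule_injective
    exact codisjoint_iff.1 hc.codisjoint

/-- nilpotent endomorphisms are zero -/
theorem nil_zero {ρ : Representation k G V} (hss : ρ.IsSemisimpleRepresentation)
    (hmf : EndComm ρ) (T : V →ₗ[k] V) (hT : ∀ g, T ∘ₗ ρ g = ρ g ∘ₗ T) {m : ℕ}
    (hm : T ^ m = 0) : T = 0 := by
  let X : Subrepresentation ρ :=
    { toSubmodule := LinearMap.ker T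
      apply_mem_toSubmodule := fun g v hv => by
        rw [LinearMap.mem_ker] at hv ⊢
        have h1 := LinearMap.congr_fun (hT g) v
        change T (ρ g v) = ρ g (T v) at h1
        rw [h1, hv, map_zero] }
  obtain ⟨Y, hY⟩ := hss.exists_isCompl X
  have hc : IsCompl X.toSubmodule Y.toSubmodule := isCompl_sub hY
  have hc' := hc.symm
  set P := Y.toSubmodule.projection X.toSubmodule hc' with hP
  have hPT := hmf P T (fun g => proj_comm hc' g) hT
  have h1 : ∀ x ∈ Y.toSubmodule, T x ∈ Y.toSubmodule := by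
    intro x hx
    have h2 := LinearMap.congr_fun hPT x
    change P (T x) = T (P x) at h2
    rw [hP, Submodule.projection_apply_of_mem_left hc' hx] at h2
    rw [← h2]
    exact Submodule.projection_apply_mem _ _
  have h2 : ∀ (j : ℕ), ∀ x ∈ Y.toSubmodule, x ≠ 0 → (T ^ j) x ∈ Y.toSubmodule ∧ (T ^ j) x ≠ 0 := by
    intro j
    induction j with
    | zero =>
      intro x hx hx0
      exact ⟨hx, hx0⟩
    | succ j ih =>
      intro x hx hx0
      obtain ⟨h3, h4⟩ := ih x hx hx0
      rw [pow_succ']
      refine ⟨h1 _ h3, fun h5 => h4 ?_⟩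
      have h6 : (T ^ j) x ∈ X.toSubmodule := LinearMap.mem_ker.2 h5
      have h7 : (T ^ j) x ∈ X.toSubmodule ⊓ Y.toSubmodule := ⟨h6, h3⟩
      rw [disjoint_iff.1 hc.disjoint] at h7
      exact (Submodule.mem_bot k).1 h7
  have h3 : Y.toSubmodule = ⊥ := by
    rw [Submodule.eq_bot_iff]
    intro x hx
    by_contra hx0
    apply (h2 m x hx hx0).2
    rw [hm]
    rfl
  have h4 : X.toSubmodule = ⊤ := by
    have h5 := codisjoint_iff.1 hc.codisjoint
    rwa [h3, sup_bot_eq] at h5
  exact LinearMap.ker_eq_top.1 h4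

end basic

section root

variable [IsAlgClosed k] {V : Type} [AddCommGroup V] [Module k V] [FiniteDimensional k V]

open Polynomial in
/-- a polynomial which vanishes at all eigenvalues gives a nilpotent endomorphism -/
theorem aeval_nil (a : V →ₗ[k] V) (Q : k[X]) (hQ : ∀ x ∈ eig a, Q.eval x = 0) :
    ∃ m, (aeval a Q) ^ m = 0 := by
  classical
  have h1 : a.charpoly = (a.charpoly.roots.map fun x => (Polynomial.X - C x : k[X])).prod :=
    (IsAlgClosed.splits a.charpoly).eq_prod_roots_of_monic (LinearMap.charpoly_monic a)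
  have h2 : a.charpoly ∣ Q ^ Multiset.card a.charpoly.roots := by
    rw [h1]
    have h3 := Multiset.prod_dvd_prod_of_dvd (S := a.charpoly.roots) (fun x => (Polynomial.X - C x : k[X]))
      (fun _ => Q) (fun x hx => dvd_iff_isRoot.2 (hQ x hx))
    rw [Multiset.map_const', Multiset.prod_replicate] at h3
    rw [← h1]
    rw [← h1] at h3
    exact h3
  refine ⟨Multiset.card a.charpoly.roots, ?_⟩
  rw [← map_pow]
  obtain ⟨q, hq⟩ := h2
  rw [hq, map_mul, LinearMap.aeval_self_charpoly, zero_mul]

open Polynomial in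
/-- roots of automorphisms which commute with a representation -/
theorem exists_root {G : Type} [Group G] {ρ : Representation k G V}
    (hss : ρ.IsSemisimpleRepresentation) (hmf : EndComm ρ) {p : ℕ} (hp : 0 < p) (a : V →ₗ[k] V)
    (ha : ∀ g, a ∘ₗ ρ g = ρ g ∘ₗ a) :
    ∃ b : V →ₗ[k] V, (∀ g, b ∘ₗ ρ g = ρ g ∘ₗ b) ∧ b ^ p = a := by
  classical
  choose r hr using fun x : k => IsAlgClosed.exists_pow_nat_eq x hp
  let s : Finset k := (eig a).toFinset
  let P : k[X] := Lagrange.interpolate s id r
  have hP : ∀ x ∈ eig a, P.eval x = r x := by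
    intro x hx
    exact Lagrange.eval_interpolate_at_node r (Set.injOn_id _) (Multiset.mem_toFinset.2 hx)
  have hcomm : ∀ (Q : k[X]) g, aeval a Q ∘ₗ ρ g = ρ g ∘ₗ aeval a Q := by
    intro Q g
    have h1 : Commute a (ρ g) := ha g
    have h2 : Commute (aeval a Q) (ρ g) := by
      induction Q using Polynomial.induction_on' with
      | add p q hp hq =>
        rw [map_add]
        exact hp.add_left hq
      | monomial n c =>
        rw [aeval_monomial]
        exact (Algebra.commute_algebraMap_left c (ρ g)).mul_left (h1.pow_left n)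
    exact h2
  have hnil : ∃ m, (aeval a (P ^ p - (Polynomial.X : k[X]))) ^ m = 0 := by
    refine aeval_nil a _ (fun x hx => ?_)
    rw [eval_sub, eval_pow, eval_X, hP x hx, hr, sub_self]
  obtain ⟨m, hm⟩ := hnil
  have h0 := nil_zero hss hmf _ (hcomm _) hm
  refine ⟨aeval a P, hcomm P, ?_⟩
  rw [map_sub, map_pow, aeval_X, sub_eq_zero] at h0
  exact h0

theorem root_unique {G : Type} [Group G] {ρ : Representation k G V}
    (hss : ρ.IsSemisimpleRepresentation) (hmf : EndComm ρ) (p : ℕ) [ExpChar k p]
    (a b : V →ₗ[k] V) (ha : ∀ g, a ∘ₗ ρ g = ρ g ∘ₗ a) (hb : ∀ g, b ∘ₗ ρ g = ρ g ∘ₗ b)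
    (h : a ^ p = b ^ p) : a = b := by
  have hc : Commute a b := hmf a b ha hb
  have h1 : (a - b) ^ p = 0 := by
    rcases subsingleton_or_nontrivial V with hV | hV
    · exact LinearMap.ext fun x => Subsingleton.elim _ _
    · haveI : ExpChar (Module.End k V) p :=
        expChar_of_injective_algebraMap (algebraMap k (Module.End k V)).injective p
      rw [sub_pow_expChar_of_commute _ hc, h, sub_self]
  have h2 : ∀ g, (a - b) ∘ₗ ρ g = ρ g ∘ₗ (a - b) := by
    intro g
    rw [LinearMap.sub_comp, LinearMap.comp_sub, ha, hb]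
  exact sub_eq_zero.1 (nil_zero hss hmf _ h2 h1)

end root

end Pool.Agent.Q227.CD
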