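import Pool.Agent.Q227.CD.MF

/-!
# The gluing theorem for representations which are multiplicity free on a normal subgroup
-/

set_option autoImplicit false
set_option linter.unusedSectionVars false

namespace Pool.Agent.Q227.CD

open Representation Module Pool.Agent.Q15.GR

variable {k : Type} [Field k] [IsAlgClosed k] {Γ : Type} [Group Γ]
variable {V : Type} [AddCommGroup V] [Module k V] [FiniteDimensional k V]
variable {N : Subgroup Γ} [N.Normal]

/-- elements of the kernel of the projection -/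
theorem ker_pr {ρ₀ : Representation k N V} {x : E ρ₀} (hx : x ∈ (pr ρ₀).ker) (ν : N) :
    x.1.2.toLinearMap ∘ₗ ρ₀ ν = ρ₀ ν ∘ₗ x.1.2.toLinearMap := by
  refine LinearMap.ext fun v => ?_
  have h1 := mem_E x ν v
  have h2 : (⟨pr ρ₀ x * ν * (pr ρ₀ x)⁻¹, ‹N.Normal›.conj_mem ν ν.2 _⟩ : N) = ν := by
    apply Subtype.ext
    change pr ρ₀ x * ν * (pr ρ₀ x)⁻¹ = ν
    rw [MonoidHom.mem_ker.1 hx, one_mul, inv_one, mul_one]
  rw [h2] at h1
  exact h1

theorem ext_E {ρ₀ : Representation k N V} {x y : E ρ₀} (h1 : pr ρ₀ x = pr ρ₀ y)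
    (h2 : ∀ v, x.1.2 v = y.1.2 v) : x = y := by
  apply Subtype.ext
  refine Prod.ext h1 ?_
  exact LinearEquiv.ext h2

theorem ker_comm {ρ₀ : Representation k N V} (hmf : EndComm ρ₀) (a : E ρ₀) (ha : a ∈ (pr ρ₀).ker)
    (b : E ρ₀) (hb : b ∈ (pr ρ₀).ker) : a * b = b * a := by
  refine ext_E ?_ (fun v => ?_)
  · rw [map_mul, map_mul, MonoidHom.mem_ker.1 ha, MonoidHom.mem_ker.1 hb]
  · exact LinearMap.congr_fun (hmf _ _ (ker_pr ha) (ker_pr hb)) v

/-- the kernel is uniquely divisible by the characteristic exponent -/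
theorem ker_pow_bij {ρ₀ : Representation k N V} (hss : ρ₀.IsSemisimpleRepresentation)
    (hmf : EndComm ρ₀) (p : ℕ) [ExpChar k p] :
    Function.Bijective fun a : (pr ρ₀).ker => a ^ p := by
  have hp : 0 < p := expChar_pos k p
  have hpow : ∀ (x : E ρ₀) (m : ℕ), ((x ^ m).1.2.toLinearMap : V →ₗ[k] V) =
      (x.1.2.toLinearMap : V →ₗ[k] V) ^ m := by
    intro x m
    induction m with
    | zero => rfl
    | succ m ih =>
      rw [pow_succ, pow_succ, ← ih]
      rfl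
  constructor
  · intro a b h
    have h1 : (a : E ρ₀) ^ p = (b : E ρ₀) ^ p := congrArg Subtype.val h
    have h2 : (a.1.1.2.toLinearMap : V →ₗ[k] V) ^ p = (b.1.1.2.toLinearMap : V →ₗ[k] V) ^ p := by
      rw [← hpow, ← hpow, h1]
    have h3 := root_unique hss hmf p _ _ (ker_pr a.2) (ker_pr b.2) h2
    apply Subtype.ext
    refine ext_E ?_ (fun v => LinearMap.congr_fun h3 v)
    rw [MonoidHom.mem_ker.1 a.2, MonoidHom.mem_ker.1 b.2]
  · intro a
    obtain ⟨b, hb, hbp⟩ := exists_root hss hmf hp (a.1.1.2.toLinearMap : V →ₗ[k] V) (ker_pr a.2)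
    have hinj : Function.Injective b := by
      rw [← LinearMap.ker_eq_bot, LinearMap.ker_eq_bot']
      intro v hv
      have h1 : (b ^ p) v = 0 := by
        obtain ⟨m, rfl⟩ : ∃ m, p = m + 1 := ⟨p - 1, by omega⟩
        rw [pow_succ, Module.End.mul_apply, hv, map_zero]
      rw [hbp] at h1
      exact a.1.1.2.map_eq_zero_iff.1 h1
    let B : V ≃ₗ[k] V := LinearEquiv.ofInjectiveEndo b hinj
    have hB : ∀ v, B v = b v := fun v => rfl
    have hmem : ((1 : Γ), B) ∈ E ρ₀ := by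
      intro ν v
      change B (ρ₀ ν v) = ρ₀ ⟨1 * ν * 1⁻¹, _⟩ (B v)
      have h2 : (⟨1 * (ν : Γ) * 1⁻¹, ‹N.Normal›.conj_mem ν ν.2 1⟩ : N) = ν := by
        apply Subtype.ext
        change 1 * (ν : Γ) * 1⁻¹ = ν
        rw [one_mul, inv_one, mul_one]
      rw [h2, hB, hB]
      exact LinearMap.congr_fun (hb ν) v
    refine ⟨⟨⟨_, hmem⟩, MonoidHom.mem_ker.2 rfl⟩, Subtype.ext ?_⟩
    refine ext_E ?_ (fun v => ?_)
    · change pr ρ₀ ((⟨_, hmem⟩ : E ρ₀) ^ p) = pr ρ₀ a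
      rw [map_pow, MonoidHom.mem_ker.1 a.2]
      change (1 : Γ) ^ p = 1
      exact one_pow p
    · have h3 := hpow ⟨_, hmem⟩ p
      have h4 : (B.toLinearMap : V →ₗ[k] V) = b := LinearMap.ext hB
      have h5 := LinearMap.congr_fun h3 v
      refine h5.trans ?_
      change ((B.toLinearMap : V →ₗ[k] V) ^ p) v = a.1.1.2 v
      rw [h4, hbp]
      rfl

/-- the section given by a representation -/
noncomputable def upH {ρ₀ : Representation k N V} {U : Subgroup Γ} (hU : N ≤ U)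
    (ρ : Representation k U V) (hρ : ∀ ν : N, ρ ⟨ν, hU ν.2⟩ = ρ₀ ν) : U →* E ρ₀ :=
  MonoidHom.mk' (up hU ρ hρ) (fun x y => ext_E rfl (fun v => by
    change ρ (x * y) v = ρ x (ρ y v)
    rw [map_mul]
    rfl))

theorem pr_upH {ρ₀ : Representation k N V} {U : Subgroup Γ} (hU : N ≤ U)
    (ρ : Representation k U V) (hρ : ∀ ν : N, ρ ⟨ν, hU ν.2⟩ = ρ₀ ν) (g : U) :
    pr ρ₀ (upH hU ρ hρ g) = g := rfl

theorem upH_apply {ρ₀ : Representation k N V} {U : Subgroup Γ} (hU : N ≤ U)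
    (ρ : Representation k U V) (hρ : ∀ ν : N, ρ ⟨ν, hU ν.2⟩ = ρ₀ ν) (g : U) (v : V) :
    (upH hU ρ hρ g).1.2 v = ρ g v := rfl

variable {ι : Type} {U : ι → Subgroup Γ} (hU : ∀ i, N ≤ U i)

theorem expChar_cases (p : ℕ) [h : ExpChar k p] : p = 1 ∨ p.Prime := by
  rcases h with _ | hp
  · left; rfl
  · right; exact hp

/-- the representations are compatible: conjugate ones are isomorphic on the intersections -/
def Compat (ρ : ∀ i, Representation k (U i) V) : Prop :=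
  ∀ i j (g : Γ), ∃ B : V ≃ₗ[k] V, ∀ (u : U i) (h : g * u * g⁻¹ ∈ U j) (v : V),
    B (ρ i u v) = ρ j ⟨g * u * g⁻¹, h⟩ (B v)

/-- **Descent.** Compatible representations of subgroups of finite index, semisimple and
multiplicity free on `N`, have a common extension if every prime number different from the
characteristic is prime to one of the indices. -/
theorem glue_mf [Nonempty ι] [∀ i, (U i).FiniteIndex] (p : ℕ) [ExpChar k p]
    (hind : ∀ q : ℕ, q.Prime → q ≠ p → ∃ i, ¬ q ∣ (U i).index)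
    (ρ : ∀ i, Representation k (U i) V)
    (hss : ∀ i, (rs (hU i) (ρ i)).IsSemisimpleRepresentation)
    (hmf : ∀ i, EndComm (rs (hU i) (ρ i))) (hcompat : Compat ρ) :
    ∃ R : Representation k Γ V, ∀ i,
      Nonempty (Representation.Equiv (R.comp (U i).subtype : Representation k (U i) V) (ρ i)) := by
  classical
  obtain ⟨i₀⟩ := ‹Nonempty ι›
  haveI : Nonempty ι := ⟨i₀⟩
  let ρ₀ : Representation k N V := rs (hU i₀) (ρ i₀)
  have he : ∀ i, ∃ e : V ≃ₗ[k] V, ∀ ν : N, tp (ρ i) e ⟨ν, hU i ν.2⟩ = ρ₀ ν := by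
    intro i
    obtain ⟨B, hB⟩ := hcompat i i₀ 1
    refine ⟨B, fun ν => LinearMap.ext fun v => ?_⟩
    change B (ρ i ⟨ν, hU i ν.2⟩ (B.symm v)) = ρ₀ ν v
    have h1 : (1 : Γ) * ((⟨ν, hU i ν.2⟩ : U i) : Γ) * 1⁻¹ ∈ U i₀ := by
      rw [one_mul, inv_one, mul_one]
      exact hU i₀ ν.2
    rw [hB _ h1, LinearEquiv.apply_symm_apply]
    change ρ i₀ _ v = ρ i₀ _ v
    congr 2
    apply Subtype.ext
    change (1 : Γ) * (ν : Γ) * 1⁻¹ = ν
    rw [one_mul, inv_one, mul_one]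
  choose e he using he
  let ρ' : ∀ i, Representation k (U i) V := fun i => tp (ρ i) (e i)
  have hρ' : ∀ i (u : U i) (v : V), ρ' i u v = e i (ρ i u ((e i).symm v)) := fun i u v => rfl
  have hst : ∀ i j (g : Γ), ∃ x : E ρ₀, pr ρ₀ x = g ∧ ∀ (u : U i) (h : g * u * g⁻¹ ∈ U j),
      upH (hU j) (ρ' j) (he j) ⟨g * u * g⁻¹, h⟩ = x * upH (hU i) (ρ' i) (he i) u * x⁻¹ := by
    intro i j g
    obtain ⟨B, hB⟩ := hcompat i j g
    let C : V ≃ₗ[k] V := (e i).symm.trans (B.trans (e j))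
    have hC : ∀ (u : U i) (h : g * u * g⁻¹ ∈ U j) (v : V),
        C (ρ' i u v) = ρ' j ⟨g * u * g⁻¹, h⟩ (C v) := by
      intro u h v
      change e j (B ((e i).symm (e i (ρ i u ((e i).symm v))))) =
        e j (ρ j _ ((e j).symm (e j (B ((e i).symm v)))))
      rw [LinearEquiv.symm_apply_apply, LinearEquiv.symm_apply_apply, hB u h]
    have hmem : (g, C) ∈ E ρ₀ := by
      intro ν v
      have h1 : g * ((⟨ν, hU i ν.2⟩ : U i) : Γ) * g⁻¹ ∈ U j := hU j (‹N.Normal›.conj_mem ν ν.2 g)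
      have h2 := hC ⟨ν, hU i ν.2⟩ h1 v
      have h3 : ρ' i ⟨ν, hU i ν.2⟩ = ρ₀ ν := he i ν
      have h4 : ρ' j ⟨g * ((⟨ν, hU i ν.2⟩ : U i) : Γ) * g⁻¹, h1⟩ =
          ρ₀ ⟨g * ν * g⁻¹, ‹N.Normal›.conj_mem ν ν.2 g⟩ :=
        he j ⟨g * ν * g⁻¹, ‹N.Normal›.conj_mem ν ν.2 g⟩
      rw [h3, h4] at h2
      exact h2
    refine ⟨⟨_, hmem⟩, rfl, fun u h => ?_⟩
    rw [eq_mul_inv_iff_mul_eq]
    refine ext_E ?_ (fun v => ?_)
    · change g * (u : Γ) * g⁻¹ * g = g * u
      group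
    · exact (hC u h v).symm
  obtain ⟨S, hS, hSj⟩ := glue_sec (pr ρ₀) (fun a ha b hb => ker_comm (hmf i₀) a ha b hb)
    (fun i => upH (hU i) (ρ' i) (he i)) (fun i u => rfl) hst p (ker_pow_bij (hss i₀) (hmf i₀) p)
    (expChar_cases (k := k) p) hind
  let R : Representation k Γ V :=
    { toFun := fun g => (S g).1.2.toLinearMap
      map_one' := by rw [map_one]; rfl
      map_mul' := fun g h => by rw [map_mul]; rfl }
  refine ⟨R, fun j => ?_⟩
  obtain ⟨a, ha, haj⟩ := hSj j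
  refine ⟨(Representation.Equiv.mk (a.1.2.symm.trans (e j).symm) (fun u => ?_))⟩
  refine LinearMap.ext fun v => ?_
  change (e j).symm (a.1.2.symm ((S (u : Γ)).1.2 v)) = ρ j u ((e j).symm (a.1.2.symm v))
  have h1 := haj u
  have h2 : a⁻¹ * S (u : Γ) = upH (hU j) (ρ' j) (he j) u * a⁻¹ := by
    rw [h1]
    group
  have h3 : a.1.2.symm ((S (u : Γ)).1.2 v) = ρ' j u (a.1.2.symm v) :=
    LinearEquiv.congr_fun (congrArg (fun x : E ρ₀ => x.1.2) h2) v
  rw [h3, hρ', LinearEquiv.symm_apply_apply]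

include hU in
/-- **uniqueness** -/
theorem mf_unique [Nonempty ι] [∀ i, (U i).FiniteIndex] (p : ℕ) [ExpChar k p]
    (hind : ∀ q : ℕ, q.Prime → q ≠ p → ∃ i, ¬ q ∣ (U i).index)
    (R R' : Representation k Γ V) (hss : (rN N R).IsSemisimpleRepresentation)
    (hmf : EndComm (rN N R))
    (h : ∀ i, Nonempty (Representation.Equiv (R'.comp (U i).subtype : Representation k (U i) V)
      (R.comp (U i).subtype : Representation k (U i) V))) :
    Nonempty (Representation.Equiv R' R) := by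
  classical
  obtain ⟨i₀⟩ := ‹Nonempty ι›
  haveI : Nonempty ι := ⟨i₀⟩
  let ρ₀ : Representation k N V := rN N R
  obtain ⟨e₀⟩ := h i₀
  let T : Representation k Γ V := tp R' e₀.toLinearEquiv
  have hT : ∀ g v, T g v = e₀.toLinearEquiv (R' g (e₀.toLinearEquiv.symm v)) := fun g v => rfl
  have hTN : ∀ ν : N, T ν = ρ₀ ν := by
    intro ν
    refine LinearMap.ext fun v => ?_
    rw [hT]
    have h1 := LinearMap.congr_fun (e₀.toIntertwiningMap.isIntertwining' ⟨ν, hU i₀ ν.2⟩)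
      (e₀.toLinearEquiv.symm v)
    change e₀.toLinearEquiv (R' ν (e₀.toLinearEquiv.symm v)) =
      R ν (e₀.toLinearEquiv (e₀.toLinearEquiv.symm v)) at h1
    rw [h1, LinearEquiv.apply_symm_apply]
    rfl
  have hmem : ∀ (X : Representation k Γ V) (hX : ∀ ν : N, X ν = ρ₀ ν) (g : Γ),
      ((g, inv' X g) : Γ × (V ≃ₗ[k] V)) ∈ E ρ₀ := by
    intro X hX g ν v
    change X g (ρ₀ ν v) = ρ₀ _ (X g v)
    rw [← hX, ← hX, ← Module.End.mul_apply, ← Module.End.mul_apply, ← map_mul, ← map_mul]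
    congr 2
    change g * ν = g * ν * g⁻¹ * g
    group
  let s : ∀ (X : Representation k Γ V), (∀ ν : N, X ν = ρ₀ ν) → Γ →* E ρ₀ := fun X hX =>
    MonoidHom.mk' (fun g => ⟨_, hmem X hX g⟩) (fun x y => ext_E rfl (fun v => by
      change X (x * y) v = X x (X y v)
      rw [map_mul]
      rfl))
  obtain ⟨a, ha, hag⟩ := sec_unique (pr ρ₀) (fun a ha b hb => ker_comm hmf a ha b hb) p
    (ker_pow_bij hss hmf p) (expChar_cases (k := k) p) hind (s R fun _ => rfl) (s T hTN)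
    (fun g => rfl) (fun g => rfl) (fun j => by
      obtain ⟨e⟩ := h j
      let B : V ≃ₗ[k] V := e.toLinearEquiv.symm.trans e₀.toLinearEquiv
      have hB : ∀ (u : U j) v, B (R u v) = T u (B v) := by
        intro u v
        have h1 := LinearMap.congr_fun (e.toIntertwiningMap.isIntertwining' u)
          (e.toLinearEquiv.symm v)
        change e.toLinearEquiv (R' u (e.toLinearEquiv.symm v)) =
          R u (e.toLinearEquiv (e.toLinearEquiv.symm v)) at h1
        rw [LinearEquiv.apply_symm_apply] at h1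
        change e₀.toLinearEquiv (e.toLinearEquiv.symm (R u v)) =
          e₀.toLinearEquiv (R' u (e₀.toLinearEquiv.symm (e₀.toLinearEquiv
            (e.toLinearEquiv.symm v))))
        rw [LinearEquiv.symm_apply_apply, ← h1, LinearEquiv.symm_apply_apply]
      have hBm : ((1 : Γ), B) ∈ E ρ₀ := by
        intro ν v
        change B (ρ₀ ν v) = ρ₀ ⟨1 * ν * 1⁻¹, _⟩ (B v)
        have h2 : (⟨1 * (ν : Γ) * 1⁻¹, ‹N.Normal›.conj_mem ν ν.2 1⟩ : N) = ν := by
          apply Subtype.ext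
          change 1 * (ν : Γ) * 1⁻¹ = ν
          rw [one_mul, inv_one, mul_one]
        rw [h2]
        exact (hB ⟨ν, hU j ν.2⟩ v).trans (LinearMap.congr_fun (hTN ν) (B v))
      refine ⟨⟨_, hBm⟩, MonoidHom.mem_ker.2 rfl, fun u => ?_⟩
      rw [eq_mul_inv_iff_mul_eq]
      refine ext_E ?_ (fun v => ?_)
      · change (u : Γ) * 1 = 1 * u
        rw [mul_one, one_mul]
      · exact (hB u v).symm)
  refine ⟨(Representation.Equiv.mk (e₀.toLinearEquiv.trans a.1.2.symm) (fun g => ?_))⟩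
  refine LinearMap.ext fun v => ?_
  change a.1.2.symm (e₀.toLinearEquiv (R' g v)) = R g (a.1.2.symm (e₀.toLinearEquiv v))
  have h1 := hag g
  have h2 : a⁻¹ * s T hTN g = s R (fun _ => rfl) g * a⁻¹ := by
    rw [h1]
    group
  have h3 : a.1.2.symm (T g (e₀.toLinearEquiv v)) = R g (a.1.2.symm (e₀.toLinearEquiv v)) :=
    LinearEquiv.congr_fun (congrArg (fun x : E ρ₀ => x.1.2) h2) (e₀.toLinearEquiv v)
  rw [← h3, hT, LinearEquiv.symm_apply_apply]

end Pool.Agent.Q227.CD
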