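import Pool.Agent.W401.Cheb.Frob
import Pool.Agent.Q15.GRNT
import Pool.Agent.Q227.CD.Orb

/-!
# Inertia and Frobenius elements in the absolute Galois group of a number field
-/

set_option autoImplicit false
set_option linter.unusedSectionVars false

namespace Pool.Agent.Q227.CD

open NumberField IsDedekindDomain Pool.Agent.W401.Cheb Pool.Agent.W401.Frob MulAction

variable {K : Type} [Field K] [NumberField K]

/-- `σ` acts on the residue field of a prime above `v` of the ring of all algebraic integers as the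
`f`-th power of the Frobenius automorphism over the residue field of `v` -/
def IsFrobPow (v : HeightOneSpectrum (𝓞 K)) (f : ℕ) (σ : GK K) : Prop :=
  ∃ Q : Ideal (𝓞 (AlgebraicClosure K)), Q.IsMaximal ∧
    Q.comap (algebraMap (𝓞 K) (𝓞 (AlgebraicClosure K))) = v.asIdeal ∧
    ∀ x : 𝓞 (AlgebraicClosure K), σ • x - x ^ (Ideal.absNorm v.asIdeal) ^ f ∈ Q

theorem isFrobPow_one {v : HeightOneSpectrum (𝓞 K)} {σ : GK K} : IsFrobPow v 1 σ ↔ IsFrob v σ := by
  unfold IsFrobPow IsFrob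
  simp only [pow_one]

theorem isInert_one (v : HeightOneSpectrum (𝓞 K)) (σ : GK K) (h : IsFrobPow v 0 σ) :
    IsInert v σ := by
  unfold IsFrobPow at h
  unfold IsInert
  simpa only [pow_zero, pow_one] using h

/-- `Q` is a prime above `v` -/
def Over (v : HeightOneSpectrum (𝓞 K)) (Q : Ideal (𝓞 (AlgebraicClosure K))) : Prop :=
  Q.IsMaximal ∧ Q.comap (algebraMap (𝓞 K) (𝓞 (AlgebraicClosure K))) = v.asIdeal

theorem over_tr {v : HeightOneSpectrum (𝓞 K)} {Q : Ideal (𝓞 (AlgebraicClosure K))} (h : Over v Q)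
    (ρ : GK K) : Over v (tr ρ Q) := ⟨tr_max ρ Q h.1, (tr_comap ρ Q).trans h.2⟩

theorem over_trans {v : HeightOneSpectrum (𝓞 K)} {Q Q' : Ideal (𝓞 (AlgebraicClosure K))}
    (h : Over v Q) (h' : Over v Q') : ∃ ρ : GK K, Q' = tr ρ Q := by
  classical
  have : SMulCommClass (GK K) (𝓞 K) (𝓞 (AlgebraicClosure K)) := smulComm
  have : Algebra.IsInvariant (𝓞 K) (𝓞 (AlgebraicClosure K)) (GK K) := isInv
  let _ : TopologicalSpace (𝓞 (AlgebraicClosure K)) := ⊥
  have : DiscreteTopology (𝓞 (AlgebraicClosure K)) := ⟨rfl⟩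
  have : ContinuousSMul (GK K) (𝓞 (AlgebraicClosure K)) := by
    rw [continuousSMul_iff_stabilizer_isOpen]
    intro x
    have h1 := stabilizer_isOpen_of_isIntegral (K := K) (x : AlgebraicClosure K)
    have h2 : ((stabilizer (GK K) x : Subgroup (GK K)) : Set (GK K)) =
        (stabilizer (GK K) (x : AlgebraicClosure K) : Subgroup (GK K)) := by
      ext g
      constructor
      · intro h
        have h3 : g • x = x := h
        have h4 : g • (x : AlgebraicClosure K) = x :=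
          congrArg (fun z : (𝓞 (AlgebraicClosure K)) => (z : AlgebraicClosure K)) h3
        exact h4
      · intro h
        have h3 : g • (x : AlgebraicClosure K) = x := h
        have h4 : g • x = x := RingOfIntegers.ext h3
        exact h4
    rw [h2]
    exact h1
  haveI := h.1
  haveI := h'.1
  obtain ⟨ρ, hρ⟩ := Algebra.IsInvariant.exists_smul_of_under_eq_of_profinite (A := 𝓞 K)
    (G := GK K) Q Q' (h.2.trans h'.2.symm)
  refine ⟨ρ, ?_⟩
  rw [hρ]
  ext x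
  rw [mem_tr]
  exact Ideal.mem_pointwise_smul_iff_inv_smul_mem

/-- there is a Frobenius element at every prime above `v` -/
theorem exists_frob_at {v : HeightOneSpectrum (𝓞 K)} {Q : Ideal (𝓞 (AlgebraicClosure K))}
    (h : Over v Q) : ∃ σ : GK K, ∀ x : 𝓞 (AlgebraicClosure K),
      σ • x - x ^ Ideal.absNorm v.asIdeal ∈ Q := by
  obtain ⟨σ, Q', h1, h2, h3⟩ := exists_frob v
  obtain ⟨ρ, hρ⟩ := over_trans (Q := Q') (Q' := Q) ⟨h1, h2⟩ h
  refine ⟨ρ * σ * ρ⁻¹, fun x => ?_⟩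
  rw [hρ]
  exact frob_conj v σ ρ Q' h3 x

/-- the inertia group of a prime ideal -/
def iner (Q : Ideal (𝓞 (AlgebraicClosure K))) : Subgroup (GK K) where
  carrier := {σ | ∀ x : 𝓞 (AlgebraicClosure K), σ • x - x ∈ Q}
  one_mem' := fun x => by
    rw [one_smul, sub_self]
    exact Q.zero_mem
  mul_mem' := by
    intro a b ha hb x
    have h1 := ha (b • x)
    have h2 := hb x
    have h3 : (a * b) • x - x = (a • b • x - b • x) + (b • x - x) := by
      rw [mul_smul]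
      ring
    rw [h3]
    exact Q.add_mem h1 h2
  inv_mem' := by
    intro a ha x
    have h1 := ha (a⁻¹ • x)
    rw [smul_inv_smul] at h1
    have h2 := Q.neg_mem h1
    rwa [neg_sub] at h2

theorem mem_iner {Q : Ideal (𝓞 (AlgebraicClosure K))} {σ : GK K} :
    σ ∈ iner Q ↔ ∀ x : 𝓞 (AlgebraicClosure K), σ • x - x ∈ Q := Iff.rfl

theorem isInert_iff {v : HeightOneSpectrum (𝓞 K)} {σ : GK K} :
    IsInert v σ ↔ ∃ Q, Over v Q ∧ σ ∈ iner Q := by
  constructor
  · rintro ⟨Q, h1, h2, h3⟩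
    exact ⟨Q, ⟨h1, h2⟩, h3⟩
  · rintro ⟨Q, ⟨h1, h2⟩, h3⟩
    exact ⟨Q, h1, h2, h3⟩

/-- powers of Frobenius, conjugation -/
theorem isFrobPow_conj {v : HeightOneSpectrum (𝓞 K)} {f : ℕ} {σ : GK K} (h : IsFrobPow v f σ)
    (ρ : GK K) : IsFrobPow v f (ρ * σ * ρ⁻¹) := by
  obtain ⟨Q, h1, h2, h3⟩ := h
  refine ⟨tr ρ Q, tr_max ρ Q h1, (tr_comap ρ Q).trans h2, fun x => ?_⟩
  rw [mem_tr, smul_sub, smul_pow', smul_smul]
  have h4 := h3 (ρ⁻¹ • x)
  rw [smul_smul] at h4
  have h5 : ρ⁻¹ * (ρ * σ * ρ⁻¹) = σ * ρ⁻¹ := by group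
  rw [h5]
  exact h4

theorem isInert_conj {v : HeightOneSpectrum (𝓞 K)} {σ : GK K} (h : IsInert v σ)
    (ρ : GK K) : IsInert v (ρ * σ * ρ⁻¹) := by
  apply isInert_one
  apply isFrobPow_conj
  obtain ⟨Q, h1, h2, h3⟩ := h
  refine ⟨Q, h1, h2, fun x => ?_⟩
  rw [pow_zero, pow_one]
  exact h3 x

section frob

variable {v : HeightOneSpectrum (𝓞 K)} {Q : Ideal (𝓞 (AlgebraicClosure K))} (hQ : Over v Q)
  {σ : GK K} (hσ : ∀ x : 𝓞 (AlgebraicClosure K), σ • x - x ^ Ideal.absNorm v.asIdeal ∈ Q)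

include hQ hσ

theorem smul_mem_iff (x : 𝓞 (AlgebraicClosure K)) : σ • x ∈ Q ↔ x ∈ Q := by
  constructor
  · intro h
    have h1 := Q.sub_mem h (hσ x)
    rw [sub_sub_cancel] at h1
    exact hQ.1.isPrime.mem_of_pow_mem _ h1
  · intro h
    have h0 : Ideal.absNorm v.asIdeal ≠ 0 := by
      rw [Ne, Ideal.absNorm_eq_zero_iff]
      exact v.ne_bot
    have h1 := Q.add_mem (hσ x) (Q.pow_mem_of_mem h _ (Nat.pos_of_ne_zero h0))
    rwa [sub_add_cancel] at h1

/-- Frobenius elements normalize the inertia group -/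
theorem frob_normalizes : σ ∈ Subgroup.normalizer (iner Q : Set (GK K)) := by
  rw [Subgroup.mem_set_normalizer_iff]
  intro τ
  change τ ∈ iner Q ↔ σ * τ * σ⁻¹ ∈ iner Q
  constructor
  · intro h x
    have h1 := h (σ⁻¹ • x)
    have h2 := (smul_mem_iff hQ hσ _).2 h1
    rw [smul_sub, smul_inv_smul] at h2
    rw [mul_smul, mul_smul]
    exact h2
  · intro h x
    have h1 := h (σ • x)
    rw [mul_smul, mul_smul, inv_smul_smul, ← smul_sub] at h1
    exact (smul_mem_iff hQ hσ _).1 h1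

theorem zpow_conj_iner (a : ℤ) {τ : GK K} (h : τ ∈ iner Q) : (σ ^ a)⁻¹ * τ * σ ^ a ∈ iner Q := by
  have h1 := Subgroup.zpow_mem _ (frob_normalizes hQ hσ) (-a)
  rw [Subgroup.mem_set_normalizer_iff] at h1
  have h2 := (h1 τ).1 h
  rw [zpow_neg, inv_inv] at h2
  exact h2

theorem frob_pow (f : ℕ) (x : 𝓞 (AlgebraicClosure K)) :
    σ ^ f • x - x ^ (Ideal.absNorm v.asIdeal) ^ f ∈ Q := by
  induction f with
  | zero =>
    rw [pow_zero, one_smul, pow_zero, pow_one, sub_self]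
    exact Q.zero_mem
  | succ f ih =>
    rw [pow_succ', mul_smul]
    have h1 := (smul_mem_iff hQ hσ _).2 ih
    rw [smul_sub, smul_pow'] at h1
    have h2 : (σ • x) ^ Ideal.absNorm v.asIdeal ^ f -
        (x ^ Ideal.absNorm v.asIdeal) ^ Ideal.absNorm v.asIdeal ^ f ∈ Q := by
      have h3 : (σ • x) - x ^ Ideal.absNorm v.asIdeal ∣
        (σ • x) ^ Ideal.absNorm v.asIdeal ^ f -
        (x ^ Ideal.absNorm v.asIdeal) ^ Ideal.absNorm v.asIdeal ^ f := sub_dvd_pow_sub_pow _ _ _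
      exact Q.mem_of_dvd h3 (hσ x)
    have h3 := Q.add_mem h1 h2
    rw [sub_add_sub_cancel, ← pow_mul, ← pow_succ'] at h3
    exact h3

theorem isFrobPow_mul (f : ℕ) {ι : GK K} (hι : ι ∈ iner Q) : IsFrobPow v f (σ ^ f * ι) := by
  refine ⟨Q, hQ.1, hQ.2, fun x => ?_⟩
  have h1 := frob_pow hQ hσ f (ι • x)
  have h2 : (ι • x) ^ (Ideal.absNorm v.asIdeal) ^ f - x ^ (Ideal.absNorm v.asIdeal) ^ f ∈ Q :=
    Q.mem_of_dvd (sub_dvd_pow_sub_pow _ _ _) (hι x)
  have h3 := Q.add_mem h1 h2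
  rw [sub_add_sub_cancel] at h3
  rw [mul_smul]
  exact h3

/-- an element which acts as the `f`-th power of Frobenius at `Q` -/
theorem mul_of_frobPow (f : ℕ) {τ : GK K}
    (hτ : ∀ x : 𝓞 (AlgebraicClosure K), τ • x - x ^ (Ideal.absNorm v.asIdeal) ^ f ∈ Q) :
    (σ ^ f)⁻¹ * τ ∈ iner Q := by
  have hpow : ∀ f : ℕ, ∀ x : 𝓞 (AlgebraicClosure K), σ ^ f • x ∈ Q → x ∈ Q := by
    intro f
    induction f with
    | zero =>
      intro x hx
      rwa [pow_zero, one_smul] at hx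
    | succ f ih =>
      intro x hx
      rw [pow_succ', mul_smul, smul_mem_iff hQ hσ] at hx
      exact ih x hx
  intro x
  apply hpow f
  rw [smul_sub, mul_smul, smul_inv_smul]
  have h1 := Q.sub_mem (hτ x) (frob_pow hQ hσ f x)
  rwa [sub_sub_sub_cancel_right] at h1

/-- the pairs `(τ, a)` with `τ` in the coset `σ ^ a` of the inertia group -/
def DG : Subgroup (GK K × Multiplicative ℤ) where
  carrier := {x | (σ ^ (Multiplicative.toAdd x.2))⁻¹ * x.1 ∈ iner Q}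
  one_mem' := by
    change (σ ^ (0 : ℤ))⁻¹ * 1 ∈ iner Q
    rw [zpow_zero, inv_one, one_mul]
    exact (iner Q).one_mem
  mul_mem' := by
    rintro ⟨τ, a⟩ ⟨τ', a'⟩ h h'
    change (σ ^ (Multiplicative.toAdd a + Multiplicative.toAdd a'))⁻¹ * (τ * τ') ∈ iner Q
    have h1 := zpow_conj_iner hQ hσ (Multiplicative.toAdd a') h
    have h2 := (iner Q).mul_mem h1 h'
    have h3 : (σ ^ (Multiplicative.toAdd a + Multiplicative.toAdd a'))⁻¹ * (τ * τ') =
        (σ ^ (Multiplicative.toAdd a'))⁻¹ * ((σ ^ (Multiplicative.toAdd a))⁻¹ * τ) *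
          σ ^ (Multiplicative.toAdd a') * ((σ ^ (Multiplicative.toAdd a'))⁻¹ * τ') := by
      rw [zpow_add]
      group
    rw [h3]
    exact h2
  inv_mem' := by
    rintro ⟨τ, a⟩ h
    change (σ ^ (- Multiplicative.toAdd a))⁻¹ * τ⁻¹ ∈ iner Q
    have h1 := zpow_conj_iner hQ hσ (- Multiplicative.toAdd a) ((iner Q).inv_mem h)
    have h3 : (σ ^ (- Multiplicative.toAdd a))⁻¹ * τ⁻¹ = (σ ^ (-Multiplicative.toAdd a))⁻¹ *
        ((σ ^ (Multiplicative.toAdd a))⁻¹ * τ)⁻¹ * σ ^ (-Multiplicative.toAdd a) := by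
      group
    rw [h3]
    exact h1

/-- **the residue degrees of the places above `v` are coprime** (to a prime number `q` not dividing
the index of `U`; `N` is an open normal subgroup contained in `U`) -/
theorem exists_degree {q : ℕ} (hq : q.Prime) (U N : Subgroup (GK K)) [U.FiniteIndex]
    [N.FiniteIndex] [N.Normal] (hNU : N ≤ U) (hqU : ¬ q ∣ U.index) :
    ∃ (d : ℕ) (τ g : GK K), 0 < d ∧ d ∣ N.index ∧ ¬ q ∣ d ∧ (σ ^ d)⁻¹ * τ ∈ iner Q ∧
      g⁻¹ * τ * g ∈ U := by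
  classical
  let E := DG hQ hσ
  letI act : MulAction E (GK K ⧸ U) :=
    MulAction.compHom _ ((MonoidHom.fst (GK K) (Multiplicative ℤ)).comp E.subtype)
  have hact : ∀ (e : E) (x : GK K ⧸ U), e • x = (e.1.1 : GK K) • x := fun _ _ => rfl
  let φ : E →* Multiplicative (ZMod q) :=
    (AddMonoidHom.toMultiplicative (Int.castAddHom (ZMod q))).comp
      ((MonoidHom.snd (GK K) (Multiplicative ℤ)).comp E.subtype)
  have hφ : ∀ e : E, φ e = Multiplicative.ofAdd ((Multiplicative.toAdd e.1.2 : ℤ) : ZMod q) :=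
    fun _ => rfl
  haveI : NeZero q := ⟨hq.ne_zero⟩
  have hsurj : Function.Surjective φ := by
    intro c
    refine ⟨⟨(σ ^ ((Multiplicative.toAdd c).val : ℤ),
      Multiplicative.ofAdd (((Multiplicative.toAdd c).val : ℕ) : ℤ)), ?_⟩, ?_⟩
    · change (σ ^ (((Multiplicative.toAdd c).val : ℕ) : ℤ))⁻¹ * σ ^ ((Multiplicative.toAdd c).val : ℤ) ∈
        iner Q
      rw [inv_mul_cancel]
      exact (iner Q).one_mem
    · rw [hφ]
      change Multiplicative.ofAdd (((((Multiplicative.toAdd c).val : ℕ) : ℤ)) : ZMod q) = c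
      rw [Int.cast_natCast, ZMod.natCast_zmod_val]
      rfl
  have hindex : φ.ker.index = q := by
    rw [Subgroup.index_ker, MonoidHom.range_eq_top.2 hsurj, Subgroup.card_top]
    exact Nat.card_zmod q
  haveI : Finite (GK K ⧸ U) := Subgroup.finite_quotient_of_finiteIndex
  have hex : ∃ x : GK K ⧸ U, ¬ stabilizer E x ≤ φ.ker := by
    by_contra hne
    have h1 : ∀ x : GK K ⧸ U, stabilizer E x ≤ φ.ker := by
      intro x
      by_contra h2
      exact hne ⟨x, h2⟩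
    have h2 := index_dvd_card φ.ker h1
    rw [hindex] at h2
    exact hqU h2
  obtain ⟨x, hx⟩ := hex
  obtain ⟨g, rfl⟩ := QuotientGroup.mk_surjective x
  rw [SetLike.not_le_iff_exists] at hx
  obtain ⟨e, he, he'⟩ := hx
  let a : ℤ := Multiplicative.toAdd e.1.2
  have hqa : ¬ (q : ℤ) ∣ a := by
    intro h
    apply he'
    rw [MonoidHom.mem_ker, hφ]
    have h1 : ((a : ℤ) : ZMod q) = 0 := (ZMod.intCast_zmod_eq_zero_iff_dvd a q).2 h
    change Multiplicative.ofAdd ((a : ℤ) : ZMod q) = 1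
    rw [h1]
    rfl
  let m : ℕ := N.index
  have hm0 : m ≠ 0 := Subgroup.FiniteIndex.index_ne_zero
  -- the element of degree m
  have hσm : σ ^ m ∈ N := Subgroup.pow_index_mem N σ
  let e' : E := ⟨(σ ^ m, Multiplicative.ofAdd (m : ℤ)), by
    change (σ ^ (m : ℤ))⁻¹ * σ ^ m ∈ iner Q
    rw [zpow_natCast, inv_mul_cancel]
    exact (iner Q).one_mem⟩
  have he'' : e' ∈ stabilizer E (QuotientGroup.mk g : GK K ⧸ U) := by
    rw [mem_stabilizer_iff, hact]
    change (QuotientGroup.mk (σ ^ m * g) : GK K ⧸ U) = QuotientGroup.mk g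
    rw [eq_comm, QuotientGroup.eq]
    have h1 : g⁻¹ * (σ ^ m * g) = g⁻¹ * σ ^ m * g⁻¹⁻¹ := by group
    rw [h1]
    exact hNU (‹N.Normal›.conj_mem _ hσm g⁻¹)
  let d : ℕ := Int.gcd a m
  have hbez : (d : ℤ) = a * Int.gcdA a m + m * Int.gcdB a m := Int.gcd_eq_gcd_ab a m
  let e3 : E := e ^ (Int.gcdA a m) * e' ^ (Int.gcdB a m)
  have he3 : e3 ∈ stabilizer E (QuotientGroup.mk g : GK K ⧸ U) :=
    Subgroup.mul_mem _ (Subgroup.zpow_mem _ he _) (Subgroup.zpow_mem _ he'' _)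
  have hdeg : Multiplicative.toAdd e3.1.2 = d := by
    rw [hbez]
    change Multiplicative.toAdd (e.1.2 ^ (Int.gcdA a m) *
      (Multiplicative.ofAdd (m : ℤ)) ^ (Int.gcdB a m)) = _
    rw [toAdd_mul, toAdd_zpow, toAdd_zpow, toAdd_ofAdd, smul_eq_mul, smul_eq_mul]
    change (Int.gcdA a m) * a + _ = _
    ring
  refine ⟨d, e3.1.1, g, ?_, ?_, ?_, ?_, ?_⟩
  · rw [Int.gcd_pos_iff]
    right
    exact_mod_cast hm0
  · have h1 : (d : ℤ) ∣ (m : ℤ) := Int.gcd_dvd_right _ _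
    exact_mod_cast h1
  · intro h
    apply hqa
    have h1 : (d : ℤ) ∣ a := Int.gcd_dvd_left _ _
    exact (Int.natCast_dvd_natCast.2 h).trans h1
  · have h1 : (σ ^ (Multiplicative.toAdd e3.1.2))⁻¹ * e3.1.1 ∈ iner Q := e3.2
    rw [hdeg, zpow_natCast] at h1
    exact h1
  · have h1 := (mem_stabilizer_iff.1 he3)
    rw [hact] at h1
    change (QuotientGroup.mk (e3.1.1 * g) : GK K ⧸ U) = QuotientGroup.mk g at h1
    rw [eq_comm, QuotientGroup.eq] at h1
    rwa [mul_assoc]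

end frob

end Pool.Agent.Q227.CD
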