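import Pool.Agent.Q227.CD.NT1
import Pool.Agent.Q227.CD.Glue2
import Pool.Agent.Q15.GRIso4

/-!
# Descent of Galois representations along extensions whose degrees are coprime
-/

set_option autoImplicit false
set_option linter.unusedSectionVars false

namespace Pool.Agent.Q227.CD

open NumberField IsDedekindDomain Pool.Agent.W401.Cheb Pool.Agent.W401.Frob MulAction
open Representation Module Pool.Agent.Q15.GR Topology

variable {K : Type} [Field K] [NumberField K]
variable {k : Type} [Field k] [IsAlgClosed k] [TopologicalSpace k] [IsTopologicalRing k]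
  [T2Space k] {n : ℕ}

/-- the representation of the open subgroup `U` (the absolute Galois group of a finite extension
`F` of `K`) is unramified at all places of `F` above places `v` of `K` outside `S`, and its Frobenius
eigenvalues at such a place of residue degree `f` are the `f`-th powers of the elements of `D v` -/
def AttachedOver (U : Subgroup (GK K)) (ρ : Representation k U (Fin n → k))
    (S : Set (HeightOneSpectrum (𝓞 K))) (D : HeightOneSpectrum (𝓞 K) → Multiset k) : Prop :=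
  ∀ v ∉ S, (∀ σ : U, IsInert v (σ : GK K) → ρ σ = 1) ∧ ∀ (f : ℕ) (σ : U), 0 < f →
    IsFrobPow v f (σ : GK K) → (ρ σ⁻¹).charpoly.roots = (D v).map fun x => x ^ f

omit [IsAlgClosed k] [TopologicalSpace k] [IsTopologicalRing k] [T2Space k] in
theorem map_pow_one (M : Multiset k) : (M.map fun x => x ^ 1) = M := by
  simp

variable {ι : Type} {U : ι → Subgroup (GK K)} {S : Set (HeightOneSpectrum (𝓞 K))}
  {D : HeightOneSpectrum (𝓞 K) → Multiset k} {ρ : ∀ i, Representation k (U i) (Fin n → k)}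

theorem char_frob {V : Subgroup (GK K)} {r : Representation k V (Fin n → k)}
    (h : AttachedOver V r S D) {v : HeightOneSpectrum (𝓞 K)} (hv : v ∉ S) (x : V)
    (hx : IsFrob v (x : GK K)⁻¹) : r.character x = (D v).sum := by
  have h1 := (h v hv).2 1 x⁻¹ one_pos (isFrobPow_one.2 hx)
  rw [inv_inv, map_pow_one] at h1
  rw [← h1]
  exact (sum_eig (r x)).symm

/-- **the characters agree on conjugate elements** -/
theorem chars_agree (hS : S.Finite) (hUo : ∀ i, IsOpen (U i : Set (GK K)))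
    (hc : ∀ i, Cts (ρ i)) (hatt : ∀ i, AttachedOver (U i) (ρ i) S D) (i j : ι) (x : U i) (g : GK K)
    (h : g * x * g⁻¹ ∈ U j) : (ρ j).character ⟨g * x * g⁻¹, h⟩ = (ρ i).character x := by
  let W : Set (GK K) := {y | y ∈ U i ∧ g * y * g⁻¹ ∈ U j}
  have hcj : Continuous fun y : GK K => g * y * g⁻¹ :=
    (continuous_const.mul continuous_id).mul continuous_const
  have hW : IsOpen W := (hUo i).inter ((hUo j).preimage hcj)
  let F1 : W → k := fun w => (ρ i).character ⟨w, w.2.1⟩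
  let F2 : W → k := fun w => (ρ j).character ⟨g * w * g⁻¹, w.2.2⟩
  have hF1 : Continuous F1 := (char_cont (hc i)).comp (continuous_subtype_val.subtype_mk _)
  have hF2 : Continuous F2 := (char_cont (hc j)).comp
    ((hcj.comp continuous_subtype_val).subtype_mk _)
  have hcl : IsClosed {w | F2 w = F1 w} := isClosed_eq hF2 hF1
  by_contra hne
  have hmem : (⟨x, x.2, h⟩ : W) ∈ {w | F2 w = F1 w}ᶜ := hne
  have ho : IsOpen (Subtype.val '' ({w | F2 w = F1 w}ᶜ : Set W)) :=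
    hW.isOpenMap_subtype_val _ hcl.isOpen_compl
  have hd := frob_dense S hS
  have ho' : IsOpen ((fun y : GK K => y⁻¹) ⁻¹' (Subtype.val '' ({w | F2 w = F1 w}ᶜ : Set W))) :=
    ho.preimage continuous_inv
  have hne' : ((fun y : GK K => y⁻¹) ⁻¹'
      (Subtype.val '' ({w | F2 w = F1 w}ᶜ : Set W))).Nonempty := by
    refine ⟨(x : GK K)⁻¹, ?_⟩
    rw [Set.mem_preimage, inv_inv]
    exact ⟨_, hmem, rfl⟩
  obtain ⟨σ, hσ1, v, hv, hσ⟩ := hd.inter_open_nonempty _ ho' hne'
  obtain ⟨w, hw, hwσ⟩ := hσ1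
  apply hw
  have hwf : IsFrob v (w : GK K)⁻¹ := by
    rw [hwσ]
    change IsFrob v σ⁻¹⁻¹
    rwa [inv_inv]
  change (ρ j).character ⟨g * w * g⁻¹, w.2.2⟩ = (ρ i).character ⟨w, w.2.1⟩
  rw [char_frob (hatt i) hv _ hwf, char_frob (hatt j) hv]
  change IsFrob v (g * (w : GK K) * g⁻¹)⁻¹
  have h3 : (g * (w : GK K) * g⁻¹)⁻¹ = g * (w : GK K)⁻¹ * g⁻¹ := by group
  rw [h3]
  exact isFrob_conj hwf g

section post

variable {R : Representation k (GK K) (Fin n → k)}
  (hR : ∀ i, Nonempty (Representation.Equiv (R.comp (U i).subtype :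
    Representation k (U i) (Fin n → k)) (ρ i)))

include hR

theorem cts_of_res [Nonempty ι] (hUo : ∀ i, IsOpen (U i : Set (GK K))) (hc : ∀ i, Cts (ρ i)) :
    Cts R := by
  obtain ⟨i⟩ := ‹Nonempty ι›
  obtain ⟨e⟩ := hR i
  intro x
  have h1 : ContinuousOn (fun g => R g x) (U i : Set (GK K)) := by
    rw [continuousOn_iff_continuous_restrict]
    have h2 : ∀ g : U i, R g x = e.toLinearEquiv.symm (ρ i g (e.toLinearEquiv x)) := by
      intro g
      rw [LinearEquiv.eq_symm_apply]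
      exact LinearMap.congr_fun (e.toIntertwiningMap.isIntertwining' g) x
    have h3 : Set.domRestrict (U i : Set (GK K)) (fun g => R g x) =
        fun g : U i => e.toLinearEquiv.symm (ρ i g (e.toLinearEquiv x)) := by
      funext g
      exact h2 g
    rw [h3]
    exact (lin_cont e.toLinearEquiv.symm.toLinearMap).comp (hc i _)
  rw [continuous_iff_continuousAt]
  intro g₀
  have h4 : (fun g => R g x) = fun g => R g₀ (R (g₀⁻¹ * g) x) := by
    funext g
    rw [← Module.End.mul_apply, ← map_mul, mul_inv_cancel_left]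
  rw [h4]
  have h5 : ContinuousAt (fun g => R g x) (g₀⁻¹ * g₀) := by
    rw [inv_mul_cancel]
    exact h1.continuousAt ((hUo i).mem_nhds (U i).one_mem)
  have h6 : ContinuousAt (fun g => R (g₀⁻¹ * g) x) g₀ :=
    ContinuousAt.comp (f := fun g => g₀⁻¹ * g) (g := fun g => R g x) h5
      (continuous_mul_left g₀⁻¹).continuousAt
  exact (lin_cont (R g₀)).continuousAt.comp h6

omit [TopologicalSpace k] [IsTopologicalRing k] [T2Space k] in
theorem one_of_inert (hatt : ∀ i, AttachedOver (U i) (ρ i) S D) {v : HeightOneSpectrum (𝓞 K)}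
    (hv : v ∉ S) {τ g : GK K} {i : ι} (hg : g⁻¹ * τ * g ∈ U i) (hτ : IsInert v τ) : R τ = 1 := by
  obtain ⟨e⟩ := hR i
  have h1 : IsInert v (g⁻¹ * τ * g) := by
    have := isInert_conj hτ g⁻¹
    rwa [inv_inv] at this
  have h2 : ρ i ⟨g⁻¹ * τ * g, hg⟩ = 1 := (hatt i v hv).1 ⟨_, hg⟩ h1
  have h3 : R (g⁻¹ * τ * g) = 1 := by
    ext x : 1
    apply LinearMap.ext
    intro y
    apply e.toLinearEquiv.injective
    have h4 : e.toLinearEquiv (R (g⁻¹ * τ * g) (LinearMap.single k _ x y)) =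
        ρ i ⟨g⁻¹ * τ * g, hg⟩ (e.toLinearEquiv (LinearMap.single k _ x y)) :=
      LinearMap.congr_fun (e.toIntertwiningMap.isIntertwining' ⟨_, hg⟩) _
    rw [h2] at h4
    exact h4
  have h4 : τ = g * (g⁻¹ * τ * g) * g⁻¹ := by group
  rw [h4, map_mul, map_mul, h3, mul_one, ← map_mul, mul_inv_cancel, map_one]

omit [TopologicalSpace k] [IsTopologicalRing k] [T2Space k] in
theorem roots_of_frob (hatt : ∀ i, AttachedOver (U i) (ρ i) S D) {v : HeightOneSpectrum (𝓞 K)}
    (hv : v ∉ S) {τ g : GK K} {i : ι} (hg : g⁻¹ * τ * g ∈ U i) {f : ℕ} (hf : 0 < f)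
    (hτ : IsFrobPow v f τ) : (R τ⁻¹).charpoly.roots = (D v).map fun x => x ^ f := by
  obtain ⟨e⟩ := hR i
  have h1 : IsFrobPow v f (g⁻¹ * τ * g) := by
    have := isFrobPow_conj hτ g⁻¹
    rwa [inv_inv] at this
  have h2 := (hatt i v hv).2 f ⟨g⁻¹ * τ * g, hg⟩ hf h1
  rw [← h2]
  have h3 := eig_equiv e (⟨g⁻¹ * τ * g, hg⟩ : U i)⁻¹
  unfold eig at h3
  rw [h3]
  have h4 : τ⁻¹ = g * (g⁻¹ * τ⁻¹ * g) * g⁻¹ := by group
  have h5 : (g⁻¹ * τ⁻¹ * g) = (g⁻¹ * τ * g)⁻¹ := by group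
  have h6 : R τ⁻¹ = (inv' R g).conj (R (g⁻¹ * τ * g)⁻¹) := by
    rw [h4, h5, map_mul, map_mul]
    rfl
  rw [h6, LinearEquiv.charpoly_conj]
  rfl

omit [TopologicalSpace k] [IsTopologicalRing k] [T2Space k] in
/-- the image of inertia has an order prime to all prime numbers different from `p` -/
theorem inertia_index [∀ i, (U i).FiniteIndex] (hatt : ∀ i, AttachedOver (U i) (ρ i) S D)
    {v : HeightOneSpectrum (𝓞 K)} (hv : v ∉ S) {Q : Ideal (𝓞 (AlgebraicClosure K))}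
    (hQ : Over v Q) (i : ι) : ((MonoidHom.ker R).subgroupOf (iner Q)).index ∣ (U i).index := by
  haveI : Finite (GK K ⧸ U i) := Subgroup.finite_quotient_of_finiteIndex
  refine index_dvd_card (X := GK K ⧸ U i) _ (fun x => ?_)
  obtain ⟨g, rfl⟩ := QuotientGroup.mk_surjective x
  intro τ hτ
  rw [Subgroup.mem_subgroupOf, MonoidHom.mem_ker]
  rw [mem_stabilizer_iff] at hτ
  change (QuotientGroup.mk ((τ : GK K) * g) : GK K ⧸ U i) = QuotientGroup.mk g at hτ
  rw [eq_comm, QuotientGroup.eq] at hτ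
  refine one_of_inert hR hatt hv (i := i) (g := g) ?_ (isInert_iff.2 ⟨Q, hQ, τ.2⟩)
  rwa [mul_assoc]

omit [TopologicalSpace k] [IsTopologicalRing k] [T2Space k] in
theorem inertia_one [∀ i, (U i).FiniteIndex] (hatt : ∀ i, AttachedOver (U i) (ρ i) S D)
    (hind : ∀ q : ℕ, q.Prime → ∃ i, ¬ q ∣ (U i).index)
    {v : HeightOneSpectrum (𝓞 K)} (hv : v ∉ S) {τ : GK K} (hτ : IsInert v τ) : R τ = 1 := by
  obtain ⟨Q, hQ, hτ⟩ := isInert_iff.1 hτ
  have h1 : ((MonoidHom.ker R).subgroupOf (iner Q)).index = 1 := by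
    by_contra hne
    obtain ⟨q, hq, hqd⟩ := Nat.exists_prime_and_dvd hne
    obtain ⟨i, hi⟩ := hind q hq
    exact hi (hqd.trans (inertia_index hR hatt hv hQ i))
  rw [Subgroup.index_eq_one] at h1
  have h2 : (⟨τ, hτ⟩ : iner Q) ∈ (MonoidHom.ker R).subgroupOf (iner Q) := by
    rw [h1]
    exact Subgroup.mem_top _
  exact MonoidHom.mem_ker.1 (Subgroup.mem_subgroupOf.1 h2)

omit [TopologicalSpace k] [IsTopologicalRing k] [T2Space k] in
/-- the Frobenius eigenvalues at places with a place of degree one -/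
theorem frob_of_degree_one (hatt : ∀ i, AttachedOver (U i) (ρ i) S D)
    {v : HeightOneSpectrum (𝓞 K)} (hv : v ∉ S) (hin : ∀ τ, IsInert v τ → R τ = 1)
    {i : ι} {σ₀ : GK K} (hσ₀ : IsFrob v σ₀) (hU : σ₀ ∈ U i) {σ : GK K} (hσ : IsFrob v σ) :
    (R σ⁻¹).charpoly.roots = D v := by
  obtain ⟨g, τ, hτ, h⟩ := conj_frob v σ₀ σ hσ₀ hσ
  have h1 : R σ⁻¹ = (inv' R g).conj (R σ₀⁻¹) := by
    have h2 : σ⁻¹ = τ⁻¹ * (g * σ₀⁻¹ * g⁻¹) := by
      rw [h]
      group
    have h3 : R τ⁻¹ = 1 := by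
      have h4 : R τ⁻¹ * R τ = 1 := by rw [← map_mul, inv_mul_cancel, map_one]
      rwa [hin τ hτ, mul_one] at h4
    rw [h2, map_mul, h3, one_mul, map_mul, map_mul]
    rfl
  rw [h1, LinearEquiv.charpoly_conj]
  have h2 := roots_of_frob hR hatt hv (τ := σ₀) (g := 1) (i := i) (by
    rw [inv_one, one_mul, mul_one]
    exact hU) one_pos (isFrobPow_one.2 hσ₀)
  rw [h2, map_pow_one]

omit [IsAlgClosed k] [TopologicalSpace k] [IsTopologicalRing k] [T2Space k] hR in
/-- comparison of two multisets with the same powers -/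
theorem multiset_eq (p : ℕ) [ExpChar k p] (A B : Multiset k) (m : ℕ) (hB0 : (0 : k) ∉ B)
    (hrat : ∀ x ∈ B, ∀ y ∈ B, x ^ m = y ^ m → x = y)
    (h : ∀ q : ℕ, q.Prime → q ≠ p → ∃ d, 0 < d ∧ d ∣ m ∧ ¬ q ∣ d ∧
      (A.map fun x => x ^ d) = B.map fun x => x ^ d) : A = B := by
  classical
  have hcase : p = 1 ∨ p.Prime := by
    rcases ‹ExpChar k p› with _ | hp
    · left; rfl
    · right; exact hp
  have hsub : ∀ a ∈ A, a ∈ B := by
    intro a ha
    have hex : ∃ q : ℕ, q.Prime ∧ q ≠ p := by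
      by_cases h2 : p = 2
      · exact ⟨3, Nat.prime_three, by omega⟩
      · exact ⟨2, Nat.prime_two, fun h => h2 h.symm⟩
    have hb : ∀ d, (A.map fun x => x ^ d) = (B.map fun x => x ^ d) → ∃ b ∈ B, b ^ d = a ^ d := by
      intro d hd
      have h1 : a ^ d ∈ A.map fun x => x ^ d := Multiset.mem_map_of_mem _ ha
      rw [hd, Multiset.mem_map] at h1
      exact h1
    obtain ⟨q₀, hq₀, hq₀p⟩ := hex
    obtain ⟨d₀, hd₀, hd₀m, -, hAB₀⟩ := h q₀ hq₀ hq₀p
    obtain ⟨b, hb, hab⟩ := hb d₀ hAB₀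
    have hb0 : b ≠ 0 := by
      rintro rfl
      exact hB0 hb
    have hpow : ∀ q : ℕ, q.Prime → q ≠ p → ∃ d, 0 < d ∧ ¬ q ∣ d ∧ a ^ d = b ^ d := by
      intro q hq hqp
      obtain ⟨d, hd, hdm, hqd, hAB⟩ := h q hq hqp
      obtain ⟨b', hb', hab'⟩ : ∃ b ∈ B, b ^ d = a ^ d := by
        have h1 : a ^ d ∈ A.map fun x => x ^ d := Multiset.mem_map_of_mem _ ha
        rw [hAB, Multiset.mem_map] at h1
        exact h1
      have h2 : b' ^ m = b ^ m := by
        obtain ⟨c, hc⟩ := hdm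
        obtain ⟨c', hc'⟩ := hd₀m
        have h3 : b' ^ m = a ^ m := by rw [hc, pow_mul, hab', ← pow_mul]
        have h4 : b ^ m = a ^ m := by rw [hc', pow_mul, hab, ← pow_mul]
        rw [h3, h4]
      have h3 : b' = b := hrat b' hb' b hb h2
      exact ⟨d, hd, hqd, by rw [← hab', h3]⟩
    have h1 : ∀ q : ℕ, q.Prime → q ≠ p → ¬ q ∣ orderOf (a / b) := by
      intro q hq hqp hdvd
      obtain ⟨d, hd, hqd, hd'⟩ := hpow q hq hqp
      have h2 : orderOf (a / b) ∣ d := orderOf_dvd_of_pow_eq_one (by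
        rw [div_pow, hd', div_self (pow_ne_zero _ hb0)])
      exact hqd (hdvd.trans h2)
    have h0 : orderOf (a / b) ≠ 0 := by
      obtain ⟨d, hd, -, hd'⟩ := hpow q₀ hq₀ hq₀p
      have h2 : orderOf (a / b) ∣ d := orderOf_dvd_of_pow_eq_one (by
        rw [div_pow, hd', div_self (pow_ne_zero _ hb0)])
      intro h3
      rw [h3, zero_dvd_iff] at h2
      omega
    have h2 : a / b = 1 := by
      rcases hcase with hp1 | hpp
      · rw [← orderOf_eq_one_iff]
        by_contra hne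
        obtain ⟨q, hq, hqd⟩ := Nat.exists_prime_and_dvd hne
        exact h1 q hq (by rw [hp1]; exact hq.one_lt.ne') hqd
      · have h3 : orderOf (a / b) = p ^ (orderOf (a / b)).primeFactorsList.length :=
          Nat.eq_prime_pow_of_unique_prime_dvd h0 (fun {q} hq hqd => by
            by_contra hne
            exact h1 q hq hne hqd)
        have h4 : (a / b) ^ p ^ (orderOf (a / b)).primeFactorsList.length = 1 := by
          rw [← h3]
          exact pow_orderOf_eq_one _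
        apply iterateFrobenius_inj k p (orderOf (a / b)).primeFactorsList.length
        rw [iterateFrobenius_def, iterateFrobenius_def, h4, one_pow]
    rw [div_eq_one_iff_eq hb0] at h2
    rw [h2]
    exact hb
  -- multiplicities
  obtain ⟨q₀, hq₀, hq₀p⟩ : ∃ q : ℕ, q.Prime ∧ q ≠ p := by
    by_cases h2 : p = 2
    · exact ⟨3, Nat.prime_three, by omega⟩
    · exact ⟨2, Nat.prime_two, fun h => h2 h.symm⟩
  obtain ⟨d, hd, hdm, -, hAB⟩ := h q₀ hq₀ hq₀p
  have hinj : Set.InjOn (fun x : k => x ^ d) {x | x ∈ B} := by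
    intro x hx y hy hxy
    obtain ⟨c, hc⟩ := hdm
    refine hrat x hx y hy ?_
    change x ^ d = y ^ d at hxy
    rw [hc, pow_mul, pow_mul, hxy]
  have hl := hinj.leftInvOn_invFunOn
  have h3 : ∀ C : Multiset k, (∀ a ∈ C, a ∈ B) →
      (C.map fun x => x ^ d).map (Function.invFunOn (fun x : k => x ^ d) {x | x ∈ B}) = C := by
    intro C hC
    rw [Multiset.map_map]
    conv_rhs => rw [← Multiset.map_id C]
    refine Multiset.map_congr rfl fun x hx => ?_
    exact hl (hC x hx)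
  rw [← h3 A hsub, hAB, h3 B fun _ h => h]

omit [TopologicalSpace k] [IsTopologicalRing k] [T2Space k] in
/-- the Frobenius eigenvalues at places where no two eigenvalues differ by a root of unity -/
theorem frob_of_ratios (p : ℕ) [ExpChar k p] [∀ i, (U i).FiniteIndex] {N : Subgroup (GK K)}
    [N.Normal] [N.FiniteIndex] (hNU : ∀ i, N ≤ U i)
    (hatt : ∀ i, AttachedOver (U i) (ρ i) S D)
    (hind : ∀ q : ℕ, q.Prime → q ≠ p → ∃ i, ¬ q ∣ (U i).index)
    {v : HeightOneSpectrum (𝓞 K)} (hv : v ∉ S) (hin : ∀ τ, IsInert v τ → R τ = 1)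
    {σ : GK K} (hσ : IsFrob v σ)
    (hrat : ∀ x ∈ (R σ⁻¹).charpoly.roots, ∀ y ∈ (R σ⁻¹).charpoly.roots,
      x ^ N.index = y ^ N.index → x = y) :
    (R σ⁻¹).charpoly.roots = D v := by
  obtain ⟨Q, hQ1, hQ2, hσQ⟩ := hσ
  have hQ : Over v Q := ⟨hQ1, hQ2⟩
  symm
  refine multiset_eq p _ _ N.index ?_ hrat (fun q hq hqp => ?_)
  · have := eig_rep_ne R σ⁻¹
    exact this
  obtain ⟨i, hi⟩ := hind q hq hqp
  obtain ⟨d, τ, g, hd, hdm, hqd, hτ, hg⟩ := exists_degree hQ hσQ hq (U i) N (hNU i) hi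
  refine ⟨d, hd, hdm, hqd, ?_⟩
  have h1 : τ = σ ^ d * ((σ ^ d)⁻¹ * τ) := by group
  have h2 : IsFrobPow v d τ := by
    rw [h1]
    exact isFrobPow_mul hQ hσQ d hτ
  have h3 := roots_of_frob hR hatt hv hg hd h2
  rw [← h3, ← roots_pow]
  congr 2
  have h4 : R ((σ ^ d)⁻¹ * τ)⁻¹ = 1 := by
    have h5 := hin _ (isInert_iff.2 ⟨Q, hQ, hτ⟩)
    have h6 : R ((σ ^ d)⁻¹ * τ)⁻¹ * R ((σ ^ d)⁻¹ * τ) = 1 := by
      rw [← map_mul, inv_mul_cancel, map_one]
    rwa [h5, mul_one] at h6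
  have h5 : τ⁻¹ = ((σ ^ d)⁻¹ * τ)⁻¹ * (σ⁻¹) ^ d := by group
  rw [h5, map_mul, h4, one_mul, map_pow]

end post

end Pool.Agent.Q227.CD
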