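import Pool.Agent.Q227.CD.NT2
import Pool.Agent.Q227.CD.GT
import Pool.Agent.Q227.CD.Ram

/-!
# Existence of Galois representations: coprime degrees, and all proper subextensions
-/

set_option autoImplicit false
set_option linter.unusedSectionVars false

namespace Pool.Agent.Q227.CD

open NumberField IsDedekindDomain Pool.Agent.W401.Cheb Pool.Agent.W401.Frob MulAction
open Representation Module Pool.Agent.Q15.GR Topology

variable {K : Type} [Field K] [NumberField K]
variable {k : Type} [Field k] [IsAlgClosed k] [TopologicalSpace k] [IsTopologicalRing k]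
  [T2Space k] {n : ℕ}

theorem open_of_ge {N U : Subgroup (GK K)} (hN : IsOpen (N : Set (GK K))) (h : N ≤ U) :
    IsOpen (U : Set (GK K)) := Subgroup.isOpen_mono h hN

theorem finiteIndex_of_open {U : Subgroup (GK K)} (hU : IsOpen (U : Set (GK K))) :
    U.FiniteIndex := by
  haveI : Finite (GK K ⧸ U) := Subgroup.quotient_finite_of_isOpen _ hU
  exact Subgroup.finiteIndex_of_finite_quotient

section

variable {ι : Type} {U : ι → Subgroup (GK K)} {S : Set (HeightOneSpectrum (𝓞 K))}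
  {D : HeightOneSpectrum (𝓞 K) → Multiset k} {ρ : ∀ i, Representation k (U i) (Fin n → k)}
  {N : Subgroup (GK K)} [N.Normal]

omit [TopologicalSpace k] [IsTopologicalRing k] [T2Space k] [NumberField K] in
theorem irr_of_equiv (hNU : ∀ i, N ≤ U i) {i : ι} (hirr : (rs (hNU i) (ρ i)).IsIrreducible)
    {R : Representation k (GK K) (Fin n → k)}
    (e : Representation.Equiv (R.comp (U i).subtype :
      Representation k (U i) (Fin n → k)) (ρ i)) : (rN N R).IsIrreducible := by
  let e' : Representation.Equiv (rN N R) (rs (hNU i) (ρ i)) :=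
    Representation.Equiv.mk e.toLinearEquiv (fun ν =>
      e.toIntertwiningMap.isIntertwining' ⟨ν, hNU i ν.2⟩)
  exact irr_congr e'.symm hirr

/-- **descent along extensions with coprime degrees** -/
theorem main_coprime (p : ℕ) [ExpChar k p] [Nonempty ι] (hS : S.Finite)
    (hN : IsOpen (N : Set (GK K))) (hNU : ∀ i, N ≤ U i)
    (hind : ∀ q : ℕ, q.Prime → q ≠ p → ∃ i, ¬ q ∣ (U i).index)
    (hc : ∀ i, Cts (ρ i)) (hirr : ∀ i, (rs (hNU i) (ρ i)).IsIrreducible)
    (hatt : ∀ i, AttachedOver (U i) (ρ i) S D) :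
    ∃ R : Representation k (GK K) (Fin n → k), Cts R ∧ (rN N R).IsIrreducible ∧
      ∀ i, Nonempty (Representation.Equiv (R.comp (U i).subtype :
        Representation k (U i) (Fin n → k)) (ρ i)) := by
  have hUo : ∀ i, IsOpen (U i : Set (GK K)) := fun i => open_of_ge hN (hNU i)
  haveI : ∀ i, (U i).FiniteIndex := fun i => finiteIndex_of_open (hUo i)
  obtain ⟨R, hR⟩ := descent hNU p hind ρ hirr (chars_agree hS hUo hc hatt)
  obtain ⟨i⟩ := ‹Nonempty ι›
  haveI : Nonempty ι := ⟨i⟩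
  obtain ⟨e⟩ := hR i
  exact ⟨R, cts_of_res hR hUo hc, irr_of_equiv hNU (hirr i) e, hR⟩

/-- descent if any two elements lie in one of the subgroups -/
theorem main_pairs [Nonempty ι] (hS : S.Finite)
    (hN : IsOpen (N : Set (GK K))) (hNU : ∀ i, N ≤ U i)
    (hpairs : ∀ x y : GK K, ∃ i, x ∈ U i ∧ y ∈ U i)
    (hc : ∀ i, Cts (ρ i)) (hirr : ∀ i, (rs (hNU i) (ρ i)).IsIrreducible)
    (hatt : ∀ i, AttachedOver (U i) (ρ i) S D) :
    ∃ R : Representation k (GK K) (Fin n → k), Cts R ∧ (rN N R).IsIrreducible ∧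
      ∀ i, Nonempty (Representation.Equiv (R.comp (U i).subtype :
        Representation k (U i) (Fin n → k)) (ρ i)) := by
  classical
  have hUo : ∀ i, IsOpen (U i : Set (GK K)) := fun i => open_of_ge hN (hNU i)
  obtain ⟨R, hR⟩ := glue_rep hNU ρ hirr (chars_agree hS hUo hc hatt) (by
    intro E' _ π hπ f hf
    have hx : ∀ x : E', ∃ i, x ∈ (U i).comap π := fun x => by
      obtain ⟨i, hi, -⟩ := hpairs (π x) (π x)
      exact ⟨i, hi⟩
    choose c hcx using hx
    have hwd : ∀ i (x : E') (hi : x ∈ (U i).comap π), f (c x) ⟨x, hcx x⟩ = f i ⟨x, hi⟩ := by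
      intro i x hi
      have h1 : (1 : E') * ((⟨x, hi⟩ : (U i).comap π) : E') * 1⁻¹ ∈ (U (c x)).comap π := by
        rw [one_mul, inv_one, mul_one]
        exact hcx x
      have h2 := hf i (c x) ⟨x, hi⟩ 1 h1
      rw [← h2]
      congr 1
      apply Subtype.ext
      change x = 1 * x * 1⁻¹
      rw [one_mul, inv_one, mul_one]
    refine ⟨MonoidHom.mk' (fun x => f (c x) ⟨x, hcx x⟩) ?_, ?_⟩
    · intro x y
      obtain ⟨i, hi, hj⟩ := hpairs (π x) (π y)
      have hxy : x * y ∈ (U i).comap π := Subgroup.mul_mem _ hi hj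
      change f (c (x * y)) ⟨x * y, _⟩ = f (c x) ⟨x, _⟩ * f (c y) ⟨y, _⟩
      rw [hwd i x hi, hwd i y hj, hwd i (x * y) hxy, ← map_mul]
      rfl
    · intro i x
      exact hwd i x x.2)
  obtain ⟨i⟩ := ‹Nonempty ι›
  haveI : Nonempty ι := ⟨i⟩
  obtain ⟨e⟩ := hR i
  exact ⟨R, cts_of_res hR hUo hc, irr_of_equiv hNU (hirr i) e, hR⟩

end

/-! ## one-dimensional representations -/

section onedim

variable {Γ : Type} [Group Γ]

/-- the one-dimensional representation given by a character -/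
def oneDim (χ : Γ →* kˣ) : Representation k Γ (Fin 1 → k) where
  toFun g := (χ g : k) • LinearMap.id
  map_one' := by rw [map_one, Units.val_one, one_smul]; rfl
  map_mul' g h := by
    rw [map_mul, Units.val_mul]
    refine LinearMap.ext fun y => ?_
    change ((χ g : k) * (χ h : k)) • y = (χ g : k) • ((χ h : k) • y)
    rw [mul_smul]

omit [TopologicalSpace k] [IsTopologicalRing k] [T2Space k] in
theorem roots_scalar (c : k) :
    ((c • LinearMap.id : (Fin 1 → k) →ₗ[k] (Fin 1 → k)).charpoly.roots) = {c} := by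
  have h1 := card_eig (c • LinearMap.id : (Fin 1 → k) →ₗ[k] (Fin 1 → k))
  rw [Module.finrank_fin_fun, Multiset.card_eq_one] at h1
  obtain ⟨a, ha⟩ := h1
  have h2 := sum_eig (c • LinearMap.id : (Fin 1 → k) →ₗ[k] (Fin 1 → k))
  rw [ha, Multiset.sum_singleton, map_smul, LinearMap.trace_id, Module.finrank_fin_fun,
    Nat.cast_one, smul_eq_mul, mul_one] at h2
  unfold eig at ha
  rw [ha, h2]

omit [IsAlgClosed k] [TopologicalSpace k] [IsTopologicalRing k] [T2Space k] in
theorem irr_oneDim (ρ : Representation k Γ (Fin 1 → k)) : ρ.IsIrreducible := by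
  have hs : IsSimpleModule k (Fin 1 → k) := by
    rw [isSimpleModule_iff_finrank_eq_one, Module.finrank_fin_fun]
  haveI : IsSimpleOrder (Submodule k (Fin 1 → k)) := (isSimpleModule_iff k _).1 hs
  refine { exists_pair_ne := ⟨⊥, ⊤, ?_⟩, eq_bot_or_eq_top := fun S => ?_ }
  · intro h1
    exact bot_ne_top (congrArg Subrepresentation.toSubmodule h1 :
      (⊥ : Submodule k (Fin 1 → k)) = ⊤)
  · rcases eq_bot_or_eq_top S.toSubmodule with h1 | h1
    · left
      apply Subrepresentation.toSubmodule_injective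
      exact h1
    · right
      apply Subrepresentation.toSubmodule_injective
      exact h1

end onedim

/-! ## the criterion for all proper subextensions -/

section exact

variable (k n) in
/-- data which are attached to representations over all proper subextensions, irreducible on `N`,
are attached to a representation over `K` -/
def DescendsFor (N : Subgroup (GK K)) [N.Normal] : Prop :=
  ∀ (S : Set (HeightOneSpectrum (𝓞 K))), S.Finite →
    ∀ D : HeightOneSpectrum (𝓞 K) → Multiset k,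
    (∀ (U : Subgroup (GK K)) (hU : N ≤ U), U ≠ ⊤ →
      ∃ ρ : Representation k U (Fin n → k), Cts ρ ∧ (rs hU ρ).IsIrreducible ∧
        AttachedOver U ρ S D) →
    ∃ R : Representation k (GK K) (Fin n → k), Cts R ∧ (rN N R).IsIrreducible ∧
      ∀ v ∉ S, (∀ σ, IsInert v σ → R σ = 1) ∧ ∀ σ, IsFrob v σ → (R σ⁻¹).charpoly.roots = D v

variable (N : Subgroup (GK K)) [N.Normal]

theorem proper_of_notcyclic (hnc : ¬ IsCyclic (GK K ⧸ N)) (σ : GK K) :
    ∃ U : Subgroup (GK K), N ≤ U ∧ U ≠ ⊤ ∧ σ ∈ U := by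
  refine ⟨(Subgroup.zpowers (σ : GK K ⧸ N)).comap (QuotientGroup.mk' N), ?_, ?_, ?_⟩
  · intro ν hν
    rw [Subgroup.mem_comap, show (QuotientGroup.mk' N) ν = 1 from (QuotientGroup.eq_one_iff ν).2 hν]
    exact Subgroup.one_mem _
  · intro h
    apply hnc
    refine ⟨(σ : GK K ⧸ N), fun x => ?_⟩
    obtain ⟨x, rfl⟩ := QuotientGroup.mk_surjective x
    have h1 : x ∈ (Subgroup.zpowers (σ : GK K ⧸ N)).comap (QuotientGroup.mk' N) := by
      rw [h]
      exact Subgroup.mem_top x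
    exact h1
  · exact Subgroup.mem_zpowers _

/-- the positive half -/
theorem exact_pos [CharZero k] (hN : IsOpen (N : Set (GK K))) (hnc : ¬ IsCyclic (GK K ⧸ N))
    (hG : ¬ ∃ r : ℕ, r.Prime ∧ IsPGroup r (GK K ⧸ N) ∧ ∃ a b : GK K ⧸ N,
      Subgroup.closure {a, b} = ⊤) : DescendsFor k n N := by
  classical
  intro S hS D hD
  haveI : Finite (GK K ⧸ N) := Subgroup.quotient_finite_of_isOpen _ hN
  let ι : Type := {U : Subgroup (GK K) // N ≤ U ∧ U ≠ ⊤}
  choose ρ' hρ' using fun i : ι => hD i.1 i.2.1 i.2.2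
  let U : ι → Subgroup (GK K) := fun i => i.1
  have hNU : ∀ i, N ≤ U i := fun i => i.2.1
  let ρ : ∀ i, Representation k (U i) (Fin n → k) := ρ'
  have hc : ∀ i, Cts (ρ i) := fun i => (hρ' i).1
  have hirr : ∀ i, (rs (hNU i) (ρ i)).IsIrreducible := fun i => (hρ' i).2.1
  have hatt : ∀ i, AttachedOver (U i) (ρ i) S D := fun i => (hρ' i).2.2
  have hcov : ∀ σ : GK K, ∃ i : ι, σ ∈ U i := fun σ => by
    obtain ⟨V, h1, h2, h3⟩ := proper_of_notcyclic N hnc σ
    exact ⟨⟨V, h1, h2⟩, h3⟩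
  haveI : Nonempty ι := by
    obtain ⟨i, -⟩ := hcov 1
    exact ⟨i⟩
  have hmain : ∃ R : Representation k (GK K) (Fin n → k), Cts R ∧ (rN N R).IsIrreducible ∧
      ∀ i, Nonempty (Representation.Equiv (R.comp (U i).subtype :
        Representation k (U i) (Fin n → k)) (ρ i)) := by
    by_cases hpg : ∃ r : ℕ, r.Prime ∧ IsPGroup r (GK K ⧸ N)
    · obtain ⟨r, hr, hrG⟩ := hpg
      refine main_pairs hS hN hNU (fun x y => ?_) hc hirr hatt
      have h1 : Subgroup.closure {(x : GK K ⧸ N), (y : GK K ⧸ N)} ≠ ⊤ := fun h =>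
        hG ⟨r, hr, hrG, _, _, h⟩
      refine ⟨⟨(Subgroup.closure {(x : GK K ⧸ N), (y : GK K ⧸ N)}).comap (QuotientGroup.mk' N),
        ?_, ?_⟩, ?_, ?_⟩
      · intro ν hν
        rw [Subgroup.mem_comap, show (QuotientGroup.mk' N) ν = 1 from (QuotientGroup.eq_one_iff ν).2 hν]
        exact Subgroup.one_mem _
      · intro h
        apply h1
        rw [eq_top_iff]
        intro z _
        obtain ⟨z, rfl⟩ := QuotientGroup.mk_surjective z
        have h2 : z ∈ (Subgroup.closure {(x : GK K ⧸ N), (y : GK K ⧸ N)}).comap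
            (QuotientGroup.mk' N) := by
          rw [h]
          exact Subgroup.mem_top z
        exact h2
      · exact Subgroup.subset_closure (Set.mem_insert _ _)
      · exact Subgroup.subset_closure (Set.mem_insert_of_mem _ rfl)
    · refine main_coprime 1 hS hN hNU (fun q hq _ => ?_) hc hirr hatt
      obtain ⟨H, hH1, hH2⟩ := proper_index q hq (G := GK K ⧸ N) (fun h => hpg ⟨q, hq, h⟩)
      refine ⟨⟨H.comap (QuotientGroup.mk' N), ?_, ?_⟩, ?_⟩
      · intro ν hν
        rw [Subgroup.mem_comap, show (QuotientGroup.mk' N) ν = 1 from (QuotientGroup.eq_one_iff ν).2 hν]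
        exact Subgroup.one_mem _
      · intro h
        apply hH1
        rw [eq_top_iff]
        intro z _
        obtain ⟨z, rfl⟩ := QuotientGroup.mk_surjective z
        have h2 : z ∈ H.comap (QuotientGroup.mk' N) := by
          rw [h]
          exact Subgroup.mem_top z
        exact h2
      · change ¬ q ∣ (H.comap (QuotientGroup.mk' N)).index
        rw [Subgroup.index_comap_of_surjective _ (QuotientGroup.mk'_surjective N)]
        exact hH2
  obtain ⟨R, hRc, hRi, hR⟩ := hmain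
  refine ⟨R, hRc, hRi, fun v hv => ⟨fun σ hσ => ?_, fun σ hσ => ?_⟩⟩
  · obtain ⟨i, hi⟩ := hcov σ
    exact one_of_inert hR hatt hv (g := 1) (i := i) (by rwa [inv_one, one_mul, mul_one]) hσ
  · obtain ⟨i, hi⟩ := hcov σ
    have h1 := roots_of_frob hR hatt hv (g := 1) (i := i) (by rwa [inv_one, one_mul, mul_one])
      one_pos (isFrobPow_one.2 hσ)
    rwa [map_pow_one] at h1

/-- an element which acts as a power of Frobenius, modulo an open normal subgroup containing the
inertia -/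
theorem frobPow_mod {v : HeightOneSpectrum (𝓞 K)} (hv : ∀ τ, IsInert v τ → τ ∈ N)
    {σ₀ σ : GK K} (hσ₀ : IsFrob v σ₀) {f : ℕ} (hσ : IsFrobPow v f σ) :
    ∃ g : GK K, (σ : GK K ⧸ N) = (g : GK K ⧸ N) * (σ₀ : GK K ⧸ N) ^ f * (g : GK K ⧸ N)⁻¹ := by
  obtain ⟨Q, hQ1, hQ2, hQ3⟩ := hσ
  obtain ⟨σ₁, hσ₁⟩ := exists_frob_at (v := v) (Q := Q) ⟨hQ1, hQ2⟩
  have h1 := mul_of_frobPow ⟨hQ1, hQ2⟩ hσ₁ f hQ3
  have h2 : (σ₁ ^ f)⁻¹ * σ ∈ N := hv _ (isInert_iff.2 ⟨Q, ⟨hQ1, hQ2⟩, h1⟩)
  obtain ⟨g, τ, hτ, h3⟩ := conj_frob v σ₀ σ₁ hσ₀ ⟨Q, hQ1, hQ2, hσ₁⟩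
  refine ⟨g, ?_⟩
  have h4 : (σ : GK K ⧸ N) = (σ₁ : GK K ⧸ N) ^ f := by
    rw [← QuotientGroup.mk_pow, eq_comm, QuotientGroup.eq]
    exact h2
  have h5 : (σ₁ : GK K ⧸ N) = (g : GK K ⧸ N) * (σ₀ : GK K ⧸ N) * (g : GK K ⧸ N)⁻¹ := by
    rw [h3, QuotientGroup.mk_mul, (QuotientGroup.eq_one_iff τ).2 (hv τ hτ), mul_one]
    rfl
  rw [h4, h5, conj_pow]

/-- a continuous function which is given at Frobenius elements -/
theorem eq_of_frob {X : Type} [TopologicalSpace X] [T2Space X] {S : Set (HeightOneSpectrum (𝓞 K))}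
    (hS : S.Finite) {F F' : GK K → X} (hF : Continuous F) (hF' : Continuous F')
    (h : ∀ v ∉ S, ∀ σ, IsFrob v σ → F σ⁻¹ = F' σ⁻¹) : F = F' := by
  have hd : Dense {x : GK K | ∃ v ∉ S, IsFrob v x⁻¹} := by
    have h1 := (frob_dense S hS).preimage (Homeomorph.inv (GK K)).isOpenMap
    exact h1
  refine hF.ext_on hd hF' ?_
  rintro x ⟨v, hv, hx⟩
  have := h v hv _ hx
  rwa [inv_inv] at this

theorem cont_quot {X : Type} [TopologicalSpace X] (hN : IsOpen (N : Set (GK K)))
    (F : GK K ⧸ N → X) : Continuous fun σ : GK K => F (σ : GK K ⧸ N) := by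
  rw [continuous_iff_continuousAt]
  intro σ
  have h1 : (fun τ : GK K => F (τ : GK K ⧸ N)) =ᶠ[𝓝 σ] fun _ => F (σ : GK K ⧸ N) := by
    have h2 : (fun τ : GK K => σ⁻¹ * τ) ⁻¹' (N : Set (GK K)) ∈ 𝓝 σ := by
      apply (hN.preimage (continuous_mul_left σ⁻¹)).mem_nhds
      rw [Set.mem_preimage, inv_mul_cancel]
      exact N.one_mem
    filter_upwards [h2] with τ hτ
    congr 1
    rw [eq_comm, QuotientGroup.eq]
    exact hτ
  exact (continuousAt_const).congr h1.symm

/-- the negative half -/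
theorem exact_neg [CharZero k] (hN : IsOpen (N : Set (GK K))) (hnc : ¬ IsCyclic (GK K ⧸ N))
    {r : ℕ} (hr : r.Prime) (hrG : IsPGroup r (GK K ⧸ N)) {a b : GK K ⧸ N}
    (hab : Subgroup.closure {a, b} = ⊤) : ¬ DescendsFor k 1 N := by
  classical
  haveI : Finite (GK K ⧸ N) := Subgroup.quotient_finite_of_isOpen _ hN
  haveI : Fact r.Prime := ⟨hr⟩
  obtain ⟨χ, hχc, hχH, x, y, hxy⟩ := exists_twist (k := k) hrG hnc a b hab
  intro hdes
  let S : Set (HeightOneSpectrum (𝓞 K)) := {v | ∃ τ, IsInert v τ ∧ τ ∉ N}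
  have hS : S.Finite := ram_finite N hN
  have hin : ∀ v ∉ S, ∀ τ, IsInert v τ → τ ∈ N := by
    intro v hv τ hτ
    by_contra h
    exact hv ⟨τ, hτ, h⟩
  let D : HeightOneSpectrum (𝓞 K) → Multiset k := fun v =>
    {((χ (((exists_frob v).choose : GK K) : GK K ⧸ N)⁻¹ : kˣ) : k)}
  have hχ1 : χ 1 = 1 := by
    by_cases h : (⊥ : Subgroup (GK K ⧸ N)) = ⊤
    · exfalso
      apply hnc
      refine ⟨1, fun z => ?_⟩
      have h1 : z ∈ (⊤ : Subgroup (GK K ⧸ N)) := Subgroup.mem_top z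
      rw [← h, Subgroup.mem_bot] at h1
      rw [h1]
      exact Subgroup.mem_zpowers 1
    · have h1 := hχH ⊥ h 1 (Subgroup.one_mem _) 1 (Subgroup.one_mem _)
      rw [mul_one] at h1
      exact (mul_eq_left.1 h1.symm)
  have hχp : ∀ (z : GK K ⧸ N) (f : ℕ), χ (z ^ f) = χ z ^ f := by
    intro z f
    have hz : Subgroup.zpowers z ≠ ⊤ := by
      intro h
      apply hnc
      refine ⟨z, fun w => ?_⟩
      have h1 : w ∈ Subgroup.zpowers z := by
        rw [h]
        exact Subgroup.mem_top w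
      exact h1
    induction f with
    | zero => rw [pow_zero, pow_zero, hχ1]
    | succ f ih =>
      rw [pow_succ, hχH _ hz _ (Subgroup.npow_mem_zpowers z f) _ (Subgroup.mem_zpowers z), ih,
        pow_succ]
  -- the data at Frobenius elements
  have hD : ∀ v ∉ S, ∀ (f : ℕ) (σ : GK K), IsFrobPow v f σ →
      ((D v).map fun z => z ^ f) = {((χ ((σ : GK K ⧸ N)⁻¹) : kˣ) : k)} := by
    intro v hv f σ hσ
    obtain ⟨g, hg⟩ := frobPow_mod N (hin v hv) (exists_frob v).choose_spec hσ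
    rw [Multiset.map_singleton, hg]
    have h1 : ((g : GK K ⧸ N) * (((exists_frob v).choose : GK K) : GK K ⧸ N) ^ f *
        (g : GK K ⧸ N)⁻¹)⁻¹ = (g : GK K ⧸ N) * ((((exists_frob v).choose : GK K) :
          GK K ⧸ N)⁻¹) ^ f * (g : GK K ⧸ N)⁻¹ := by
      rw [mul_inv_rev, mul_inv_rev, inv_inv, inv_pow, mul_assoc]
    rw [h1, hχc, hχp, Units.val_pow_eq_pow_val]
  obtain ⟨R, hRc, -, hR⟩ := hdes S hS D (by
    intro U hU hUt
    let H : Subgroup (GK K ⧸ N) := U.map (QuotientGroup.mk' N)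
    have hH : H ≠ ⊤ := by
      intro h
      apply hUt
      rw [eq_top_iff]
      intro σ _
      have h1 : (QuotientGroup.mk' N) σ ∈ H := by
        rw [h]
        exact Subgroup.mem_top _
      obtain ⟨u, hu, hu'⟩ := h1
      have h2 : u⁻¹ * σ ∈ N := by
        rw [← QuotientGroup.eq]
        exact hu'
      have h3 := U.mul_mem hu (hU h2)
      rwa [mul_inv_cancel_left] at h3
    let X : U →* kˣ := MonoidHom.mk' (fun u => χ ((u : GK K) : GK K ⧸ N)) (fun u w =>
      hχH H hH _ ⟨u, u.2, rfl⟩ _ ⟨w, w.2, rfl⟩)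
    have hX : ∀ u : U, X u = χ ((u : GK K) : GK K ⧸ N) := fun _ => rfl
    refine ⟨oneDim X, fun z => ?_, irr_oneDim _, fun v hv => ⟨fun σ hσ => ?_,
      fun f σ hf hσ => ?_⟩⟩
    · have h1 : Continuous fun u : U => ((χ ((u : GK K) : GK K ⧸ N) : kˣ) : k) :=
        (cont_quot N hN (fun w => ((χ w : kˣ) : k))).comp continuous_subtype_val
      have h2 : Continuous fun u : U => ((χ ((u : GK K) : GK K ⧸ N) : kˣ) : k) • z :=
        h1.smul continuous_const
      exact h2
    · have h1 : ((σ : GK K) : GK K ⧸ N) = 1 := (QuotientGroup.eq_one_iff _).2 (hin v hv _ hσ)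
      change ((X σ : kˣ) : k) • LinearMap.id = 1
      rw [hX, h1, hχ1, Units.val_one, one_smul]
      rfl
    · rw [hD v hv f σ hσ]
      change (((X σ⁻¹ : kˣ) : k) • LinearMap.id).charpoly.roots = _
      rw [roots_scalar]
      rfl)
  -- the trace of `R` is `χ`
  have htr : (fun σ => R.character σ) = fun σ : GK K => ((χ (σ : GK K ⧸ N) : kˣ) : k) := by
    refine eq_of_frob hS (char_cont hRc) (cont_quot N hN (fun w => ((χ w : kˣ) : k)))
      (fun v hv σ hσ => ?_)
    have h1 := (hR v hv).2 σ hσ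
    have h2 := hD v hv 1 σ (isFrobPow_one.2 hσ)
    rw [map_pow_one] at h2
    rw [h2] at h1
    have h3 := sum_eig (R σ⁻¹)
    unfold eig at h3
    rw [h1, Multiset.sum_singleton] at h3
    exact h3.symm
  -- `R` is scalar
  have hsc : ∀ σ : GK K, R σ = ((χ (σ : GK K ⧸ N) : kˣ) : k) • LinearMap.id := by
    intro σ
    have h1 : ∀ T : (Fin 1 → k) →ₗ[k] (Fin 1 → k), T = LinearMap.trace k _ T • LinearMap.id := by
      intro T
      rw [trace_eq]
      ext i j
      have hi : i = 0 := Subsingleton.elim _ _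
      have hj : j = 0 := Subsingleton.elim _ _
      subst hi hj
      simp
    rw [h1 (R σ)]
    congr 1
    exact congrFun htr σ
  apply hxy
  obtain ⟨x, rfl⟩ := QuotientGroup.mk_surjective x
  obtain ⟨y, rfl⟩ := QuotientGroup.mk_surjective y
  have h1 : R (x * y) = R x * R y := map_mul _ _ _
  rw [hsc, hsc, hsc] at h1
  have h2 := congrArg (fun T : (Fin 1 → k) →ₗ[k] (Fin 1 → k) => T (fun _ => 1) 0) h1
  apply Units.ext
  rw [Units.val_mul]
  have h3 : ((χ ((x : GK K ⧸ N) * (y : GK K ⧸ N)) : kˣ) : k) =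
      ((χ (y : GK K ⧸ N) : kˣ) : k) * ((χ (x : GK K ⧸ N) : kˣ) : k) := by
    simpa using h2
  rw [h3, mul_comm]

end exact

end Pool.Agent.Q227.CD
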