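import Pool.Agent.Q227.CD.NT3
import Pool.Agent.Q227.CD.Cyc3

/-!
# Residual representations: descent along extensions of `p`-power degree in characteristic `p`
-/

set_option autoImplicit false
set_option linter.unusedSectionVars false

namespace Pool.Agent.Q227.CD

open NumberField IsDedekindDomain Pool.Agent.W401.Cheb Pool.Agent.W401.Frob MulAction
open Representation Module Pool.Agent.Q15.GR Topology

variable {K : Type} [Field K] [NumberField K]
variable {k : Type} [Field k] [IsAlgClosed k] [TopologicalSpace k] [DiscreteTopology k] {n : ℕ}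

/-- a continuous representation over a discrete field is locally constant -/
theorem rep_loc {Γ : Type} [Group Γ] [TopologicalSpace Γ] {ρ : Representation k Γ (Fin n → k)}
    (h : Cts ρ) : IsLocallyConstant fun g : Γ => ρ g := by
  classical
  rw [IsLocallyConstant.iff_eventually_eq]
  intro g
  have h1 : ∀ i : Fin n, ∀ᶠ y in 𝓝 g, ρ y (Pi.single i 1) = ρ g (Pi.single i 1) := by
    intro i
    have h2 : IsLocallyConstant fun y : Γ => ρ y (Pi.single i 1) :=
      (IsLocallyConstant.iff_continuous _).2 (h (Pi.single i 1))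
    exact (IsLocallyConstant.iff_eventually_eq _).1 h2 g
  have h3 := Filter.eventually_all.2 h1
  filter_upwards [h3] with y hy
  refine (Pi.basisFun k (Fin n)).ext fun i => ?_
  rw [Pi.basisFun_apply]
  exact hy i

theorem eig_loc {Γ : Type} [Group Γ] [TopologicalSpace Γ] {ρ : Representation k Γ (Fin n → k)}
    (h : Cts ρ) : IsLocallyConstant fun g : Γ => eig (ρ g) :=
  (rep_loc h).comp eig

theorem cts_of_ker {Γ : Type} [Group Γ] [TopologicalSpace Γ] [ContinuousMul Γ]
    {ρ : Representation k Γ (Fin n → k)} (h : IsOpen {g : Γ | ρ g = 1}) : Cts ρ := by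
  intro x
  apply IsLocallyConstant.continuous
  rw [IsLocallyConstant.iff_eventually_eq]
  intro g
  have h1 : (fun y : Γ => g⁻¹ * y) ⁻¹' {g : Γ | ρ g = 1} ∈ 𝓝 g := by
    apply (h.preimage (continuous_mul_left g⁻¹)).mem_nhds
    rw [Set.mem_preimage, inv_mul_cancel, Set.mem_setOf_eq, map_one]
  filter_upwards [h1] with y hy
  have h2 : ρ (g⁻¹ * y) = 1 := hy
  have h3 : ρ y = ρ g * ρ (g⁻¹ * y) := by rw [← map_mul, mul_inv_cancel_left]
  rw [h3, h2, mul_one]

theorem ker_of_cts {Γ : Type} [Group Γ] [TopologicalSpace Γ]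
    {ρ : Representation k Γ (Fin n → k)} (h : Cts ρ) : IsOpen {g : Γ | ρ g = 1} :=
  (rep_loc h).isOpen_fiber 1

variable {ι : Type} {U : ι → Subgroup (GK K)} {S : Set (HeightOneSpectrum (𝓞 K))}
  {D : HeightOneSpectrum (𝓞 K) → Multiset k} {ρ : ∀ i, Representation k (U i) (Fin n → k)}

omit [TopologicalSpace k] [DiscreteTopology k] in
theorem eig_frob {V : Subgroup (GK K)} {r : Representation k V (Fin n → k)}
    (h : AttachedOver V r S D) {v : HeightOneSpectrum (𝓞 K)} (hv : v ∉ S) (x : V)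
    (hx : IsFrob v (x : GK K)⁻¹) : eig (r x) = D v := by
  have h1 := (h v hv).2 1 x⁻¹ one_pos (isFrobPow_one.2 hx)
  rw [inv_inv, map_pow_one] at h1
  exact h1

/-- a function on the Galois group which is locally constant on an open subset -/
theorem frob_dense_inv {S : Set (HeightOneSpectrum (𝓞 K))} (hS : S.Finite) :
    Dense {x : GK K | ∃ v ∉ S, IsFrob v x⁻¹} :=
  (frob_dense S hS).preimage (Homeomorph.inv (GK K)).isOpenMap

/-- **the eigenvalues agree on conjugate elements** -/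
theorem eigs_agree (hS : S.Finite) (hUo : ∀ i, IsOpen (U i : Set (GK K)))
    (hc : ∀ i, Cts (ρ i)) (hatt : ∀ i, AttachedOver (U i) (ρ i) S D) (i j : ι) (x : U i) (g : GK K)
    (h : g * x * g⁻¹ ∈ U j) : eig (ρ j ⟨g * x * g⁻¹, h⟩) = eig (ρ i x) := by
  let W : Set (GK K) := {y | y ∈ U i ∧ g * y * g⁻¹ ∈ U j}
  have hcj : Continuous fun y : GK K => g * y * g⁻¹ :=
    (continuous_const.mul continuous_id).mul continuous_const
  have hW : IsOpen W := (hUo i).inter ((hUo j).preimage hcj)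
  let F1 : W → Multiset k := fun w => eig (ρ i ⟨w, w.2.1⟩)
  let F2 : W → Multiset k := fun w => eig (ρ j ⟨g * w * g⁻¹, w.2.2⟩)
  have hF1 : IsLocallyConstant F1 := (eig_loc (hc i)).comp_continuous
    (continuous_subtype_val.subtype_mk _)
  have hF2 : IsLocallyConstant F2 := (eig_loc (hc j)).comp_continuous
    ((hcj.comp continuous_subtype_val).subtype_mk _)
  have hcl : IsOpen {w | F2 w ≠ F1 w} := by
    have h1 : IsLocallyConstant fun w : W => (F2 w, F1 w) := hF2.prodMk hF1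
    exact h1 {z | z.1 ≠ z.2}
  by_contra hne
  have hmem : (⟨x, x.2, h⟩ : W) ∈ {w | F2 w ≠ F1 w} := hne
  have ho : IsOpen (Subtype.val '' ({w | F2 w ≠ F1 w} : Set W)) :=
    hW.isOpenMap_subtype_val _ hcl
  obtain ⟨σ, hσ1, v, hv, hσ⟩ := (frob_dense_inv hS).inter_open_nonempty _ ho ⟨_, _, hmem, rfl⟩
  obtain ⟨w, hw, hwσ⟩ := hσ1
  apply hw
  have hwf : IsFrob v (w : GK K)⁻¹ := by
    rw [hwσ]
    exact hσ
  change eig (ρ j ⟨g * w * g⁻¹, w.2.2⟩) = eig (ρ i ⟨w, w.2.1⟩)
  rw [eig_frob (hatt i) hv _ hwf, eig_frob (hatt j) hv]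
  change IsFrob v (g * (w : GK K) * g⁻¹)⁻¹
  have h3 : (g * (w : GK K) * g⁻¹)⁻¹ = g * (w : GK K)⁻¹ * g⁻¹ := by group
  rw [h3]
  exact isFrob_conj hwf g

/-- representations with the same eigenvalues at almost all Frobenius elements -/
theorem eig_of_frob {R R' : Representation k (GK K) (Fin n → k)} (hR : Cts R) (hR' : Cts R')
    {T : Set (HeightOneSpectrum (𝓞 K))} (hT : T.Finite)
    (h : ∀ v ∉ T, ∀ σ, IsFrob v σ → eig (R σ⁻¹) = eig (R' σ⁻¹)) (x : GK K) :
    eig (R x) = eig (R' x) := by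
  by_contra hne
  have h1 : IsLocallyConstant fun w : GK K => (eig (R w), eig (R' w)) :=
    (eig_loc hR).prodMk (eig_loc hR')
  have h2 : IsOpen {w : GK K | eig (R w) ≠ eig (R' w)} := h1 {z | z.1 ≠ z.2}
  obtain ⟨σ, hσ1, v, hv, hσ⟩ := (frob_dense_inv hT).inter_open_nonempty _ h2 ⟨x, hne⟩
  apply hσ1
  have h3 := h v hv _ hσ
  rwa [inv_inv] at h3

/-- **descent along extensions of `p`-power degree** -/
theorem lpower {p : ℕ} (hp : p.Prime) [ExpChar k p] [Nonempty ι] (hS : S.Finite)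
    (hUo : ∀ i, IsOpen (U i : Set (GK K))) (hUn : ∀ i, (U i).Normal) (m : ι → ℕ)
    (hm : ∀ i, (U i).index = p ^ m i) (hc : ∀ i, Cts (ρ i))
    (hss : ∀ i, (ρ i).IsSemisimpleRepresentation)
    (hatt : ∀ i, AttachedOver (U i) (ρ i) S D) :
    ∃ R : Representation k (GK K) (Fin n → k), Cts R ∧ R.IsSemisimpleRepresentation ∧
      (∀ i, Nonempty (Representation.Equiv (R.comp (U i).subtype :
        Representation k (U i) (Fin n → k)) (ρ i))) ∧
      (∀ v ∉ S, (∃ i, ∀ τ, IsInert v τ → τ ∈ U i) → (∀ τ, IsInert v τ → R τ = 1)) ∧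
      (∀ v ∉ S, ∀ σ, IsFrob v σ → eig (R σ⁻¹) = D v) := by
  classical
  have hex : ∀ i, ∃ R : Representation k (GK K) (Fin n → k), R.IsSemisimpleRepresentation ∧
      ∀ x : U i, R x = ρ i x := by
    intro i
    haveI := hUn i
    refine extend_p hp (m i) (GK K) (U i) (hm i) _ (ρ i) (hss i) (fun g x x' h => ?_)
    have h1 : g * (x : GK K) * g⁻¹ ∈ U i := by
      rw [← h]
      exact x'.2
    have h2 := eigs_agree hS hUo hc hatt i i x g h1
    have h3 : x' = ⟨_, h1⟩ := Subtype.ext h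
    rw [h3]
    exact h2
  choose R hRss hR using hex
  have heig : ∀ i j x, eig (R i x) = eig (R j x) := by
    intro i j x
    haveI := hUn i
    haveI := hUn j
    have h1 : x ^ p ^ (m i + m j) ∈ U i := by
      rw [pow_add, pow_mul]
      apply Subgroup.pow_mem
      rw [← hm i]
      exact Subgroup.pow_index_mem _ x
    have h2 : x ^ p ^ (m i + m j) ∈ U j := by
      rw [add_comm, pow_add, pow_mul]
      apply Subgroup.pow_mem
      rw [← hm j]
      exact Subgroup.pow_index_mem _ x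
    have h2' : (1 : GK K) * ((⟨_, h1⟩ : U i) : GK K) * 1⁻¹ ∈ U j := by
      rw [one_mul, inv_one, mul_one]
      exact h2
    have h3 := eigs_agree hS hUo hc hatt i j ⟨_, h1⟩ 1 h2'
    have h4 : (⟨_, h2'⟩ : U j) = ⟨_, h2⟩ := Subtype.ext (by
      change 1 * x ^ p ^ (m i + m j) * 1⁻¹ = x ^ p ^ (m i + m j)
      rw [one_mul, inv_one, mul_one])
    rw [h4, ← hR i ⟨_, h1⟩, ← hR j ⟨_, h2⟩] at h3
    change eig (R j (x ^ p ^ (m i + m j))) = eig (R i (x ^ p ^ (m i + m j))) at h3
    rw [map_pow, map_pow, eig_pow, eig_pow] at h3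
    exact (map_frob_inj p _ h3).symm
  have heq : ∀ i j, Nonempty (Representation.Equiv (R i) (R j)) := fun i j =>
    brauer_nesbitt _ _ (hRss i) (hRss j) (heig i j)
  obtain ⟨i₀⟩ := ‹Nonempty ι›
  have hres : ∀ i, Nonempty (Representation.Equiv ((R i₀).comp (U i).subtype :
        Representation k (U i) (Fin n → k)) (ρ i)) := by
    intro i
    obtain ⟨e⟩ := heq i₀ i
    refine ⟨Representation.Equiv.mk e.toLinearEquiv (fun x => ?_)⟩
    have h1 := e.toIntertwiningMap.isIntertwining' (x : GK K)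
    rw [hR i x] at h1
    exact h1
  haveI : Nonempty ι := ⟨i₀⟩
  refine ⟨R i₀, cts_of_res hres hUo hc, hRss i₀, hres, ?_, ?_⟩
  · rintro v hv ⟨i, hi⟩ τ hτ
    exact one_of_inert hres hatt hv (g := 1) (i := i)
      (by rw [inv_one, one_mul, mul_one]; exact hi τ hτ) hτ
  · intro v hv σ hσ
    obtain ⟨Q, hQ1, hQ2, hσQ⟩ := hσ
    haveI := hUn i₀
    have h1 : IsFrobPow v (p ^ m i₀) (σ ^ p ^ m i₀) :=
      ⟨Q, hQ1, hQ2, frob_pow ⟨hQ1, hQ2⟩ hσQ _⟩
    have h2 := roots_of_frob hres hatt hv (τ := σ ^ p ^ m i₀) (g := 1) (i := i₀) (by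
      rw [inv_one, one_mul, mul_one, ← hm i₀]
      exact Subgroup.pow_index_mem _ σ) (pow_pos hp.pos _) h1
    rw [← inv_pow, map_pow] at h2
    have h3 := eig_pow (R i₀ σ⁻¹) (p ^ m i₀)
    unfold eig at h3
    rw [h3] at h2
    exact map_frob_inj p _ h2

/-- uniqueness -/
theorem lpower_unique {R R' : Representation k (GK K) (Fin n → k)} (hR : Cts R) (hR' : Cts R')
    (hss : R.IsSemisimpleRepresentation) (hss' : R'.IsSemisimpleRepresentation)
    {T : Set (HeightOneSpectrum (𝓞 K))} (hT : T.Finite)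
    (h : ∀ v ∉ T, ∀ σ, IsFrob v σ → eig (R σ⁻¹) = eig (R' σ⁻¹)) :
    Nonempty (Representation.Equiv R' R) :=
  brauer_nesbitt _ _ hss' hss (fun x => (eig_of_frob hR hR' hT h x).symm)

end Pool.Agent.Q227.CD
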