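import Pool.Agent.Q227.CD.NT4
import Pool.Agent.Q227.CD.GT2

/-!
# Residual representations: coprime degrees up to powers of `p`, and the exact criterion
-/

set_option autoImplicit false
set_option linter.unusedSectionVars false

namespace Pool.Agent.Q227.CD

open NumberField IsDedekindDomain Pool.Agent.W401.Cheb Pool.Agent.W401.Frob MulAction
open Representation Module Pool.Agent.Q15.GR Topology

variable {K : Type} [Field K] [NumberField K]
variable {k : Type} [Field k] [IsAlgClosed k] [TopologicalSpace k] [IsTopologicalRing k]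
  [T2Space k] {n : ℕ}

section post

variable {ι : Type} {U : ι → Subgroup (GK K)} {S : Set (HeightOneSpectrum (𝓞 K))}
  {D : HeightOneSpectrum (𝓞 K) → Multiset k} {ρ : ∀ i, Representation k (U i) (Fin n → k)}
  {R : Representation k (GK K) (Fin n → k)}
  (hR : ∀ i, Nonempty (Representation.Equiv (R.comp (U i).subtype :
    Representation k (U i) (Fin n → k)) (ρ i)))

include hR

omit [TopologicalSpace k] [IsTopologicalRing k] [T2Space k] in
/-- unramifiedness at a place with a ramification index prime to `p` -/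
theorem inertia_tame {p : ℕ} [∀ i, (U i).FiniteIndex]
    (hatt : ∀ i, AttachedOver (U i) (ρ i) S D)
    (hind : ∀ q : ℕ, q.Prime → q ≠ p → ∃ i, ¬ q ∣ (U i).index)
    {v : HeightOneSpectrum (𝓞 K)} (hv : v ∉ S) {i : ι} {Q : Ideal (𝓞 (AlgebraicClosure K))}
    (hQ : Over v Q) (hram : ¬ p ∣ ((U i).subgroupOf (iner Q)).index) {τ : GK K}
    (hτ : IsInert v τ) : R τ = 1 := by
  have hle : (U i).subgroupOf (iner Q) ≤ (MonoidHom.ker R).subgroupOf (iner Q) := by
    intro x hx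
    rw [Subgroup.mem_subgroupOf] at hx ⊢
    rw [MonoidHom.mem_ker]
    exact one_of_inert hR hatt hv (g := 1) (i := i) (by rwa [inv_one, one_mul, mul_one])
      (isInert_iff.2 ⟨Q, hQ, x.2⟩)
  have h1 : ((MonoidHom.ker R).subgroupOf (iner Q)).index = 1 := by
    by_contra hne
    obtain ⟨q, hq, hqd⟩ := Nat.exists_prime_and_dvd hne
    by_cases hqp : q = p
    · subst hqp
      exact hram (hqd.trans (Subgroup.index_dvd_of_le hle))
    · obtain ⟨j, hj⟩ := hind q hq hqp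
      exact hj (hqd.trans (inertia_index hR hatt hv hQ j))
  rw [Subgroup.index_eq_one] at h1
  obtain ⟨Q', hQ', hτ'⟩ := isInert_iff.1 hτ
  obtain ⟨g, hg⟩ := over_trans hQ hQ'
  have h2 : g⁻¹ * τ * g ∈ iner Q := by
    rw [mem_iner]
    intro x
    have h3 := (mem_iner.1 hτ') (g • x)
    rw [hg, mem_tr, smul_sub, smul_smul, smul_smul, smul_smul, inv_mul_cancel, one_smul] at h3
    rw [mul_assoc]
    rwa [mul_assoc] at h3
  have h3 : (⟨_, h2⟩ : iner Q) ∈ (MonoidHom.ker R).subgroupOf (iner Q) := by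
    rw [h1]
    exact Subgroup.mem_top _
  have h4 : R (g⁻¹ * τ * g) = 1 := MonoidHom.mem_ker.1 (Subgroup.mem_subgroupOf.1 h3)
  have h5 : τ = g * (g⁻¹ * τ * g) * g⁻¹ := by group
  rw [h5, map_mul, map_mul, h4, mul_one, ← map_mul, mul_inv_cancel, map_one]

omit [TopologicalSpace k] [IsTopologicalRing k] [T2Space k] in
/-- the Frobenius eigenvalues at places with a place whose residue degree is a power of `p` -/
theorem frob_of_degree_p (p : ℕ) [ExpChar k p] (hp : 0 < p)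
    (hatt : ∀ i, AttachedOver (U i) (ρ i) S D)
    {v : HeightOneSpectrum (𝓞 K)} (hv : v ∉ S) (hin : ∀ τ, IsInert v τ → R τ = 1)
    {i : ι} {b : ℕ} {σ₀ : GK K} (hσ₀ : IsFrobPow v (p ^ b) σ₀) (hU : σ₀ ∈ U i) {σ : GK K}
    (hσ : IsFrob v σ) : (R σ⁻¹).charpoly.roots = D v := by
  have h0 := roots_of_frob hR hatt hv (τ := σ₀) (g := 1) (i := i) (by
    rw [inv_one, one_mul, mul_one]
    exact hU) (pow_pos hp b) hσ₀
  obtain ⟨Q, hQ1, hQ2, hσQ⟩ := hσ₀
  obtain ⟨σ₁, hσ₁⟩ := exists_frob_at (v := v) (Q := Q) ⟨hQ1, hQ2⟩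
  have h1 := mul_of_frobPow ⟨hQ1, hQ2⟩ hσ₁ (p ^ b) hσQ
  have h2 : R ((σ₁ ^ p ^ b)⁻¹ * σ₀) = 1 := hin _ (isInert_iff.2 ⟨Q, ⟨hQ1, hQ2⟩, h1⟩)
  have h3 : R σ₀⁻¹ = R σ₁⁻¹ ^ p ^ b := by
    have h4 : σ₀⁻¹ = ((σ₁ ^ p ^ b)⁻¹ * σ₀)⁻¹ * σ₁⁻¹ ^ p ^ b := by
      rw [inv_pow]
      group
    have h5 : R ((σ₁ ^ p ^ b)⁻¹ * σ₀)⁻¹ = 1 := by
      have h6 : R ((σ₁ ^ p ^ b)⁻¹ * σ₀)⁻¹ * R ((σ₁ ^ p ^ b)⁻¹ * σ₀) = 1 := by
        rw [← map_mul, inv_mul_cancel, map_one]
      rwa [h2, mul_one] at h6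
    rw [h4, map_mul, h5, one_mul, map_pow]
  have h4 : eig (R σ₁⁻¹) = D v := by
    have h5 := eig_pow (R σ₁⁻¹) (p ^ b)
    rw [← h3] at h5
    unfold eig at h5
    rw [h0] at h5
    exact (map_frob_inj p b h5).symm
  obtain ⟨g, τ, hτ, h⟩ := conj_frob v σ₁ σ ⟨Q, hQ1, hQ2, hσ₁⟩ hσ
  have h5 : R σ⁻¹ = (inv' R g).conj (R σ₁⁻¹) := by
    have h6 : σ⁻¹ = τ⁻¹ * (g * σ₁⁻¹ * g⁻¹) := by
      rw [h]
      group
    have h7 : R τ⁻¹ = 1 := by
      have h8 : R τ⁻¹ * R τ = 1 := by rw [← map_mul, inv_mul_cancel, map_one]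
      rwa [hin τ hτ, mul_one] at h8
    rw [h6, map_mul, h7, one_mul, map_mul, map_mul]
    rfl
  rw [h5, LinearEquiv.charpoly_conj]
  exact h4

end post

section exact

variable (N : Subgroup (GK K)) [N.Normal]

/-- the positive half -/
theorem exact_pos' (p : ℕ) [ExpChar k p] (hN : IsOpen (N : Set (GK K)))
    (hnc : ¬ IsCyclic (GK K ⧸ N))
    (hG : ¬ ∃ r : ℕ, r.Prime ∧ r ≠ p ∧ IsPGroup r (GK K ⧸ N) ∧ ∃ a b : GK K ⧸ N,
      Subgroup.closure {a, b} = ⊤) : DescendsFor k n N := by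
  classical
  intro S hS D hD
  haveI : Finite (GK K ⧸ N) := Subgroup.quotient_finite_of_isOpen _ hN
  let ι : Type := {U : Subgroup (GK K) // N ≤ U ∧ U ≠ ⊤}
  choose ρ' hρ' using fun i : ι => hD i.1 i.2.1 i.2.2
  let U : ι → Subgroup (GK K) := fun i => i.1
  have hNU : ∀ i, N ≤ U i := fun i => i.2.1
  let ρ : ∀ i, Representation k (U i) (Fin n → k) := ρ'
  have hc : ∀ i, Cts (ρ i) := fun i => (hρ' i).1
  have hirr : ∀ i, (rs (hNU i) (ρ i)).IsIrreducible := fun i => (hρ' i).2.1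
  have hatt : ∀ i, AttachedOver (U i) (ρ i) S D := fun i => (hρ' i).2.2
  have hcov : ∀ σ : GK K, ∃ i : ι, σ ∈ U i := fun σ => by
    obtain ⟨V, h1, h2, h3⟩ := proper_of_notcyclic N hnc σ
    exact ⟨⟨V, h1, h2⟩, h3⟩
  haveI : Nonempty ι := by
    obtain ⟨i, -⟩ := hcov 1
    exact ⟨i⟩
  have hmain : ∃ R : Representation k (GK K) (Fin n → k), Cts R ∧ (rN N R).IsIrreducible ∧
      ∀ i, Nonempty (Representation.Equiv (R.comp (U i).subtype :
        Representation k (U i) (Fin n → k)) (ρ i)) := by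
    by_cases hpg : ∃ r : ℕ, r.Prime ∧ r ≠ p ∧ IsPGroup r (GK K ⧸ N)
    · obtain ⟨r, hr, hrp, hrG⟩ := hpg
      refine main_pairs hS hN hNU (fun x y => ?_) hc hirr hatt
      have h1 : Subgroup.closure {(x : GK K ⧸ N), (y : GK K ⧸ N)} ≠ ⊤ := fun h =>
        hG ⟨r, hr, hrp, hrG, _, _, h⟩
      refine ⟨⟨(Subgroup.closure {(x : GK K ⧸ N), (y : GK K ⧸ N)}).comap (QuotientGroup.mk' N),
        ?_, ?_⟩, ?_, ?_⟩
      · intro ν hν
        rw [Subgroup.mem_comap, show (QuotientGroup.mk' N) ν = 1 from (QuotientGroup.eq_one_iff ν).2 hν]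
        exact Subgroup.one_mem _
      · intro h
        apply h1
        rw [eq_top_iff]
        intro z _
        obtain ⟨z, rfl⟩ := QuotientGroup.mk_surjective z
        have h2 : z ∈ (Subgroup.closure {(x : GK K ⧸ N), (y : GK K ⧸ N)}).comap
            (QuotientGroup.mk' N) := by
          rw [h]
          exact Subgroup.mem_top z
        exact h2
      · exact Subgroup.subset_closure (Set.mem_insert _ _)
      · exact Subgroup.subset_closure (Set.mem_insert_of_mem _ rfl)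
    · refine main_coprime p hS hN hNU (fun q hq hqp => ?_) hc hirr hatt
      obtain ⟨H, hH1, hH2⟩ := proper_index q hq (G := GK K ⧸ N) (fun h => hpg ⟨q, hq, hqp, h⟩)
      refine ⟨⟨H.comap (QuotientGroup.mk' N), ?_, ?_⟩, ?_⟩
      · intro ν hν
        rw [Subgroup.mem_comap, show (QuotientGroup.mk' N) ν = 1 from (QuotientGroup.eq_one_iff ν).2 hν]
        exact Subgroup.one_mem _
      · intro h
        apply hH1
        rw [eq_top_iff]
        intro z _
        obtain ⟨z, rfl⟩ := QuotientGroup.mk_surjective z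
        have h2 : z ∈ H.comap (QuotientGroup.mk' N) := by
          rw [h]
          exact Subgroup.mem_top z
        exact h2
      · change ¬ q ∣ (H.comap (QuotientGroup.mk' N)).index
        rw [Subgroup.index_comap_of_surjective _ (QuotientGroup.mk'_surjective N)]
        exact hH2
  obtain ⟨R, hRc, hRi, hR⟩ := hmain
  refine ⟨R, hRc, hRi, fun v hv => ⟨fun σ hσ => ?_, fun σ hσ => ?_⟩⟩
  · obtain ⟨i, hi⟩ := hcov σ
    exact one_of_inert hR hatt hv (g := 1) (i := i) (by rwa [inv_one, one_mul, mul_one]) hσ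
  · obtain ⟨i, hi⟩ := hcov σ
    have h1 := roots_of_frob hR hatt hv (g := 1) (i := i) (by rwa [inv_one, one_mul, mul_one])
      one_pos (isFrobPow_one.2 hσ)
    rwa [map_pow_one] at h1

/-- the negative half -/
theorem exact_neg' (hN : IsOpen (N : Set (GK K))) (hnc : ¬ IsCyclic (GK K ⧸ N))
    {r : ℕ} (hr : r.Prime) (hrk : (r : k) ≠ 0) (hrG : IsPGroup r (GK K ⧸ N)) {a b : GK K ⧸ N}
    (hab : Subgroup.closure {a, b} = ⊤) : ¬ DescendsFor k 1 N := by
  classical
  haveI : Finite (GK K ⧸ N) := Subgroup.quotient_finite_of_isOpen _ hN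
  haveI : Fact r.Prime := ⟨hr⟩
  obtain ⟨χ, hχc, hχH, x, y, hxy⟩ := exists_twist' (k := k) hrG hrk hnc a b hab
  intro hdes
  let S : Set (HeightOneSpectrum (𝓞 K)) := {v | ∃ τ, IsInert v τ ∧ τ ∉ N}
  have hS : S.Finite := ram_finite N hN
  have hin : ∀ v ∉ S, ∀ τ, IsInert v τ → τ ∈ N := by
    intro v hv τ hτ
    by_contra h
    exact hv ⟨τ, hτ, h⟩
  let D : HeightOneSpectrum (𝓞 K) → Multiset k := fun v =>
    {((χ (((exists_frob v).choose : GK K) : GK K ⧸ N)⁻¹ : kˣ) : k)}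
  have hχ1 : χ 1 = 1 := by
    by_cases h : (⊥ : Subgroup (GK K ⧸ N)) = ⊤
    · exfalso
      apply hnc
      refine ⟨1, fun z => ?_⟩
      have h1 : z ∈ (⊤ : Subgroup (GK K ⧸ N)) := Subgroup.mem_top z
      rw [← h, Subgroup.mem_bot] at h1
      rw [h1]
      exact Subgroup.mem_zpowers 1
    · have h1 := hχH ⊥ h 1 (Subgroup.one_mem _) 1 (Subgroup.one_mem _)
      rw [mul_one] at h1
      exact (mul_eq_left.1 h1.symm)
  have hχp : ∀ (z : GK K ⧸ N) (f : ℕ), χ (z ^ f) = χ z ^ f := by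
    intro z f
    have hz : Subgroup.zpowers z ≠ ⊤ := by
      intro h
      apply hnc
      refine ⟨z, fun w => ?_⟩
      have h1 : w ∈ Subgroup.zpowers z := by
        rw [h]
        exact Subgroup.mem_top w
      exact h1
    induction f with
    | zero => rw [pow_zero, pow_zero, hχ1]
    | succ f ih =>
      rw [pow_succ, hχH _ hz _ (Subgroup.npow_mem_zpowers z f) _ (Subgroup.mem_zpowers z), ih,
        pow_succ]
  -- the data at Frobenius elements
  have hD : ∀ v ∉ S, ∀ (f : ℕ) (σ : GK K), IsFrobPow v f σ →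
      ((D v).map fun z => z ^ f) = {((χ ((σ : GK K ⧸ N)⁻¹) : kˣ) : k)} := by
    intro v hv f σ hσ
    obtain ⟨g, hg⟩ := frobPow_mod N (hin v hv) (exists_frob v).choose_spec hσ
    rw [Multiset.map_singleton, hg]
    have h1 : ((g : GK K ⧸ N) * (((exists_frob v).choose : GK K) : GK K ⧸ N) ^ f *
        (g : GK K ⧸ N)⁻¹)⁻¹ = (g : GK K ⧸ N) * ((((exists_frob v).choose : GK K) :
          GK K ⧸ N)⁻¹) ^ f * (g : GK K ⧸ N)⁻¹ := by
      rw [mul_inv_rev, mul_inv_rev, inv_inv, inv_pow, mul_assoc]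
    rw [h1, hχc, hχp, Units.val_pow_eq_pow_val]
  obtain ⟨R, hRc, -, hR⟩ := hdes S hS D (by
    intro U hU hUt
    let H : Subgroup (GK K ⧸ N) := U.map (QuotientGroup.mk' N)
    have hH : H ≠ ⊤ := by
      intro h
      apply hUt
      rw [eq_top_iff]
      intro σ _
      have h1 : (QuotientGroup.mk' N) σ ∈ H := by
        rw [h]
        exact Subgroup.mem_top _
      obtain ⟨u, hu, hu'⟩ := h1
      have h2 : u⁻¹ * σ ∈ N := by
        rw [← QuotientGroup.eq]
        exact hu'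
      have h3 := U.mul_mem hu (hU h2)
      rwa [mul_inv_cancel_left] at h3
    let X : U →* kˣ := MonoidHom.mk' (fun u => χ ((u : GK K) : GK K ⧸ N)) (fun u w =>
      hχH H hH _ ⟨u, u.2, rfl⟩ _ ⟨w, w.2, rfl⟩)
    have hX : ∀ u : U, X u = χ ((u : GK K) : GK K ⧸ N) := fun _ => rfl
    refine ⟨oneDim X, fun z => ?_, irr_oneDim _, fun v hv => ⟨fun σ hσ => ?_,
      fun f σ hf hσ => ?_⟩⟩
    · have h1 : Continuous fun u : U => ((χ ((u : GK K) : GK K ⧸ N) : kˣ) : k) :=
        (cont_quot N hN (fun w => ((χ w : kˣ) : k))).comp continuous_subtype_val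
      have h2 : Continuous fun u : U => ((χ ((u : GK K) : GK K ⧸ N) : kˣ) : k) • z :=
        h1.smul continuous_const
      exact h2
    · have h1 : ((σ : GK K) : GK K ⧸ N) = 1 := (QuotientGroup.eq_one_iff _).2 (hin v hv _ hσ)
      change ((X σ : kˣ) : k) • LinearMap.id = 1
      rw [hX, h1, hχ1, Units.val_one, one_smul]
      rfl
    · rw [hD v hv f σ hσ]
      change (((X σ⁻¹ : kˣ) : k) • LinearMap.id).charpoly.roots = _
      rw [roots_scalar]
      rfl)
  -- the trace of `R` is `χ`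
  have htr : (fun σ => R.character σ) = fun σ : GK K => ((χ (σ : GK K ⧸ N) : kˣ) : k) := by
    refine eq_of_frob hS (char_cont hRc) (cont_quot N hN (fun w => ((χ w : kˣ) : k)))
      (fun v hv σ hσ => ?_)
    have h1 := (hR v hv).2 σ hσ
    have h2 := hD v hv 1 σ (isFrobPow_one.2 hσ)
    rw [map_pow_one] at h2
    rw [h2] at h1
    have h3 := sum_eig (R σ⁻¹)
    unfold eig at h3
    rw [h1, Multiset.sum_singleton] at h3
    exact h3.symm
  -- `R` is scalar
  have hsc : ∀ σ : GK K, R σ = ((χ (σ : GK K ⧸ N) : kˣ) : k) • LinearMap.id := by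
    intro σ
    have h1 : ∀ T : (Fin 1 → k) →ₗ[k] (Fin 1 → k), T = LinearMap.trace k _ T • LinearMap.id := by
      intro T
      rw [trace_eq]
      ext i j
      have hi : i = 0 := Subsingleton.elim _ _
      have hj : j = 0 := Subsingleton.elim _ _
      subst hi hj
      simp
    rw [h1 (R σ)]
    congr 1
    exact congrFun htr σ
  apply hxy
  obtain ⟨x, rfl⟩ := QuotientGroup.mk_surjective x
  obtain ⟨y, rfl⟩ := QuotientGroup.mk_surjective y
  have h1 : R (x * y) = R x * R y := map_mul _ _ _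
  rw [hsc, hsc, hsc] at h1
  have h2 := congrArg (fun T : (Fin 1 → k) →ₗ[k] (Fin 1 → k) => T (fun _ => 1) 0) h1
  apply Units.ext
  rw [Units.val_mul]
  have h3 : ((χ ((x : GK K ⧸ N) * (y : GK K ⧸ N)) : kˣ) : k) =
      ((χ (y : GK K ⧸ N) : kˣ) : k) * ((χ (x : GK K ⧸ N) : kˣ) : k) := by
    simpa using h2
  rw [h3, mul_comm]

end exact

end Pool.Agent.Q227.CD
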