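import Pool.Agent.Q227.CD.NT5
import Pool.Agent.Q227.CD.MF2
import Pool.Agent.Q15.GR4

/-!
# Descent along extensions of coprime degrees for representations which are multiplicity free over `L`
-/

set_option autoImplicit false
set_option linter.unusedSectionVars false

namespace Pool.Agent.Q227.CD

open NumberField IsDedekindDomain Pool.Agent.W401.Cheb Pool.Agent.W401.Frob MulAction
open Representation Module Pool.Agent.Q15.GR Topology

section compat

variable {k : Type} [Field k] [IsAlgClosed k] {Γ : Type} [Group Γ]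
variable {V : Type} [AddCommGroup V] [Module k V] [FiniteDimensional k V]
variable {N : Subgroup Γ} [N.Normal]
variable {ι : Type} {U : ι → Subgroup Γ} (hU : ∀ i, N ≤ U i) {ρ : ∀ i, Representation k (U i) V}

/-- conjugation by `g` from `W` to `U` -/
def conjTo (g : Γ) {W U : Subgroup Γ} (h : ∀ w : W, g * w * g⁻¹ ∈ U) : W →* U :=
  ((MulAut.conj g).toMonoidHom.comp W.subtype).codRestrict U fun w => h w

include hU in
/-- semisimple representations which are multiplicity free on `N` are compatible if conjugate ones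
become isomorphic on the intersections as soon as they are semisimple -/
theorem compat_of (hss : ∀ i, (rs (hU i) (ρ i)).IsSemisimpleRepresentation)
    (hmf : ∀ i, EndComm (rs (hU i) (ρ i)))
    (hiso : ∀ i j (g : Γ) (W : Subgroup Γ) (hi : W ≤ U i) (hj : ∀ w : W, g * w * g⁻¹ ∈ U j),
      IsSemisimpleRepresentation ((ρ i).comp (Subgroup.inclusion hi) : Representation k W V) →
      IsSemisimpleRepresentation ((ρ j).comp (conjTo g hj) : Representation k W V) →
      Nonempty (Representation.Equiv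
        ((ρ i).comp (Subgroup.inclusion hi) : Representation k W V)
        ((ρ j).comp (conjTo g hj) : Representation k W V))) : Compat ρ := by
  intro i j g
  let W : Subgroup Γ := U i ⊓ (U j).comap (MulAut.conj g).toMonoidHom
  have hi : W ≤ U i := fun w hw => hw.1
  have hj : ∀ w : W, g * w * g⁻¹ ∈ U j := fun w => w.2.2
  have hNW : N ≤ W := fun ν hν => ⟨hU i hν, hU j (‹N.Normal›.conj_mem ν hν g)⟩
  let c : N →* W := Subgroup.inclusion hNW
  have hc : ∀ (w : W) (ν : N), ∃ ν', c ν' = w * c ν * w⁻¹ := by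
    intro w ν
    exact ⟨⟨w * ν * (w : Γ)⁻¹, ‹N.Normal›.conj_mem ν ν.2 w⟩, Subtype.ext rfl⟩
  let γ : N →* N := conjTo g (fun ν : N => ‹N.Normal›.conj_mem ν ν.2 g)
  have hγ : Function.Surjective γ := by
    intro ν
    refine ⟨⟨g⁻¹ * ν * g⁻¹⁻¹, ‹N.Normal›.conj_mem ν ν.2 g⁻¹⟩, Subtype.ext ?_⟩
    change g * (g⁻¹ * ν * g⁻¹⁻¹) * g⁻¹ = ν
    group
  have h1 : IsSemisimpleRepresentation
      ((ρ i).comp (Subgroup.inclusion hi) : Representation k W V) :=
    semi_of_mf _ c hc (hss i) (hmf i)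
  have h2 : IsSemisimpleRepresentation ((ρ j).comp (conjTo g hj) : Representation k W V) :=
    semi_of_mf _ c hc (semi_comp_surj (rs (hU j) (ρ j)) γ hγ (hss j))
      ((hmf j).comp_surj γ hγ)
  obtain ⟨e⟩ := hiso i j g W hi hj h1 h2
  refine ⟨e.toLinearEquiv, fun u h v => ?_⟩
  exact LinearMap.congr_fun (e.toIntertwiningMap.isIntertwining' ⟨u, u.2, h⟩) v

end compat

variable {K : Type} [Field K] [NumberField K]
variable {k : Type} [Field k] [IsAlgClosed k] {n : ℕ}
variable {ι : Type} {U : ι → Subgroup (GK K)} {S : Set (HeightOneSpectrum (𝓞 K))}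
  {D : HeightOneSpectrum (𝓞 K) → Multiset k} {ρ : ∀ i, Representation k (U i) (Fin n → k)}
  {N : Subgroup (GK K)} [N.Normal]

/-- the restriction to `N` of an extension -/
theorem equiv_N (hNU : ∀ i, N ≤ U i) {i : ι} {R : Representation k (GK K) (Fin n → k)}
    (e : Representation.Equiv (R.comp (U i).subtype :
      Representation k (U i) (Fin n → k)) (ρ i)) :
    Nonempty (Representation.Equiv (rs (hNU i) (ρ i)) (rN N R)) := by
  let e' : Representation.Equiv (rN N R) (rs (hNU i) (ρ i)) :=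
    Representation.Equiv.mk e.toLinearEquiv (fun ν =>
      e.toIntertwiningMap.isIntertwining' ⟨ν, hNU i ν.2⟩)
  exact ⟨e'.symm⟩

/-- **descent along extensions with coprime degrees**, characteristic zero -/
theorem main_mf0 [TopologicalSpace k] [IsTopologicalRing k] [T2Space k] [CharZero k] [Nonempty ι]
    (hS : S.Finite) (hN : IsOpen (N : Set (GK K))) (hNU : ∀ i, N ≤ U i)
    (hind : ∀ q : ℕ, q.Prime → ∃ i, ¬ q ∣ (U i).index)
    (hc : ∀ i, Cts (ρ i)) (hss : ∀ i, (rs (hNU i) (ρ i)).IsSemisimpleRepresentation)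
    (hmf : ∀ i, EndComm (rs (hNU i) (ρ i))) (hatt : ∀ i, AttachedOver (U i) (ρ i) S D) :
    ∃ R : Representation k (GK K) (Fin n → k), Cts R ∧ (rN N R).IsSemisimpleRepresentation ∧
      EndComm (rN N R) ∧ ∀ i, Nonempty (Representation.Equiv (R.comp (U i).subtype :
        Representation k (U i) (Fin n → k)) (ρ i)) := by
  have hUo : ∀ i, IsOpen (U i : Set (GK K)) := fun i => open_of_ge hN (hNU i)
  haveI : ∀ i, (U i).FiniteIndex := fun i => finiteIndex_of_open (hUo i)
  obtain ⟨R, hR⟩ := glue_mf hNU 1 (fun q hq _ => hind q hq) ρ hss hmf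
    (compat_of hNU hss hmf (fun i j g W hi hj h1 h2 => by
      refine equiv_of_char _ _ h1 h2 ?_
      funext w
      exact (chars_agree hS hUo hc hatt i j ⟨w, hi w.2⟩ g (hj w)).symm))
  obtain ⟨i⟩ := ‹Nonempty ι›
  haveI : Nonempty ι := ⟨i⟩
  obtain ⟨e⟩ := hR i
  obtain ⟨e'⟩ := equiv_N hNU e
  exact ⟨R, cts_of_res hR hUo hc, semi_congr e' (hss i), (hmf i).equiv e', hR⟩

/-- **descent along extensions with coprime degrees**, discrete coefficients -/
theorem main_mfp [TopologicalSpace k] [DiscreteTopology k] (p : ℕ) [ExpChar k p] [Nonempty ι]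
    (hS : S.Finite) (hN : IsOpen (N : Set (GK K))) (hNU : ∀ i, N ≤ U i)
    (hind : ∀ q : ℕ, q.Prime → q ≠ p → ∃ i, ¬ q ∣ (U i).index)
    (hc : ∀ i, Cts (ρ i)) (hss : ∀ i, (rs (hNU i) (ρ i)).IsSemisimpleRepresentation)
    (hmf : ∀ i, EndComm (rs (hNU i) (ρ i))) (hatt : ∀ i, AttachedOver (U i) (ρ i) S D) :
    ∃ R : Representation k (GK K) (Fin n → k), Cts R ∧ (rN N R).IsSemisimpleRepresentation ∧
      EndComm (rN N R) ∧ ∀ i, Nonempty (Representation.Equiv (R.comp (U i).subtype :
        Representation k (U i) (Fin n → k)) (ρ i)) := by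
  have hUo : ∀ i, IsOpen (U i : Set (GK K)) := fun i => open_of_ge hN (hNU i)
  haveI : ∀ i, (U i).FiniteIndex := fun i => finiteIndex_of_open (hUo i)
  obtain ⟨R, hR⟩ := glue_mf hNU p hind ρ hss hmf
    (compat_of hNU hss hmf (fun i j g W hi hj h1 h2 => by
      refine brauer_nesbitt _ _ h1 h2 (fun w => ?_)
      exact (eigs_agree hS hUo hc hatt i j ⟨w, hi w.2⟩ g (hj w)).symm))
  obtain ⟨i⟩ := ‹Nonempty ι›
  haveI : Nonempty ι := ⟨i⟩
  obtain ⟨e⟩ := hR i
  obtain ⟨e'⟩ := equiv_N hNU e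
  exact ⟨R, cts_of_res hR hUo hc, semi_congr e' (hss i), (hmf i).equiv e', hR⟩

/-- uniqueness -/
theorem main_mf_unique (p : ℕ) [ExpChar k p] [Nonempty ι] [∀ i, (U i).FiniteIndex]
    (hNU : ∀ i, N ≤ U i) (hind : ∀ q : ℕ, q.Prime → q ≠ p → ∃ i, ¬ q ∣ (U i).index)
    {R R' : Representation k (GK K) (Fin n → k)} (hss : (rN N R).IsSemisimpleRepresentation)
    (hmf : EndComm (rN N R))
    (hR : ∀ i, Nonempty (Representation.Equiv (R.comp (U i).subtype :
        Representation k (U i) (Fin n → k)) (ρ i)))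
    (hR' : ∀ i, Nonempty (Representation.Equiv (R'.comp (U i).subtype :
        Representation k (U i) (Fin n → k)) (ρ i))) :
    Nonempty (Representation.Equiv R' R) := by
  refine mf_unique hNU p hind R R' hss hmf (fun i => ?_)
  obtain ⟨e⟩ := hR i
  obtain ⟨e'⟩ := hR' i
  exact ⟨e'.trans e.symm⟩

end Pool.Agent.Q227.CD
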