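import Pool.Agent.Q227.CD.NT6
import Pool.Agent.Q227.CD.Ms

/-!
# Frobenius eigenvalues, stronger form
-/

set_option autoImplicit false
set_option linter.unusedSectionVars false

namespace Pool.Agent.Q227.CD

open NumberField IsDedekindDomain Pool.Agent.W401.Cheb Pool.Agent.W401.Frob MulAction
open Representation Module Pool.Agent.Q15.GR Topology

variable {K : Type} [Field K] [NumberField K]
variable {k : Type} [Field k] [IsAlgClosed k] {n : ℕ}
variable {ι : Type} {U : ι → Subgroup (GK K)} {S : Set (HeightOneSpectrum (𝓞 K))}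
  {D : HeightOneSpectrum (𝓞 K) → Multiset k} {ρ : ∀ i, Representation k (U i) (Fin n → k)}
variable {R : Representation k (GK K) (Fin n → k)}
  (hR : ∀ i, Nonempty (Representation.Equiv (R.comp (U i).subtype :
    Representation k (U i) (Fin n → k)) (ρ i)))

include hR

/-- the Frobenius eigenvalues at places where all ratios of eigenvalues which are roots of unity of
order dividing the degree have prime power order -/
theorem frob_of_ratios' (p : ℕ) [ExpChar k p] [∀ i, (U i).FiniteIndex] {N : Subgroup (GK K)}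
    [N.Normal] [N.FiniteIndex] (hNU : ∀ i, N ≤ U i)
    (hatt : ∀ i, AttachedOver (U i) (ρ i) S D)
    (hind : ∀ q : ℕ, q.Prime → q ≠ p → ∃ i, ¬ q ∣ (U i).index)
    {v : HeightOneSpectrum (𝓞 K)} (hv : v ∉ S) (hin : ∀ τ, IsInert v τ → R τ = 1)
    {σ : GK K} (hσ : IsFrob v σ)
    (hrat : ∀ x ∈ (R σ⁻¹).charpoly.roots, ∀ y ∈ (R σ⁻¹).charpoly.roots,
      x ^ N.index = y ^ N.index → ∃ q e : ℕ, q.Prime ∧ x ^ q ^ e = y ^ q ^ e) :
    (R σ⁻¹).charpoly.roots = D v := by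
  obtain ⟨Q, hQ1, hQ2, hσQ⟩ := hσ
  have hQ : Over v Q := ⟨hQ1, hQ2⟩
  symm
  refine multiset_eq' p _ _ N.index ?_ ?_ hrat (fun q hq hqp => ?_)
  · exact Nat.pos_of_ne_zero Subgroup.FiniteIndex.index_ne_zero
  · have := eig_rep_ne R σ⁻¹
    exact this
  obtain ⟨i, hi⟩ := hind q hq hqp
  obtain ⟨d, τ, g, hd, hdm, hqd, hτ, hg⟩ := exists_degree hQ hσQ hq (U i) N (hNU i) hi
  refine ⟨d, hd, hdm, hqd, ?_⟩
  have h1 : τ = σ ^ d * ((σ ^ d)⁻¹ * τ) := by group
  have h2 : IsFrobPow v d τ := by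
    rw [h1]
    exact isFrobPow_mul hQ hσQ d hτ
  have h3 := roots_of_frob hR hatt hv hg hd h2
  rw [← h3, ← roots_pow]
  congr 2
  have h4 : R ((σ ^ d)⁻¹ * τ)⁻¹ = 1 := by
    have h5 := hin _ (isInert_iff.2 ⟨Q, hQ, hτ⟩)
    have h6 : R ((σ ^ d)⁻¹ * τ)⁻¹ * R ((σ ^ d)⁻¹ * τ) = 1 := by
      rw [← map_mul, inv_mul_cancel, map_one]
    rwa [h5, mul_one] at h6
  have h5 : τ⁻¹ = ((σ ^ d)⁻¹ * τ)⁻¹ * (σ⁻¹) ^ d := by group
  rw [h5, map_mul, h4, one_mul, map_pow]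

/-- the same with the condition on the data -/
theorem frob_of_ratios_D (p : ℕ) [ExpChar k p] [∀ i, (U i).FiniteIndex] {N : Subgroup (GK K)}
    [N.Normal] [N.FiniteIndex] (hNU : ∀ i, N ≤ U i)
    (hatt : ∀ i, AttachedOver (U i) (ρ i) S D)
    (hind : ∀ q : ℕ, q.Prime → q ≠ p → ∃ i, ¬ q ∣ (U i).index)
    {v : HeightOneSpectrum (𝓞 K)} (hv : v ∉ S) (hin : ∀ τ, IsInert v τ → R τ = 1)
    {σ : GK K} (hσ : IsFrob v σ)
    (hrat : ∀ x ∈ D v, ∀ y ∈ D v,
      x ^ N.index = y ^ N.index → ∃ q e : ℕ, q.Prime ∧ x ^ q ^ e = y ^ q ^ e) :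
    (R σ⁻¹).charpoly.roots = D v := by
  obtain ⟨Q, hQ1, hQ2, hσQ⟩ := hσ
  have hQ : Over v Q := ⟨hQ1, hQ2⟩
  have key : ∀ q : ℕ, q.Prime → q ≠ p → ∃ d, 0 < d ∧ d ∣ N.index ∧ ¬ q ∣ d ∧
      ((R σ⁻¹).charpoly.roots.map fun x => x ^ d) = (D v).map fun x => x ^ d := by
    intro q hq hqp
    obtain ⟨i, hi⟩ := hind q hq hqp
    obtain ⟨d, τ, g, hd, hdm, hqd, hτ, hg⟩ := exists_degree hQ hσQ hq (U i) N (hNU i) hi
    refine ⟨d, hd, hdm, hqd, ?_⟩
    have h1 : τ = σ ^ d * ((σ ^ d)⁻¹ * τ) := by group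
    have h2 : IsFrobPow v d τ := by
      rw [h1]
      exact isFrobPow_mul hQ hσQ d hτ
    have h3 := roots_of_frob hR hatt hv hg hd h2
    rw [← h3, ← roots_pow]
    congr 2
    have h4 : R ((σ ^ d)⁻¹ * τ)⁻¹ = 1 := by
      have h5 := hin _ (isInert_iff.2 ⟨Q, hQ, hτ⟩)
      have h6 : R ((σ ^ d)⁻¹ * τ)⁻¹ * R ((σ ^ d)⁻¹ * τ) = 1 := by
        rw [← map_mul, inv_mul_cancel, map_one]
      rwa [h5, mul_one] at h6
    have h5 : τ⁻¹ = ((σ ^ d)⁻¹ * τ)⁻¹ * (σ⁻¹) ^ d := by group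
    rw [h5, map_mul, h4, one_mul, map_pow]
  refine multiset_eq' p _ _ N.index ?_ ?_ hrat key
  · exact Nat.pos_of_ne_zero Subgroup.FiniteIndex.index_ne_zero
  · intro h0
    obtain ⟨q, hq, hqp⟩ : ∃ q : ℕ, q.Prime ∧ q ≠ p := by
      by_cases h2 : p = 2
      · exact ⟨3, Nat.prime_three, by omega⟩
      · exact ⟨2, Nat.prime_two, fun h => h2 h.symm⟩
    obtain ⟨d, hd, -, -, h1⟩ := key q hq hqp
    have h2 : (0 : k) ∈ (D v).map fun x => x ^ d :=
      Multiset.mem_map.2 ⟨0, h0, zero_pow hd.ne'⟩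
    rw [← h1] at h2
    obtain ⟨x, hx, hx0⟩ := Multiset.mem_map.1 h2
    have h3 : x = 0 := pow_eq_zero_iff hd.ne' |>.1 hx0
    have h4 := eig_rep_ne R σ⁻¹
    exact h4 (h3 ▸ hx)

omit hR

section exactmf

variable [TopologicalSpace k] [IsTopologicalRing k] [T2Space k]
variable (N : Subgroup (GK K)) [N.Normal]

/-- a representation over `K` exists if representations exist over all proper subextensions, in the
multiplicity free case, if the group is neither cyclic nor of prime power order -/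
theorem exact_mf [CharZero k] (hN : IsOpen (N : Set (GK K))) (hnc : ¬ IsCyclic (GK K ⧸ N))
    (hG : ¬ ∃ r : ℕ, r.Prime ∧ IsPGroup r (GK K ⧸ N)) (S : Set (HeightOneSpectrum (𝓞 K)))
    (hS : S.Finite) (D : HeightOneSpectrum (𝓞 K) → Multiset k)
    (hD : ∀ (U : Subgroup (GK K)) (hU : N ≤ U), U ≠ ⊤ →
      ∃ ρ : Representation k U (Fin n → k), Cts ρ ∧
        ((rs hU ρ).IsSemisimpleRepresentation ∧ EndComm (rs hU ρ)) ∧ AttachedOver U ρ S D) :
    ∃ R : Representation k (GK K) (Fin n → k), Cts R ∧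
      ((rN N R).IsSemisimpleRepresentation ∧ EndComm (rN N R)) ∧
      ∀ v ∉ S, (∀ σ, IsInert v σ → R σ = 1) ∧ ∀ σ, IsFrob v σ → (R σ⁻¹).charpoly.roots = D v := by
  classical
  haveI : Finite (GK K ⧸ N) := Subgroup.quotient_finite_of_isOpen _ hN
  let ι : Type := {U : Subgroup (GK K) // N ≤ U ∧ U ≠ ⊤}
  choose ρ' hρ' using fun i : ι => hD i.1 i.2.1 i.2.2
  let U : ι → Subgroup (GK K) := fun i => i.1
  have hNU : ∀ i, N ≤ U i := fun i => i.2.1
  let ρ : ∀ i, Representation k (U i) (Fin n → k) := ρ'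
  have hc : ∀ i, Cts (ρ i) := fun i => (hρ' i).1
  have hatt : ∀ i, AttachedOver (U i) (ρ i) S D := fun i => (hρ' i).2.2
  have hcov : ∀ σ : GK K, ∃ i : ι, σ ∈ U i := fun σ => by
    obtain ⟨V, h1, h2, h3⟩ := proper_of_notcyclic N hnc σ
    exact ⟨⟨V, h1, h2⟩, h3⟩
  haveI : Nonempty ι := by
    obtain ⟨i, -⟩ := hcov 1
    exact ⟨i⟩
  obtain ⟨R, hRc, hRs, hRm, hR⟩ := main_mf0 (ρ := ρ) hS hN hNU (fun q hq => by
      obtain ⟨H, hH1, hH2⟩ := proper_index q hq (G := GK K ⧸ N) (fun h => hG ⟨q, hq, h⟩)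
      refine ⟨⟨H.comap (QuotientGroup.mk' N), ?_, ?_⟩, ?_⟩
      · intro ν hν
        rw [Subgroup.mem_comap, show (QuotientGroup.mk' N) ν = 1 from (QuotientGroup.eq_one_iff ν).2 hν]
        exact Subgroup.one_mem _
      · intro h
        apply hH1
        rw [eq_top_iff]
        intro z _
        obtain ⟨z, rfl⟩ := QuotientGroup.mk_surjective z
        have h2 : z ∈ H.comap (QuotientGroup.mk' N) := by
          rw [h]
          exact Subgroup.mem_top z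
        exact h2
      · change ¬ q ∣ (H.comap (QuotientGroup.mk' N)).index
        rw [Subgroup.index_comap_of_surjective _ (QuotientGroup.mk'_surjective N)]
        exact hH2) hc (fun i => (hρ' i).2.1.1) (fun i => (hρ' i).2.1.2) hatt
  refine ⟨R, hRc, ⟨hRs, hRm⟩, fun v hv => ⟨fun σ hσ => ?_, fun σ hσ => ?_⟩⟩
  · obtain ⟨i, hi⟩ := hcov σ
    exact one_of_inert hR hatt hv (g := 1) (i := i) (by rwa [inv_one, one_mul, mul_one]) hσ
  · obtain ⟨i, hi⟩ := hcov σ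
    have h1 := roots_of_frob hR hatt hv (g := 1) (i := i) (by rwa [inv_one, one_mul, mul_one])
      one_pos (isFrobPow_one.2 hσ)
    rwa [map_pow_one] at h1

end exactmf

end Pool.Agent.Q227.CD
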