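import Pool.Agent.Q227.CD.Lower
import Pool.Agent.Q227.TF.Pol
import Pool.Agent.H671R2.PolyAuto

/-!
# Chromatic discrepancy: the instances
-/

set_option autoImplicit false

namespace Pool.Agent.Q227.CD

open Pool.Agent.NPC Pool.Agent.NPC.H632

/-- The number `q`, if it is at most the number of triples. -/
def qq (I : XI) : ℕ := I.1.length - (I.1.length - I.2)

/-- The number of copies. -/
def MM (I : XI) : ℕ := 3 * qq I * (2 * qq I + 1)

/-- `e` is an element of the triple with the number `j`. -/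
def inB (S : List (ℕ × ℕ × ℕ)) (e j : ℕ) : Bool :=
  match S[j]? with
  | some t => decide (e = t.1) || (decide (e = t.2.1) || decide (e = t.2.2))
  | none => false

theorem inB_iff {S : List (ℕ × ℕ × ℕ)} {e j : ℕ} : inB S e j = true ↔
    ∃ t, S[j]? = some t ∧ e ∈ el t := by
  unfold inB
  cases h : S[j]? with
  | none => simp
  | some t => simp [el]

/-- The list of the vertices. -/
def VL (I : XI) : List Cd :=
  ((List.range (3 * qq I) ×ˢ (List.range I.1.length ×ˢ List.range (MM I))).filter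
    fun v => inB I.1 v.1 v.2.1) ++ [(3 * qq I, I.1.length, 0)]

theorem qq_eq {I : XI} (h : Q229.X3Ok I) : qq I = I.2 := by
  have := h.le
  unfold qq
  omega

theorem isVL {I : XI} (h : Q229.X3Ok I) : IsVL I (MM I) (VL I) := by
  rintro ⟨e, j, a⟩
  unfold VL
  rw [qq_eq h]
  simp only [List.mem_append, List.mem_filter, List.mem_singleton, inB_iff]
  constructor
  · rintro (⟨h1, h2⟩ | h1)
    · have h3 := List.pair_mem_product.1 h1
      have h4 := List.pair_mem_product.1 h3.2
      rw [List.mem_range] at h3 h4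
      exact Or.inl ⟨h3.1, List.mem_range.1 h4.2, h2⟩
    · exact Or.inr h1
  · rintro (⟨h1, h2, t, ht, h3⟩ | h1)
    · obtain ⟨hj, _⟩ := List.getElem?_eq_some_iff.1 ht
      exact Or.inl ⟨List.pair_mem_product.2 ⟨List.mem_range.2 h1,
        List.pair_mem_product.2 ⟨List.mem_range.2 hj, List.mem_range.2 h2⟩⟩, t, ht, h3⟩
    · exact Or.inr h1

theorem VL_nodup (I : XI) : (VL I).Nodup := by
  unfold VL
  refine List.Nodup.append ((List.nodup_range.product
    (List.nodup_range.product List.nodup_range)).filter _) (List.nodup_singleton _) ?_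
  intro v h1 h2
  rw [List.mem_singleton] at h2
  subst h2
  have h3 := List.pair_mem_product.1 (List.mem_filter.1 h1).1
  rw [List.mem_range] at h3
  omega

/-- The instance. -/
def inst (I : XI) : List (List Bool) × ℕ := (mkM (VL I) adj, 2 * qq I - 1)

theorem inst_phi {I : XI} (h : Q229.X3Ok I) : X3C I ↔ ¬ phi (matGraph (inst I).1) ≤ (inst I).2 := by
  obtain ⟨e⟩ := mkM_iso (VL_nodup I) adj adj_symm adj_irrefl
  have e1 : phi (matGraph (inst I).1) = phi (RG (VL I)) := phi_iso e
  have hq := h.pos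
  have h2 : (inst I).2 = 2 * I.2 - 1 := by
    unfold inst
    rw [qq_eq h]
  rw [e1, h2]
  constructor
  · intro hy hle
    have h3 := le_phiHat_of (isVL h) h hy (by unfold MM; rw [qq_eq h])
    have h4 := phiHat_le_phi (G := RG (VL I))
    omega
  · intro hlt
    by_contra hno
    exact hlt (phi_le_of (isVL h) h hno)

theorem inst_phiHat {I : XI} (h : Q229.X3Ok I) :
    X3C I ↔ ¬ phiHat (matGraph (inst I).1) ≤ (inst I).2 := by
  obtain ⟨e⟩ := mkM_iso (VL_nodup I) adj adj_symm adj_irrefl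
  have e1 : phiHat (matGraph (inst I).1) = phiHat (RG (VL I)) := phiHat_iso e
  have hq := h.pos
  have h2 : (inst I).2 = 2 * I.2 - 1 := by
    unfold inst
    rw [qq_eq h]
  rw [e1, h2]
  constructor
  · intro hy hle
    have h3 := le_phiHat_of (isVL h) h hy (by unfold MM; rw [qq_eq h])
    omega
  · intro hlt
    by_contra hno
    exact hlt (phiHat_le_phi.trans (phi_le_of (isVL h) h hno))

/-! ### Running time -/

theorem qq_upoly : UPoly qq :=
  UPoly.of_le (by unfold qq; fun_prop) (UPoly.length (NPC.Poly.fst NPC.Poly.id))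
    fun _ => Nat.sub_le _ _

theorem MM_upoly : UPoly MM :=
  UPoly.mul (UPoly.mul (UPoly.const 3) qq_upoly)
    (UPoly.add (UPoly.mul (UPoly.const 2) qq_upoly) (UPoly.const 1))

theorem inB_poly {α : Type} [TEnc α] {S : α → List (ℕ × ℕ × ℕ)} {e j : α → ℕ}
    (hS : NPC.Poly S) (he : NPC.Poly e) (hj : NPC.Poly j) :
    NPC.Poly (fun a => inB (S a) (e a) (j a)) := by
  have hp : NPC.Poly (fun p : α × (ℕ × ℕ × ℕ) => e p.1) := he.comp (NPC.Poly.fst NPC.Poly.id)
  have hc : NPC.Poly (fun p : α × (ℕ × ℕ × ℕ) => p.2) := NPC.Poly.snd NPC.Poly.id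
  refine (NPC.Poly.optCases (o := fun a => (S a)[j a]?) (g := fun _ => false)
    (h := fun a t => decide (e a = t.1) || (decide (e a = t.2.1) || decide (e a = t.2.2)))
    (NPC.Poly.getElem? hS hj) (NPC.Poly.const _) ?_).congr ?_
  · exact NPC.Poly.or (NPC.Poly.decide_eq hp (NPC.Poly.fst hc))
      (NPC.Poly.or (NPC.Poly.decide_eq hp (NPC.Poly.fst (NPC.Poly.snd hc)))
        (NPC.Poly.decide_eq hp (NPC.Poly.snd (NPC.Poly.snd hc))))
  · intro a
    unfold inB
    cases (S a)[j a]? <;> rfl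

theorem VL_poly : NPC.Poly VL := by
  have hS : NPC.Poly (fun I : XI => I.1) := NPC.Poly.fst NPC.Poly.id
  have h1 : NPC.Poly (fun I : XI => List.range (3 * qq I)) :=
    (UPoly.mul (UPoly.const 3) qq_upoly).range
  have h2 : NPC.Poly (fun I : XI => List.range I.1.length) := (UPoly.length hS).range
  have h3 : NPC.Poly (fun I : XI => List.range (MM I)) := MM_upoly.range
  have hq : NPC.Poly qq := qq_upoly.toPoly
  unfold VL
  refine NPC.Poly.append (NPC.Poly.filter (p := fun (I : XI) (v : Cd) => inB I.1 v.1 v.2.1)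
    (TF.product_poly h1 (TF.product_poly h2 h3)) ?_) ?_
  · exact inB_poly (NPC.Poly.fst (NPC.Poly.fst NPC.Poly.id)) (NPC.Poly.fst (NPC.Poly.snd NPC.Poly.id))
      (NPC.Poly.fst (NPC.Poly.snd (NPC.Poly.snd NPC.Poly.id)))
  · exact NPC.Poly.cons (NPC.Poly.pair (NPC.Poly.mul (NPC.Poly.const 3) hq)
      (NPC.Poly.pair (NPC.Poly.length hS) (NPC.Poly.const 0))) (NPC.Poly.const [])

theorem inst_poly : NPC.Poly inst := by
  have hq : NPC.Poly qq := qq_upoly.toPoly
  refine NPC.Poly.pair ?_ ?_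
  · refine mkM_poly (α := XI) (L := VL) (adj := fun _ => adj) VL_poly ?_
    unfold adj
    have h1 : NPC.Poly (fun p : XI × Cd × Cd => p.2.1) := NPC.Poly.fst (NPC.Poly.snd NPC.Poly.id)
    have h2 : NPC.Poly (fun p : XI × Cd × Cd => p.2.2) := NPC.Poly.snd (NPC.Poly.snd NPC.Poly.id)
    refine (NPC.Poly.and (NPC.Poly.not (NPC.Poly.decide_eq (NPC.Poly.fst h1) (NPC.Poly.fst h2)))
      (NPC.Poly.not (NPC.Poly.decide_eq (NPC.Poly.snd h1) (NPC.Poly.snd h2)))).congr ?_
    intro p
    simp
  · exact NPC.Poly.sub (NPC.Poly.mul (NPC.Poly.const 2) hq) (NPC.Poly.const 1)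

end Pool.Agent.Q227.CD
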