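import Pool.Agent.Q227.CD.Z1
import Pool.Agent.Q227.CD.NT7
import Pool.Agent.Q227.CD.Cliff

/-!
# Descent of Galois representations with arbitrary coefficient fields of characteristic zero
-/

set_option autoImplicit false
set_option linter.unusedSectionVars false

namespace Pool.Agent.Q227.CD.Z

open NumberField IsDedekindDomain Pool.Agent.W401.Cheb Pool.Agent.W401.Frob MulAction
open Representation Module Pool.Agent.Q15.GR Topology
open Pool.Agent.Q227.CD (rs rN EndComm Compat conjTo IsFrobPow isFrobPow_one isFrobPow_mul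
  isFrobPow_conj exists_degree index_dvd_card open_of_ge finiteIndex_of_open inv' clifford
  semi_of_mf)

section compat

variable {k : Type} [Field k] {Γ : Type} [Group Γ]
variable {V : Type} [AddCommGroup V] [Module k V] [FiniteDimensional k V]
variable {N : Subgroup Γ} [N.Normal]
variable {ι : Type} {U : ι → Subgroup Γ} (hU : ∀ i, N ≤ U i) {ρ : ∀ i, Representation k (U i) V}

theorem conj_cond {G H : Type} [Group G] [Group H] (φ : H →* G) (hφ : Function.Surjective φ)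
    (g : G) (h : H) : ∃ h', φ h' = g * φ h * g⁻¹ := hφ _

include hU in
/-- semisimple representations which are multiplicity free on `N` are compatible if conjugate ones
become isomorphic on the intersections as soon as they are semisimple -/
theorem compat_of (hss : ∀ i, (rs (hU i) (ρ i)).IsSemisimpleRepresentation)
    (hmf : ∀ i, EndComm (rs (hU i) (ρ i)))
    (hiso : ∀ i j (g : Γ) (W : Subgroup Γ) (hi : W ≤ U i) (hj : ∀ w : W, g * w * g⁻¹ ∈ U j),
      IsSemisimpleRepresentation ((ρ i).comp (Subgroup.inclusion hi) : Representation k W V) →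
      IsSemisimpleRepresentation ((ρ j).comp (conjTo g hj) : Representation k W V) →
      Nonempty (Representation.Equiv
        ((ρ i).comp (Subgroup.inclusion hi) : Representation k W V)
        ((ρ j).comp (conjTo g hj) : Representation k W V))) : Compat ρ := by
  intro i j g
  let W : Subgroup Γ := U i ⊓ (U j).comap (MulAut.conj g).toMonoidHom
  have hi : W ≤ U i := fun w hw => hw.1
  have hj : ∀ w : W, g * w * g⁻¹ ∈ U j := fun w => w.2.2
  have hNW : N ≤ W := fun ν hν => ⟨hU i hν, hU j (‹N.Normal›.conj_mem ν hν g)⟩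
  let c : N →* W := Subgroup.inclusion hNW
  have hc : ∀ (w : W) (ν : N), ∃ ν', c ν' = w * c ν * w⁻¹ := by
    intro w ν
    exact ⟨⟨w * ν * (w : Γ)⁻¹, ‹N.Normal›.conj_mem ν ν.2 w⟩, Subtype.ext rfl⟩
  let γ : N →* N := conjTo g (fun ν : N => ‹N.Normal›.conj_mem ν ν.2 g)
  have hγ : Function.Surjective γ := by
    intro ν
    refine ⟨⟨g⁻¹ * ν * g⁻¹⁻¹, ‹N.Normal›.conj_mem ν ν.2 g⁻¹⟩, Subtype.ext ?_⟩
    change g * (g⁻¹ * ν * g⁻¹⁻¹) * g⁻¹ = ν
    group
  have h1 : IsSemisimpleRepresentation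
      ((ρ i).comp (Subgroup.inclusion hi) : Representation k W V) :=
    semi_of_mf _ c hc (hss i) (hmf i)
  have h2 : IsSemisimpleRepresentation ((ρ j).comp (conjTo g hj) : Representation k W V) :=
    semi_of_mf _ c hc (clifford (rs (hU j) (ρ j)) γ (conj_cond γ hγ) (hss j))
      ((hmf j).comp_surj γ hγ)
  obtain ⟨e⟩ := hiso i j g W hi hj h1 h2
  refine ⟨e.toLinearEquiv, fun u h v => ?_⟩
  exact LinearMap.congr_fun (e.toIntertwiningMap.isIntertwining' ⟨u, u.2, h⟩) v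

end compat

variable {K : Type} [Field K] [NumberField K]
variable {k : Type} [Field k] {n : ℕ}
variable {ι : Type} {U : ι → Subgroup (GK K)} {S : Set (HeightOneSpectrum (𝓞 K))}
  {ρ : ∀ i, Representation k (U i) (Fin n → k)} {N : Subgroup (GK K)} [N.Normal]

/-- **the characters agree on conjugate elements** -/
theorem chars_agree [TopologicalSpace k] [IsTopologicalRing k] [T2Space k]
    {a : HeightOneSpectrum (𝓞 K) → k} (hS : S.Finite) (hUo : ∀ i, IsOpen (U i : Set (GK K)))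
    (hc : ∀ i, Cts (ρ i))
    (ha : ∀ i, ∀ v ∉ S, ∀ σ : U i, IsFrob v (σ : GK K) → (ρ i).character σ = a v)
    (i j : ι) (x : U i) (g : GK K)
    (h : g * x * g⁻¹ ∈ U j) : (ρ j).character ⟨g * x * g⁻¹, h⟩ = (ρ i).character x := by
  let W : Set (GK K) := {y | y ∈ U i ∧ g * y * g⁻¹ ∈ U j}
  have hcj : Continuous fun y : GK K => g * y * g⁻¹ :=
    (continuous_const.mul continuous_id).mul continuous_const
  have hW : IsOpen W := (hUo i).inter ((hUo j).preimage hcj)
  let F1 : W → k := fun w => (ρ i).character ⟨w, w.2.1⟩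
  let F2 : W → k := fun w => (ρ j).character ⟨g * w * g⁻¹, w.2.2⟩
  have hF1 : Continuous F1 := (char_cont (hc i)).comp (continuous_subtype_val.subtype_mk _)
  have hF2 : Continuous F2 := (char_cont (hc j)).comp
    ((hcj.comp continuous_subtype_val).subtype_mk _)
  have hcl : IsClosed {w | F2 w = F1 w} := isClosed_eq hF2 hF1
  by_contra hne
  have hmem : (⟨x, x.2, h⟩ : W) ∈ {w | F2 w = F1 w}ᶜ := hne
  have ho : IsOpen (Subtype.val '' ({w | F2 w = F1 w}ᶜ : Set W)) :=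
    hW.isOpenMap_subtype_val _ hcl.isOpen_compl
  have hd := frob_dense S hS
  obtain ⟨σ, hσ1, v, hv, hσ⟩ := hd.inter_open_nonempty _ ho ⟨x, _, hmem, rfl⟩
  obtain ⟨w, hw, hwσ⟩ := hσ1
  apply hw
  have hwf : IsFrob v (w : GK K) := by
    rw [hwσ]
    exact hσ
  change (ρ j).character ⟨g * w * g⁻¹, w.2.2⟩ = (ρ i).character ⟨w, w.2.1⟩
  rw [ha i v hv ⟨w, w.2.1⟩ hwf]
  exact ha j v hv ⟨g * w * g⁻¹, w.2.2⟩ (isFrob_conj hwf g)

/-- the restriction to `N` of an extension -/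
theorem equiv_N (hNU : ∀ i, N ≤ U i) {i : ι} {R : Representation k (GK K) (Fin n → k)}
    (e : Representation.Equiv (R.comp (U i).subtype :
      Representation k (U i) (Fin n → k)) (ρ i)) :
    Nonempty (Representation.Equiv (rs (hNU i) (ρ i)) (rN N R)) := by
  let e' : Representation.Equiv (rN N R) (rs (hNU i) (ρ i)) :=
    Representation.Equiv.mk e.toLinearEquiv (fun ν =>
      e.toIntertwiningMap.isIntertwining' ⟨ν, hNU i ν.2⟩)
  exact ⟨e'.symm⟩

section post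

variable {R : Representation k (GK K) (Fin n → k)}
  (hR : ∀ i, Nonempty (Representation.Equiv (R.comp (U i).subtype :
    Representation k (U i) (Fin n → k)) (ρ i)))

include hR

theorem cts_of_res [TopologicalSpace k] [IsTopologicalRing k] [T2Space k] [Nonempty ι]
    (hUo : ∀ i, IsOpen (U i : Set (GK K))) (hc : ∀ i, Cts (ρ i)) : Cts R := by
  obtain ⟨i⟩ := ‹Nonempty ι›
  obtain ⟨e⟩ := hR i
  intro x
  have h1 : ContinuousOn (fun g => R g x) (U i : Set (GK K)) := by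
    rw [continuousOn_iff_continuous_restrict]
    have h2 : ∀ g : U i, R g x = e.toLinearEquiv.symm (ρ i g (e.toLinearEquiv x)) := by
      intro g
      rw [LinearEquiv.eq_symm_apply]
      exact LinearMap.congr_fun (e.toIntertwiningMap.isIntertwining' g) x
    have h3 : Set.domRestrict (U i : Set (GK K)) (fun g => R g x) =
        fun g : U i => e.toLinearEquiv.symm (ρ i g (e.toLinearEquiv x)) := by
      funext g
      exact h2 g
    rw [h3]
    exact (lin_cont e.toLinearEquiv.symm.toLinearMap).comp (hc i _)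
  rw [continuous_iff_continuousAt]
  intro g₀
  have h4 : (fun g => R g x) = fun g => R g₀ (R (g₀⁻¹ * g) x) := by
    funext g
    rw [← Module.End.mul_apply, ← map_mul, mul_inv_cancel_left]
  rw [h4]
  have h5 : ContinuousAt (fun g => R g x) (g₀⁻¹ * g₀) := by
    rw [inv_mul_cancel]
    exact h1.continuousAt ((hUo i).mem_nhds (U i).one_mem)
  have h6 : ContinuousAt (fun g => R (g₀⁻¹ * g) x) g₀ :=
    ContinuousAt.comp (f := fun g => g₀⁻¹ * g) (g := fun g => R g x) h5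
      (continuous_mul_left g₀⁻¹).continuousAt
  exact (lin_cont (R g₀)).continuousAt.comp h6

/-- values on conjugates of elements of `U i` -/
theorem conj_val {τ g : GK K} {i : ι} (hg : g⁻¹ * τ * g ∈ U i) :
    ∃ e : (Fin n → k) ≃ₗ[k] (Fin n → k), R τ = e.conj (ρ i ⟨g⁻¹ * τ * g, hg⟩) := by
  obtain ⟨e⟩ := hR i
  refine ⟨e.toLinearEquiv.symm.trans (inv' R g), LinearMap.ext fun x => ?_⟩
  have h1 : ∀ y, e.toLinearEquiv (R (g⁻¹ * τ * g) y) = ρ i ⟨g⁻¹ * τ * g, hg⟩ (e.toLinearEquiv y) :=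
    fun y => LinearMap.congr_fun (e.toIntertwiningMap.isIntertwining' ⟨_, hg⟩) y
  change R τ x = R g (e.toLinearEquiv.symm (ρ i ⟨g⁻¹ * τ * g, hg⟩ (e.toLinearEquiv (R g⁻¹ x))))
  rw [← h1, LinearEquiv.symm_apply_apply, ← Module.End.mul_apply, ← Module.End.mul_apply,
    ← map_mul, ← map_mul]
  congr 2
  group

theorem one_of_inert (hunr : ∀ i, ∀ v ∉ S, ∀ σ : U i, IsInert v (σ : GK K) → ρ i σ = 1)
    {v : HeightOneSpectrum (𝓞 K)}
    (hv : v ∉ S) {τ g : GK K} {i : ι} (hg : g⁻¹ * τ * g ∈ U i) (hτ : IsInert v τ) : R τ = 1 := by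
  obtain ⟨e, he⟩ := conj_val hR hg
  have h1 : IsInert v (g⁻¹ * τ * g) := by
    have := isInert_conj hτ g⁻¹
    rwa [inv_inv] at this
  rw [he, hunr i v hv ⟨g⁻¹ * τ * g, hg⟩ h1]
  refine LinearMap.ext fun x => ?_
  change e (e.symm x) = x
  exact e.apply_symm_apply x

/-- the image of inertia has an order prime to all prime numbers -/
theorem inertia_index [∀ i, (U i).FiniteIndex]
    (hunr : ∀ i, ∀ v ∉ S, ∀ σ : U i, IsInert v (σ : GK K) → ρ i σ = 1)
    {v : HeightOneSpectrum (𝓞 K)} (hv : v ∉ S) {Q : Ideal (𝓞 (AlgebraicClosure K))}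
    (hQ : Over v Q) (i : ι) : ((MonoidHom.ker R).subgroupOf (iner Q)).index ∣ (U i).index := by
  haveI : Finite (GK K ⧸ U i) := Subgroup.finite_quotient_of_finiteIndex
  refine index_dvd_card (X := GK K ⧸ U i) _ (fun x => ?_)
  obtain ⟨g, rfl⟩ := QuotientGroup.mk_surjective x
  intro τ hτ
  rw [Subgroup.mem_subgroupOf, MonoidHom.mem_ker]
  rw [mem_stabilizer_iff] at hτ
  change (QuotientGroup.mk ((τ : GK K) * g) : GK K ⧸ U i) = QuotientGroup.mk g at hτ
  rw [eq_comm, QuotientGroup.eq] at hτ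
  refine one_of_inert hR hunr hv (i := i) (g := g) ?_ (isInert_iff.2 ⟨Q, hQ, τ.2⟩)
  rwa [mul_assoc]

theorem inertia_one [∀ i, (U i).FiniteIndex]
    (hunr : ∀ i, ∀ v ∉ S, ∀ σ : U i, IsInert v (σ : GK K) → ρ i σ = 1)
    (hind : ∀ q : ℕ, q.Prime → ∃ i, ¬ q ∣ (U i).index)
    {v : HeightOneSpectrum (𝓞 K)} (hv : v ∉ S) {τ : GK K} (hτ : IsInert v τ) : R τ = 1 := by
  obtain ⟨Q, hQ, hτ⟩ := isInert_iff.1 hτ
  have h1 : ((MonoidHom.ker R).subgroupOf (iner Q)).index = 1 := by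
    by_contra hne
    obtain ⟨q, hq, hqd⟩ := Nat.exists_prime_and_dvd hne
    obtain ⟨i, hi⟩ := hind q hq
    exact hi (hqd.trans (inertia_index hR hunr hv hQ i))
  rw [Subgroup.index_eq_one] at h1
  have h2 : (⟨τ, hτ⟩ : iner Q) ∈ (MonoidHom.ker R).subgroupOf (iner Q) := by
    rw [h1]
    exact Subgroup.mem_top _
  exact MonoidHom.mem_ker.1 (Subgroup.mem_subgroupOf.1 h2)

omit hR in
theorem inv_one_of {τ : GK K} (h : R τ = 1) : R τ⁻¹ = 1 := by
  have h4 : R τ⁻¹ * R τ = 1 := by rw [← map_mul, inv_mul_cancel, map_one]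
  rwa [h, mul_one] at h4

/-- Frobenius elements at places with a place of degree one -/
theorem degree_one {v : HeightOneSpectrum (𝓞 K)} (hin : ∀ τ, IsInert v τ → R τ = 1)
    {i : ι} {σ₀ : GK K} (hσ₀ : IsFrob v σ₀) (hU : σ₀ ∈ U i) {σ : GK K} (hσ : IsFrob v σ) :
    ∃ e : (Fin n → k) ≃ₗ[k] (Fin n → k), R σ = e.conj (ρ i ⟨σ₀, hU⟩) := by
  obtain ⟨g, τ, hτ, h⟩ := conj_frob v σ₀ σ hσ₀ hσ
  have h2 : g⁻¹ * (g * σ₀ * g⁻¹) * g = σ₀ := by group
  obtain ⟨e, he⟩ := conj_val hR (τ := g * σ₀ * g⁻¹) (g := g) (i := i) (by rwa [h2])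
  refine ⟨e, ?_⟩
  have h3 : (⟨g⁻¹ * (g * σ₀ * g⁻¹) * g, by rwa [h2]⟩ : U i) = ⟨σ₀, hU⟩ := Subtype.ext h2
  rw [h3] at he
  rw [← he, h, map_mul, hin τ hτ, mul_one]

/-- powers of Frobenius elements -/
theorem powers [∀ i, (U i).FiniteIndex] [N.FiniteIndex] (hNU : ∀ i, N ≤ U i)
    (hind : ∀ q : ℕ, q.Prime → ∃ i, ¬ q ∣ (U i).index)
    {v : HeightOneSpectrum (𝓞 K)} (hin : ∀ τ, IsInert v τ → R τ = 1)
    {σ : GK K} (hσ : IsFrob v σ) {q : ℕ} (hq : q.Prime) :
    ∃ (i : ι) (d : ℕ) (τ : U i) (e : (Fin n → k) ≃ₗ[k] (Fin n → k)), 0 < d ∧ d ∣ N.index ∧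
      ¬ q ∣ d ∧ IsFrobPow v d (τ : GK K) ∧ R σ ^ d = e.conj (ρ i τ) := by
  obtain ⟨Q, hQ1, hQ2, hσQ⟩ := hσ
  have hQ : Over v Q := ⟨hQ1, hQ2⟩
  obtain ⟨i, hi⟩ := hind q hq
  obtain ⟨d, τ, g, hd, hdm, hqd, hτ, hg⟩ := exists_degree hQ hσQ hq (U i) N (hNU i) hi
  obtain ⟨e, he⟩ := conj_val hR hg
  have h1 : τ = σ ^ d * ((σ ^ d)⁻¹ * τ) := by group
  have h2 : IsFrobPow v d τ := by
    rw [h1]
    exact isFrobPow_mul hQ hσQ d hτ
  refine ⟨i, d, ⟨g⁻¹ * τ * g, hg⟩, e, hd, hdm, hqd, ?_, ?_⟩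
  · have := isFrobPow_conj h2 g⁻¹
    rwa [inv_inv] at this
  · rw [← he, h1, map_mul, hin _ (isInert_iff.2 ⟨Q, hQ, hτ⟩), mul_one, map_pow]

end post

/-- **descent along extensions with coprime degrees**, characteristic zero -/
theorem main [TopologicalSpace k] [IsTopologicalRing k] [T2Space k] [CharZero k] [Nonempty ι]
    {a : HeightOneSpectrum (𝓞 K) → k}
    (hS : S.Finite) (hN : IsOpen (N : Set (GK K))) (hNU : ∀ i, N ≤ U i)
    (hind : ∀ q : ℕ, q.Prime → ∃ i, ¬ q ∣ (U i).index)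
    (hc : ∀ i, Cts (ρ i)) (hss : ∀ i, (rs (hNU i) (ρ i)).IsSemisimpleRepresentation)
    (hmf : ∀ i, EndComm (rs (hNU i) (ρ i)))
    (ha : ∀ i, ∀ v ∉ S, ∀ σ : U i, IsFrob v (σ : GK K) → (ρ i).character σ = a v) :
    ∃ R : Representation k (GK K) (Fin n → k), Cts R ∧ (rN N R).IsSemisimpleRepresentation ∧
      EndComm (rN N R) ∧ ∀ i, Nonempty (Representation.Equiv (R.comp (U i).subtype :
        Representation k (U i) (Fin n → k)) (ρ i)) := by
  have hUo : ∀ i, IsOpen (U i : Set (GK K)) := fun i => open_of_ge hN (hNU i)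
  haveI : ∀ i, (U i).FiniteIndex := fun i => finiteIndex_of_open (hUo i)
  obtain ⟨R, hR⟩ := glue_mf hNU hind ρ hmf
    (compat_of hNU hss hmf (fun i j g W hi hj h1 h2 => by
      refine equiv_of_char _ _ h1 h2 ?_
      funext w
      exact (chars_agree hS hUo hc ha i j ⟨w, hi w.2⟩ g (hj w)).symm))
  obtain ⟨i⟩ := ‹Nonempty ι›
  haveI : Nonempty ι := ⟨i⟩
  obtain ⟨e⟩ := hR i
  obtain ⟨e'⟩ := equiv_N hNU e
  exact ⟨R, cts_of_res hR hUo hc, semi_congr e' (hss i), (hmf i).equiv e', hR⟩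

/-- uniqueness -/
theorem main_unique [Nonempty ι] [∀ i, (U i).FiniteIndex]
    (hNU : ∀ i, N ≤ U i) (hind : ∀ q : ℕ, q.Prime → ∃ i, ¬ q ∣ (U i).index)
    {R R' : Representation k (GK K) (Fin n → k)} (hmf : EndComm (rN N R))
    (hR : ∀ i, Nonempty (Representation.Equiv (R.comp (U i).subtype :
        Representation k (U i) (Fin n → k)) (ρ i)))
    (hR' : ∀ i, Nonempty (Representation.Equiv (R'.comp (U i).subtype :
        Representation k (U i) (Fin n → k)) (ρ i))) :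
    Nonempty (Representation.Equiv R' R) := by
  refine mf_unique hNU hind R R' hmf (fun i => ?_)
  obtain ⟨e⟩ := hR i
  obtain ⟨e'⟩ := hR' i
  exact ⟨e'.trans e.symm⟩

end Pool.Agent.Q227.CD.Z
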