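import Pool.Agent.Q227.CD.Z2

/-!
# Two-dimensional representations: traces and determinants
-/

set_option autoImplicit false
set_option linter.unusedSectionVars false

namespace Pool.Agent.Q227.CD.Z

open Module

/-- the sum of the `f`-th powers of the roots of `X² - a X + c` -/
def tpow {R : Type*} [CommRing R] (a c : R) : ℕ → R
  | 0 => 2
  | 1 => a
  | (f + 2) => a * tpow a c (f + 1) - c * tpow a c f

theorem tpow_eq {R : Type*} [CommRing R] (x y : R) : ∀ f : ℕ,
    tpow (x + y) (x * y) f = x ^ f + y ^ f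
  | 0 => by rw [tpow, pow_zero, pow_zero]; norm_num
  | 1 => by rw [tpow, pow_one, pow_one]
  | (f + 2) => by
    rw [tpow, tpow_eq x y (f + 1), tpow_eq x y f]
    ring

theorem tpow_map {R R' : Type*} [CommRing R] [CommRing R'] (φ : R →+* R') (a c : R) : ∀ f : ℕ,
    φ (tpow a c f) = tpow (φ a) (φ c) f
  | 0 => by rw [tpow, tpow, map_ofNat]
  | 1 => rfl
  | (f + 2) => by
    rw [tpow, tpow, map_sub, map_mul, map_mul, tpow_map φ a c (f + 1), tpow_map φ a c f]

section dim2

variable {k : Type} [Field k]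

/-- Cayley-Hamilton in dimension two -/
theorem cayley (A : (Fin 2 → k) →ₗ[k] (Fin 2 → k)) :
    A * A = LinearMap.trace k _ A • A - LinearMap.det A • 1 := by
  apply LinearMap.toMatrix'.injective
  have h1 : LinearMap.toMatrix' (A * A) = LinearMap.toMatrix' A * LinearMap.toMatrix' A :=
    LinearMap.toMatrix'_mul A A
  have h2 : LinearMap.trace k _ A = (LinearMap.toMatrix' A).trace := by
    rw [LinearMap.trace_eq_matrix_trace k (Pi.basisFun k (Fin 2)),
      LinearMap.toMatrix_eq_toMatrix']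
  have h3 : LinearMap.det A = (LinearMap.toMatrix' A).det := (LinearMap.det_toMatrix' A).symm
  rw [h1, map_sub, map_smul, map_smul, h2, h3]
  have h4 : LinearMap.toMatrix' (1 : (Fin 2 → k) →ₗ[k] (Fin 2 → k)) = 1 := LinearMap.toMatrix'_one
  rw [h4]
  generalize LinearMap.toMatrix' A = M
  rw [Matrix.trace_fin_two, Matrix.det_fin_two]
  ext i j
  fin_cases i <;> fin_cases j <;>
    simp [Matrix.mul_apply, Fin.sum_univ_two] <;> ring

theorem trace_pow (A : (Fin 2 → k) →ₗ[k] (Fin 2 → k)) : ∀ f : ℕ,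
    LinearMap.trace k _ (A ^ f) = tpow (LinearMap.trace k _ A) (LinearMap.det A) f
  | 0 => by
    rw [tpow, pow_zero, LinearMap.trace_one, finrank_fin_fun]
    norm_num
  | 1 => by rw [tpow, pow_one]
  | (f + 2) => by
    have h1 : A ^ (f + 2) = LinearMap.trace k _ A • A ^ (f + 1) - LinearMap.det A • A ^ f := by
      rw [pow_add, pow_two, cayley A, mul_sub, mul_smul_comm, mul_smul_comm, mul_one, ← pow_succ]
    rw [h1, map_sub, map_smul, map_smul, trace_pow A (f + 1), trace_pow A f, tpow, smul_eq_mul,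
      smul_eq_mul]

/-- the commutant of a matrix with distinct eigenvalues is commutative -/
theorem commutant (A B C : (Fin 2 → k) →ₗ[k] (Fin 2 → k))
    (hA : LinearMap.trace k _ A ^ 2 ≠ 4 * LinearMap.det A) (hB : A * B = B * A)
    (hC : A * C = C * A) : B * C = C * B := by
  have h2 : LinearMap.trace k _ A = (LinearMap.toMatrix' A).trace := by
    rw [LinearMap.trace_eq_matrix_trace k (Pi.basisFun k (Fin 2)),
      LinearMap.toMatrix_eq_toMatrix']
  have h3 : LinearMap.det A = (LinearMap.toMatrix' A).det := (LinearMap.det_toMatrix' A).symm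
  rw [h2, h3] at hA
  have hB' : LinearMap.toMatrix' A * LinearMap.toMatrix' B =
      LinearMap.toMatrix' B * LinearMap.toMatrix' A := by
    rw [← LinearMap.toMatrix'_mul, ← LinearMap.toMatrix'_mul, hB]
  have hC' : LinearMap.toMatrix' A * LinearMap.toMatrix' C =
      LinearMap.toMatrix' C * LinearMap.toMatrix' A := by
    rw [← LinearMap.toMatrix'_mul, ← LinearMap.toMatrix'_mul, hC]
  apply LinearMap.toMatrix'.injective
  rw [LinearMap.toMatrix'_mul, LinearMap.toMatrix'_mul]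
  generalize LinearMap.toMatrix' A = M at *
  generalize LinearMap.toMatrix' B = M₁ at *
  generalize LinearMap.toMatrix' C = M₂ at *
  rw [Matrix.trace_fin_two, Matrix.det_fin_two] at hA
  have hA' : (M 0 0 - M 1 1) ^ 2 + 4 * (M 0 1 * M 1 0) ≠ 0 := by
    intro h
    apply hA
    linear_combination h
  have b00 := congrFun (congrFun hB' 0) 0
  have b01 := congrFun (congrFun hB' 0) 1
  have b10 := congrFun (congrFun hB' 1) 0
  have c00 := congrFun (congrFun hC' 0) 0
  have c01 := congrFun (congrFun hC' 0) 1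
  have c10 := congrFun (congrFun hC' 1) 0
  simp only [Matrix.mul_apply, Fin.sum_univ_two] at b00 b01 b10 c00 c01 c10
  -- the relations say that the vectors are parallel
  have hb1 : M 0 1 * M₁ 1 0 = M 1 0 * M₁ 0 1 := by linear_combination b00
  have hb2 : M 0 1 * (M₁ 0 0 - M₁ 1 1) = (M 0 0 - M 1 1) * M₁ 0 1 := by linear_combination -b01
  have hb3 : M 1 0 * (M₁ 0 0 - M₁ 1 1) = (M 0 0 - M 1 1) * M₁ 1 0 := by linear_combination b10
  have hc1 : M 0 1 * M₂ 1 0 = M 1 0 * M₂ 0 1 := by linear_combination c00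
  have hc2 : M 0 1 * (M₂ 0 0 - M₂ 1 1) = (M 0 0 - M 1 1) * M₂ 0 1 := by linear_combination -c01
  have hc3 : M 1 0 * (M₂ 0 0 - M₂ 1 1) = (M 0 0 - M 1 1) * M₂ 1 0 := by linear_combination c10
  have k1 : M₁ 0 1 * M₂ 1 0 - M₁ 1 0 * M₂ 0 1 = 0 := by
    apply mul_left_cancel₀ hA'
    rw [mul_zero]
    linear_combination (M 0 0 - M 1 1) * (M₂ 0 1 * hb3 - M₂ 1 0 * hb2) +
      (M 0 0 - M 1 1) * 0 + 4 * M 1 0 * (M₁ 0 1 * hc1 - M₂ 0 1 * hb1) +
      (M₁ 0 0 - M₁ 1 1) * (M 0 0 - M 1 1) * hc1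
  have k2 : M₂ 0 1 * (M₁ 0 0 - M₁ 1 1) - M₁ 0 1 * (M₂ 0 0 - M₂ 1 1) = 0 := by
    apply mul_left_cancel₀ hA'
    rw [mul_zero]
    linear_combination (M 0 0 - M 1 1) * ((M₂ 0 0 - M₂ 1 1) * hb2 - (M₁ 0 0 - M₁ 1 1) * hc2) +
      4 * M 1 0 * (M₂ 0 1 * hb2 - M₁ 0 1 * hc2)
  have k3 : M₁ 1 0 * (M₂ 0 0 - M₂ 1 1) - M₂ 1 0 * (M₁ 0 0 - M₁ 1 1) = 0 := by
    apply mul_left_cancel₀ hA'
    rw [mul_zero]
    linear_combination (M 0 0 - M 1 1) * ((M₁ 0 0 - M₁ 1 1) * hc3 - (M₂ 0 0 - M₂ 1 1) * hb3) +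
      4 * M 0 1 * (M₁ 1 0 * hc3 - M₂ 1 0 * hb3)
  ext i j
  fin_cases i <;> fin_cases j <;> simp only [Matrix.mul_apply, Fin.sum_univ_two, Fin.zero_eta,
    Fin.mk_one]
  · linear_combination k1
  · linear_combination k2
  · linear_combination k3
  · linear_combination -k1

end dim2

end Pool.Agent.Q227.CD.Z
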