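import Pool.Agent.Q227.CD.Z3

/-!
# Descent of two-dimensional Galois representations
-/

set_option autoImplicit false
set_option linter.unusedSectionVars false

namespace Pool.Agent.Q227.CD.Z

open NumberField IsDedekindDomain Pool.Agent.W401.Cheb Pool.Agent.W401.Frob MulAction
open Representation Module Pool.Agent.Q15.GR Topology
open Pool.Agent.Q227.CD (rs rN EndComm Compat conjTo IsFrobPow isFrobPow_one isFrobPow_mul
  isFrobPow_conj exists_degree index_dvd_card open_of_ge finiteIndex_of_open inv' clifford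
  semi_of_mf multiset_eq')

section algebra

/-- the ratio of the roots of `X² - a X + c` is a root of unity of order dividing `m` which is not a
prime power -/
def Exceptional {k : Type} [Field k] (a c : k) (m : ℕ) : Prop :=
  ∃ ζ : AlgebraicClosure k, ζ ^ m = 1 ∧ (∀ q e : ℕ, q.Prime → ζ ^ q ^ e ≠ 1) ∧
    algebraMap k (AlgebraicClosure k) a ^ 2 = (2 + ζ + ζ⁻¹) * algebraMap k (AlgebraicClosure k) c

variable {F : Type} [Field F] [IsAlgClosed F]

theorem exists_roots (a c : F) : ∃ x y : F, x + y = a ∧ x * y = c := by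
  obtain ⟨x, hx⟩ := IsAlgClosed.exists_root (Polynomial.X ^ 2 - Polynomial.C a * Polynomial.X +
    Polynomial.C c : Polynomial F) (by
      have h2 : (Polynomial.X ^ 2 - Polynomial.C a * Polynomial.X + Polynomial.C c :
          Polynomial F).degree = 2 := by
        compute_degree!
      rw [h2]
      decide)
  refine ⟨x, a - x, by ring, ?_⟩
  have h1 : x ^ 2 - a * x + c = 0 := by
    simpa [Polynomial.IsRoot] using hx
  linear_combination -h1

omit [IsAlgClosed F] in
theorem pair_eq {x y x' y' : F} (h1 : x + y = x' + y') (h2 : x * y = x' * y') :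
    ({x, y} : Multiset F) = {x', y'} := by
  have h3 : (x - x') * (x - y') = 0 := by linear_combination x * h1 - h2
  rcases mul_eq_zero.1 h3 with h | h
  · have h4 : x = x' := sub_eq_zero.1 h
    have h5 : y = y' := by linear_combination h1 - h4
    rw [h4, h5]
  · have h4 : x = y' := sub_eq_zero.1 h
    have h5 : y = x' := by linear_combination h1 - h4
    rw [h4, h5, Multiset.pair_comm]

omit [IsAlgClosed F] in
theorem eq_one_of_dvd {z : F} (h : ∀ q : ℕ, q.Prime → ∃ d, ¬ q ∣ d ∧ z ^ d = 1) : z = 1 := by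
  rw [← orderOf_eq_one_iff]
  by_contra hne
  obtain ⟨q, hq, hqd⟩ := Nat.exists_prime_and_dvd hne
  obtain ⟨d, hd, hzd⟩ := h q hq
  exact hd (hqd.trans (orderOf_dvd_of_pow_eq_one hzd))

/-- the determinant -/
theorem det_eq {k : Type} [Field k] {c c' : k} (hc : c ≠ 0)
    (h : ∀ q : ℕ, q.Prime → ∃ d, ¬ q ∣ d ∧ c' ^ d = c ^ d) : c' = c := by
  have h1 : c' / c = 1 := eq_one_of_dvd (fun q hq => by
    obtain ⟨d, hd, hcd⟩ := h q hq
    exact ⟨d, hd, by rw [div_pow, hcd, div_self (pow_ne_zero _ hc)]⟩)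
  rwa [div_eq_one_iff_eq hc] at h1

/-- the trace -/
theorem trace_eq' {k : Type} [Field k] [CharZero k] {a a' c : k} (hc : c ≠ 0) {m : ℕ} (hm : 0 < m)
    (hex : ¬ Exceptional a c m)
    (h : ∀ q : ℕ, q.Prime → ∃ d, 0 < d ∧ d ∣ m ∧ ¬ q ∣ d ∧ tpow a' c d = tpow a c d) :
    a' = a := by
  let φ : k →+* AlgebraicClosure k := algebraMap k (AlgebraicClosure k)
  obtain ⟨x, y, h1, h2⟩ := exists_roots (φ a) (φ c)
  obtain ⟨x', y', h1', h2'⟩ := exists_roots (φ a') (φ c)
  have hc' : φ c ≠ 0 := (map_ne_zero φ).2 hc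
  have hx : x ≠ 0 := fun h0 => hc' (by rw [← h2, h0, zero_mul])
  have hy : y ≠ 0 := fun h0 => hc' (by rw [← h2, h0, mul_zero])
  have hrat : x ^ m = y ^ m → ∃ q e : ℕ, q.Prime ∧ x ^ q ^ e = y ^ q ^ e := by
    intro hxy
    by_contra hne
    apply hex
    refine ⟨x / y, by rw [div_pow, hxy, div_self (pow_ne_zero _ hy)], fun q e hq hqe => ?_, ?_⟩
    · apply hne
      refine ⟨q, e, hq, ?_⟩
      rw [div_pow, div_eq_one_iff_eq (pow_ne_zero _ hy)] at hqe
      exact hqe
    · change φ a ^ 2 = (2 + x / y + (x / y)⁻¹) * φ c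
      rw [← h1, ← h2]
      field_simp
      ring
  have hAB : ({x', y'} : Multiset (AlgebraicClosure k)) = {x, y} := by
    haveI : CharZero (AlgebraicClosure k) := charZero_of_injective_algebraMap φ.injective
    refine multiset_eq' 1 _ _ m hm ?_ ?_ (fun q hq _ => ?_)
    · simp [hx.symm, hy.symm]
    · intro u hu w hw huw
      simp only [Multiset.insert_eq_cons, Multiset.mem_cons, Multiset.mem_singleton] at hu hw
      rcases hu with rfl | rfl <;> rcases hw with rfl | rfl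
      · exact ⟨2, 0, Nat.prime_two, rfl⟩
      · exact hrat huw
      · obtain ⟨q, e, hq, hqe⟩ := hrat huw.symm
        exact ⟨q, e, hq, hqe.symm⟩
      · exact ⟨2, 0, Nat.prime_two, rfl⟩
    · obtain ⟨d, hd, hdm, hqd, ht⟩ := h q hq
      refine ⟨d, hd, hdm, hqd, ?_⟩
      simp only [Multiset.insert_eq_cons, Multiset.map_cons, Multiset.map_singleton]
      have h5 := congrArg φ ht
      rw [tpow_map, tpow_map, ← h1, ← h1'] at h5
      conv_lhs at h5 => rw [← h2']
      conv_rhs at h5 => rw [← h2]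
      rw [tpow_eq, tpow_eq] at h5
      refine pair_eq h5 ?_
      rw [← mul_pow, ← mul_pow, h2, h2']
  have h3 := congrArg Multiset.sum hAB
  simp only [Multiset.insert_eq_cons, Multiset.sum_cons, Multiset.sum_singleton] at h3
  rw [h1, h1'] at h3
  exact φ.injective h3

end algebra

variable {K : Type} [Field K] [NumberField K]
variable {k : Type} [Field k]

/-- the representation is attached to the data `a`, `c`: it is unramified outside `S`, and the
characteristic polynomial of Frobenius elements of degree `f` above `v` is that with the `f`-th powers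
of the roots of `X² - a v X + c v` -/
def Attached2 {U : Subgroup (GK K)} (ρ : Representation k U (Fin 2 → k))
    (S : Set (HeightOneSpectrum (𝓞 K))) (a c : HeightOneSpectrum (𝓞 K) → k) : Prop :=
  ∀ v ∉ S, (∀ σ : U, IsInert v (σ : GK K) → ρ σ = 1) ∧ ∀ (f : ℕ) (σ : U), 0 < f →
    IsFrobPow v f (σ : GK K) →
      LinearMap.trace k _ (ρ σ) = tpow (a v) (c v) f ∧ LinearMap.det (ρ σ) = c v ^ f

variable {ι : Type} {U : ι → Subgroup (GK K)} {S : Set (HeightOneSpectrum (𝓞 K))}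
  {a c : HeightOneSpectrum (𝓞 K) → k}
  {ρ : ∀ i, Representation k (U i) (Fin 2 → k)} {N : Subgroup (GK K)} [N.Normal]

theorem det_conj' (e : (Fin 2 → k) ≃ₗ[k] (Fin 2 → k)) (A : (Fin 2 → k) →ₗ[k] (Fin 2 → k)) :
    LinearMap.det (e.conj A) = LinearMap.det A := LinearMap.det_conj A e

theorem trace_conj' (e : (Fin 2 → k) ≃ₗ[k] (Fin 2 → k)) (A : (Fin 2 → k) →ₗ[k] (Fin 2 → k)) :
    LinearMap.trace k _ (e.conj A) = LinearMap.trace k _ A := LinearMap.trace_conj' A e

theorem det_ne_zero {G : Type} [Group G] (r : Representation k G (Fin 2 → k)) (g : G) :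
    LinearMap.det (r g) ≠ 0 := by
  intro h
  have h1 : LinearMap.det (r g) * LinearMap.det (r g⁻¹) = 1 := by
    rw [← map_mul, ← map_mul, mul_inv_cancel, map_one, map_one]
  rw [h, zero_mul] at h1
  exact zero_ne_one h1

/-- representations are multiplicity free over `L` if some Frobenius element has distinct
eigenvalues -/
theorem endComm_of {V : Subgroup (GK K)} (hNV : N ≤ V) (r : Representation k V (Fin 2 → k))
    (ν : N) (h : LinearMap.trace k _ (r ⟨ν, hNV ν.2⟩) ^ 2 ≠ 4 * LinearMap.det (r ⟨ν, hNV ν.2⟩)) :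
    EndComm (rs hNV r) := by
  intro A B hA hB
  exact commutant (r ⟨ν, hNV ν.2⟩) A B h (hA ν).symm (hB ν).symm

theorem semi_N {V : Subgroup (GK K)} (hNV : N ≤ V) (r : Representation k V (Fin 2 → k))
    (h : r.IsSemisimpleRepresentation) : (rs hNV r).IsSemisimpleRepresentation := by
  refine clifford r (Subgroup.inclusion hNV) (fun g ν => ?_) h
  exact ⟨⟨g * ν * (g : GK K)⁻¹, ‹N.Normal›.conj_mem ν ν.2 g⟩, Subtype.ext rfl⟩

/-- **descent for two-dimensional representations** -/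
theorem main2 [TopologicalSpace k] [IsTopologicalRing k] [T2Space k] [CharZero k] [Nonempty ι]
    (hS : S.Finite) (hN : IsOpen (N : Set (GK K))) (hNU : ∀ i, N ≤ U i)
    (hind : ∀ q : ℕ, q.Prime → ∃ i, ¬ q ∣ (U i).index)
    (hsp : ∃ v ∉ S, (∃ σ ∈ N, IsFrob v σ) ∧ a v ^ 2 ≠ 4 * c v)
    (hc : ∀ i, Cts (ρ i)) (hss : ∀ i, (ρ i).IsSemisimpleRepresentation)
    (hatt : ∀ i, Attached2 (ρ i) S a c) :
    ∃ R : Representation k (GK K) (Fin 2 → k), Cts R ∧ R.IsSemisimpleRepresentation ∧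
      (∀ i, Nonempty (Representation.Equiv (R.comp (U i).subtype :
        Representation k (U i) (Fin 2 → k)) (ρ i))) ∧
      (∀ R' : Representation k (GK K) (Fin 2 → k),
        (∀ i, Nonempty (Representation.Equiv (R'.comp (U i).subtype :
          Representation k (U i) (Fin 2 → k)) (ρ i))) → Nonempty (Representation.Equiv R' R)) ∧
      ∀ v ∉ S, (∀ σ, IsInert v σ → R σ = 1) ∧ ∀ σ, IsFrob v σ →
        LinearMap.det (R σ) = c v ∧
        (((∃ i, ∃ σ ∈ U i, IsFrob v σ) ∨ ¬ Exceptional (a v) (c v) N.index) →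
          LinearMap.trace k _ (R σ) = a v) := by
  have hUo : ∀ i, IsOpen (U i : Set (GK K)) := fun i => open_of_ge hN (hNU i)
  haveI : ∀ i, (U i).FiniteIndex := fun i => finiteIndex_of_open (hUo i)
  haveI : N.FiniteIndex := finiteIndex_of_open hN
  obtain ⟨v₀, hv₀, ⟨σ₀, hσ₀N, hσ₀⟩, hne⟩ := hsp
  have hmf : ∀ i, EndComm (rs (hNU i) (ρ i)) := by
    intro i
    refine endComm_of (hNU i) (ρ i) ⟨σ₀, hσ₀N⟩ ?_
    obtain ⟨h1, h2⟩ := (hatt i v₀ hv₀).2 1 ⟨σ₀, hNU i hσ₀N⟩ one_pos (isFrobPow_one.2 hσ₀)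
    rw [h1, h2, pow_one]
    exact hne
  obtain ⟨R, hRc, hRs, hRm, hR⟩ := main (a := a) hS hN hNU hind hc
    (fun i => semi_N (hNU i) (ρ i) (hss i)) hmf (fun i v hv σ hσ => by
      have h1 := ((hatt i v hv).2 1 σ one_pos (isFrobPow_one.2 hσ)).1
      exact h1)
  have hRss : R.IsSemisimpleRepresentation :=
    semi_of_mf R N.subtype (fun g ν => ⟨⟨g * ν * g⁻¹, ‹N.Normal›.conj_mem ν ν.2 g⟩, rfl⟩) hRs hRm
  refine ⟨R, hRc, hRss, hR, fun R' hR' => main_unique hNU hind hRm hR hR', fun v hv => ?_⟩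
  have hin : ∀ σ, IsInert v σ → R σ = 1 := fun σ hσ =>
    inertia_one hR (fun i v hv => (hatt i v hv).1) hind hv hσ
  refine ⟨hin, fun σ hσ => ?_⟩
  have hpow : ∀ q : ℕ, q.Prime → ∃ d, 0 < d ∧ d ∣ N.index ∧ ¬ q ∣ d ∧
      LinearMap.trace k _ (R σ ^ d) = tpow (a v) (c v) d ∧ LinearMap.det (R σ) ^ d = c v ^ d := by
    intro q hq
    obtain ⟨i, d, τ, e, hd, hdm, hqd, hτ, he⟩ := powers hR hNU hind hin hσ hq
    obtain ⟨h1, h2⟩ := (hatt i v hv).2 d τ hd hτ
    refine ⟨d, hd, hdm, hqd, ?_, ?_⟩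
    · rw [he, trace_conj', h1]
    · rw [← map_pow, he, det_conj', h2]
  have hc0 : c v ≠ 0 := by
    intro h0
    obtain ⟨d, hd, -, -, -, h2⟩ := hpow 2 Nat.prime_two
    rw [h0, zero_pow hd.ne'] at h2
    exact det_ne_zero R σ (pow_eq_zero_iff hd.ne' |>.1 h2)
  have hdet : LinearMap.det (R σ) = c v := det_eq hc0 (fun q hq => by
    obtain ⟨d, -, -, hqd, -, h2⟩ := hpow q hq
    exact ⟨d, hqd, h2⟩)
  refine ⟨hdet, ?_⟩
  rintro (⟨i, σ₁, hσ₁, hfr⟩ | hex)
  · obtain ⟨e, he⟩ := degree_one hR hin hfr hσ₁ hσ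
    rw [he, trace_conj']
    exact ((hatt i v hv).2 1 ⟨σ₁, hσ₁⟩ one_pos (isFrobPow_one.2 hfr)).1
  · refine trace_eq' hc0 (Nat.pos_of_ne_zero Subgroup.FiniteIndex.index_ne_zero) hex
      (fun q hq => ?_)
    obtain ⟨d, hd, hdm, hqd, h1, -⟩ := hpow q hq
    refine ⟨d, hd, hdm, hqd, ?_⟩
    rw [← h1, trace_pow, hdet]

end Pool.Agent.Q227.CD.Z
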