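import Pool.Agent.Q227.CD.Z4

/-!
# The exceptional places with a norm which is not a square are finite in number
-/

set_option autoImplicit false
set_option linter.unusedSectionVars false

namespace Pool.Agent.Q227.CD.Z

open NumberField IsDedekindDomain Module IntermediateField

section sqrt

theorem rat_sq_ne_prime {p : ℕ} (hp : p.Prime) (r : ℚ) : r ^ 2 ≠ p := by
  intro h
  have hr : r ≠ 0 := by
    rintro rfl
    rw [zero_pow two_ne_zero] at h
    exact hp.ne_zero (by exact_mod_cast h.symm)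
  haveI : Fact p.Prime := ⟨hp⟩
  have h1 := congrArg (padicValRat p) h
  rw [padicValRat.pow, padicValRat.self hp.one_lt] at h1
  push_cast at h1
  omega

theorem rat_sq_mul_ne {p q : ℕ} (hp : p.Prime) (hq : q.Prime) (hpq : p ≠ q) (r : ℚ) :
    r ^ 2 * p ≠ q := by
  intro h
  have hr : r ≠ 0 := by
    rintro rfl
    rw [zero_pow two_ne_zero, zero_mul] at h
    exact hq.ne_zero (by exact_mod_cast h.symm)
  haveI : Fact q.Prime := ⟨hq⟩
  have hp0 : (p : ℚ) ≠ 0 := by exact_mod_cast hp.ne_zero
  have h1 := congrArg (padicValRat q) h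
  have h2 : padicValRat q (p : ℚ) = 0 := by
    rw [padicValRat.of_nat]
    have : padicValNat q p = 0 := by
      apply padicValNat.eq_zero_of_not_dvd
      intro hd
      exact hpq ((Nat.prime_dvd_prime_iff_eq hq hp).1 hd).symm
    rw [this]
    rfl
  rw [padicValRat.mul (pow_ne_zero _ hr) hp0, padicValRat.pow, padicValRat.self hq.one_lt, h2]
    at h1
  push_cast at h1
  omega

variable {B : Type} [Field B] {F : Type} [Field F] [Algebra B F]

/-- elements of a quadratic field -/
theorem mem_quad {y : F} {p : ℕ} (hy : y ^ 2 = p) {z : F} (hz : z ∈ B⟮y⟯) :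
    ∃ a b : B, z = algebraMap B F a + algebraMap B F b * y := by
  have hint : IsIntegral B y := by
    refine IsIntegral.of_pow two_pos ?_
    rw [hy]
    have : (p : F) = algebraMap B F p := (map_natCast _ p).symm
    rw [this]
    exact isIntegral_algebraMap
  have h1 : z ∈ Algebra.adjoin B {y} := by
    rw [← adjoin_simple_toSubalgebra_of_isAlgebraic hint.isAlgebraic]
    exact hz
  rw [Algebra.adjoin_singleton_eq_range_aeval] at h1
  obtain ⟨P, hP⟩ := h1
  let Q : Polynomial B := Polynomial.X ^ 2 - Polynomial.C (p : B)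
  have hQ : Q.Monic := Polynomial.monic_X_pow_sub_C _ two_ne_zero
  have hQy : Polynomial.aeval y Q = 0 := by
    rw [map_sub, map_pow, Polynomial.aeval_X, Polynomial.aeval_C, hy, map_natCast, sub_self]
  have h2 : Polynomial.aeval y (P %ₘ Q) = z := by
    have h3 := congrArg (Polynomial.aeval y) (Polynomial.modByMonic_add_div P Q)
    rw [map_add, map_mul, hQy, zero_mul, add_zero] at h3
    rw [h3]
    exact hP
  have hdeg : (P %ₘ Q).natDegree < 2 := by
    have h3 : Q.natDegree = 2 := Polynomial.natDegree_X_pow_sub_C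
    rw [← h3]
    refine Polynomial.natDegree_modByMonic_lt P hQ ?_
    intro h4
    rw [h4, Polynomial.natDegree_one] at h3
    exact absurd h3 (by norm_num)
  refine ⟨(P %ₘ Q).coeff 0, (P %ₘ Q).coeff 1, ?_⟩
  rw [← h2, Polynomial.aeval_eq_sum_range' hdeg, Finset.sum_range_succ, Finset.sum_range_one,
    pow_zero, pow_one, Algebra.smul_def, Algebra.smul_def, mul_one]

/-- a finite extension of the rationals contains only finitely many square roots of prime
numbers -/
theorem finite_sqrt [CharZero B] (h1B : ∀ p : ℕ, p.Prime → ∀ r : B, r ^ 2 ≠ p)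
    (h2B : ∀ p q : ℕ, p.Prime → q.Prime → p ≠ q → ∀ r : B, r ^ 2 * p ≠ q) (M : IntermediateField B F) [FiniteDimensional B M] :
    {p : ℕ | p.Prime ∧ ∃ y ∈ M, y ^ 2 = (p : F)}.Finite := by
  classical
  haveI : Finite (IntermediateField B M) :=
    (Field.exists_primitive_element_iff_finite_intermediateField B M).1
      ⟨inferInstance, Field.exists_primitive_element B M⟩
  let P : Set ℕ := {p : ℕ | p.Prime ∧ ∃ y ∈ M, y ^ 2 = (p : F)}
  choose! y hyM hy using fun (p : ℕ) (hp : p ∈ P) => hp.2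
  let f : P → IntermediateField B M := fun p => B⟮(⟨y p.1, hyM p.1 p.2⟩ : M)⟯
  have hf : Function.Injective f := by
    rintro ⟨p, hp⟩ ⟨q, hq⟩ h
    by_contra hne
    have hpq : p ≠ q := fun h1 => hne (Subtype.ext h1)
    have h1 : (⟨y q, hyM q hq⟩ : M) ∈ f ⟨p, hp⟩ := by
      rw [h]
      exact mem_adjoin_simple_self B _
    have hyp : (⟨y p, hyM p hp⟩ : M) ^ 2 = ((p : ℕ) : M) := by
      apply Subtype.ext
      change y p ^ 2 = _
      rw [hy p hp]
      norm_cast
    obtain ⟨a, b, hab⟩ := mem_quad hyp h1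
    have h2 : y q = algebraMap B F a + algebraMap B F b * y p := congrArg Subtype.val hab
    have h3 : (q : F) = algebraMap B F a ^ 2 + algebraMap B F b ^ 2 * p +
        2 * algebraMap B F a * algebraMap B F b * y p := by
      rw [← hy q hq, h2, ← hy p hp]
      ring
    by_cases ha : a = 0
    · rw [ha, map_zero] at h3
      have h4 : algebraMap B F (b ^ 2 * p) = algebraMap B F q := by
        rw [map_mul, map_pow, map_natCast, map_natCast, h3]
        ring
      exact h2B p q hp.1 hq.1 hpq b ((algebraMap B F).injective h4)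
    by_cases hb : b = 0
    · rw [hb, map_zero] at h3
      have h4 : algebraMap B F (a ^ 2) = algebraMap B F q := by
        rw [map_pow, map_natCast, h3]
        ring
      exact h1B q hq.1 a ((algebraMap B F).injective h4)
    have h4 : y p = algebraMap B F ((q - a ^ 2 - b ^ 2 * p) / (2 * a * b)) := by
      have h5 : algebraMap B F (2 * a * b) ≠ 0 := by
        rw [Ne, map_eq_zero]
        exact mul_ne_zero (mul_ne_zero two_ne_zero ha) hb
      rw [map_div₀, eq_div_iff h5, map_sub, map_sub, map_mul, map_mul, map_mul, map_pow, map_pow,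
        map_natCast, map_natCast, map_ofNat, h3]
      ring
    have h5 : algebraMap B F (((q - a ^ 2 - b ^ 2 * p) / (2 * a * b)) ^ 2) = algebraMap B F p := by
      rw [map_pow, ← h4, hy p hp, map_natCast]
    exact h1B p hp.1 _ ((algebraMap B F).injective h5)
  haveI : Finite P := Finite.of_injective f hf
  exact Set.toFinite P

end sqrt

variable {k : Type} [Field k] [CharZero k]

/-- a number field which contains the square roots of all exceptional norms -/
theorem exists_field {B E : Type} [Field B] [Field E] [Algebra B E] [FiniteDimensional B E]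
    [Algebra B (AlgebraicClosure k)] (j : E →+* k) (ψ' : E →ₐ[B] AlgebraicClosure k)
    (hψ' : ∀ x, ψ' x = algebraMap k (AlgebraicClosure k) (j x)) {m h : ℕ} (hm : 0 < m)
    (hh : 0 < h) :
    ∃ M : IntermediateField B (AlgebraicClosure k), FiniteDimensional B M ∧
      ∀ (a b : E) (n : ℕ), b ^ h = 1 → Exceptional (j a) (j b * n) m →
        ∃ y ∈ M, y ^ 2 = (n : AlgebraicClosure k) := by
  classical
  let ψ : E →+* AlgebraicClosure k := (algebraMap k (AlgebraicClosure k)).comp j
  have hψψ : ∀ x, ψ' x = ψ x := hψ'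
  let μ : Set (AlgebraicClosure k) := {z | z ^ (2 * (m * h)) = 1}
  have hpos : 0 < 2 * (m * h) := by positivity
  have hμ : μ.Finite := by
    have h1 : μ ⊆ ↑((Polynomial.nthRoots (2 * (m * h)) (1 : AlgebraicClosure k)).toFinset) := by
      intro z hz
      rw [Finset.mem_coe, Multiset.mem_toFinset, Polynomial.mem_nthRoots hpos]
      exact hz
    exact Set.Finite.subset (Finset.finite_toSet _) h1
  haveI : Finite μ := hμ
  haveI : FiniteDimensional B (adjoin B μ) := finiteDimensional_adjoin (fun z hz => by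
    refine IsIntegral.of_pow hpos ?_
    have hz' : z ^ (2 * (m * h)) = 1 := hz
    rw [hz']
    exact isIntegral_one)
  haveI : FiniteDimensional B ψ'.fieldRange :=
    LinearEquiv.finiteDimensional (AlgEquiv.ofInjectiveField ψ').toLinearEquiv
  refine ⟨ψ'.fieldRange ⊔ adjoin B μ, inferInstance, fun a b n hb hex => ?_⟩
  obtain ⟨ζ, hζm, hζ, hζa⟩ := hex
  have hζ0 : ζ ≠ 0 := by
    rintro rfl
    rw [zero_pow hm.ne'] at hζm
    exact zero_ne_one hζm
  have hζ1 : 1 + ζ ≠ 0 := by
    intro h0
    have h1 : ζ = -1 := by linear_combination h0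
    apply hζ 2 1 Nat.prime_two
    rw [h1]
    norm_num
  have hψb : ψ b ^ h = 1 := by rw [← map_pow, hb, map_one]
  have hψb0 : ψ b ≠ 0 := by
    intro h0
    rw [h0, zero_pow hh.ne'] at hψb
    exact zero_ne_one hψb
  obtain ⟨w, hw⟩ := IsAlgClosed.exists_pow_nat_eq (ζ / ψ b) two_pos
  have hwμ : w ∈ μ := by
    change w ^ (2 * (m * h)) = 1
    rw [pow_mul, hw, div_pow, pow_mul, hζm, one_pow, mul_comm m h, pow_mul, hψb, one_pow, div_one]
  have hζμ : ζ ∈ μ := by
    change ζ ^ (2 * (m * h)) = 1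
    rw [mul_comm, mul_assoc, pow_mul, hζm, one_pow]
  have hle : adjoin B μ ≤ ψ'.fieldRange ⊔ adjoin B μ := le_sup_right
  have hle' : ψ'.fieldRange ≤ ψ'.fieldRange ⊔ adjoin B μ := le_sup_left
  have hwM : w ∈ ψ'.fieldRange ⊔ adjoin B μ := hle (subset_adjoin B μ hwμ)
  have hζM : ζ ∈ ψ'.fieldRange ⊔ adjoin B μ := hle (subset_adjoin B μ hζμ)
  have haM : ψ a ∈ ψ'.fieldRange ⊔ adjoin B μ := hle' ⟨a, hψψ a⟩
  refine ⟨ψ a * w / (1 + ζ), div_mem (mul_mem haM hwM) (add_mem (one_mem _) hζM), ?_⟩
  have h1 : ψ a ^ 2 = (2 + ζ + ζ⁻¹) * (ψ b * n) := by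
    refine hζa.trans ?_
    rw [map_mul, map_natCast]
    rfl
  rw [div_pow, mul_pow, hw, h1]
  field_simp
  ring

variable {K : Type} [Field K] [NumberField K]

/-- only finitely many places have a norm which is not a square but becomes a square in a given
number field -/
theorem finite_places {B F : Type} [Field B] [CharZero B] [Field F] [Algebra B F] [CharZero F]
    (h1B : ∀ p : ℕ, p.Prime → ∀ r : B, r ^ 2 ≠ p)
    (h2B : ∀ p q : ℕ, p.Prime → q.Prime → p ≠ q → ∀ r : B, r ^ 2 * p ≠ q)
    (M : IntermediateField B F) [FiniteDimensional B M] :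
    {v : HeightOneSpectrum (𝓞 K) | ¬ IsSquare (Ideal.absNorm v.asIdeal) ∧
      ∃ y ∈ M, y ^ 2 = ((Ideal.absNorm v.asIdeal : ℕ) : F)}.Finite := by
  classical
  let P : Set ℕ := {p : ℕ | p.Prime ∧ ∃ y ∈ M, y ^ 2 = (p : F)}
  have hP : P.Finite := finite_sqrt h1B h2B M
  have hfin : ∀ p ∈ P, {v : HeightOneSpectrum (𝓞 K) | v.asIdeal ∣ Ideal.span {(p : 𝓞 K)}}.Finite := by
    intro p hp
    refine Ideal.finite_factors ?_
    rw [Ne, Ideal.zero_eq_bot, Ideal.span_singleton_eq_bot]
    exact_mod_cast hp.1.ne_zero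
  refine (hP.biUnion hfin).subset ?_
  rintro v ⟨hsq, y, hyM, hy⟩
  haveI : v.asIdeal.IsMaximal := v.isMaximal
  letI : Field (𝓞 K ⧸ v.asIdeal) := Ideal.Quotient.field v.asIdeal
  haveI : Finite (𝓞 K ⧸ v.asIdeal) := Ideal.finiteQuotientOfFreeOfNeBot _ v.ne_bot
  letI : Fintype (𝓞 K ⧸ v.asIdeal) := Fintype.ofFinite _
  have hcard : Ideal.absNorm v.asIdeal = Fintype.card (𝓞 K ⧸ v.asIdeal) := by
    rw [Ideal.absNorm_apply, Submodule.cardQuot_apply, Nat.card_eq_fintype_card]
  have hpp : IsPrimePow (Ideal.absNorm v.asIdeal) := by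
    rw [hcard]
    exact FiniteField.isPrimePow_card _
  rw [isPrimePow_nat_iff] at hpp
  obtain ⟨p, f, hp, hf, hpf⟩ := hpp
  have hodd : Odd f := by
    rw [← Nat.not_even_iff_odd]
    rintro ⟨g, rfl⟩
    apply hsq
    rw [← hpf]
    exact ⟨p ^ g, by rw [pow_add]⟩
  obtain ⟨g, rfl⟩ := hodd
  have hp0 : (p : F) ≠ 0 := by exact_mod_cast hp.ne_zero
  have hpM : (p : F) ∈ M := by
    have : (p : F) = algebraMap B F p := (map_natCast _ p).symm
    rw [this]
    exact M.algebraMap_mem _
  have hpP : p ∈ P := by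
    refine ⟨hp, y / (p : F) ^ g, div_mem hyM (pow_mem hpM g), ?_⟩
    rw [div_pow, hy, ← hpf]
    push_cast
    rw [pow_add, pow_one, ← pow_mul, mul_comm g 2]
    field_simp
  refine Set.mem_biUnion hpP ?_
  change v.asIdeal ∣ Ideal.span {(p : 𝓞 K)}
  rw [Ideal.dvd_span_singleton]
  have h1 : ((Ideal.absNorm v.asIdeal : ℕ) : 𝓞 K) ∈ v.asIdeal := Ideal.absNorm_mem _
  rw [← hpf] at h1
  push_cast at h1
  exact v.isPrime.mem_of_pow_mem _ h1

/-- only finitely many exceptional places have a norm which is not a square -/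
theorem exceptional_finite {E : Type} [Field E] [NumberField E] (j : E →+* k) {m h : ℕ}
    (hm : 0 < m) (hh : 0 < h) (a b : HeightOneSpectrum (𝓞 K) → E)
    (S : Set (HeightOneSpectrum (𝓞 K))) (hb : ∀ v ∉ S, b v ^ h = 1) :
    {v : HeightOneSpectrum (𝓞 K) | v ∉ S ∧ ¬ IsSquare (Ideal.absNorm v.asIdeal) ∧
      Exceptional (j (a v)) (j (b v) * ((Ideal.absNorm v.asIdeal : ℕ) : k)) m}.Finite := by
  haveI : CharZero (AlgebraicClosure k) :=
    charZero_of_injective_algebraMap (algebraMap k (AlgebraicClosure k)).injective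
  obtain ⟨M, hM, h1⟩ := exists_field (B := ℚ) j
    ((algebraMap k (AlgebraicClosure k)).comp j).toRatAlgHom (fun _ => rfl) hm hh
  haveI := hM
  refine (finite_places (K := K) (fun p hp r => rat_sq_ne_prime hp r)
    (fun p q hp hq hpq r => rat_sq_mul_ne hp hq hpq r) M).subset ?_
  rintro v ⟨hv, hsq, hex⟩
  exact ⟨hsq, h1 (a v) (b v) _ (hb v hv) hex⟩

end Pool.Agent.Q227.CD.Z
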