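import Pool.Agent.Q227.CD.Z5

/-!
# Irreducibility and potential properties
-/

set_option autoImplicit false
set_option linter.unusedSectionVars false

namespace Pool.Agent.Q227.CD.Z

open NumberField IsDedekindDomain Pool.Agent.W401.Cheb Pool.Agent.W401.Frob MulAction
open Representation Module Pool.Agent.Q15.GR Topology

theorem irr_of_comp {k : Type} [Field k] {G H V : Type} [Group G] [AddCommGroup V] [Module k V]
    [Nontrivial V] [Group H] (ρ : Representation k G V) (φ : H →* G)
    (h : Representation.IsIrreducible (ρ.comp φ : Representation k H V)) : ρ.IsIrreducible := by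
  haveI := h
  refine { exists_pair_ne := ⟨⊥, ⊤, ?_⟩, eq_bot_or_eq_top := fun S => ?_ }
  · intro h1
    exact bot_ne_top (congrArg Subrepresentation.toSubmodule h1 : (⊥ : Submodule k V) = ⊤)
  · let S' : Subrepresentation (ρ.comp φ : Representation k H V) :=
      { toSubmodule := S.toSubmodule
        apply_mem_toSubmodule := fun g v hv => S.apply_mem_toSubmodule (φ g) hv }
    rcases eq_bot_or_eq_top S' with h1 | h1
    · left
      apply Subrepresentation.toSubmodule_injective
      have h2 : S'.toSubmodule = (⊥ : Submodule k V) := congrArg Subrepresentation.toSubmodule h1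
      exact h2
    · right
      apply Subrepresentation.toSubmodule_injective
      have h2 : S'.toSubmodule = (⊤ : Submodule k V) := congrArg Subrepresentation.toSubmodule h1
      exact h2

theorem irr_of_restr {K : Type} [Field K] [NumberField K] {k : Type} [Field k]
    {R : Representation k (GK K) (Fin 2 → k)} {U : Subgroup (GK K)}
    {ρ : Representation k U (Fin 2 → k)}
    (e : Nonempty (Representation.Equiv (R.comp U.subtype : Representation k U (Fin 2 → k)) ρ))
    (h : ρ.IsIrreducible) : R.IsIrreducible := by
  obtain ⟨e⟩ := e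
  exact irr_of_comp R U.subtype (irr_congr e.symm h)

theorem potential {K : Type} [Field K] [NumberField K] {k : Type} [Field k]
    {R : Representation k (GK K) (Fin 2 → k)} {U : Subgroup (GK K)}
    {ρ : Representation k U (Fin 2 → k)}
    (e : Nonempty (Representation.Equiv (R.comp U.subtype : Representation k U (Fin 2 → k)) ρ))
    (W : ∀ H : Subgroup (GK K), Representation k H (Fin 2 → k) → Prop)
    (hW : ∀ H r r', Nonempty (Representation.Equiv r r') → W H r → W H r')
    (H : Subgroup (GK K)) (hH : H ≤ U)
    (h : W H (ρ.comp (Subgroup.inclusion hH) : Representation k H (Fin 2 → k))) :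
    W H (R.comp H.subtype : Representation k H (Fin 2 → k)) := by
  obtain ⟨e⟩ := e
  refine hW H _ _ ⟨(Representation.Equiv.mk e.toLinearEquiv.symm (fun x => ?_))⟩ h
  refine LinearMap.ext fun v => ?_
  change e.toLinearEquiv.symm (ρ ⟨x, hH x.2⟩ v) = R x (e.toLinearEquiv.symm v)
  rw [LinearEquiv.symm_apply_eq]
  have h1 := LinearMap.congr_fun (e.toIntertwiningMap.isIntertwining' ⟨x, hH x.2⟩)
    (e.toLinearEquiv.symm v)
  change e.toLinearEquiv (R x (e.toLinearEquiv.symm v)) =
    ρ ⟨x, hH x.2⟩ (e.toLinearEquiv (e.toLinearEquiv.symm v)) at h1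
  rw [h1, LinearEquiv.apply_symm_apply]

end Pool.Agent.Q227.CD.Z
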